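import Pool.Agent.LibKG64.Defs

set_option autoImplicit false

/-! Task A1: projections. All statements follow from `Qᵀ = Q`, `Q i * Q j = Q (max i j)`:
`x ⬝ᵥ Q x = x ⬝ᵥ Q (Q x) = (Q x) ⬝ᵥ (Q x)` (`Matrix.dotProduct_mulVec`, `Matrix.vecMul_transpose`,
`Matrix.mulVec_mulVec`), `|x|² = |Q x|² + |x - Q x|²`. -/

open Finset Matrix

namespace Pool.Agent.LibKG64

variable {κ : Type*} [Fintype κ] [DecidableEq κ]

theorem sq_nonneg' (x : κ → ℝ) : 0 ≤ sq x :=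
  Finset.sum_nonneg fun j _ => mul_self_nonneg (x j)

theorem sq_eq (x : κ → ℝ) : sq x = ∑ j, x j ^ 2 :=
  Finset.sum_congr rfl fun j _ => (pow_two (x j)).symm

/-- Cauchy-Schwarz -/
theorem cs (x y : κ → ℝ) : (x ⬝ᵥ y) ^ 2 ≤ sq x * sq y := by
  rw [sq_eq, sq_eq]
  exact Finset.sum_mul_sq_le_sq_mul_sq _ _ _

/-- moving a symmetric matrix -/
theorem sym_dot (M : Matrix κ κ ℝ) (hM : Mᵀ = M) (x y : κ → ℝ) :
    x ⬝ᵥ M *ᵥ y = (M *ᵥ x) ⬝ᵥ y := by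
  rw [Matrix.dotProduct_mulVec]
  conv_lhs => rw [← hM, Matrix.vecMul_transpose]

theorem flag_dot {Q : ℕ → Matrix κ κ ℝ} (hQ : Flag Q) (i : ℕ) (x : κ → ℝ) :
    x ⬝ᵥ Q i *ᵥ x = sq (Q i *ᵥ x) := by
  have h : Q i *ᵥ (Q i *ᵥ x) = Q i *ᵥ x := by
    rw [Matrix.mulVec_mulVec, hQ.mul, max_self]
  rw [sq, ← sym_dot (Q i) (hQ.symm i), h]

theorem flag_le {Q : ℕ → Matrix κ κ ℝ} (hQ : Flag Q) (i : ℕ) (x : κ → ℝ) :
    x ⬝ᵥ Q i *ᵥ x ≤ sq x := by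
  have h0 := sq_nonneg' (x - Q i *ᵥ x)
  have h1 : sq (x - Q i *ᵥ x) = sq x - x ⬝ᵥ Q i *ᵥ x := by
    have h2 := flag_dot hQ i x
    rw [sq] at h2
    have h3 : (Q i *ᵥ x) ⬝ᵥ x = x ⬝ᵥ Q i *ᵥ x := dotProduct_comm _ _
    rw [sq, sub_dotProduct, dotProduct_sub, dotProduct_sub, h3, ← h2, sq]
    ring
  linarith

theorem flag_nonneg {Q : ℕ → Matrix κ κ ℝ} (hQ : Flag Q) (i : ℕ) (x : κ → ℝ) :
    0 ≤ x ⬝ᵥ Q i *ᵥ x := by
  rw [flag_dot hQ]; exact sq_nonneg' _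

theorem flag_anti {Q : ℕ → Matrix κ κ ℝ} (hQ : Flag Q) {i j : ℕ} (h : i ≤ j) (x : κ → ℝ) :
    x ⬝ᵥ Q j *ᵥ x ≤ x ⬝ᵥ Q i *ᵥ x := by
  have h1 : Q j *ᵥ x = Q j *ᵥ (Q i *ᵥ x) := by
    rw [Matrix.mulVec_mulVec, hQ.mul, max_eq_left h]
  rw [flag_dot hQ j, flag_dot hQ i, h1, ← flag_dot hQ j]
  exact flag_le hQ j _

/-- an entry of a projection is at most `1` -/
theorem flag_entry {Q : ℕ → Matrix κ κ ℝ} (hQ : Flag Q) (i : ℕ) (j j' : κ) :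
    |Q i j j'| ≤ 1 := by
  have h1 : sq (Q i *ᵥ Pi.single j' 1) ≤ 1 := by
    rw [← flag_dot hQ]
    refine (flag_le hQ i _).trans ?_
    rw [sq]
    simp
  have h2 : (Q i *ᵥ Pi.single j' 1) j = Q i j j' := by
    simp
  rw [sq_eq] at h1
  have h3 : Q i j j' ^ 2 ≤ 1 := by
    rw [← h2]
    refine le_trans ?_ h1
    exact Finset.single_le_sum (f := fun l => (Q i *ᵥ Pi.single j' 1) l ^ 2)
      (fun l _ => sq_nonneg _) (Finset.mem_univ j)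
  exact abs_le_one_iff_mul_self_le_one.2 (by rw [← pow_two]; exact h3)

/-- the rows of a projection have norm at most `1` -/
theorem flag_row {Q : ℕ → Matrix κ κ ℝ} (hQ : Flag Q) (i : ℕ) (j : κ) :
    ∑ j', Q i j j' ^ 2 ≤ 1 := by
  have h1 : sq (Q i *ᵥ Pi.single j 1) ≤ 1 := by
    rw [← flag_dot hQ]
    refine (flag_le hQ i _).trans ?_
    rw [sq]
    simp
  rw [sq_eq] at h1
  have h2 : ∀ j', (Q i *ᵥ Pi.single j 1) j' = Q i j j' := by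
    intro j'
    have h3 : Q i j j' = (Q i)ᵀ j' j := rfl
    rw [h3, hQ.symm]
    simp
  simpa only [h2] using h1

end Pool.Agent.LibKG64
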