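import Pool.Agent.LibKG64.A1

set_option autoImplicit false

/-! Task A2: the critical projections `crit Q k s = Q s - Q (s+k)`. -/

open Finset Matrix

namespace Pool.Agent.LibKG64

variable {κ : Type*} [Fintype κ] [DecidableEq κ]

theorem crit_symm {Q : ℕ → Matrix κ κ ℝ} (hQ : Flag Q) (k s : ℕ) :
    (crit Q k s)ᵀ = crit Q k s := by
  rw [crit, Matrix.transpose_sub, hQ.symm, hQ.symm]

theorem crit_mul {Q : ℕ → Matrix κ κ ℝ} (hQ : Flag Q) (k s : ℕ) :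
    crit Q k s * crit Q k s = crit Q k s := by
  rw [crit, Matrix.sub_mul, Matrix.mul_sub, Matrix.mul_sub, hQ.mul, hQ.mul, hQ.mul, hQ.mul,
    max_self, max_self, max_eq_right (Nat.le_add_right s k), max_eq_left (Nat.le_add_right s k)]
  abel

theorem crit_mul_Q {Q : ℕ → Matrix κ κ ℝ} (hQ : Flag Q) (k s : ℕ) :
    crit Q k s * Q (s + k) = 0 := by
  rw [crit, Matrix.sub_mul, hQ.mul, hQ.mul, max_self, max_eq_right (Nat.le_add_right s k), sub_self]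

theorem Q_mul_crit {Q : ℕ → Matrix κ κ ℝ} (hQ : Flag Q) (k s : ℕ) :
    Q (s + k) * crit Q k s = 0 := by
  rw [crit, Matrix.mul_sub, hQ.mul, hQ.mul, max_self, max_eq_left (Nat.le_add_right s k), sub_self]

theorem crit_dot {Q : ℕ → Matrix κ κ ℝ} (hQ : Flag Q) (k s : ℕ) (x : κ → ℝ) :
    x ⬝ᵥ crit Q k s *ᵥ x = sq (crit Q k s *ᵥ x) := by
  have h : crit Q k s *ᵥ (crit Q k s *ᵥ x) = crit Q k s *ᵥ x := by
    rw [Matrix.mulVec_mulVec, crit_mul hQ]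
  rw [sq, ← sym_dot (crit Q k s) (crit_symm hQ k s), h]

theorem crit_dot_eq (Q : ℕ → Matrix κ κ ℝ) (k s : ℕ) (x : κ → ℝ) :
    x ⬝ᵥ crit Q k s *ᵥ x = x ⬝ᵥ Q s *ᵥ x - x ⬝ᵥ Q (s + k) *ᵥ x := by
  rw [crit, Matrix.sub_mulVec, dotProduct_sub]

theorem crit_nonneg {Q : ℕ → Matrix κ κ ℝ} (hQ : Flag Q) (k s : ℕ) (x : κ → ℝ) :
    0 ≤ x ⬝ᵥ crit Q k s *ᵥ x := by
  rw [crit_dot hQ]; exact sq_nonneg' _

theorem crit_le {Q : ℕ → Matrix κ κ ℝ} (hQ : Flag Q) (k s : ℕ) (x : κ → ℝ) :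
    x ⬝ᵥ crit Q k s *ᵥ x ≤ sq x := by
  rw [crit_dot_eq]
  have h1 := flag_le hQ s x
  have h2 := flag_nonneg hQ (s + k) x
  linarith

/-- Cauchy-Schwarz for the form `crit` -/
theorem crit_cs {Q : ℕ → Matrix κ κ ℝ} (hQ : Flag Q) (k s : ℕ) (x y : κ → ℝ) :
    (x ⬝ᵥ crit Q k s *ᵥ y) ^ 2 ≤ (x ⬝ᵥ crit Q k s *ᵥ x) * (y ⬝ᵥ crit Q k s *ᵥ y) := by
  have h : x ⬝ᵥ crit Q k s *ᵥ y = (crit Q k s *ᵥ x) ⬝ᵥ (crit Q k s *ᵥ y) := by
    rw [← sym_dot (crit Q k s) (crit_symm hQ k s), Matrix.mulVec_mulVec, crit_mul hQ]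
  rw [h, crit_dot hQ, crit_dot hQ]
  exact cs _ _

/-- `(x + y) C (x + y) ≤ 2 x C x + 2 y C y` -/
theorem crit_add {Q : ℕ → Matrix κ κ ℝ} (hQ : Flag Q) (k s : ℕ) (x y : κ → ℝ) :
    (x + y) ⬝ᵥ crit Q k s *ᵥ (x + y)
      ≤ 2 * (x ⬝ᵥ crit Q k s *ᵥ x) + 2 * (y ⬝ᵥ crit Q k s *ᵥ y) := by
  have h := crit_nonneg hQ k s (x - y)
  have h1 : (x + y) ⬝ᵥ crit Q k s *ᵥ (x + y) + (x - y) ⬝ᵥ crit Q k s *ᵥ (x - y)
      = 2 * (x ⬝ᵥ crit Q k s *ᵥ x) + 2 * (y ⬝ᵥ crit Q k s *ᵥ y) := by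
    simp only [Matrix.mulVec_add, Matrix.mulVec_sub, dotProduct_add, dotProduct_sub,
      add_dotProduct, sub_dotProduct]
    ring
  linarith

/-- telescoping with lag `k`: a sequence with values in `[0, A]` -/
theorem lag_sum (k T : ℕ) (u : ℕ → ℝ) (A : ℝ) (h0 : ∀ s, 0 ≤ u s) (hA : ∀ s, u s ≤ A) :
    ∑ s ∈ range T, (u s - u (s + k)) ≤ k * A := by
  have h1 : ∑ s ∈ range T, (u s - u (s + k)) =
      ∑ s ∈ range k, u s - ∑ s ∈ range k, u (T + s) := by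
    rw [Finset.sum_sub_distrib]
    have e1 := Finset.sum_range_add u T k
    have e2 := Finset.sum_range_add u k T
    rw [add_comm T k] at e1
    have e3 : ∑ s ∈ range T, u (s + k) = ∑ s ∈ range T, u (k + s) :=
      Finset.sum_congr rfl fun s _ => by rw [add_comm]
    rw [e3]
    linarith
  have h2 : ∑ s ∈ range k, u s ≤ k * A := by
    calc ∑ s ∈ range k, u s ≤ ∑ s ∈ range k, A := Finset.sum_le_sum fun s _ => hA s
      _ = k * A := by simp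
  have h3 : 0 ≤ ∑ s ∈ range k, u (T + s) := Finset.sum_nonneg fun s _ => h0 _
  linarith

/-- every direction is critical at most `k` times -/
theorem crit_sum {Q : ℕ → Matrix κ κ ℝ} (hQ : Flag Q) (k T : ℕ) (x : κ → ℝ) :
    ∑ s ∈ range T, x ⬝ᵥ crit Q k s *ᵥ x ≤ k * sq x := by
  have h := lag_sum k T (fun s => x ⬝ᵥ Q s *ᵥ x) (sq x) (fun s => flag_nonneg hQ s x)
    (fun s => flag_le hQ s x)
  simpa only [crit_dot_eq] using h

end Pool.Agent.LibKG64
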