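import Pool.Agent.LibKG64.A1

set_option autoImplicit false

/-! Task AO: almost orthogonal vectors and the elementary symmetric bound. -/

open Finset Matrix

namespace Pool.Agent.LibKG64

variable {κ : Type*} [Fintype κ] [DecidableEq κ]

/-- Bessel for almost orthonormal vectors: `S = ∑ ⟨w_i,a⟩²`, `S = ⟨a, ∑ c_i w_i⟩ ≤ |a| |∑ c_i w_i|`,
`|∑ c_i w_i|² ≤ ∑ c_i² + ε (∑ |c_i|)² ≤ (1 + ε N) S`. -/
theorem bessel {α : Type*} (S : Finset α) (w : α → κ → ℝ) (ε : ℝ) (hε : 0 ≤ ε)
    (h1 : ∀ i ∈ S, sq (w i) ≤ 1) (h2 : ∀ i ∈ S, ∀ j ∈ S, i ≠ j → |w i ⬝ᵥ w j| ≤ ε)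
    (a : κ → ℝ) : ∑ i ∈ S, (w i ⬝ᵥ a) ^ 2 ≤ (1 + ε * S.card) * sq a := by
  classical
  set c : α → ℝ := fun i => w i ⬝ᵥ a with hc
  set S0 : ℝ := ∑ i ∈ S, (c i) ^ 2 with hS0
  set y : κ → ℝ := ∑ i ∈ S, c i • w i with hy
  have hS0n : 0 ≤ S0 := sum_nonneg (fun i _ => sq_nonneg _)
  have h3 : a ⬝ᵥ y = S0 := by
    rw [hy, dotProduct_sum, hS0]
    refine sum_congr rfl (fun i _ => ?_)
    rw [dotProduct_smul, dotProduct_comm a (w i)]
    simp only [hc, smul_eq_mul]
    ring
  have h4 : sq y ≤ (1 + ε * S.card) * S0 := by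
    have e1 : sq y = ∑ i ∈ S, ∑ j ∈ S, c i * c j * (w i ⬝ᵥ w j) := by
      unfold sq
      rw [hy, sum_dotProduct]
      refine sum_congr rfl (fun i _ => ?_)
      rw [dotProduct_sum]
      refine sum_congr rfl (fun j _ => ?_)
      rw [smul_dotProduct, dotProduct_smul]
      simp only [smul_eq_mul]
      ring
    have e2 : ∀ i ∈ S, ∀ j ∈ S, c i * c j * (w i ⬝ᵥ w j)
        ≤ (if i = j then (c i) ^ 2 else 0) + ε * (|c i| * |c j|) := by
      intro i hi j hj
      by_cases hij : i = j
      · subst hij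
        rw [if_pos rfl]
        have := h1 i hi
        have h5 : c i * c i * (w i ⬝ᵥ w i) ≤ c i ^ 2 := by
          have : w i ⬝ᵥ w i ≤ 1 := h1 i hi
          nlinarith [sq_nonneg (c i)]
        have h6 : 0 ≤ ε * (|c i| * |c i|) := by positivity
        linarith
      · rw [if_neg hij]
        have := h2 i hi j hj hij
        calc c i * c j * (w i ⬝ᵥ w j) ≤ |c i * c j * (w i ⬝ᵥ w j)| := le_abs_self _
          _ = |c i| * |c j| * |w i ⬝ᵥ w j| := by rw [abs_mul, abs_mul]
          _ ≤ |c i| * |c j| * ε := by gcongr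
          _ = 0 + ε * (|c i| * |c j|) := by ring
    have e3 : sq y ≤ ∑ i ∈ S, ∑ j ∈ S, ((if i = j then (c i) ^ 2 else 0) + ε * (|c i| * |c j|)) := by
      rw [e1]
      exact sum_le_sum (fun i hi => sum_le_sum (fun j hj => e2 i hi j hj))
    have e4 : ∑ i ∈ S, ∑ j ∈ S, ((if i = j then (c i) ^ 2 else 0) + ε * (|c i| * |c j|))
        = S0 + ε * (∑ i ∈ S, |c i|) ^ 2 := by
      simp only [sum_add_distrib]
      congr 1
      · rw [hS0]
        refine sum_congr rfl (fun i hi => ?_)
        rw [sum_ite_eq S i (fun _ => c i ^ 2), if_pos hi]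
      · rw [pow_two, sum_mul_sum, mul_sum]
        refine sum_congr rfl (fun i _ => ?_)
        rw [mul_sum]
    have e5 : (∑ i ∈ S, |c i|) ^ 2 ≤ S.card * S0 := by
      have := sq_sum_le_card_mul_sum_sq (s := S) (f := fun i => |c i|)
      refine this.trans (le_of_eq ?_)
      rw [hS0]
      simp only [sq_abs]
    calc sq y ≤ S0 + ε * (∑ i ∈ S, |c i|) ^ 2 := by rw [← e4]; exact e3
      _ ≤ S0 + ε * (S.card * S0) := by gcongr
      _ = (1 + ε * S.card) * S0 := by ring
  have h5 : S0 ^ 2 ≤ sq a * sq y := by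
    rw [← h3]; exact cs a y
  have han : 0 ≤ sq a := sq_nonneg' a
  show S0 ≤ _
  rcases eq_or_lt_of_le hS0n with h0 | h0
  · rw [← h0]; positivity
  · have h6 : S0 ^ 2 ≤ sq a * ((1 + ε * S.card) * S0) :=
      h5.trans (mul_le_mul_of_nonneg_left h4 han)
    have h7 : S0 * S0 ≤ ((1 + ε * S.card) * sq a) * S0 := by nlinarith
    exact le_of_mul_le_mul_right h7 h0

theorem esymm_insert {α : Type*} [DecidableEq α] (F : Finset α) (x : α) (hx : x ∉ F) (w : α → ℝ)
    (k : ℕ) : ∑ J ∈ (insert x F).powersetCard (k + 1), ∏ i ∈ J, w i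
      = ∑ J ∈ F.powersetCard (k + 1), ∏ i ∈ J, w i
        + w x * ∑ J ∈ F.powersetCard k, ∏ i ∈ J, w i := by
  rw [powersetCard_succ_insert hx, sum_union]
  · congr 1
    rw [sum_image, mul_sum]
    · refine sum_congr rfl (fun J hJ => ?_)
      rw [prod_insert]
      intro h
      exact hx ((mem_powersetCard.mp hJ).1 h)
    · intro J hJ J' hJ' h
      have h1 : x ∉ J := fun h' => hx ((mem_powersetCard.mp hJ).1 h')
      have h2 : x ∉ J' := fun h' => hx ((mem_powersetCard.mp hJ').1 h')
      have : (insert x J).erase x = (insert x J').erase x := by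
        rw [show insert x J = insert x J' from h]
      rwa [erase_insert h1, erase_insert h2] at this
  · rw [disjoint_left]
    intro J hJ hJ'
    obtain ⟨J0, hJ0, rfl⟩ := mem_image.mp hJ'
    exact hx ((mem_powersetCard.mp hJ).1 (mem_insert_self x J0))

theorem pow_succ_le_aux (a b : ℝ) (hb : 0 ≤ b) (hab : b ≤ a) (m : ℕ) :
    a ^ (m + 1) ≤ b ^ (m + 1) + (m + 1) * (a - b) * a ^ m := by
  induction m with
  | zero => simp
  | succ m ih =>
    have ha : 0 ≤ a := hb.trans hab
    have h1 : b * b ^ (m + 1) ≤ a * b ^ (m + 1) := by gcongr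
    have h2 : b ^ (m + 1) ≤ a ^ (m + 1) := by gcongr
    have h3 : a * a ^ (m + 1) ≤ a * (b ^ (m + 1) + (m + 1) * (a - b) * a ^ m) := by gcongr
    have h4 : (a - b) * b ^ (m + 1) ≤ (a - b) * a ^ (m + 1) := by
      apply mul_le_mul_of_nonneg_left h2; linarith
    push_cast
    calc a ^ (m + 1 + 1) = a * a ^ (m + 1) := by ring
      _ ≤ a * (b ^ (m + 1) + (m + 1) * (a - b) * a ^ m) := h3
      _ = b * b ^ (m + 1) + (a - b) * b ^ (m + 1) + (m + 1) * (a - b) * a ^ (m + 1) := by ring
      _ ≤ b * b ^ (m + 1) + (a - b) * a ^ (m + 1) + (m + 1) * (a - b) * a ^ (m + 1) := by linarith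
      _ = b ^ (m + 1 + 1) + (m + 1 + 1) * (a - b) * a ^ (m + 1) := by ring

theorem esymm_ge_aux {α : Type*} [DecidableEq α] (M : ℝ) (F : Finset α) (w : α → ℝ)
    (hw : ∀ i ∈ F, 0 ≤ w i) (hM : ∀ i ∈ F, w i ≤ M) (hM0 : 0 ≤ M) : ∀ m : ℕ,
    (max (∑ i ∈ F, w i - m * M) 0) ^ m / (m.factorial : ℝ)
      ≤ ∑ J ∈ F.powersetCard m, ∏ i ∈ J, w i := by
  induction F using Finset.induction_on with
  | empty =>
    intro m
    cases m with
    | zero => simp
    | succ m =>
      rw [powersetCard_eq_empty.mpr (by simp)]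
      have : max (∑ i ∈ (∅ : Finset α), w i - ((m + 1 : ℕ) : ℝ) * M) 0 = 0 := by
        apply max_eq_right
        rw [sum_empty]
        have : 0 ≤ ((m + 1 : ℕ) : ℝ) * M := by positivity
        linarith
      rw [this]
      simp
  | insert x F hx ih =>
    have hw' : ∀ i ∈ F, 0 ≤ w i := fun i hi => hw i (mem_insert_of_mem hi)
    have hM' : ∀ i ∈ F, w i ≤ M := fun i hi => hM i (mem_insert_of_mem hi)
    have ih' := ih hw' hM'
    intro m
    cases m with
    | zero => simp
    | succ m =>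
      rw [esymm_insert F x hx, sum_insert hx]
      set S := ∑ i ∈ F, w i with hS
      have hwx : 0 ≤ w x := hw x (mem_insert_self _ _)
      have hwM : w x ≤ M := hM x (mem_insert_self _ _)
      set a := max (w x + S - ((m + 1 : ℕ) : ℝ) * M) 0 with ha
      set b := max (S - ((m + 1 : ℕ) : ℝ) * M) 0 with hb
      have hb0 : 0 ≤ b := le_max_right _ _
      have hab : b ≤ a := by
        rw [ha, hb]
        apply max_le_max_right
        linarith
      have hab' : a - b ≤ w x := by
        have : a ≤ w x + b := by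
          rw [ha]
          apply max_le
          · have : S - ((m + 1 : ℕ) : ℝ) * M ≤ b := le_max_left _ _
            linarith
          · linarith
        linarith
      have ha' : a ≤ max (S - (m : ℝ) * M) 0 := by
        rw [ha]
        apply max_le_max_right
        push_cast
        linarith
      have h1 := ih' (m + 1)
      have h2 := ih' m
      have h3 := pow_succ_le_aux a b hb0 hab m
      have hf : (0 : ℝ) < (m.factorial : ℝ) := by exact_mod_cast Nat.factorial_pos m
      have hf' : ((m + 1).factorial : ℝ) = (m + 1) * (m.factorial : ℝ) := by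
        rw [Nat.factorial_succ]; push_cast; ring
      have ha0 : 0 ≤ a := hb0.trans hab
      have h4 : a ^ m ≤ (max (S - (m : ℝ) * M) 0) ^ m := by gcongr
      have h5 : (a - b) * a ^ m ≤ w x * (max (S - (m : ℝ) * M) 0) ^ m := by
        apply mul_le_mul hab' h4 (by positivity) hwx
      calc a ^ (m + 1) / ((m + 1).factorial : ℝ)
          ≤ (b ^ (m + 1) + (m + 1) * (w x * (max (S - (m : ℝ) * M) 0) ^ m))
              / ((m + 1).factorial : ℝ) := by
            gcongr
            refine h3.trans ?_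
            have : (0 : ℝ) ≤ (m : ℝ) + 1 := by positivity
            nlinarith
        _ = b ^ (m + 1) / ((m + 1).factorial : ℝ)
              + w x * ((max (S - (m : ℝ) * M) 0) ^ m / (m.factorial : ℝ)) := by
            rw [hf']
            field_simp
        _ ≤ _ := by
            gcongr

/-- if `∑_{j ∈ F} w_j ≥ t` and `2 k w_j ≤ t`, then the `k`-th elementary symmetric sum is at least `(t/2)^k/k!`:
induction, choosing the elements one after the other -/
theorem esymm_ge {α : Type*} [DecidableEq α] (F : Finset α) (w : α → ℝ) (hw : ∀ i ∈ F, 0 ≤ w i)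
    (t : ℝ) (ht : 0 ≤ t) (k : ℕ) (hk : ∀ i ∈ F, 2 * k * w i ≤ t) (hs : t ≤ ∑ i ∈ F, w i) :
    (t / 2) ^ k / (k.factorial : ℝ) ≤ ∑ J ∈ F.powersetCard k, ∏ i ∈ J, w i := by
  rcases Nat.eq_zero_or_pos k with h0 | h0
  · subst h0; simp
  have hk0 : (0 : ℝ) < k := by exact_mod_cast h0
  have h := esymm_ge_aux (t / (2 * k)) F w hw (fun i hi => by
    rw [le_div_iff₀ (by positivity)]
    have := hk i hi
    linarith) (by positivity) k
  refine le_trans ?_ h
  have h1 : t / 2 ≤ max (∑ i ∈ F, w i - (k : ℝ) * (t / (2 * k))) 0 := by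
    refine le_trans ?_ (le_max_left _ _)
    have : (k : ℝ) * (t / (2 * k)) = t / 2 := by field_simp
    rw [this]
    linarith
  gcongr

theorem esymm_le {α : Type*} [DecidableEq α] (F : Finset α) (w : α → ℝ) (hw : ∀ i ∈ F, 0 ≤ w i)
    (k : ℕ) : ∑ J ∈ F.powersetCard k, ∏ i ∈ J, w i
      ≤ (∑ i ∈ F, w i) ^ k / (k.factorial : ℝ) := by
  revert k
  induction F using Finset.induction_on with
  | empty =>
    intro k
    cases k with
    | zero => simp
    | succ m =>
      rw [powersetCard_eq_empty.mpr (by simp)]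
      simp
  | insert x F hx ih =>
    have hw' : ∀ i ∈ F, 0 ≤ w i := fun i hi => hw i (mem_insert_of_mem hi)
    have ih' := ih hw'
    intro k
    cases k with
    | zero => simp
    | succ m =>
      rw [esymm_insert F x hx, sum_insert hx]
      set S := ∑ i ∈ F, w i with hS
      have hS0 : 0 ≤ S := sum_nonneg hw'
      have hwx : 0 ≤ w x := hw x (mem_insert_self _ _)
      have h1 := ih' (m + 1)
      have h2 := ih' m
      have hf : (0 : ℝ) < (m.factorial : ℝ) := by exact_mod_cast Nat.factorial_pos m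
      have hf' : ((m + 1).factorial : ℝ) = (m + 1) * (m.factorial : ℝ) := by
        rw [Nat.factorial_succ]; push_cast; ring
      have h3 : S ^ (m + 1) + (m + 1) * (w x * S ^ m) ≤ (w x + S) ^ (m + 1) := by
        clear h1 h2 hf hf' ih ih'
        clear_value S
        induction m with
        | zero => simp; linarith
        | succ m ih2 =>
          have e1 : S ^ m ≤ (w x + S) ^ m := by gcongr; linarith
          have e2 : S * S ^ m ≤ (w x + S) * (w x + S) ^ m := by gcongr; linarith
          push_cast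
          have e3 : (w x + S) * (S ^ (m + 1) + (m + 1) * (w x * S ^ m)) ≤ (w x + S) * (w x + S) ^ (m + 1) := by
            gcongr
          have e4 : 0 ≤ (w x) ^ 2 * S ^ m := by positivity
          calc S ^ (m + 1 + 1) + (m + 1 + 1) * (w x * S ^ (m + 1))
              ≤ (w x + S) * (S ^ (m + 1) + (m + 1) * (w x * S ^ m)) := by
                have : (w x + S) * (S ^ (m + 1) + (m + 1) * (w x * S ^ m))
                  = S ^ (m + 1 + 1) + (m + 1 + 1) * (w x * S ^ (m + 1)) + (m + 1) * ((w x) ^ 2 * S ^ m) := by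
                  ring
                rw [this]
                have : (0 : ℝ) ≤ (m + 1) * ((w x) ^ 2 * S ^ m) := by positivity
                linarith
            _ ≤ (w x + S) * (w x + S) ^ (m + 1) := e3
            _ = (w x + S) ^ (m + 1 + 1) := by ring
      calc _ ≤ S ^ (m + 1) / ((m + 1).factorial : ℝ) + w x * (S ^ m / (m.factorial : ℝ)) := by
            gcongr
        _ = (S ^ (m + 1) + (m + 1) * (w x * S ^ m)) / ((m + 1).factorial : ℝ) := by
            rw [hf']; field_simp
        _ ≤ _ := by gcongr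

end Pool.Agent.LibKG64
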