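import Pool.Agent.LibKG64.A2

set_option autoImplicit false

/-! Task B1: restriction and the regularised Gram matrix, `P` symmetric with `0 ≤ x·Px ≤ |x|²`. -/

open Finset Matrix

namespace Pool.Agent.LibKG64

variable {κ : Type*} [Fintype κ] [DecidableEq κ]

theorem ind_mulVec (F : Finset κ) (x : κ → ℝ) : ind F *ᵥ x = res F x := by
  funext j
  rw [ind, Matrix.mulVec_diagonal, res]
  split_ifs <;> simp

theorem ind_transpose (F : Finset κ) : (ind F)ᵀ = ind F := by
  rw [ind, Matrix.diagonal_transpose]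

theorem res_res (F : Finset κ) (x : κ → ℝ) : res F (res F x) = res F x := by
  funext j
  by_cases h : j ∈ F <;> simp [res, h]

theorem res_res_of_subset {F F' : Finset κ} (h : F ⊆ F') (x : κ → ℝ) :
    res F' (res F x) = res F x := by
  funext j
  by_cases h1 : j ∈ F
  · simp [res, h1, h h1]
  · simp [res, h1]

theorem res_dot (F : Finset κ) (x y : κ → ℝ) : res F x ⬝ᵥ y = x ⬝ᵥ res F y := by
  simp only [dotProduct, res]
  refine Finset.sum_congr rfl fun j _ => ?_
  split_ifs <;> simp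

theorem res_dot_res (F : Finset κ) (x y : κ → ℝ) : res F x ⬝ᵥ res F y = res F x ⬝ᵥ y := by
  rw [← res_dot, res_res]

theorem sq_res_le (F : Finset κ) (x : κ → ℝ) : sq (res F x) ≤ sq x := by
  rw [sq_eq, sq_eq]
  refine Finset.sum_le_sum fun j _ => ?_
  simp only [res]
  split_ifs
  · exact le_refl _
  · have := sq_nonneg (x j)
    simpa using this

theorem res_add (F : Finset κ) (x y : κ → ℝ) : res F (x + y) = res F x + res F y := by
  funext j
  by_cases h : j ∈ F <;> simp [res, h]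

theorem res_sub (F : Finset κ) (x y : κ → ℝ) : res F (x - y) = res F x - res F y := by
  funext j
  by_cases h : j ∈ F <;> simp [res, h]

theorem res_smul (F : Finset κ) (c : ℝ) (x : κ → ℝ) : res F (c • x) = c • res F x := by
  funext j
  by_cases h : j ∈ F <;> simp [res, h]

/-- `That x = I_F P I_F x + t x` -/
theorem That_mulVec (P : Matrix κ κ ℝ) (F : Finset κ) (t : ℝ) (x : κ → ℝ) :
    That P F t *ᵥ x = res F (P *ᵥ res F x) + t • x := by
  rw [That, Matrix.add_mulVec, Matrix.smul_mulVec, Matrix.one_mulVec, ← Matrix.mulVec_mulVec,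
    ← Matrix.mulVec_mulVec, ind_mulVec, ind_mulVec]

theorem That_symm (P : Matrix κ κ ℝ) (hP : Pᵀ = P) (F : Finset κ) (t : ℝ) :
    (That P F t)ᵀ = That P F t := by
  rw [That, Matrix.transpose_add, Matrix.transpose_smul, Matrix.transpose_one,
    Matrix.transpose_mul, Matrix.transpose_mul, ind_transpose, hP, Matrix.mul_assoc]

theorem That_dot (P : Matrix κ κ ℝ) (F : Finset κ) (t : ℝ) (x : κ → ℝ) :
    x ⬝ᵥ That P F t *ᵥ x = res F x ⬝ᵥ P *ᵥ res F x + t * sq x := by
  rw [That_mulVec, dotProduct_add, dotProduct_smul, ← res_dot, sq, smul_eq_mul]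

/-- lower bound -/
theorem That_ge (P : Matrix κ κ ℝ) (hP : ∀ x, 0 ≤ x ⬝ᵥ P *ᵥ x) (F : Finset κ) (t : ℝ)
    (x : κ → ℝ) : t * sq x ≤ x ⬝ᵥ That P F t *ᵥ x := by
  rw [That_dot]
  have := hP (res F x)
  linarith

/-- the matrix is invertible (injective: `That_ge`; `Matrix.isUnit_of_...` or
`Matrix.mulVec_injective_iff_isUnit`) -/
theorem That_det (P : Matrix κ κ ℝ) (hP : ∀ x, 0 ≤ x ⬝ᵥ P *ᵥ x) (F : Finset κ) {t : ℝ}
    (ht : 0 < t) : IsUnit (That P F t).det := by
  rw [← Matrix.isUnit_iff_isUnit_det, ← Matrix.mulVec_injective_iff_isUnit]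
  intro x y hxy
  have h1 : That P F t *ᵥ (x - y) = 0 := by
    rw [Matrix.mulVec_sub]
    exact sub_eq_zero.2 hxy
  have h2 := That_ge P hP F t (x - y)
  rw [h1, dotProduct_zero] at h2
  have h3 : sq (x - y) ≤ 0 := by
    by_contra h
    push Not at h
    have := mul_pos ht h
    linarith
  have h4 : sq (x - y) = 0 := le_antisymm h3 (sq_nonneg' _)
  rw [sq, dotProduct_self_eq_zero] at h4
  exact sub_eq_zero.1 h4

theorem That_inv_mulVec (P : Matrix κ κ ℝ) (hP : ∀ x, 0 ≤ x ⬝ᵥ P *ᵥ x) (F : Finset κ) {t : ℝ}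
    (ht : 0 < t) (x : κ → ℝ) : That P F t *ᵥ ((That P F t)⁻¹ *ᵥ x) = x := by
  rw [Matrix.mulVec_mulVec, Matrix.mul_nonsing_inv _ (That_det P hP F ht), Matrix.one_mulVec]

theorem That_inv_symm (P : Matrix κ κ ℝ) (hP : Pᵀ = P) (F : Finset κ) (t : ℝ) :
    ((That P F t)⁻¹)ᵀ = (That P F t)⁻¹ := by
  rw [Matrix.transpose_nonsing_inv, That_symm P hP]

/-- the inverse preserves the vectors supported in `F` -/
theorem That_inv_res (P : Matrix κ κ ℝ) (hP : ∀ x, 0 ≤ x ⬝ᵥ P *ᵥ x) (F : Finset κ) {t : ℝ}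
    (ht : 0 < t) (x : κ → ℝ) (hx : res F x = x) :
    res F ((That P F t)⁻¹ *ᵥ x) = (That P F t)⁻¹ *ᵥ x := by
  set z := (That P F t)⁻¹ *ᵥ x with hz
  have h1 : That P F t *ᵥ z = x := That_inv_mulVec P hP F ht x
  rw [That_mulVec] at h1
  have h2 := congrArg (res F) h1
  rw [res_add, res_res, res_smul, hx] at h2
  have h3 : t • res F z = t • z := by
    have h4 := h2.trans h1.symm
    exact add_left_cancel h4
  exact smul_right_injective _ ht.ne' h3

end Pool.Agent.LibKG64
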