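import Pool.Agent.LibKG64.B1

set_option autoImplicit false

/-! Task B2: inequalities for the inverse of the regularised Gram matrix. Everything follows from the duality
`y·T⁻¹y = max_z (2 z·y - z·T z)`: `(z - T⁻¹y)·T(z - T⁻¹y) ≥ 0`. -/

open Finset Matrix

namespace Pool.Agent.LibKG64

variable {κ : Type*} [Fintype κ] [DecidableEq κ]

theorem dual_le (P : Matrix κ κ ℝ) (hs : Pᵀ = P) (hP : ∀ x, 0 ≤ x ⬝ᵥ P *ᵥ x) (F : Finset κ)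
    {t : ℝ} (ht : 0 < t) (y z : κ → ℝ) :
    2 * (z ⬝ᵥ y) - z ⬝ᵥ That P F t *ᵥ z ≤ y ⬝ᵥ (That P F t)⁻¹ *ᵥ y := by
  set w := (That P F t)⁻¹ *ᵥ y with hw
  have h1 : That P F t *ᵥ w = y := That_inv_mulVec P hP F ht y
  have h2 : 0 ≤ (z - w) ⬝ᵥ That P F t *ᵥ (z - w) :=
    le_trans (mul_nonneg ht.le (sq_nonneg' _)) (That_ge P hP F t (z - w))
  have h3 : w ⬝ᵥ That P F t *ᵥ z = y ⬝ᵥ z := by
    rw [sym_dot _ (That_symm P hs F t), h1]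
  rw [Matrix.mulVec_sub, dotProduct_sub, sub_dotProduct, sub_dotProduct, h1, h3,
    dotProduct_comm w y, dotProduct_comm y z] at h2
  linarith

theorem dual_eq (P : Matrix κ κ ℝ) (hs : Pᵀ = P) (hP : ∀ x, 0 ≤ x ⬝ᵥ P *ᵥ x) (F : Finset κ)
    {t : ℝ} (ht : 0 < t) (y : κ → ℝ) :
    ((That P F t)⁻¹ *ᵥ y) ⬝ᵥ That P F t *ᵥ ((That P F t)⁻¹ *ᵥ y)
      = y ⬝ᵥ (That P F t)⁻¹ *ᵥ y := by
  rw [That_inv_mulVec P hP F ht, dotProduct_comm]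

theorem inv_nonneg (P : Matrix κ κ ℝ) (hs : Pᵀ = P) (hP : ∀ x, 0 ≤ x ⬝ᵥ P *ᵥ x)
    (F : Finset κ) {t : ℝ} (ht : 0 < t) (y : κ → ℝ) :
    0 ≤ y ⬝ᵥ (That P F t)⁻¹ *ᵥ y := by
  rw [← dual_eq P hs hP F ht y]
  exact le_trans (mul_nonneg ht.le (sq_nonneg' _)) (That_ge P hP F t _)

theorem inv_sq_le (P : Matrix κ κ ℝ) (hs : Pᵀ = P) (hP : ∀ x, 0 ≤ x ⬝ᵥ P *ᵥ x)
    (F : Finset κ) {t : ℝ} (ht : 0 < t) (y : κ → ℝ) :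
    t * sq ((That P F t)⁻¹ *ᵥ y) ≤ y ⬝ᵥ (That P F t)⁻¹ *ᵥ y := by
  rw [← dual_eq P hs hP F ht y]
  exact That_ge P hP F t _

theorem inv_le (P : Matrix κ κ ℝ) (hs : Pᵀ = P) (hP : ∀ x, 0 ≤ x ⬝ᵥ P *ᵥ x)
    (F : Finset κ) {t : ℝ} (ht : 0 < t) (y : κ → ℝ) :
    y ⬝ᵥ (That P F t)⁻¹ *ᵥ y ≤ sq y / t := by
  set w := (That P F t)⁻¹ *ᵥ y with hw
  have h1 : t * sq w ≤ y ⬝ᵥ w := inv_sq_le P hs hP F ht y
  have h2 := cs y w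
  have h3 : 0 ≤ y ⬝ᵥ w := inv_nonneg P hs hP F ht y
  rw [le_div_iff₀ ht]
  rcases h3.eq_or_lt with h4 | h4
  · rw [← h4, zero_mul]; exact sq_nonneg' y
  · have h5 : (y ⬝ᵥ w) * ((y ⬝ᵥ w) * t) ≤ (y ⬝ᵥ w) * sq y := by
      have h6 := mul_le_mul_of_nonneg_left h1 (sq_nonneg' y)
      have h7 := mul_le_mul_of_nonneg_right h2 ht.le
      nlinarith
    exact le_of_mul_le_mul_left h5 h4

/-- monotone in the set of rows -/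
theorem inv_mono_F (P : Matrix κ κ ℝ) (hs : Pᵀ = P) (hP : ∀ x, 0 ≤ x ⬝ᵥ P *ᵥ x)
    {F F' : Finset κ} (hF : F ⊆ F') {t : ℝ} (ht : 0 < t) (y : κ → ℝ) :
    res F y ⬝ᵥ (That P F t)⁻¹ *ᵥ res F y ≤ res F' y ⬝ᵥ (That P F' t)⁻¹ *ᵥ res F' y := by
  set z := (That P F t)⁻¹ *ᵥ res F y with hz
  have hzF : res F z = z := That_inv_res P hP F ht _ (res_res F y)
  have hzF' : res F' z = z := by rw [← hzF]; exact res_res_of_subset hF z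
  have h1 := dual_le P hs hP F' ht (res F' y) z
  have h2 := dual_eq P hs hP F ht (res F y)
  rw [← hz] at h2
  have h3 : z ⬝ᵥ That P F' t *ᵥ z = z ⬝ᵥ That P F t *ᵥ z := by
    rw [That_dot, That_dot, hzF, hzF']
  have h4 : z ⬝ᵥ res F' y = res F y ⬝ᵥ z := by
    rw [← res_dot, hzF', dotProduct_comm, res_dot, hzF]
  rw [h3, h2, h4] at h1
  linarith

/-- monotone in `P`: if `P' ≤ P` and `θ` is any vector, then `(I_F P'θ)·T⁻¹(I_F P'θ) ≤ θ·P'θ`; here `P'` is symmetric and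
`0 ≤ x·P'x ≤ x·Px`. Take `z = T⁻¹(I_F P'θ)`, supported in `F`: `y·T⁻¹y = 2z·y - z·Tz ≤ 2z·P'θ - z·P'z ≤ θ·P'θ`. -/
theorem inv_form_le (P P' : Matrix κ κ ℝ) (hs : Pᵀ = P) (hs' : P'ᵀ = P')
    (h0 : ∀ x, 0 ≤ x ⬝ᵥ P' *ᵥ x) (hPP : ∀ x, x ⬝ᵥ P' *ᵥ x ≤ x ⬝ᵥ P *ᵥ x)
    (F : Finset κ) {t : ℝ} (ht : 0 < t) (θ : κ → ℝ) :
    res F (P' *ᵥ θ) ⬝ᵥ (That P F t)⁻¹ *ᵥ res F (P' *ᵥ θ) ≤ θ ⬝ᵥ P' *ᵥ θ := by
  have hP : ∀ x, 0 ≤ x ⬝ᵥ P *ᵥ x := fun x => (h0 x).trans (hPP x)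
  set y := res F (P' *ᵥ θ) with hy
  set z := (That P F t)⁻¹ *ᵥ y with hz
  have hzF : res F z = z := That_inv_res P hP F ht _ (res_res F _)
  have h2 := dual_eq P hs hP F ht y
  rw [← hz, That_dot, hzF] at h2
  have h3 : y ⬝ᵥ z = z ⬝ᵥ P' *ᵥ θ := by
    rw [hy, res_dot, hzF, dotProduct_comm]
  have h4 := h0 (z - θ)
  have h5 : θ ⬝ᵥ P' *ᵥ z = z ⬝ᵥ P' *ᵥ θ := by
    rw [sym_dot _ hs', dotProduct_comm]
  rw [Matrix.mulVec_sub, dotProduct_sub, sub_dotProduct, sub_dotProduct, h5] at h4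
  have h6 := hPP z
  have h7 := mul_nonneg ht.le (sq_nonneg' z)
  linarith

end Pool.Agent.LibKG64
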