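import Pool.Agent.LibKG64.C2

set_option autoImplicit false

/-! Task C3: (LA2), norms of `ζ`, of the control and of `psi`. -/

open Finset Matrix

namespace Pool.Agent.LibKG64

variable {κ : Type*} [Fintype κ] [DecidableEq κ]

/-- moving a matrix to the other side -/
theorem c3_tr_dot (M : Matrix κ κ ℝ) (x y : κ → ℝ) :
    (Mᵀ *ᵥ x) ⬝ᵥ y = x ⬝ᵥ M *ᵥ y := by
  rw [Matrix.mulVec_transpose, Matrix.dotProduct_mulVec]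

/-- `(I_F u)·C(I_F u) + τ_{v-1}|I_F u|² ≤ u·T u` -/
theorem c3_form_le {Q : ℕ → Matrix κ κ ℝ} (hQ : Flag Q) (k : ℕ) (τ : ℕ → ℝ)
    (hτ : ∀ v, 0 < τ v) (hm : ∀ v, τ v ≤ τ (v + 1)) (F : ℕ → Finset κ) (s v : ℕ) (u : κ → ℝ) :
    res (F v) u ⬝ᵥ crit Q k s *ᵥ res (F v) u
      + (if v = 0 then 0 else τ (v - 1)) * sq (res (F v) u)
      ≤ u ⬝ᵥ That (Q s) (F v) (τ v) *ᵥ u := by
  rw [That_dot, crit_dot_eq]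
  have h1 := flag_nonneg hQ (s + k) (res (F v) u)
  have h2 : (if v = 0 then 0 else τ (v - 1)) ≤ τ v := by
    split_ifs with h
    · exact (hτ v).le
    · obtain ⟨w, rfl⟩ := Nat.exists_eq_succ_of_ne_zero h
      simpa using hm w
  have h3 : (if v = 0 then 0 else τ (v - 1)) * sq (res (F v) u) ≤ τ v * sq u :=
    (mul_le_mul_of_nonneg_right h2 (sq_nonneg' _)).trans
      (mul_le_mul_of_nonneg_left (sq_res_le _ _) (hτ v).le)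
  linarith

/-- `z·T⁻¹z ≤ |D|²`: with `ζ = T⁻¹ z`, `z·T⁻¹z = D·(Zᵀζ)` and `|Zᵀζ|² ≤ ζ·Tζ = z·T⁻¹z` by (LA1). -/
theorem yy_le {Q : ℕ → Matrix κ κ ℝ} (hQ : Flag Q) (k : ℕ) (τ : ℕ → ℝ)
    (hτ : ∀ v, 0 < τ v) (hm : ∀ v, τ v ≤ τ (v + 1)) (F : ℕ → Finset κ)
    (hF : ∀ v, F (v + 1) ⊆ F v) (s v : ℕ) (D : κ → ℝ) :
    (Zm Q k τ F s v *ᵥ D) ⬝ᵥ (That (Q s) (F v) (τ v))⁻¹ *ᵥ (Zm Q k τ F s v *ᵥ D) ≤ sq D := by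
  set z := Zm Q k τ F s v *ᵥ D with hz
  set ζ := (That (Q s) (F v) (τ v))⁻¹ *ᵥ z with hζ
  have h1 : sq ((Zm Q k τ F s v)ᵀ *ᵥ ζ) ≤ z ⬝ᵥ ζ := by
    refine (LA1 hQ k τ hτ hm F hF s v ζ).trans ((c3_form_le hQ k τ hτ hm F s v ζ).trans ?_)
    exact (dual_eq (Q s) (hQ.symm s) (flag_nonneg hQ s) (F v) (hτ v) z).le
  have h2 : z ⬝ᵥ ζ = ((Zm Q k τ F s v)ᵀ *ᵥ ζ) ⬝ᵥ D := by
    rw [c3_tr_dot, ← hz, dotProduct_comm]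
  have h3 : (z ⬝ᵥ ζ) ^ 2 ≤ (z ⬝ᵥ ζ) * sq D := by
    calc (z ⬝ᵥ ζ) ^ 2 = (((Zm Q k τ F s v)ᵀ *ᵥ ζ) ⬝ᵥ D) ^ 2 := by rw [h2]
      _ ≤ sq ((Zm Q k τ F s v)ᵀ *ᵥ ζ) * sq D := cs _ _
      _ ≤ (z ⬝ᵥ ζ) * sq D := mul_le_mul_of_nonneg_right h1 (sq_nonneg' _)
  by_contra hcon
  push Not at hcon
  have hpos : 0 < z ⬝ᵥ ζ := lt_of_le_of_lt (sq_nonneg' D) hcon
  nlinarith

theorem sq_Ze_le {Q : ℕ → Matrix κ κ ℝ} (hQ : Flag Q) (k : ℕ) (τ : ℕ → ℝ)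
    (hτ : ∀ v, 0 < τ v) (hm : ∀ v, τ v ≤ τ (v + 1)) (F : ℕ → Finset κ)
    (hF : ∀ v, F (v + 1) ⊆ F v) (s v : ℕ) (D : κ → ℝ) :
    τ v * sq (Ze Q k τ F s v *ᵥ D) ≤ sq D := by
  rw [Ze_eq]
  exact (inv_sq_le (Q s) (hQ.symm s) (flag_nonneg hQ s) (F v) (hτ v) _).trans
    (yy_le hQ k τ hτ hm F hF s v D)

theorem sq_QZe_le {Q : ℕ → Matrix κ κ ℝ} (hQ : Flag Q) (k : ℕ) (τ : ℕ → ℝ)
    (hτ : ∀ v, 0 < τ v) (hm : ∀ v, τ v ≤ τ (v + 1)) (F : ℕ → Finset κ)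
    (hF : ∀ v, F (v + 1) ⊆ F v) (s v : ℕ) (D : κ → ℝ) :
    sq (Q (s + k) *ᵥ (Ze Q k τ F s v *ᵥ D)) ≤ sq D := by
  set ζ := Ze Q k τ F s v *ᵥ D with hζ
  have hres : res (F v) ζ = ζ := Ze_supp hQ k τ hτ F s v D
  rw [← flag_dot hQ]
  refine (flag_anti hQ (Nat.le_add_right s k) ζ).trans ?_
  have h1 : ζ ⬝ᵥ That (Q s) (F v) (τ v) *ᵥ ζ ≤ sq D := by
    have h2 : ζ = (That (Q s) (F v) (τ v))⁻¹ *ᵥ (Zm Q k τ F s v *ᵥ D) := Ze_eq Q k τ F s v D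
    rw [h2, dual_eq (Q s) (hQ.symm s) (flag_nonneg hQ s) (F v) (hτ v)]
    exact yy_le hQ k τ hτ hm F hF s v D
  rw [That_dot, hres] at h1
  have h3 : 0 ≤ τ v * sq ζ := mul_nonneg (hτ v).le (sq_nonneg' _)
  linarith

theorem sq_Km_le {Q : ℕ → Matrix κ κ ℝ} (hQ : Flag Q) (k : ℕ) (τ : ℕ → ℝ)
    (hτ : ∀ v, 0 < τ v) (hm : ∀ v, τ v ≤ τ (v + 1)) (F : ℕ → Finset κ)
    (hF : ∀ v, F (v + 1) ⊆ F v) (L s : ℕ) (D : κ → ℝ) :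
    sq (Km Q k τ F L s *ᵥ D) ≤ (L : ℝ) ^ 2 * sq D := by
  have h0 : Km Q k τ F L s *ᵥ D
      = ∑ v ∈ range L, Q (s + k) *ᵥ (Ze Q k τ F s v *ᵥ D) := by
    rw [Km, ← Matrix.mulVec_mulVec, Matrix.sum_mulVec, Matrix.mulVec_sum]
  rw [h0, sq_eq]
  have h1 : ∀ j, (∑ v ∈ range L, Q (s + k) *ᵥ (Ze Q k τ F s v *ᵥ D)) j ^ 2
      ≤ L * ∑ v ∈ range L, (Q (s + k) *ᵥ (Ze Q k τ F s v *ᵥ D)) j ^ 2 := by
    intro j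
    rw [Finset.sum_apply]
    have := sq_sum_le_card_mul_sum_sq (s := range L)
      (f := fun v => (Q (s + k) *ᵥ (Ze Q k τ F s v *ᵥ D)) j)
    simpa using this
  calc ∑ j, (∑ v ∈ range L, Q (s + k) *ᵥ (Ze Q k τ F s v *ᵥ D)) j ^ 2
      ≤ ∑ j, L * ∑ v ∈ range L, (Q (s + k) *ᵥ (Ze Q k τ F s v *ᵥ D)) j ^ 2 :=
        Finset.sum_le_sum fun j _ => h1 j
    _ = L * ∑ v ∈ range L, sq (Q (s + k) *ᵥ (Ze Q k τ F s v *ᵥ D)) := by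
        rw [← Finset.mul_sum, Finset.sum_comm]
        simp only [sq_eq]
    _ ≤ L * ∑ v ∈ range L, sq D := by
        refine mul_le_mul_of_nonneg_left (Finset.sum_le_sum fun v _ => ?_) (Nat.cast_nonneg _)
        exact sq_QZe_le hQ k τ hτ hm F hF s v D
    _ = (L : ℝ) ^ 2 * sq D := by
        rw [Finset.sum_const, card_range, nsmul_eq_mul]
        ring

/-- the transposed estimates: `|Z_vᵀ T⁻¹ I_F Q' θ|² ≤ |θ|²` -/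
theorem sq_ZTc_le {Q : ℕ → Matrix κ κ ℝ} (hQ : Flag Q) (k : ℕ) (τ : ℕ → ℝ)
    (hτ : ∀ v, 0 < τ v) (hm : ∀ v, τ v ≤ τ (v + 1)) (F : ℕ → Finset κ)
    (hF : ∀ v, F (v + 1) ⊆ F v) (s v : ℕ) (θ : κ → ℝ) :
    sq ((Zm Q k τ F s v)ᵀ *ᵥ cv Q k τ F s v θ) ≤ sq θ := by
  refine (LA1 hQ k τ hτ hm F hF s v _).trans ((c3_form_le hQ k τ hτ hm F s v _).trans ?_)
  rw [cv, dual_eq (Q s) (hQ.symm s) (flag_nonneg hQ s) (F v) (hτ v)]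
  refine (inv_form_le (Q s) (Q (s + k)) (hQ.symm s) (hQ.symm (s + k)) (flag_nonneg hQ (s + k))
    (fun x => flag_anti hQ (Nat.le_add_right s k) x) (F v) (hτ v) θ).trans ?_
  exact flag_le hQ (s + k) θ

/-- `psi θ = C θ - ∑_v Z_vᵀ c_v` -/
theorem psi_eq {Q : ℕ → Matrix κ κ ℝ} (hQ : Flag Q) (k : ℕ) (τ : ℕ → ℝ)
    (hτ : ∀ v, 0 < τ v) (F : ℕ → Finset κ) (L s : ℕ) (θ : κ → ℝ) :
    psi Q k τ F L s θ = crit Q k s *ᵥ θ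
      - ∑ v ∈ range L, (Zm Q k τ F s v)ᵀ *ᵥ cv Q k τ F s v θ := by
  apply dotProduct_eq
  intro D
  have h0 : Km Q k τ F L s *ᵥ D
      = ∑ v ∈ range L, Q (s + k) *ᵥ (Ze Q k τ F s v *ᵥ D) := by
    rw [Km, ← Matrix.mulVec_mulVec, Matrix.sum_mulVec, Matrix.mulVec_sum]
  rw [psi, c3_tr_dot, Matrix.sub_mulVec, dotProduct_sub, sub_dotProduct, h0,
    sym_dot _ (crit_symm hQ k s), dotProduct_sum, sum_dotProduct]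
  congr 1
  refine Finset.sum_congr rfl fun v _ => ?_
  rw [c3_tr_dot, cv, sym_dot _ (hQ.symm (s + k))]
  have h1 : (That (Q s) (F v) (τ v))⁻¹ *ᵥ res (F v) (Q (s + k) *ᵥ θ) ⬝ᵥ Zm Q k τ F s v *ᵥ D
      = res (F v) (Q (s + k) *ᵥ θ) ⬝ᵥ Ze Q k τ F s v *ᵥ D := by
    rw [Ze_eq, sym_dot _ (That_inv_symm (Q s) (hQ.symm s) (F v) (τ v))]
  rw [h1, res_dot, Ze_supp hQ k τ hτ F s v D]

theorem psi_dot (Q : ℕ → Matrix κ κ ℝ) (k : ℕ) (τ : ℕ → ℝ) (F : ℕ → Finset κ) (L s : ℕ)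
    (θ D : κ → ℝ) : psi Q k τ F L s θ ⬝ᵥ D
      = θ ⬝ᵥ (crit Q k s *ᵥ D - Km Q k τ F L s *ᵥ D) := by
  rw [psi, c3_tr_dot, Matrix.sub_mulVec]

/-- the displacement of the control only depends on `C D` -/
theorem Zm_crit {Q : ℕ → Matrix κ κ ℝ} (hQ : Flag Q) (k : ℕ) (τ : ℕ → ℝ)
    (F : ℕ → Finset κ) (s v : ℕ) : Zm Q k τ F s v * crit Q k s = Zm Q k τ F s v := by
  induction v with
  | zero => rw [Zm, Matrix.mul_assoc, crit_mul hQ]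
  | succ v ih =>
    rw [Zm, Matrix.mul_assoc, Matrix.sub_mul, ih, Matrix.mul_assoc, Matrix.mul_assoc, ih]

/-- `psi θ` lies in the range of the critical projection -/
theorem crit_psi {Q : ℕ → Matrix κ κ ℝ} (hQ : Flag Q) (k : ℕ) (τ : ℕ → ℝ)
    (hτ : ∀ v, 0 < τ v) (F : ℕ → Finset κ) (hF : ∀ v, F (v + 1) ⊆ F v) (L s : ℕ)
    (θ : κ → ℝ) : crit Q k s *ᵥ psi Q k τ F L s θ = psi Q k τ F L s θ := by
  have hK : Km Q k τ F L s * crit Q k s = Km Q k τ F L s := by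
    rw [Km, Matrix.mul_assoc, Matrix.sum_mul]
    congr 1
    refine Finset.sum_congr rfl fun v _ => ?_
    rw [Ze, Matrix.mul_assoc, Zm_crit hQ]
  apply dotProduct_eq
  intro D
  rw [← sym_dot _ (crit_symm hQ k s), psi_dot, psi_dot, Matrix.mulVec_mulVec, crit_mul hQ,
    Matrix.mulVec_mulVec, hK]

end Pool.Agent.LibKG64
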