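import Pool.Agent.LibKG64.O0
import Pool.Agent.LibKG64.C3

set_option autoImplicit false

/-! Task BA: the columns of a batch and their norm. -/

open Finset Matrix

namespace Pool.Agent.LibKG64

variable {ι κ E : Type} [Fintype ι] [DecidableEq ι] [Fintype κ] [DecidableEq κ]
  [Fintype E] [DecidableEq E]

/-- rows of the batch matrix: critical part; `Q' ζ_v`; energy rows; side rows; drift rows; identity rows -/
abbrev Row (ι κ E : Type) (L : ℕ) := κ ⊕ (κ × Fin L) ⊕ E ⊕ κ ⊕ ι ⊕ ι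

/-- column of the variable `p` in batch `s` (zero if `p` is not in the batch); `we` are the energy rows -/
noncomputable def Sys.colb (S : Sys ι κ) (s : ℕ) (F : ℕ → Finset κ) (W η c1 : ℝ)
    (we : E → κ → ℝ) (p : ι) : Row ι κ E S.L → ℝ
  | Sum.inl j => if S.bt p = s then c1 * (crit S.Q S.k s *ᵥ S.a p) j else 0
  | Sum.inr (Sum.inl (j, v)) =>
      if S.bt p = s then c1 * (S.Q (s + S.k) *ᵥ (Ze S.Q S.k S.τ F s v *ᵥ S.a p)) j else 0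
  | Sum.inr (Sum.inr (Sum.inl e)) => if S.bt p = s then c1 * (we e ⬝ᵥ S.a p) else 0
  | Sum.inr (Sum.inr (Sum.inr (Sum.inl j))) =>
      if S.bt p = s then c1 / (4 * η) * (S.Sd s *ᵥ S.a p) j else 0
  | Sum.inr (Sum.inr (Sum.inr (Sum.inr (Sum.inl i)))) =>
      if S.bt p = s ∧ s < S.bt i then c1 * √(W / 2) * (S.a i ⬝ᵥ S.Bi s *ᵥ S.a p) else 0
  | Sum.inr (Sum.inr (Sum.inr (Sum.inr (Sum.inr i)))) => if S.bt p = s ∧ i = p then c1 else 0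

theorem BA_gram_dot (a : ι → κ → ℝ) (V : Finset ι) (x y : κ → ℝ) :
    x ⬝ᵥ gram a V *ᵥ y = ∑ p ∈ V, (a p ⬝ᵥ x) * (a p ⬝ᵥ y) := by
  unfold gram
  rw [Matrix.sum_mulVec, dotProduct_sum]
  refine Finset.sum_congr rfl fun p _ => ?_
  rw [vecMulVec_mulVec]
  rw [op_smul_eq_smul, dotProduct_smul, smul_eq_mul, dotProduct_comm x (a p)]
  ring

/-- `Bi G_U Bi = Bi` -/
theorem BA_BiG (S : Sys ι κ) {W η : ℝ} {T : ℕ} (hS : S.OK W η T) {s : ℕ} (hs : s ≤ T) :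
    S.Bi s * (gram S.a (S.U s) * S.Bi s) = S.Bi s := by
  have h1 : S.Bi s * S.Q (s + S.k) = S.Bi s := by
    have h := congrArg Matrix.transpose (hS.BiQ s hs)
    rw [Matrix.transpose_mul, hS.BiS s hs, hS.flag.symm] at h
    exact h
  calc S.Bi s * (gram S.a (S.U s) * S.Bi s)
      = (S.Bi s * S.Q (s + S.k)) * (gram S.a (S.U s) * S.Bi s) := by rw [h1]
    _ = S.Bi s * (S.Q (s + S.k) * gram S.a (S.U s) * S.Bi s) := by
        simp only [Matrix.mul_assoc]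
    _ = S.Bi s := by rw [hS.BiI s hs, h1]

/-- drift rows: `∑_{i ∈ U} (a_i·Bi x)² = x·Bi x` -/
theorem sum_drift (S : Sys ι κ) {W η : ℝ} {T : ℕ} (hS : S.OK W η T) {s : ℕ} (hs : s ≤ T)
    (x : κ → ℝ) : ∑ i ∈ S.U s, (S.a i ⬝ᵥ S.Bi s *ᵥ x) ^ 2 = x ⬝ᵥ S.Bi s *ᵥ x := by
  have h1 := BA_gram_dot S.a (S.U s) (S.Bi s *ᵥ x) (S.Bi s *ᵥ x)
  have h2 : (S.Bi s *ᵥ x) ⬝ᵥ gram S.a (S.U s) *ᵥ (S.Bi s *ᵥ x) = x ⬝ᵥ S.Bi s *ᵥ x := by
    rw [← sym_dot (S.Bi s) (hS.BiS s hs), Matrix.mulVec_mulVec, Matrix.mulVec_mulVec,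
      Matrix.mul_assoc, BA_BiG S hS hs]
  rw [← h2, h1]
  refine Finset.sum_congr rfl fun i _ => ?_
  ring

/-- column norm: `c1² (1 + L + (2L+1) + 1 + 1 + 1)` (`crit_le`, `sq_QZe_le`, `sd1`, `sum_drift`, `Bi2`) -/
theorem colb_norm (S : Sys ι κ) {W η : ℝ} {T : ℕ} (hS : S.OK W η T) (hτ : ∀ v, 0 < S.τ v)
    (hm : ∀ v, S.τ v ≤ S.τ (v + 1)) {s : ℕ} (hs : s ≤ T) (F : ℕ → Finset κ)
    (hF : ∀ v, F (v + 1) ⊆ F v) {c1 : ℝ} (hc : c1 ^ 2 * (4 * S.L + 8) ≤ 1) (we : E → κ → ℝ)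
    (hwe : ∀ p ∈ S.V s, ∑ e, (we e ⬝ᵥ S.a p) ^ 2 ≤ 2 * S.L + 1) (p : ι) :
    ∑ r, S.colb s F W η c1 we p r ^ 2 ≤ 1 := by
  by_cases hp : S.bt p = s
  swap
  · have h0 : ∀ r, S.colb s F W η c1 we p r = 0 := by
      intro r
      rcases r with j | ⟨j, v⟩ | e | j | i | i <;> simp [Sys.colb, hp]
    simp [h0]
  have hpV : p ∈ S.V s := by simp [Sys.V, hp]
  have ha := hS.col p
  have hW : (0 : ℝ) < W := lt_of_lt_of_le one_pos hS.Wpos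
  have hη := hS.ηpos
  simp only [Fintype.sum_sum_type, Sys.colb, hp, true_and, if_true]
  -- critical
  have e1 : ∑ j, (c1 * (crit S.Q S.k s *ᵥ S.a p) j) ^ 2 ≤ c1 ^ 2 := by
    have h := crit_le hS.flag S.k s (S.a p)
    rw [crit_dot hS.flag] at h
    have h2 : ∑ j, (c1 * (crit S.Q S.k s *ᵥ S.a p) j) ^ 2
        = c1 ^ 2 * sq (crit S.Q S.k s *ᵥ S.a p) := by
      rw [sq_eq, Finset.mul_sum]
      exact Finset.sum_congr rfl fun j _ => by ring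
    rw [h2]
    have := mul_le_mul_of_nonneg_left (h.trans ha) (sq_nonneg c1)
    linarith
  have e2 : ∑ x : κ × Fin S.L, (c1 * (S.Q (s + S.k) *ᵥ (Ze S.Q S.k S.τ F s x.2 *ᵥ S.a p)) x.1) ^ 2
      ≤ c1 ^ 2 * S.L := by
    rw [Fintype.sum_prod_type_right]
    have h2 : ∀ v : Fin S.L, ∑ j, (c1 * (S.Q (s + S.k) *ᵥ (Ze S.Q S.k S.τ F s v *ᵥ S.a p)) j) ^ 2
        ≤ c1 ^ 2 := by
      intro v
      have h3 : ∑ j, (c1 * (S.Q (s + S.k) *ᵥ (Ze S.Q S.k S.τ F s v *ᵥ S.a p)) j) ^ 2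
          = c1 ^ 2 * sq (S.Q (s + S.k) *ᵥ (Ze S.Q S.k S.τ F s v *ᵥ S.a p)) := by
        rw [sq_eq, Finset.mul_sum]
        exact Finset.sum_congr rfl fun j _ => by ring
      rw [h3]
      have h4 := sq_QZe_le hS.flag S.k S.τ hτ hm F hF s v (S.a p)
      have := mul_le_mul_of_nonneg_left (h4.trans ha) (sq_nonneg c1)
      linarith
    calc ∑ v : Fin S.L, ∑ j, (c1 * (S.Q (s + S.k) *ᵥ (Ze S.Q S.k S.τ F s v *ᵥ S.a p)) j) ^ 2
        ≤ ∑ _v : Fin S.L, c1 ^ 2 := Finset.sum_le_sum fun v _ => h2 v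
      _ = c1 ^ 2 * S.L := by simp [mul_comm]
  have e3 : ∑ e, (c1 * (we e ⬝ᵥ S.a p)) ^ 2 ≤ c1 ^ 2 * (2 * S.L + 1) := by
    have h3 : ∑ e, (c1 * (we e ⬝ᵥ S.a p)) ^ 2 = c1 ^ 2 * ∑ e, (we e ⬝ᵥ S.a p) ^ 2 := by
      rw [Finset.mul_sum]
      exact Finset.sum_congr rfl fun j _ => by ring
    rw [h3]
    exact mul_le_mul_of_nonneg_left (hwe p hpV) (sq_nonneg c1)
  have e4 : ∑ j, (c1 / (4 * η) * (S.Sd s *ᵥ S.a p) j) ^ 2 ≤ c1 ^ 2 := by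
    have h3 : ∑ j, (c1 / (4 * η) * (S.Sd s *ᵥ S.a p) j) ^ 2
        = c1 ^ 2 / (16 * η ^ 2) * sq (S.Sd s *ᵥ S.a p) := by
      rw [sq_eq, Finset.mul_sum]
      refine Finset.sum_congr rfl fun j _ => ?_
      field_simp
      ring
    rw [h3]
    have h4 := hS.sd1 s hs (S.a p)
    have h5 : sq (S.Sd s *ᵥ S.a p) ≤ 16 * η ^ 2 := by
      refine h4.trans ?_
      have := mul_le_mul_of_nonneg_left ha (by positivity : (0 : ℝ) ≤ 16 * η ^ 2)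
      linarith
    calc c1 ^ 2 / (16 * η ^ 2) * sq (S.Sd s *ᵥ S.a p)
        ≤ c1 ^ 2 / (16 * η ^ 2) * (16 * η ^ 2) :=
          mul_le_mul_of_nonneg_left h5 (by positivity)
      _ = c1 ^ 2 := by field_simp
  have e5 : ∑ i, (if s < S.bt i then c1 * √(W / 2) * (S.a i ⬝ᵥ S.Bi s *ᵥ S.a p) else 0) ^ 2
      ≤ c1 ^ 2 := by
    have h3 : ∑ i, (if s < S.bt i then c1 * √(W / 2) * (S.a i ⬝ᵥ S.Bi s *ᵥ S.a p) else 0) ^ 2
        = c1 ^ 2 * (W / 2) * ∑ i ∈ S.U s, (S.a i ⬝ᵥ S.Bi s *ᵥ S.a p) ^ 2 := by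
      rw [Finset.mul_sum, Sys.U, Finset.sum_filter]
      refine Finset.sum_congr rfl fun i _ => ?_
      split_ifs with h
      · rw [mul_pow, mul_pow, Real.sq_sqrt (by positivity)]
      · simp
    rw [h3, sum_drift S hS hs]
    have h4 := hS.Bi2 s hs (S.a p)
    have h5 : S.a p ⬝ᵥ S.Bi s *ᵥ S.a p ≤ 2 / W := by
      refine h4.trans ?_
      have := mul_le_mul_of_nonneg_left ha (by positivity : (0 : ℝ) ≤ 2 / W)
      linarith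
    calc c1 ^ 2 * (W / 2) * (S.a p ⬝ᵥ S.Bi s *ᵥ S.a p)
        ≤ c1 ^ 2 * (W / 2) * (2 / W) := mul_le_mul_of_nonneg_left h5 (by positivity)
      _ = c1 ^ 2 := by field_simp
  have e6 : ∑ i, (if i = p then c1 else 0) ^ 2 ≤ c1 ^ 2 := by
    rw [Finset.sum_eq_single p]
    · simp
    · intro i _ hi; simp [hi]
    · intro h; exact absurd (Finset.mem_univ p) h
  have hL : (0 : ℝ) ≤ S.L := Nat.cast_nonneg _
  have hc2 := sq_nonneg c1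
  have hcL := mul_nonneg hc2 hL
  nlinarith [e1, e2, e3, e4, e5, e6]

end Pool.Agent.LibKG64
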