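import Pool.Agent.LibKG64.BA

set_option autoImplicit false

/-! Task BB: operator norm of the batch matrix. `Cauchy-Schwarz` for the six blocks. -/

open Finset Matrix

namespace Pool.Agent.LibKG64

variable {ι κ E : Type} [Fintype ι] [DecidableEq ι] [Fintype κ] [DecidableEq κ]
  [Fintype E] [DecidableEq E]

theorem BB_tdot (M : Matrix κ κ ℝ) (x y : κ → ℝ) : (Mᵀ *ᵥ x) ⬝ᵥ y = x ⬝ᵥ M *ᵥ y := by
  rw [Matrix.mulVec_transpose, Matrix.dotProduct_mulVec]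

theorem BB_le_of_sq {x y : ℝ} (hx : 0 ≤ x) (hy : 0 ≤ y) (h : x ^ 2 ≤ y * x) : x ≤ y := by
  rcases hx.eq_or_lt with h0 | h0
  · rw [← h0]; exact hy
  · nlinarith

/-- the transposed `Q' ζ_v` does not increase the norm (`sq_QZe_le` and duality) -/
theorem sq_ZeT_le {Q : ℕ → Matrix κ κ ℝ} (hQ : Flag Q) (k : ℕ) (τ : ℕ → ℝ)
    (hτ : ∀ v, 0 < τ v) (hm : ∀ v, τ v ≤ τ (v + 1)) (F : ℕ → Finset κ)
    (hF : ∀ v, F (v + 1) ⊆ F v) (s v : ℕ) (u : κ → ℝ) :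
    sq ((Ze Q k τ F s v)ᵀ *ᵥ (Q (s + k) *ᵥ u)) ≤ sq u := by
  set y := (Ze Q k τ F s v)ᵀ *ᵥ (Q (s + k) *ᵥ u) with hy
  have h1 : sq y = u ⬝ᵥ (Q (s + k) *ᵥ (Ze Q k τ F s v *ᵥ y)) := by
    rw [sym_dot (Q (s + k)) (hQ.symm _), ← BB_tdot]
    rfl
  have h2 := cs u (Q (s + k) *ᵥ (Ze Q k τ F s v *ᵥ y))
  rw [← h1] at h2
  have h3 := sq_QZe_le hQ k τ hτ hm F hF s v y
  exact BB_le_of_sq (sq_nonneg' y) (sq_nonneg' u)
    (h2.trans (mul_le_mul_of_nonneg_left h3 (sq_nonneg' u)))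

/-- the transposed `ζ_v` lies in the range of the critical projection (`Zm_crit`) -/
theorem crit_ZeT {Q : ℕ → Matrix κ κ ℝ} (hQ : Flag Q) (k : ℕ) (τ : ℕ → ℝ)
    (F : ℕ → Finset κ) (s v : ℕ) (u : κ → ℝ) :
    crit Q k s *ᵥ ((Ze Q k τ F s v)ᵀ *ᵥ u) = (Ze Q k τ F s v)ᵀ *ᵥ u := by
  have h1 : Ze Q k τ F s v * crit Q k s = Ze Q k τ F s v := by
    unfold Ze
    rw [Matrix.mul_assoc, Zm_crit hQ]
  have h2 : crit Q k s * (Ze Q k τ F s v)ᵀ = (Ze Q k τ F s v)ᵀ := by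
    have h := congrArg Matrix.transpose h1
    rw [Matrix.transpose_mul, crit_symm hQ] at h
    exact h
  rw [Matrix.mulVec_mulVec, h2]

/-- drift block: `∑_p (∑_{i ∈ U} c_i a_i·Bi a_p)² ≤ 4 W ∑ c_i²` (`op2` for `u = ∑ c_i a_i`, and
`(u·Bi u)² ≤ ∑ c_i² · (u·Bi u)` by `sum_drift`) -/
theorem drift_op (S : Sys ι κ) {W η : ℝ} {T : ℕ} (hS : S.OK W η T) {s : ℕ} (hs : s ≤ T)
    (c : ι → ℝ) : ∑ p ∈ S.V s, (∑ i ∈ S.U s, c i * (S.a i ⬝ᵥ S.Bi s *ᵥ S.a p)) ^ 2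
      ≤ 4 * W * ∑ i, c i ^ 2 := by
  have hW : (0 : ℝ) < W := lt_of_lt_of_le one_pos hS.Wpos
  set u : κ → ℝ := ∑ i ∈ S.U s, c i • S.a i with hu
  have h1 : ∀ p, ∑ i ∈ S.U s, c i * (S.a i ⬝ᵥ S.Bi s *ᵥ S.a p) = (S.Bi s *ᵥ u) ⬝ᵥ S.a p := by
    intro p
    rw [← sym_dot (S.Bi s) (hS.BiS s hs), hu, sum_dotProduct]
    exact Finset.sum_congr rfl fun i _ => by rw [smul_dotProduct, smul_eq_mul]
  have h2 := hS.op2 s hs u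
  have h3 : u ⬝ᵥ S.Bi s *ᵥ u = ∑ i ∈ S.U s, c i * (S.a i ⬝ᵥ S.Bi s *ᵥ u) := by
    conv_lhs => rw [hu]
    rw [sum_dotProduct]
    exact Finset.sum_congr rfl fun i _ => by rw [smul_dotProduct, smul_eq_mul]
  have h4 : 0 ≤ u ⬝ᵥ S.Bi s *ᵥ u := by
    rw [← sum_drift S hS hs]; exact Finset.sum_nonneg fun i _ => sq_nonneg _
  have h5 : (u ⬝ᵥ S.Bi s *ᵥ u) ^ 2 ≤ (∑ i ∈ S.U s, c i ^ 2) * (u ⬝ᵥ S.Bi s *ᵥ u) := by
    calc (u ⬝ᵥ S.Bi s *ᵥ u) ^ 2 = (∑ i ∈ S.U s, c i * (S.a i ⬝ᵥ S.Bi s *ᵥ u)) ^ 2 := by rw [← h3]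
      _ ≤ (∑ i ∈ S.U s, c i ^ 2) * ∑ i ∈ S.U s, (S.a i ⬝ᵥ S.Bi s *ᵥ u) ^ 2 :=
          Finset.sum_mul_sq_le_sq_mul_sq _ _ _
      _ = (∑ i ∈ S.U s, c i ^ 2) * (u ⬝ᵥ S.Bi s *ᵥ u) := by rw [sum_drift S hS hs]
  have h6 : u ⬝ᵥ S.Bi s *ᵥ u ≤ ∑ i ∈ S.U s, c i ^ 2 :=
    BB_le_of_sq h4 (Finset.sum_nonneg fun i _ => sq_nonneg _) h5
  have h7 : ∑ i ∈ S.U s, c i ^ 2 ≤ ∑ i, c i ^ 2 :=
    Finset.sum_le_sum_of_subset_of_nonneg (Finset.subset_univ _) fun i _ _ => sq_nonneg _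
  calc ∑ p ∈ S.V s, (∑ i ∈ S.U s, c i * (S.a i ⬝ᵥ S.Bi s *ᵥ S.a p)) ^ 2
      = ∑ p ∈ S.V s, ((S.Bi s *ᵥ u) ⬝ᵥ S.a p) ^ 2 :=
        Finset.sum_congr rfl fun p _ => by rw [h1]
    _ ≤ 4 * W * (u ⬝ᵥ S.Bi s *ᵥ u) := h2
    _ ≤ 4 * W * ∑ i, c i ^ 2 := mul_le_mul_of_nonneg_left (h6.trans h7) (by positivity)

/-- `|∑_v y_v|² ≤ L ∑_v |y_v|²` -/
theorem BB_sq_sum (L : ℕ) (y : Fin L → κ → ℝ) : sq (∑ v, y v) ≤ L * ∑ v, sq (y v) := by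
  rw [sq_eq]
  have h1 : ∀ j, (∑ v, y v) j ^ 2 ≤ L * ∑ v, y v j ^ 2 := by
    intro j
    rw [Finset.sum_apply]
    have h := sq_sum_le_card_mul_sum_sq (s := (Finset.univ : Finset (Fin L)))
      (f := fun v => y v j)
    simpa using h
  calc ∑ j, (∑ v, y v) j ^ 2 ≤ ∑ j, L * ∑ v, y v j ^ 2 := Finset.sum_le_sum fun j _ => h1 j
    _ = L * ∑ v, sq (y v) := by
        rw [← Finset.mul_sum, Finset.sum_comm]
        congr 1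
        exact Finset.sum_congr rfl fun v _ => (sq_eq _).symm

/-- critical directions: `op1` -/
theorem BB_crit (S : Sys ι κ) {W η : ℝ} {T : ℕ} (hS : S.OK W η T) {s : ℕ} (hs : s ≤ T)
    (w : κ → ℝ) (hw : crit S.Q S.k s *ᵥ w = w) {c : ℝ} (hc : sq w ≤ c) :
    ∑ p ∈ S.V s, (w ⬝ᵥ S.a p) ^ 2 ≤ 2 * W ^ 2 * c := by
  have h0 : S.Q (s + S.k) *ᵥ w = 0 := by
    rw [← hw, Matrix.mulVec_mulVec, Q_mul_crit hS.flag, Matrix.zero_mulVec]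
  exact (hS.op1 s hs w h0).trans (mul_le_mul_of_nonneg_left hc (by positivity))

theorem colb_op (S : Sys ι κ) {W η : ℝ} {T : ℕ} (hS : S.OK W η T) (hτ : ∀ v, 0 < S.τ v)
    (hm : ∀ v, S.τ v ≤ S.τ (v + 1)) {s : ℕ} (hs : s ≤ T) (F : ℕ → Finset κ)
    (hF : ∀ v, F (v + 1) ⊆ F v) {c1 : ℝ} (hc0 : 0 ≤ c1) (hc : c1 ≤ 1) (we : E → κ → ℝ)
    (hwC : ∀ e, crit S.Q S.k s *ᵥ we e = we e) {Cop : ℝ} (hCop : 0 ≤ Cop)
    (hwo : ∀ c : E → ℝ, sq (∑ e, c e • we e) ≤ Cop * ∑ e, c e ^ 2)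
    (u : Row ι κ E S.L → ℝ) :
    ∑ p, (∑ r, u r * S.colb s F W η c1 we p r) ^ 2
      ≤ 12 * W ^ 2 * (S.L + Cop + 4) * ∑ r, u r ^ 2 := by
  have hW1 := hS.Wpos
  have hW : (0 : ℝ) < W := lt_of_lt_of_le one_pos hS.Wpos
  have hη := hS.ηpos
  set u1 : κ → ℝ := fun j => u (Sum.inl j) with hu1
  set u2 : Fin S.L → κ → ℝ := fun v j => u (Sum.inr (Sum.inl (j, v))) with hu2
  set u3 : E → ℝ := fun e => u (Sum.inr (Sum.inr (Sum.inl e))) with hu3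
  set u4 : κ → ℝ := fun j => u (Sum.inr (Sum.inr (Sum.inr (Sum.inl j)))) with hu4
  set u5 : ι → ℝ := fun i => u (Sum.inr (Sum.inr (Sum.inr (Sum.inr (Sum.inl i))))) with hu5
  set u6 : ι → ℝ := fun i => u (Sum.inr (Sum.inr (Sum.inr (Sum.inr (Sum.inr i))))) with hu6
  set w2 : κ → ℝ := ∑ v : Fin S.L, (Ze S.Q S.k S.τ F s v)ᵀ *ᵥ (S.Q (s + S.k) *ᵥ u2 v) with hw2
  set w3 : κ → ℝ := ∑ e, u3 e • we e with hw3
  set A1 : ι → ℝ := fun p => (crit S.Q S.k s *ᵥ u1) ⬝ᵥ S.a p with hA1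
  set A2 : ι → ℝ := fun p => w2 ⬝ᵥ S.a p with hA2
  set A3 : ι → ℝ := fun p => w3 ⬝ᵥ S.a p with hA3
  set A4 : ι → ℝ := fun p => 1 / (4 * η) * (u4 ⬝ᵥ S.Sd s *ᵥ S.a p) with hA4
  set A5 : ι → ℝ := fun p => √(W / 2) * ∑ i ∈ S.U s, u5 i * (S.a i ⬝ᵥ S.Bi s *ᵥ S.a p) with hA5
  -- norm of `u`
  have hnorm : ∑ r, u r ^ 2 = sq u1 + ∑ v, sq (u2 v) + ∑ e, u3 e ^ 2 + sq u4
      + ∑ i, u5 i ^ 2 + ∑ i, u6 i ^ 2 := by
    simp only [Fintype.sum_sum_type, Fintype.sum_prod_type_right, sq_eq]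
    ring
  -- the linear forms
  have hlin : ∀ p ∈ S.V s, ∑ r, u r * S.colb s F W η c1 we p r
      = c1 * (A1 p + A2 p + A3 p + A4 p + A5 p + u6 p) := by
    intro p hpV
    have hp : S.bt p = s := by simpa [Sys.V] using hpV
    simp only [Fintype.sum_sum_type, Sys.colb, hp, true_and, if_true]
    have e1 : ∑ j, u (Sum.inl j) * (c1 * (crit S.Q S.k s *ᵥ S.a p) j) = c1 * A1 p := by
      simp only [hA1]
      rw [← sym_dot (crit S.Q S.k s) (crit_symm hS.flag _ _), dotProduct, Finset.mul_sum]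
      exact Finset.sum_congr rfl fun j _ => by simp only [hu1]; ring
    have e2 : ∑ x : κ × Fin S.L, u (Sum.inr (Sum.inl x)) *
        (c1 * (S.Q (s + S.k) *ᵥ (Ze S.Q S.k S.τ F s x.2 *ᵥ S.a p)) x.1) = c1 * A2 p := by
      simp only [hA2]
      rw [Fintype.sum_prod_type_right, hw2, sum_dotProduct, Finset.mul_sum]
      refine Finset.sum_congr rfl fun v _ => ?_
      rw [BB_tdot, ← sym_dot (S.Q (s + S.k)) (hS.flag.symm _), dotProduct, Finset.mul_sum]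
      exact Finset.sum_congr rfl fun j _ => by simp only [hu2]; ring
    have e3 : ∑ e, u (Sum.inr (Sum.inr (Sum.inl e))) * (c1 * (we e ⬝ᵥ S.a p)) = c1 * A3 p := by
      simp only [hA3]
      rw [hw3, sum_dotProduct, Finset.mul_sum]
      exact Finset.sum_congr rfl fun e _ => by
        rw [smul_dotProduct, smul_eq_mul]; simp only [hu3]; ring
    have e4 : ∑ j, u (Sum.inr (Sum.inr (Sum.inr (Sum.inl j)))) *
        (c1 / (4 * η) * (S.Sd s *ᵥ S.a p) j) = c1 * A4 p := by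
      simp only [hA4]
      rw [dotProduct, Finset.mul_sum, Finset.mul_sum]
      exact Finset.sum_congr rfl fun j _ => by simp only [hu4]; ring
    have e5 : ∑ i, u (Sum.inr (Sum.inr (Sum.inr (Sum.inr (Sum.inl i))))) *
        (if s < S.bt i then c1 * √(W / 2) * (S.a i ⬝ᵥ S.Bi s *ᵥ S.a p) else 0) = c1 * A5 p := by
      simp only [hA5]
      rw [Sys.U, Finset.sum_filter, Finset.mul_sum, Finset.mul_sum]
      refine Finset.sum_congr rfl fun i _ => ?_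
      split_ifs with h
      · simp only [hu5]; ring
      · simp
    have e6 : ∑ i, u (Sum.inr (Sum.inr (Sum.inr (Sum.inr (Sum.inr i))))) *
        (if i = p then c1 else 0) = c1 * u6 p := by
      rw [Finset.sum_eq_single p]
      · simp only [hu6, if_true]; ring
      · intro i _ hi; simp [hi]
      · intro h; exact absurd (Finset.mem_univ p) h
    rw [e1, e2, e3, e4, e5, e6]
    ring
  have hlin0 : ∀ p, p ∉ S.V s → ∑ r, u r * S.colb s F W η c1 we p r = 0 := by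
    intro p hpV
    have hp : S.bt p ≠ s := by simpa [Sys.V] using hpV
    refine Finset.sum_eq_zero fun r _ => ?_
    rcases r with j | ⟨j, v⟩ | e | j | i | i <;> simp [Sys.colb, hp]
  -- the six blocks
  have b1 : ∑ p ∈ S.V s, A1 p ^ 2 ≤ 2 * W ^ 2 * sq u1 := by
    refine BB_crit S hS hs _ ?_ ?_
    · rw [Matrix.mulVec_mulVec, crit_mul hS.flag]
    · rw [← crit_dot hS.flag]; exact crit_le hS.flag _ _ _
  have b2 : ∑ p ∈ S.V s, A2 p ^ 2 ≤ 2 * W ^ 2 * (S.L * ∑ v, sq (u2 v)) := by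
    refine BB_crit S hS hs w2 ?_ ?_
    · rw [hw2, Matrix.mulVec_sum]
      exact Finset.sum_congr rfl fun v _ => crit_ZeT hS.flag _ _ _ _ _ _
    · refine (BB_sq_sum S.L _).trans ?_
      refine mul_le_mul_of_nonneg_left ?_ (Nat.cast_nonneg _)
      exact Finset.sum_le_sum fun v _ => sq_ZeT_le hS.flag _ _ hτ hm F hF s v (u2 v)
  have b3 : ∑ p ∈ S.V s, A3 p ^ 2 ≤ 2 * W ^ 2 * (Cop * ∑ e, u3 e ^ 2) := by
    refine BB_crit S hS hs w3 ?_ (hwo u3)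
    rw [hw3, Matrix.mulVec_sum]
    exact Finset.sum_congr rfl fun e _ => by rw [Matrix.mulVec_smul, hwC]
  have b4 : ∑ p ∈ S.V s, A4 p ^ 2 ≤ 2 * W ^ 2 * sq u4 := by
    have h := hS.sd2 s hs u4
    have h1 : ∑ p ∈ S.V s, A4 p ^ 2
        = 1 / (16 * η ^ 2) * ∑ p ∈ S.V s, (u4 ⬝ᵥ S.Sd s *ᵥ S.a p) ^ 2 := by
      rw [Finset.mul_sum]
      refine Finset.sum_congr rfl fun p _ => ?_
      simp only [hA4]
      field_simp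
      ring
    rw [h1]
    calc 1 / (16 * η ^ 2) * ∑ p ∈ S.V s, (u4 ⬝ᵥ S.Sd s *ᵥ S.a p) ^ 2
        ≤ 1 / (16 * η ^ 2) * (32 * W ^ 2 * η ^ 2 * sq u4) :=
          mul_le_mul_of_nonneg_left h (by positivity)
      _ = 2 * W ^ 2 * sq u4 := by field_simp; ring
  have b5 : ∑ p ∈ S.V s, A5 p ^ 2 ≤ 2 * W ^ 2 * ∑ i, u5 i ^ 2 := by
    have h := drift_op S hS hs u5
    have h1 : ∑ p ∈ S.V s, A5 p ^ 2
        = W / 2 * ∑ p ∈ S.V s, (∑ i ∈ S.U s, u5 i * (S.a i ⬝ᵥ S.Bi s *ᵥ S.a p)) ^ 2 := by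
      rw [Finset.mul_sum]
      refine Finset.sum_congr rfl fun p _ => ?_
      simp only [hA5]
      rw [mul_pow, Real.sq_sqrt (by positivity)]
    rw [h1]
    calc W / 2 * ∑ p ∈ S.V s, (∑ i ∈ S.U s, u5 i * (S.a i ⬝ᵥ S.Bi s *ᵥ S.a p)) ^ 2
        ≤ W / 2 * (4 * W * ∑ i, u5 i ^ 2) := mul_le_mul_of_nonneg_left h (by positivity)
      _ = 2 * W ^ 2 * ∑ i, u5 i ^ 2 := by ring
  have b6 : ∑ p ∈ S.V s, u6 p ^ 2 ≤ 2 * W ^ 2 * ∑ i, u6 i ^ 2 := by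
    have h0 : 0 ≤ ∑ i, u6 i ^ 2 := Finset.sum_nonneg fun i _ => sq_nonneg _
    have h1 : ∑ p ∈ S.V s, u6 p ^ 2 ≤ ∑ i, u6 i ^ 2 :=
      Finset.sum_le_sum_of_subset_of_nonneg (Finset.subset_univ _) fun i _ _ => sq_nonneg _
    have h2 : (1 : ℝ) ≤ 2 * W ^ 2 := by nlinarith
    nlinarith
  -- reduction to `V s`
  have hsum : ∑ p, (∑ r, u r * S.colb s F W η c1 we p r) ^ 2
      = ∑ p ∈ S.V s, (c1 * (A1 p + A2 p + A3 p + A4 p + A5 p + u6 p)) ^ 2 := by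
    rw [← Finset.sum_subset (Finset.subset_univ (S.V s))
      (fun p _ hp => by rw [hlin0 p hp]; simp)]
    exact Finset.sum_congr rfl fun p hp => by rw [hlin p hp]
  have hcc : c1 ^ 2 ≤ 1 := by nlinarith
  have hsix : ∀ p, (c1 * (A1 p + A2 p + A3 p + A4 p + A5 p + u6 p)) ^ 2
      ≤ 6 * (A1 p ^ 2 + A2 p ^ 2 + A3 p ^ 2 + A4 p ^ 2 + A5 p ^ 2 + u6 p ^ 2) := by
    intro p
    have h1 : (A1 p + A2 p + A3 p + A4 p + A5 p + u6 p) ^ 2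
        ≤ 6 * (A1 p ^ 2 + A2 p ^ 2 + A3 p ^ 2 + A4 p ^ 2 + A5 p ^ 2 + u6 p ^ 2) := by
      nlinarith [sq_nonneg (A1 p - A2 p), sq_nonneg (A1 p - A3 p), sq_nonneg (A1 p - A4 p),
        sq_nonneg (A1 p - A5 p), sq_nonneg (A1 p - u6 p), sq_nonneg (A2 p - A3 p),
        sq_nonneg (A2 p - A4 p), sq_nonneg (A2 p - A5 p), sq_nonneg (A2 p - u6 p),
        sq_nonneg (A3 p - A4 p), sq_nonneg (A3 p - A5 p), sq_nonneg (A3 p - u6 p),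
        sq_nonneg (A4 p - A5 p), sq_nonneg (A4 p - u6 p), sq_nonneg (A5 p - u6 p)]
    rw [mul_pow]
    have h2 := mul_le_mul_of_nonneg_right hcc
      (sq_nonneg (A1 p + A2 p + A3 p + A4 p + A5 p + u6 p))
    linarith
  have hX : ∑ p, (∑ r, u r * S.colb s F W η c1 we p r) ^ 2
      ≤ 6 * (2 * W ^ 2 * sq u1 + 2 * W ^ 2 * (S.L * ∑ v, sq (u2 v))
        + 2 * W ^ 2 * (Cop * ∑ e, u3 e ^ 2) + 2 * W ^ 2 * sq u4
        + 2 * W ^ 2 * ∑ i, u5 i ^ 2 + 2 * W ^ 2 * ∑ i, u6 i ^ 2) := by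
    rw [hsum]
    calc ∑ p ∈ S.V s, (c1 * (A1 p + A2 p + A3 p + A4 p + A5 p + u6 p)) ^ 2
        ≤ ∑ p ∈ S.V s, 6 * (A1 p ^ 2 + A2 p ^ 2 + A3 p ^ 2 + A4 p ^ 2 + A5 p ^ 2 + u6 p ^ 2) :=
          Finset.sum_le_sum fun p _ => hsix p
      _ = 6 * (∑ p ∈ S.V s, A1 p ^ 2 + ∑ p ∈ S.V s, A2 p ^ 2 + ∑ p ∈ S.V s, A3 p ^ 2
          + ∑ p ∈ S.V s, A4 p ^ 2 + ∑ p ∈ S.V s, A5 p ^ 2 + ∑ p ∈ S.V s, u6 p ^ 2) := by
          rw [← Finset.mul_sum]; simp only [Finset.sum_add_distrib]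
      _ ≤ _ := by linarith
  refine hX.trans ?_
  rw [hnorm]
  have n1 := sq_nonneg' u1
  have n2 : 0 ≤ ∑ v, sq (u2 v) := Finset.sum_nonneg fun v _ => sq_nonneg' _
  have n3 : 0 ≤ ∑ e, u3 e ^ 2 := Finset.sum_nonneg fun i _ => sq_nonneg _
  have n4 := sq_nonneg' u4
  have n5 : 0 ≤ ∑ i, u5 i ^ 2 := Finset.sum_nonneg fun i _ => sq_nonneg _
  have n6 : 0 ≤ ∑ i, u6 i ^ 2 := Finset.sum_nonneg fun i _ => sq_nonneg _
  have hL : (0 : ℝ) ≤ S.L := Nat.cast_nonneg _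
  have key : sq u1 + S.L * ∑ v, sq (u2 v) + Cop * ∑ e, u3 e ^ 2 + sq u4
      + ∑ i, u5 i ^ 2 + ∑ i, u6 i ^ 2
      ≤ (S.L + Cop + 4) * (sq u1 + ∑ v, sq (u2 v) + ∑ e, u3 e ^ 2 + sq u4
      + ∑ i, u5 i ^ 2 + ∑ i, u6 i ^ 2) := by
    have k1 : sq u1 ≤ (S.L + Cop + 4) * sq u1 := le_mul_of_one_le_left n1 (by linarith)
    have k2 : S.L * ∑ v, sq (u2 v) ≤ (S.L + Cop + 4) * ∑ v, sq (u2 v) :=
      mul_le_mul_of_nonneg_right (by linarith) n2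
    have k3 : Cop * ∑ e, u3 e ^ 2 ≤ (S.L + Cop + 4) * ∑ e, u3 e ^ 2 :=
      mul_le_mul_of_nonneg_right (by linarith) n3
    have k4 : sq u4 ≤ (S.L + Cop + 4) * sq u4 := le_mul_of_one_le_left n4 (by linarith)
    have k5 : ∑ i, u5 i ^ 2 ≤ (S.L + Cop + 4) * ∑ i, u5 i ^ 2 :=
      le_mul_of_one_le_left n5 (by linarith)
    have k6 : ∑ i, u6 i ^ 2 ≤ (S.L + Cop + 4) * ∑ i, u6 i ^ 2 :=
      le_mul_of_one_le_left n6 (by linarith)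
    linarith
  have := mul_le_mul_of_nonneg_left key (by positivity : (0 : ℝ) ≤ 12 * W ^ 2)
  linarith

end Pool.Agent.LibKG64
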