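import Mathlib

set_option autoImplicit false

/-! Interface of module T: the batch theorem with exponential moments. -/

open Finset

namespace Pool.Agent.LibKG64

/-- The batch theorem (module T): signs with small row sums, and no exponential moment in the list grows more than for a
subgaussian vector. -/
def T2L (C c b0 : ℝ) : Prop :=
  ∀ b : ℝ, b0 ≤ b → ∀ (ι ρ K : Type) [Fintype ι] [DecidableEq ι] [Fintype ρ] [DecidableEq ρ]
    [Fintype K], (Fintype.card ι : ℝ) ≤ Real.exp (b ^ c) → (Fintype.card ρ : ℝ) ≤ Real.exp (b ^ c) →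
    (Fintype.card K : ℝ) ≤ Real.exp (b ^ c) →
    ∀ (v : ι → ρ → ℝ) (x0 : ι → ℝ) (ψ : K → ρ → ℝ) (w : K → ℝ),
    (∀ i, ∑ j, v i j ^ 2 ≤ 1) →
    (∀ u : ρ → ℝ, ∑ i, (∑ j, u j * v i j) ^ 2 ≤ b ^ c * ∑ j, u j ^ 2) →
    (∀ i, |x0 i| ≤ 1) → (∀ k, ∑ j, ψ k j ^ 2 ≤ b ^ c) → (∀ k, 0 ≤ w k) →
    ∃ x : ι → ℝ, (∀ i, x i = 1 ∨ x i = -1) ∧
      (∀ j, |∑ i, (x i - x0 i) * v i j| ≤ C * √(Real.log b)) ∧
      ∑ k, w k * Real.exp (∑ i, (x i - x0 i) * ∑ j, ψ k j * v i j)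
        ≤ Real.exp (b ^ (-c)) * ∑ k, w k * Real.exp (C * ∑ j, ψ k j ^ 2)

end Pool.Agent.LibKG64
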