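import Pool.Agent.LibKG64.BB
import Pool.Agent.LibKG64.TL

set_option autoImplicit false

/-! Task BC: one batch, from the batch theorem. -/

open Finset Matrix

namespace Pool.Agent.LibKG64

variable {ι κ E : Type} [Fintype ι] [DecidableEq ι] [Fintype κ] [DecidableEq κ]
  [Fintype E] [DecidableEq E]

/-- a linear functional of the displacement -/
theorem sum_lin_D (S : Sys ι κ) (s : ℕ) (st : St κ) (x x0 : ι → ℝ)
    (hx0 : ∀ p, S.bt p = s → x0 p = S.y st p) (f : (κ → ℝ) →ₗ[ℝ] ℝ) (g : ι → ℝ)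
    (hg : ∀ p, g p = if S.bt p = s then f (S.a p) else 0) :
    ∑ i, (x i - x0 i) * g i = f (S.D s st x) := by
  unfold Sys.D Sys.V
  rw [map_sum, Finset.sum_filter]
  refine Finset.sum_congr rfl fun p _ => ?_
  rw [hg p]
  split_ifs with h
  · rw [map_smul, smul_eq_mul, hx0 p h]
  · ring

/-- the functional `u ↦ c * (M u) j` -/
noncomputable def linM (c : ℝ) (M : Matrix κ κ ℝ) (j : κ) : (κ → ℝ) →ₗ[ℝ] ℝ :=
  c • ((LinearMap.proj j).comp M.mulVecLin)

theorem linM_apply (c : ℝ) (M : Matrix κ κ ℝ) (j : κ) (u : κ → ℝ) :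
    linM c M j u = c * (M *ᵥ u) j := by
  simp [linM]

/-- the functional `u ↦ c * (v · M u)` -/
noncomputable def linV (c : ℝ) (M : Matrix κ κ ℝ) (v : κ → ℝ) : (κ → ℝ) →ₗ[ℝ] ℝ where
  toFun u := c * (v ⬝ᵥ M *ᵥ u)
  map_add' u u' := by rw [Matrix.mulVec_add, dotProduct_add]; ring
  map_smul' r u := by
    rw [Matrix.mulVec_smul, dotProduct_smul]; simp only [smul_eq_mul, RingHom.id_apply]; ring

theorem linV_apply (c : ℝ) (M : Matrix κ κ ℝ) (v : κ → ℝ) (u : κ → ℝ) :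
    linV c M v u = c * (v ⬝ᵥ M *ᵥ u) := rfl

/-- the functional used in the potential -/
noncomputable def psiB (S : Sys ι κ) (s : ℕ) (c1 : ℝ) (θ : κ → ℝ) (χ : ι → ℝ) :
    Row ι κ E S.L → ℝ
  | Sum.inl j => θ j / c1
  | Sum.inr (Sum.inr (Sum.inr (Sum.inr (Sum.inr i)))) => if S.bt i = s then χ i / c1 else 0
  | _ => 0

theorem sum_row {L : ℕ} (f : Row ι κ E L → ℝ) :
    ∑ r, f r = ∑ j, f (Sum.inl j) + (∑ jv, f (Sum.inr (Sum.inl jv))
      + (∑ e, f (Sum.inr (Sum.inr (Sum.inl e)))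
      + (∑ j, f (Sum.inr (Sum.inr (Sum.inr (Sum.inl j))))
      + (∑ i, f (Sum.inr (Sum.inr (Sum.inr (Sum.inr (Sum.inl i)))))
      + ∑ i, f (Sum.inr (Sum.inr (Sum.inr (Sum.inr (Sum.inr i)))))))) ) := by
  rw [Fintype.sum_sum_type, Fintype.sum_sum_type, Fintype.sum_sum_type, Fintype.sum_sum_type,
    Fintype.sum_sum_type]

theorem psiB_sq (S : Sys ι κ) (s : ℕ) {c1 : ℝ} (θ : κ → ℝ) (χ : ι → ℝ) :
    ∑ r : Row ι κ E S.L, psiB S s c1 θ χ r ^ 2 = (sq θ + ∑ p ∈ S.V s, χ p ^ 2) / c1 ^ 2 := by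
  rw [sum_row]
  simp only [psiB]
  have h1 : ∑ j, (θ j / c1) ^ 2 = sq θ / c1 ^ 2 := by
    unfold sq dotProduct
    rw [Finset.sum_div]
    exact Finset.sum_congr rfl fun j _ => by rw [div_pow, pow_two (θ j)]
  have h2 : ∑ i, (if S.bt i = s then χ i / c1 else 0) ^ 2 = (∑ p ∈ S.V s, χ p ^ 2) / c1 ^ 2 := by
    unfold Sys.V
    rw [Finset.sum_filter, Finset.sum_div]
    refine Finset.sum_congr rfl fun i _ => ?_
    split_ifs
    · rw [div_pow]
    · simp
  rw [h1, h2]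
  simp only [ne_eq, OfNat.ofNat_ne_zero, not_false_eq_true, zero_pow, Finset.sum_const_zero,
    zero_add]
  rw [add_div]

theorem psiB_dot (S : Sys ι κ) {s : ℕ} (F : ℕ → Finset κ) (W η : ℝ) {c1 : ℝ} (hc0 : 0 < c1)
    (we : E → κ → ℝ) (θ : κ → ℝ) (χ : ι → ℝ) (hQ : Flag S.Q) (hθ : crit S.Q S.k s *ᵥ θ = θ)
    (p : ι) :
    ∑ r : Row ι κ E S.L, psiB S s c1 θ χ r * S.colb s F W η c1 we p r
      = if S.bt p = s then θ ⬝ᵥ S.a p + χ p else 0 := by
  rw [sum_row]
  simp only [psiB, Sys.colb, zero_mul, Finset.sum_const_zero, zero_add]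
  have hcT : (crit S.Q S.k s)ᵀ = crit S.Q S.k s := by
    unfold crit
    rw [Matrix.transpose_sub, hQ.symm, hQ.symm]
  by_cases h : S.bt p = s
  · simp only [h, if_true, true_and]
    have h1 : ∑ j, θ j / c1 * (c1 * (crit S.Q S.k s *ᵥ S.a p) j) = θ ⬝ᵥ S.a p := by
      have : ∑ j, θ j / c1 * (c1 * (crit S.Q S.k s *ᵥ S.a p) j)
          = θ ⬝ᵥ crit S.Q S.k s *ᵥ S.a p := by
        unfold dotProduct
        refine Finset.sum_congr rfl fun j _ => ?_
        field_simp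
      rw [this, Matrix.dotProduct_mulVec, ← Matrix.mulVec_transpose, hcT, hθ]
    have h2 : ∑ i, (if S.bt i = s then χ i / c1 else 0) * (if i = p then c1 else 0) = χ p := by
      rw [Finset.sum_eq_single p]
      · simp only [h, if_true]
        field_simp
      · intro i _ hi
        simp [hi]
      · intro hp
        exact absurd (Finset.mem_univ p) hp
    rw [h1, h2]
  · simp [h]

/-- One batch: apply `T2L` to the index type `ι` (columns `colb`, zero outside the batch), start `x0 p = y p` in the batch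
and `0` outside, `K = Ω ⊕ (K3 × Bool)`. The functional `θ·D` with `θ` in the range of `crit` is the vector `θ/c1` on the first
block; the functional `∑_p χ p (x p - y p)` is `χ/c1` on the last block. -/
theorem batch_step {C c b0 : ℝ} (hT : T2L C c b0) (hC : 0 < C) (hc : 0 < c)
    (S : Sys ι κ) {W η : ℝ} {T : ℕ} (hS : S.OK W η T) (hτ : ∀ v, 0 < S.τ v)
    (hm : ∀ v, S.τ v ≤ S.τ (v + 1)) {s : ℕ} (hs : s ≤ T) (st : St κ)
    (we : E → κ → ℝ) (hwe : ∀ p ∈ S.V s, ∑ e, (we e ⬝ᵥ S.a p) ^ 2 ≤ 2 * S.L + 1)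
    (hwC : ∀ e, crit S.Q S.k s *ᵥ we e = we e) {Cop : ℝ} (hCop : 0 ≤ Cop)
    (hwo : ∀ c : E → ℝ, sq (∑ e, c e • we e) ≤ Cop * ∑ e, c e ^ 2)
    {c1 : ℝ} (hc0 : 0 < c1) (hc1 : c1 ^ 2 * (4 * S.L + 8) ≤ 1)
    {b : ℝ} (hb : b0 ≤ b) (hb1 : 1 ≤ b) (hV : 12 * W ^ 2 * (S.L + Cop + 4) ≤ b ^ c)
    (hy : ∀ p ∈ S.V s, |S.y st p| ≤ 1)
    {Ω K3 : Type} [Fintype Ω] [Fintype K3]
    (hcard1 : (Fintype.card ι : ℝ) ≤ Real.exp (b ^ c))
    (hcard2 : (Fintype.card (Row ι κ E S.L) : ℝ) ≤ Real.exp (b ^ c))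
    (hcard3 : (Fintype.card Ω + 2 * Fintype.card K3 : ℝ) ≤ Real.exp (b ^ c))
    (θ : Ω → κ → ℝ) (hθ : ∀ o, crit S.Q S.k s *ᵥ θ o = θ o) (χ : Ω → ι → ℝ) (w : Ω → ℝ)
    (hw : ∀ o, 0 ≤ w o) (hθχ : ∀ o, (sq (θ o) + ∑ p, χ o p ^ 2) / c1 ^ 2 ≤ b ^ c)
    (φ : K3 → κ → ℝ) (hφ : ∀ i, crit S.Q S.k s *ᵥ φ i = φ i) (hφ1 : ∀ i, sq (φ i) ≤ 1)
    {t δ : ℝ} (ht : 0 ≤ t) (ht2 : t ^ 2 / c1 ^ 2 ≤ b ^ c) (hδ : 0 ≤ δ) :
    ∃ x : ι → ℝ, (∀ p, x p = 1 ∨ x p = -1) ∧
      (∀ j, |(crit S.Q S.k s *ᵥ S.D s st x) j| ≤ C * √(Real.log b) / c1) ∧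
      (∀ v < S.L, ∀ j, |(S.Q (s + S.k) *ᵥ (Ze S.Q S.k S.τ st.F s v *ᵥ S.D s st x)) j|
        ≤ C * √(Real.log b) / c1) ∧
      (∀ e, |we e ⬝ᵥ S.D s st x| ≤ C * √(Real.log b) / c1) ∧
      (∀ j, |(S.Sd s *ᵥ S.D s st x) j| ≤ 4 * η * (C * √(Real.log b) / c1)) ∧
      (∀ i ∈ S.U s, √(W / 2) * |S.a i ⬝ᵥ S.Bi s *ᵥ S.D s st x| ≤ C * √(Real.log b) / c1) ∧
      ∑ o, w o * Real.exp (θ o ⬝ᵥ S.D s st x + ∑ p ∈ S.V s, χ o p * (x p - S.y st p))
          + δ * ∑ i, (Real.exp (t * (φ i ⬝ᵥ S.D s st x))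
            + Real.exp (-(t * (φ i ⬝ᵥ S.D s st x))))
        ≤ Real.exp (b ^ (-c)) * (∑ o, w o * Real.exp (C / c1 ^ 2 * (sq (θ o)
              + ∑ p ∈ S.V s, χ o p ^ 2))
            + δ * (2 * Fintype.card K3) * Real.exp (C / c1 ^ 2 * t ^ 2)) := by
  classical
  have hc1' : c1 ≤ 1 := by
    have hL : (0 : ℝ) ≤ S.L := Nat.cast_nonneg _
    nlinarith [sq_nonneg (c1 - 1), sq_nonneg c1, mul_nonneg (sq_nonneg c1) hL]
  have hF : ∀ v, st.F (v + 1) ⊆ st.F v := by
    intro v j hj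
    simp only [St.F, Finset.mem_filter, Finset.mem_univ, true_and] at hj ⊢
    omega
  obtain ⟨x, hx, hrow, hpot⟩ := hT b hb ι (Row ι κ E S.L) (Ω ⊕ (K3 × Bool)) hcard1 hcard2
    (by
      rw [Fintype.card_sum, Fintype.card_prod, Fintype.card_bool]
      push_cast
      linarith)
    (S.colb s st.F W η c1 we) (fun p => if S.bt p = s then S.y st p else 0)
    (Sum.elim (fun o => psiB S s c1 (θ o) (χ o))
      (fun ib => psiB S s c1 ((if ib.2 then t else -t) • φ ib.1) 0))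
    (Sum.elim w (fun _ => δ))
    (fun p => colb_norm S hS hτ hm hs st.F hF hc1 we hwe p)
    (fun u => (colb_op S hS hτ hm hs st.F hF hc0.le hc1' we hwC hCop hwo u).trans
      (mul_le_mul_of_nonneg_right hV (Finset.sum_nonneg fun _ _ => sq_nonneg _)))
    (fun p => by
      by_cases h : S.bt p = s
      · simp only [h, if_true]
        exact hy p (by simp [Sys.V, h])
      · simp [h])
    (by
      rintro (o | ⟨i, e⟩)
      · simp only [Sum.elim_inl]
        rw [psiB_sq]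
        refine le_trans ?_ (hθχ o)
        gcongr
        exact Finset.subset_univ _
      · simp only [Sum.elim_inr]
        rw [psiB_sq]
        refine le_trans ?_ ht2
        have h1 : sq ((if e then t else -t) • φ i) = t ^ 2 * sq (φ i) := by
          unfold sq
          rw [smul_dotProduct, dotProduct_smul]
          cases e <;> simp <;> ring
        rw [h1]
        have h2 : ∑ p ∈ S.V s, (0 : ι → ℝ) p ^ 2 = 0 := by simp
        rw [h2, add_zero]
        gcongr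
        nlinarith [hφ1 i, sq_nonneg t])
    (by
      rintro (o | ib)
      · exact hw o
      · exact hδ)
  have hx0 : ∀ p, S.bt p = s → (fun p => if S.bt p = s then S.y st p else 0) p = S.y st p := by
    intro p hp
    simp [hp]
  have key : ∀ (f : (κ → ℝ) →ₗ[ℝ] ℝ) (r : Row ι κ E S.L),
      (∀ p, S.colb s st.F W η c1 we p r = if S.bt p = s then f (S.a p) else 0) →
      |f (S.D s st x)| ≤ C * √(Real.log b) := by
    intro f r hf
    rw [← sum_lin_D S s st x _ hx0 f (fun p => S.colb s st.F W η c1 we p r) hf]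
    exact hrow r
  have hCs : 0 ≤ C * √(Real.log b) := mul_nonneg hC.le (Real.sqrt_nonneg _)
  refine ⟨x, hx, ?_, ?_, ?_, ?_, ?_, ?_⟩
  · intro j
    have h := key (linM c1 (crit S.Q S.k s) j) (Sum.inl j) (fun p => by
      simp only [Sys.colb, linM_apply])
    rw [linM_apply, abs_mul, abs_of_pos hc0] at h
    rw [le_div_iff₀ hc0, mul_comm]
    exact h
  · intro v hv j
    have h := key (linM c1 (S.Q (s + S.k) * Ze S.Q S.k S.τ st.F s v) j)
      (Sum.inr (Sum.inl (j, ⟨v, hv⟩))) (fun p => by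
      simp only [Sys.colb, linM_apply, Matrix.mulVec_mulVec])
    rw [linM_apply, abs_mul, abs_of_pos hc0] at h
    rw [le_div_iff₀ hc0, mul_comm, Matrix.mulVec_mulVec]
    exact h
  · intro e
    have h := key (linV c1 1 (we e)) (Sum.inr (Sum.inr (Sum.inl e))) (fun p => by
      simp only [Sys.colb, linV_apply, Matrix.one_mulVec])
    rw [linV_apply, abs_mul, abs_of_pos hc0, Matrix.one_mulVec] at h
    rw [le_div_iff₀ hc0, mul_comm]
    exact h
  · intro j
    have hη := hS.ηpos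
    have h := key (linM (c1 / (4 * η)) (S.Sd s) j) (Sum.inr (Sum.inr (Sum.inr (Sum.inl j))))
      (fun p => by simp only [Sys.colb, linM_apply])
    have hpos : 0 < c1 / (4 * η) := by positivity
    rw [linM_apply, abs_mul, abs_of_pos hpos] at h
    have h2 : |(S.Sd s *ᵥ S.D s st x) j| ≤ C * √(Real.log b) / (c1 / (4 * η)) := by
      rw [le_div_iff₀ hpos, mul_comm]
      exact h
    refine h2.trans (le_of_eq ?_)
    field_simp
  · intro i hi
    have hi' : s < S.bt i := by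
      simpa [Sys.U] using hi
    have h := key (linV (c1 * √(W / 2)) (S.Bi s) (S.a i))
      (Sum.inr (Sum.inr (Sum.inr (Sum.inr (Sum.inl i))))) (fun p => by
      simp only [Sys.colb, linV_apply, hi', and_true])
    rw [linV_apply, abs_mul, abs_mul, abs_of_pos hc0, abs_of_nonneg (Real.sqrt_nonneg _)] at h
    rw [le_div_iff₀ hc0]
    calc √(W / 2) * |S.a i ⬝ᵥ S.Bi s *ᵥ S.D s st x| * c1
        = c1 * √(W / 2) * |S.a i ⬝ᵥ S.Bi s *ᵥ S.D s st x| := by ring
      _ ≤ _ := h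
  · -- potential
    have hdot : ∀ (θ' : κ → ℝ) (χ' : ι → ℝ), crit S.Q S.k s *ᵥ θ' = θ' →
        ∑ i, (x i - (if S.bt i = s then S.y st i else 0)) *
          ∑ r : Row ι κ E S.L, psiB S s c1 θ' χ' r * S.colb s st.F W η c1 we i r
        = θ' ⬝ᵥ S.D s st x + ∑ p ∈ S.V s, χ' p * (x p - S.y st p) := by
      intro θ' χ' hθ'
      have e1 : θ' ⬝ᵥ S.D s st x = ∑ i, (x i - (if S.bt i = s then S.y st i else 0)) *
          (if S.bt i = s then θ' ⬝ᵥ S.a i else 0) := by
        have := sum_lin_D S s st x _ hx0 (linV 1 1 θ')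
          (fun p => if S.bt p = s then θ' ⬝ᵥ S.a p else 0) (fun p => by
            rw [linV_apply, one_mul, Matrix.one_mulVec])
        rw [linV_apply, one_mul, Matrix.one_mulVec] at this
        exact this.symm
      have e2 : ∑ p ∈ S.V s, χ' p * (x p - S.y st p)
          = ∑ i, (x i - (if S.bt i = s then S.y st i else 0)) *
            (if S.bt i = s then χ' i else 0) := by
        unfold Sys.V
        rw [Finset.sum_filter]
        refine Finset.sum_congr rfl fun i _ => ?_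
        split_ifs <;> ring
      rw [e1, e2, ← Finset.sum_add_distrib]
      refine Finset.sum_congr rfl fun i _ => ?_
      rw [psiB_dot S st.F W η hc0 we θ' χ' hS.flag hθ' i]
      split_ifs <;> ring
    have hφt : ∀ (i : K3) (r : ℝ), crit S.Q S.k s *ᵥ (r • φ i) = r • φ i := by
      intro i r
      rw [Matrix.mulVec_smul, hφ i]
    rw [Fintype.sum_sum_type, Fintype.sum_sum_type] at hpot
    simp only [Sum.elim_inl, Sum.elim_inr] at hpot
    have hL : ∑ o, w o * Real.exp (θ o ⬝ᵥ S.D s st x + ∑ p ∈ S.V s, χ o p * (x p - S.y st p))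
          + δ * ∑ i, (Real.exp (t * (φ i ⬝ᵥ S.D s st x))
            + Real.exp (-(t * (φ i ⬝ᵥ S.D s st x))))
        = ∑ o, w o * Real.exp (∑ i, (x i - (if S.bt i = s then S.y st i else 0)) *
            ∑ r : Row ι κ E S.L, psiB S s c1 (θ o) (χ o) r * S.colb s st.F W η c1 we i r)
          + ∑ ib : K3 × Bool, δ * Real.exp (∑ i, (x i - (if S.bt i = s then S.y st i else 0)) *
            ∑ r : Row ι κ E S.L, psiB S s c1 ((if ib.2 then t else -t) • φ ib.1) 0 r *
              S.colb s st.F W η c1 we i r) := by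
      congr 1
      · refine Finset.sum_congr rfl fun o _ => ?_
        rw [hdot _ _ (hθ o)]
      · rw [Fintype.sum_prod_type, Finset.mul_sum]
        refine Finset.sum_congr rfl fun i _ => ?_
        rw [Fintype.sum_bool]
        simp only [if_true, Bool.false_eq_true, if_false]
        rw [hdot _ _ (hφt i t), hdot _ _ (hφt i (-t))]
        simp only [Pi.zero_apply, zero_mul, Finset.sum_const_zero, add_zero]
        rw [smul_dotProduct, smul_dotProduct, smul_eq_mul, smul_eq_mul, neg_mul]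
        ring
    rw [hL]
    refine hpot.trans ?_
    refine mul_le_mul_of_nonneg_left ?_ (Real.exp_pos _).le
    refine add_le_add ?_ ?_
    · refine le_of_eq (Finset.sum_congr rfl fun o _ => ?_)
      rw [psiB_sq]
      congr 2
      ring
    · have hb2 : ∀ ib : K3 × Bool, δ * Real.exp (C * ∑ r : Row ι κ E S.L,
          psiB S s c1 ((if ib.2 then t else -t) • φ ib.1) 0 r ^ 2)
          ≤ δ * Real.exp (C / c1 ^ 2 * t ^ 2) := by
        rintro ⟨i, e⟩
        refine mul_le_mul_of_nonneg_left (Real.exp_le_exp.mpr ?_) hδ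
        rw [psiB_sq]
        have h1 : sq ((if e then t else -t) • φ i) = t ^ 2 * sq (φ i) := by
          unfold sq
          rw [smul_dotProduct, dotProduct_smul]
          cases e <;> simp <;> ring
        have h2 : ∑ p ∈ S.V s, (0 : ι → ℝ) p ^ 2 = 0 := by simp
        rw [h2, add_zero]
        simp only
        rw [h1]
        have h3 : t ^ 2 * sq (φ i) ≤ t ^ 2 := by nlinarith [hφ1 i, sq_nonneg t]
        calc C * (t ^ 2 * sq (φ i) / c1 ^ 2) ≤ C * (t ^ 2 / c1 ^ 2) := by gcongr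
          _ = C / c1 ^ 2 * t ^ 2 := by ring
      refine (Finset.sum_le_sum fun ib _ => hb2 ib).trans (le_of_eq ?_)
      rw [Finset.sum_const, nsmul_eq_mul, Finset.card_univ, Fintype.card_prod, Fintype.card_bool]
      push_cast
      ring

end Pool.Agent.LibKG64
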