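import Pool.Agent.LibKG64.B2

set_option autoImplicit false

/-! Task C1: supports and recursion of the stages. `z_v = Zm v *ᵥ D`, `ζ_v = Ze v *ᵥ D`. -/

open Finset Matrix

namespace Pool.Agent.LibKG64

variable {κ : Type*} [Fintype κ] [DecidableEq κ]

/-- restriction to a smaller set after a larger one -/
theorem res_res_sub {F F' : Finset κ} (h : F ⊆ F') (x : κ → ℝ) :
    res F (res F' x) = res F x := by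
  funext j
  unfold res
  by_cases hj : j ∈ F
  · simp [hj, h hj]
  · simp [hj]

theorem Zm_zero (Q : ℕ → Matrix κ κ ℝ) (k : ℕ) (τ : ℕ → ℝ) (F : ℕ → Finset κ) (s : ℕ)
    (D : κ → ℝ) : Zm Q k τ F s 0 *ᵥ D = res (F 0) (crit Q k s *ᵥ D) := by
  rw [Zm, ← Matrix.mulVec_mulVec, ind_mulVec]

theorem Zm_succ (Q : ℕ → Matrix κ κ ℝ) (k : ℕ) (τ : ℕ → ℝ) (F : ℕ → Finset κ) (s v : ℕ)
    (D : κ → ℝ) : Zm Q k τ F s (v + 1) *ᵥ D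
      = res (F (v + 1)) (Zm Q k τ F s v *ᵥ D - Q (s + k) *ᵥ (Ze Q k τ F s v *ᵥ D)) := by
  rw [Zm, ← Matrix.mulVec_mulVec, ind_mulVec, Matrix.sub_mulVec, ← Matrix.mulVec_mulVec, Ze]

theorem Ze_eq (Q : ℕ → Matrix κ κ ℝ) (k : ℕ) (τ : ℕ → ℝ) (F : ℕ → Finset κ) (s v : ℕ)
    (D : κ → ℝ) : Ze Q k τ F s v *ᵥ D
      = (That (Q s) (F v) (τ v))⁻¹ *ᵥ (Zm Q k τ F s v *ᵥ D) := by
  rw [Ze, ← Matrix.mulVec_mulVec]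

theorem Zm_supp (Q : ℕ → Matrix κ κ ℝ) (k : ℕ) (τ : ℕ → ℝ) (F : ℕ → Finset κ) (s v : ℕ)
    (D : κ → ℝ) : res (F v) (Zm Q k τ F s v *ᵥ D) = Zm Q k τ F s v *ᵥ D := by
  cases v with
  | zero => rw [Zm_zero, res_res]
  | succ v => rw [Zm_succ, res_res]

theorem Ze_supp {Q : ℕ → Matrix κ κ ℝ} (hQ : Flag Q) (k : ℕ) (τ : ℕ → ℝ) (hτ : ∀ v, 0 < τ v)
    (F : ℕ → Finset κ) (s v : ℕ) (D : κ → ℝ) :
    res (F v) (Ze Q k τ F s v *ᵥ D) = Ze Q k τ F s v *ᵥ D := by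
  rw [Ze_eq]
  exact That_inv_res (Q s) (fun x => flag_nonneg hQ s x) (F v) (hτ v) _ (Zm_supp Q k τ F s v D)

/-- `That ζ = z` written out: `z_v = I_F Q_s ζ_v + τ_v ζ_v` -/
theorem Zm_eq_Ze {Q : ℕ → Matrix κ κ ℝ} (hQ : Flag Q) (k : ℕ) (τ : ℕ → ℝ) (hτ : ∀ v, 0 < τ v)
    (F : ℕ → Finset κ) (s v : ℕ) (D : κ → ℝ) :
    Zm Q k τ F s v *ᵥ D
      = res (F v) (Q s *ᵥ (Ze Q k τ F s v *ᵥ D)) + τ v • (Ze Q k τ F s v *ᵥ D) := by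
  have h1 := That_inv_mulVec (Q s) (fun x => flag_nonneg hQ s x) (F v) (hτ v)
    (Zm Q k τ F s v *ᵥ D)
  rw [← Ze_eq, That_mulVec, Ze_supp hQ k τ hτ F s v D] at h1
  exact h1.symm

/-- the residual on `F_v`: `I_F (z - Q' ζ) = I_F C ζ + τ ζ` -/
theorem resid_eq {Q : ℕ → Matrix κ κ ℝ} (hQ : Flag Q) (k : ℕ) (τ : ℕ → ℝ) (hτ : ∀ v, 0 < τ v)
    (F : ℕ → Finset κ) (s v : ℕ) (D : κ → ℝ) :
    res (F v) (Zm Q k τ F s v *ᵥ D - Q (s + k) *ᵥ (Ze Q k τ F s v *ᵥ D))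
      = res (F v) (crit Q k s *ᵥ (Ze Q k τ F s v *ᵥ D)) + τ v • (Ze Q k τ F s v *ᵥ D) := by
  rw [res_sub, Zm_supp, crit, Matrix.sub_mulVec, res_sub]
  conv_lhs => rw [Zm_eq_Ze hQ k τ hτ F s v D]
  abel

/-- `z_{v+1} = I_{v+1} (C ζ_v + τ_v ζ_v)` -/
theorem Zm_succ' {Q : ℕ → Matrix κ κ ℝ} (hQ : Flag Q) (k : ℕ) (τ : ℕ → ℝ) (hτ : ∀ v, 0 < τ v)
    (F : ℕ → Finset κ) (hF : ∀ v, F (v + 1) ⊆ F v) (s v : ℕ) (D : κ → ℝ) :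
    Zm Q k τ F s (v + 1) *ᵥ D
      = res (F (v + 1)) (crit Q k s *ᵥ (Ze Q k τ F s v *ᵥ D) + τ v • (Ze Q k τ F s v *ᵥ D)) := by
  rw [Zm_succ, ← res_res_sub (hF v), resid_eq hQ k τ hτ F s v D, res_add, res_res_sub (hF v),
    ← res_add]

theorem dot_transpose (M : Matrix κ κ ℝ) (x y : κ → ℝ) : x ⬝ᵥ Mᵀ *ᵥ y = (M *ᵥ x) ⬝ᵥ y := by
  rw [Matrix.dotProduct_mulVec, Matrix.vecMul_transpose]

/-- the transposed control stage only sees the rows in `F v` -/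
theorem Ze_transpose_res {Q : ℕ → Matrix κ κ ℝ} (hQ : Flag Q) (k : ℕ) (τ : ℕ → ℝ)
    (hτ : ∀ v, 0 < τ v) (F : ℕ → Finset κ) (s v : ℕ) (x : κ → ℝ) :
    (Ze Q k τ F s v)ᵀ *ᵥ res (F v) x = (Ze Q k τ F s v)ᵀ *ᵥ x := by
  apply dotProduct_eq
  intro D
  rw [dotProduct_comm, dot_transpose, dotProduct_comm _ D, dot_transpose,
    ← Ze_supp hQ k τ hτ F s v D, res_dot_res]

/-- transposed recursion: `Z_{v+1}ᵀ u = Z_vᵀ T⁻¹ X (I_{v+1} u)`, `X w = I_F C I_F w + τ w` -/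
theorem Zm_transpose {Q : ℕ → Matrix κ κ ℝ} (hQ : Flag Q) (k : ℕ) (τ : ℕ → ℝ)
    (hτ : ∀ v, 0 < τ v) (F : ℕ → Finset κ) (hF : ∀ v, F (v + 1) ⊆ F v) (s v : ℕ) (u : κ → ℝ) :
    (Zm Q k τ F s (v + 1))ᵀ *ᵥ u = (Zm Q k τ F s v)ᵀ *ᵥ ((That (Q s) (F v) (τ v))⁻¹ *ᵥ
      (res (F v) (crit Q k s *ᵥ res (F v) (res (F (v + 1)) u)) + τ v • res (F (v + 1)) u)) := by
  set w := res (F (v + 1)) u with hw
  have hsup : res (F v) w = w := by rw [hw, res_res_of_subset (hF v)]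
  set T := That (Q s) (F v) (τ v) with hT
  have hTs : (T⁻¹)ᵀ = T⁻¹ := That_inv_symm (Q s) (hQ.symm s) (F v) (τ v)
  have hP : ∀ x : κ → ℝ, 0 ≤ x ⬝ᵥ Q s *ᵥ x := fun x => flag_nonneg hQ s x
  have hZe : (Ze Q k τ F s v)ᵀ = (Zm Q k τ F s v)ᵀ * T⁻¹ := by
    rw [Ze, Matrix.transpose_mul, ← hT, hTs]
  have h1 : (Zm Q k τ F s (v + 1))ᵀ *ᵥ u
      = (Zm Q k τ F s v)ᵀ *ᵥ w - (Ze Q k τ F s v)ᵀ *ᵥ (Q (s + k) *ᵥ w) := by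
    rw [Zm, Matrix.transpose_mul, ind_transpose, ← Matrix.mulVec_mulVec, ind_mulVec, ← hw,
      Matrix.transpose_sub, Matrix.sub_mulVec, Matrix.transpose_mul, hQ.symm,
      ← Matrix.mulVec_mulVec, ← hT]
    rfl
  have hinv : T⁻¹ *ᵥ (T *ᵥ w) = w := by
    rw [Matrix.mulVec_mulVec, Matrix.nonsing_inv_mul _ (That_det (Q s) hP (F v) (hτ v)),
      Matrix.one_mulVec]
  have h2 : (Zm Q k τ F s v)ᵀ *ᵥ w
      = (Ze Q k τ F s v)ᵀ *ᵥ (res (F v) (Q s *ᵥ w) + τ v • w) := by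
    conv_lhs => rw [← hinv]
    rw [hT, That_mulVec, hsup, ← hT, Matrix.mulVec_mulVec, ← hZe]
  rw [h1, h2, ← Ze_transpose_res hQ k τ hτ F s v (Q (s + k) *ᵥ w), ← Matrix.mulVec_sub,
    Matrix.mulVec_mulVec, ← hZe, hsup, crit, Matrix.sub_mulVec, res_sub]
  congr 1
  abel

theorem Zm_transpose_zero {Q : ℕ → Matrix κ κ ℝ} (hQ : Flag Q) (k : ℕ) (τ : ℕ → ℝ)
    (F : ℕ → Finset κ) (s : ℕ) (u : κ → ℝ) :
    (Zm Q k τ F s 0)ᵀ *ᵥ u = crit Q k s *ᵥ res (F 0) u := by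
  rw [Zm, Matrix.transpose_mul, ind_transpose, crit_symm hQ, ← Matrix.mulVec_mulVec, ind_mulVec]

end Pool.Agent.LibKG64
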