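import Pool.Agent.LibKG64.C1

set_option autoImplicit false

/-! Task C2: (LA1). -/

open Finset Matrix

namespace Pool.Agent.LibKG64

variable {κ : Type*} [Fintype κ] [DecidableEq κ]

/-- Abstract step: `T` symmetric with `0 ≤ w·X w ≤ w·T w`, `X` symmetric, `u = T⁻¹ X w` (i.e. `T u = X w`).
Then `u·X u ≤ u·T u ≤ w·X w`. (`u·Tu = u·Xw ≤ √(u·Xu) √(w·Xw) ≤ √(u·Tu) √(w·Xw)`.) -/
theorem step_form (T X : Matrix κ κ ℝ) (hT : Tᵀ = T) (hX : Xᵀ = X)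
    (h0 : ∀ w, 0 ≤ w ⬝ᵥ X *ᵥ w) (h1 : ∀ w, w ⬝ᵥ X *ᵥ w ≤ w ⬝ᵥ T *ᵥ w) (u w : κ → ℝ)
    (h : T *ᵥ u = X *ᵥ w) : u ⬝ᵥ X *ᵥ u ≤ w ⬝ᵥ X *ᵥ w := by
  have h2 := h0 (u - w)
  have h3 : (u - w) ⬝ᵥ X *ᵥ (u - w) = u ⬝ᵥ X *ᵥ u - 2 * (u ⬝ᵥ X *ᵥ w) + w ⬝ᵥ X *ᵥ w := by
    have h4 : w ⬝ᵥ X *ᵥ u = u ⬝ᵥ X *ᵥ w := by
      rw [sym_dot X hX w u, dotProduct_comm]
    rw [Matrix.mulVec_sub, sub_dotProduct, dotProduct_sub, dotProduct_sub, h4]
    ring
  have h5 : u ⬝ᵥ T *ᵥ u = u ⬝ᵥ X *ᵥ w := by rw [h]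
  have h6 := h1 u
  linarith

/-- (LA1): `|Z_vᵀ u|² ≤ (I_v u)·C (I_v u) + τ_{v-1} |I_v u|²`, with `τ_{-1} = 0`. Induction on `v` with
`Zm_transpose`, `step_form` for `T = That (Q s) (F v) (τ v)` and `X = ind F * C * ind F + τ v • 1`; note
`τ_{v-1} ≤ τ_v`. -/
theorem LA1 {Q : ℕ → Matrix κ κ ℝ} (hQ : Flag Q) (k : ℕ) (τ : ℕ → ℝ)
    (hτ : ∀ v, 0 < τ v) (hm : ∀ v, τ v ≤ τ (v + 1)) (F : ℕ → Finset κ)
    (hF : ∀ v, F (v + 1) ⊆ F v) (s v : ℕ) (u : κ → ℝ) :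
    sq ((Zm Q k τ F s v)ᵀ *ᵥ u) ≤ res (F v) u ⬝ᵥ crit Q k s *ᵥ res (F v) u
      + (if v = 0 then 0 else τ (v - 1)) * sq (res (F v) u) := by
  induction v generalizing u with
  | zero =>
    rw [Zm_transpose_zero hQ, crit_dot hQ]
    simp
  | succ v ih =>
    set w := res (F (v + 1)) u with hw
    have hsup : res (F v) w = w := by rw [hw, res_res_of_subset (hF v)]
    have hP : ∀ x : κ → ℝ, 0 ≤ x ⬝ᵥ Q s *ᵥ x := fun x => flag_nonneg hQ s x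
    have hC : ∀ x : κ → ℝ, 0 ≤ x ⬝ᵥ crit Q k s *ᵥ x := fun x => crit_nonneg hQ k s x
    have hCQ : ∀ x : κ → ℝ, x ⬝ᵥ crit Q k s *ᵥ x ≤ x ⬝ᵥ Q s *ᵥ x := by
      intro x
      rw [crit_dot_eq]
      have := flag_nonneg hQ (s + k) x
      linarith
    have hX : ∀ x, That (crit Q k s) (F v) (τ v) *ᵥ x
        = res (F v) (crit Q k s *ᵥ res (F v) x) + τ v • x := fun x =>
      That_mulVec (crit Q k s) (F v) (τ v) x
    have hXd : ∀ x, x ⬝ᵥ That (crit Q k s) (F v) (τ v) *ᵥ x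
        = res (F v) x ⬝ᵥ crit Q k s *ᵥ res (F v) x + τ v * sq x := fun x =>
      That_dot (crit Q k s) (F v) (τ v) x
    rw [Zm_transpose hQ k τ hτ F hF s v u, ← hw, ← hX w]
    set u' := (That (Q s) (F v) (τ v))⁻¹ *ᵥ (That (crit Q k s) (F v) (τ v) *ᵥ w) with hu'
    have hXsup : res (F v) (That (crit Q k s) (F v) (τ v) *ᵥ w)
        = That (crit Q k s) (F v) (τ v) *ᵥ w := by
      rw [hX w, res_add, res_res, res_smul, hsup]
    have husup : res (F v) u' = u' := That_inv_res (Q s) hP (F v) (hτ v) _ hXsup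
    have hTu : That (Q s) (F v) (τ v) *ᵥ u' = That (crit Q k s) (F v) (τ v) *ᵥ w :=
      That_inv_mulVec (Q s) hP (F v) (hτ v) _
    have hstep := step_form (That (Q s) (F v) (τ v)) (That (crit Q k s) (F v) (τ v))
      (That_symm (Q s) (hQ.symm s) (F v) (τ v))
      (That_symm (crit Q k s) (crit_symm hQ k s) (F v) (τ v))
      (fun x => by
        rw [hXd]
        have := hC (res (F v) x)
        have := mul_nonneg (hτ v).le (sq_nonneg' x)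
        linarith)
      (fun x => by
        rw [hXd, That_dot]
        have := hCQ (res (F v) x)
        linarith) u' w hTu
    rw [hXd, hXd, husup, hsup] at hstep
    have hI := ih u'
    rw [husup] at hI
    have hle : (if v = 0 then 0 else τ (v - 1)) ≤ τ v := by
      split
      · exact (hτ v).le
      · rename_i h
        obtain ⟨m, rfl⟩ : ∃ m, v = m + 1 := ⟨v - 1, by omega⟩
        exact hm m
    have h9 := mul_le_mul_of_nonneg_right hle (sq_nonneg' u')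
    rw [if_neg (Nat.succ_ne_zero v), Nat.add_sub_cancel]
    linarith

end Pool.Agent.LibKG64
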