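import Mathlib

set_option autoImplicit false

/-!
General Komlós bound: the final theorem, from the core statement (`k` large, at most `n ^ 2` rows,
`log n ≤ 2 ^ k`, bound `C k ^ 6`).
-/

open Finset

namespace Pool.Agent.LibKG64

/-- the core statement: bound `C * k ^ 6` for `n` vectors with `log n ≤ 2 ^ k` and at most `n ^ 2`
coordinates -/
def Core (C : ℝ) (k0 : ℕ) : Prop :=
  ∀ k : ℕ, k0 ≤ k → ∀ n : ℕ, 1 ≤ n → Real.log n ≤ 2 ^ k →
    ∀ (κ : Type) [Fintype κ] [DecidableEq κ], Fintype.card κ ≤ n ^ 2 →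
    ∀ a : Fin n → κ → ℝ, (∀ p, ∑ j, a p j ^ 2 ≤ 1) →
    ∃ ε : Fin n → ℝ, (∀ p, ε p = 1 ∨ ε p = -1) ∧ ∀ j, |∑ p, ε p * a p j| ≤ C * (k : ℝ) ^ 6

/-- `log log (n + 16) ≥ 1` -/
theorem loglog_ge (n : ℕ) : 1 ≤ Real.log (Real.log (n + 16)) := by
  have h16 : Real.log 16 = 4 * Real.log 2 := by
    rw [show (16 : ℝ) = 2 ^ 4 by norm_num, Real.log_pow]; norm_num
  have h2 := Real.log_two_gt_d9
  have he := Real.exp_one_lt_d9
  have h1 : Real.exp 1 ≤ Real.log (n + 16) := by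
    have : Real.log 16 ≤ Real.log (n + 16) := Real.log_le_log (by norm_num) (by
      have : (0 : ℝ) ≤ n := Nat.cast_nonneg n
      linarith)
    linarith
  rw [Real.le_log_iff_exp_le (lt_of_lt_of_le (Real.exp_pos 1) h1)]
  exact h1

/-- a natural number `k1` with `y ≤ 2 ^ k1` and `k1 ≤ 4 log y`, if `log y ≥ 1` -/
theorem exists_k1 (y : ℝ) (hy : 1 ≤ Real.log y) (hy0 : 0 < y) :
    ∃ k1 : ℕ, y ≤ 2 ^ k1 ∧ (k1 : ℝ) ≤ 4 * Real.log y := by
  have hy1 : 1 ≤ y := by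
    have : Real.exp 1 ≤ y := (Real.le_log_iff_exp_le hy0).1 hy
    have h2 := Real.add_one_le_exp (1 : ℝ)
    linarith
  refine ⟨Nat.clog 2 ⌈y⌉₊, ?_, ?_⟩
  · have h1 : ⌈y⌉₊ ≤ 2 ^ Nat.clog 2 ⌈y⌉₊ := Nat.le_pow_clog (by norm_num) _
    have h2 : (⌈y⌉₊ : ℝ) ≤ (2 : ℝ) ^ Nat.clog 2 ⌈y⌉₊ := by exact_mod_cast h1
    exact (Nat.le_ceil y).trans h2
  · rcases Nat.eq_zero_or_pos (Nat.clog 2 ⌈y⌉₊) with h0 | hpos
    · rw [h0]; push_cast; linarith
    · have h1 : 2 ^ (Nat.clog 2 ⌈y⌉₊ - 1) < ⌈y⌉₊ := by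
        apply Nat.pow_pred_clog_lt_self (by norm_num)
        by_contra h
        push Not at h
        have : Nat.clog 2 ⌈y⌉₊ = 0 := Nat.clog_of_right_le_one h 2
        omega
      have h2 : (2 : ℝ) ^ (Nat.clog 2 ⌈y⌉₊ - 1) < ⌈y⌉₊ := by exact_mod_cast h1
      have h3 : (⌈y⌉₊ : ℝ) < y + 1 := Nat.ceil_lt_add_one (by linarith)
      have h4 : (2 : ℝ) ^ (Nat.clog 2 ⌈y⌉₊ - 1) ≤ 2 * y := by linarith
      have h5 := Real.log_le_log (by positivity) h4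
      rw [Real.log_pow, Real.log_mul (by norm_num) hy0.ne'] at h5
      have h6 : ((Nat.clog 2 ⌈y⌉₊ - 1 : ℕ) : ℝ) = (Nat.clog 2 ⌈y⌉₊ : ℝ) - 1 := by
        rw [Nat.cast_sub hpos]; norm_num
      rw [h6] at h5
      have h7 := Real.log_two_gt_d9
      have h8 := Real.log_two_lt_d9
      set K : ℝ := (Nat.clog 2 ⌈y⌉₊ : ℝ)
      -- (K - 1) log 2 ≤ log 2 + log y
      by_contra hcon
      push Not at hcon
      have h9 : (4 * Real.log y - 1) * Real.log 2 < (K - 1) * Real.log 2 := by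
        apply mul_lt_mul_of_pos_right _ (by linarith)
        linarith
      nlinarith

/-- the final theorem from the core statement -/
theorem final_of_core (C : ℝ) (hC : 0 ≤ C) (k0 : ℕ) (hcore : Core C k0) :
    ∃ C' : ℝ, 0 < C' ∧ ∀ (n d : ℕ) (v : Fin n → Fin d → ℝ), (∀ i, ∑ j, (v i j) ^ 2 ≤ 1) →
      ∃ e : Fin n → ℝ, (∀ i, e i = 1 ∨ e i = -1) ∧ ∀ j,
        |∑ i, e i * v i j| ≤ C' * Real.log (Real.log (n + 16)) ^ 6 := by
  refine ⟨C * (k0 + 4) ^ 6 + 1, by positivity, ?_⟩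
  intro n d v hv
  set y : ℝ := Real.log (n + 16) with hy
  have hly : 1 ≤ Real.log y := loglog_ge n
  have hy0 : 0 < y := by
    have h0 : (0 : ℝ) ≤ n := Nat.cast_nonneg n
    apply Real.log_pos; linarith
  obtain ⟨k1, hk1, hk1'⟩ := exists_k1 y hly hy0
  rcases Nat.eq_zero_or_pos n with hn | hn
  · subst hn
    refine ⟨fun _ => 1, fun i => i.elim0, fun j => ?_⟩
    simp only [Finset.univ_eq_empty, Finset.sum_empty, abs_zero]
    positivity
  have hn0 : (0 : ℝ) < n := by exact_mod_cast hn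
  -- the heavy coordinates
  let H : Type := {j : Fin d // 1 / (n : ℝ) < ∑ i, v i j ^ 2}
  have hcard : Fintype.card H ≤ n ^ 2 := by
    have hsum : ∑ j : Fin d, ∑ i, v i j ^ 2 ≤ n := by
      rw [Finset.sum_comm]
      calc ∑ i, ∑ j, v i j ^ 2 ≤ ∑ _i : Fin n, (1 : ℝ) := Finset.sum_le_sum (fun i _ => hv i)
        _ = n := by simp
    have h1 : (Fintype.card H : ℝ) * (1 / n) ≤ ∑ j : Fin d, ∑ i, v i j ^ 2 := by
      have h2 : (Fintype.card H : ℝ) * (1 / n) ≤ ∑ h : H, ∑ i, v i h.1 ^ 2 := by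
        calc (Fintype.card H : ℝ) * (1 / n) = ∑ _h : H, (1 / (n : ℝ)) := by
              simp [Finset.card_univ]
          _ ≤ ∑ h : H, ∑ i, v i h.1 ^ 2 := Finset.sum_le_sum (fun h _ => h.2.le)
      refine h2.trans ?_
      have h3 : ∑ h : H, ∑ i, v i h.1 ^ 2
          = ∑ j ∈ Finset.univ.filter (fun j : Fin d => 1 / (n : ℝ) < ∑ i, v i j ^ 2),
            ∑ i, v i j ^ 2 := by
        rw [Finset.sum_subtype (p := fun j : Fin d => 1 / (n : ℝ) < ∑ i, v i j ^ 2)]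
        intro j; simp
      rw [h3]
      apply Finset.sum_le_sum_of_subset_of_nonneg (Finset.filter_subset _ _)
      intro j _ _
      exact Finset.sum_nonneg (fun i _ => sq_nonneg _)
    have h4 : (Fintype.card H : ℝ) ≤ (n : ℝ) ^ 2 := by
      have h5 := h1.trans hsum
      have h6 : (Fintype.card H : ℝ) * (1 / n) * n ≤ n * n :=
        mul_le_mul_of_nonneg_right h5 hn0.le
      have h7 : (Fintype.card H : ℝ) * (1 / n) * n = Fintype.card H := by field_simp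
      rw [h7] at h6
      nlinarith
    exact_mod_cast h4
  have hlogn : Real.log n ≤ 2 ^ (k0 + k1) := by
    have h1 : Real.log n ≤ y := Real.log_le_log hn0 (by linarith)
    have h2 : (2 : ℝ) ^ k1 ≤ 2 ^ (k0 + k1) := pow_le_pow_right₀ (by norm_num) (by omega)
    linarith
  obtain ⟨ε, hε, hb⟩ := hcore (k0 + k1) (by omega) n hn hlogn H hcard (fun p h => v p h.1) (by
    intro p
    have h3 : ∑ h : H, v p h.1 ^ 2
        = ∑ j ∈ Finset.univ.filter (fun j : Fin d => 1 / (n : ℝ) < ∑ i, v i j ^ 2), v p j ^ 2 := by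
      rw [Finset.sum_subtype (p := fun j : Fin d => 1 / (n : ℝ) < ∑ i, v i j ^ 2)]
      intro j; simp
    rw [h3]
    refine le_trans ?_ (hv p)
    apply Finset.sum_le_sum_of_subset_of_nonneg (Finset.filter_subset _ _)
    intro j _ _
    exact sq_nonneg _)
  refine ⟨ε, hε, fun j => ?_⟩
  have hlog6 : 1 ≤ Real.log y ^ 6 := one_le_pow₀ hly
  by_cases hj : 1 / (n : ℝ) < ∑ i, v i j ^ 2
  · refine (hb ⟨j, hj⟩).trans ?_
    have hk : ((k0 + k1 : ℕ) : ℝ) ≤ (k0 + 4) * Real.log y := by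
      push_cast
      nlinarith [Nat.cast_nonneg (α := ℝ) k0]
    have hk6 : ((k0 + k1 : ℕ) : ℝ) ^ 6 ≤ ((k0 + 4) * Real.log y) ^ 6 :=
      pow_le_pow_left₀ (by positivity) hk 6
    rw [mul_pow] at hk6
    calc C * ((k0 + k1 : ℕ) : ℝ) ^ 6 ≤ C * ((k0 + 4) ^ 6 * Real.log y ^ 6) :=
          mul_le_mul_of_nonneg_left hk6 hC
      _ ≤ (C * (k0 + 4) ^ 6 + 1) * Real.log y ^ 6 := by nlinarith
  · push Not at hj
    have hcs : (∑ i, ε i * v i j) ^ 2 ≤ (∑ i : Fin n, ε i ^ 2) * ∑ i, v i j ^ 2 :=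
      Finset.sum_mul_sq_le_sq_mul_sq _ _ _
    have he : ∑ i : Fin n, ε i ^ 2 = n := by
      have : ∀ i, ε i ^ 2 = 1 := fun i => by rcases hε i with h | h <;> rw [h] <;> norm_num
      simp [this]
    rw [he] at hcs
    have h1 : (n : ℝ) * ∑ i, v i j ^ 2 ≤ 1 := by
      calc (n : ℝ) * ∑ i, v i j ^ 2 ≤ n * (1 / n) := mul_le_mul_of_nonneg_left hj hn0.le
        _ = 1 := by field_simp
    have h2 : |∑ i, ε i * v i j| ≤ 1 := by
      rw [← sq_le_one_iff_abs_le_one]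
      linarith
    have h3 : (1 : ℝ) ≤ (C * (k0 + 4) ^ 6 + 1) * Real.log y ^ 6 := by
      have : 0 ≤ C * ((k0 : ℝ) + 4) ^ 6 := by positivity
      nlinarith
    linarith

end Pool.Agent.LibKG64
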