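import Pool.Agent.LibKG64.Num
import Pool.Agent.LibKG64.Fin

set_option autoImplicit false

/-!
The core statement from the assembly `Z`, module S and the batch theorem.
-/

open Finset Matrix Filter

namespace Pool.Agent.LibKG64

/-- the statement of module S -/
def ExistsSys : Prop := ∀ (ι κ : Type) [Fintype ι] [DecidableEq ι] [Fintype κ] [DecidableEq κ]
  (a : ι → κ → ℝ), (∀ p, sq (a p) ≤ 1) → ∀ l w : ℕ, 1000 ≤ l → w ^ 2 ≤ l → l ^ 20 ≤ 2 ^ w →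
  (Fintype.card ι : ℝ) ≤ Real.exp l → (Fintype.card κ : ℝ) ≤ Real.exp (2 * l) →
  ∃ (bt : ι → ℕ) (Q Bi : ℕ → Matrix κ κ ℝ), ∀ (L : ℕ) (τ : ℕ → ℝ) (lam B : ℝ),
    (Sys.mk a bt Q Bi 12 L τ lam B).OK (2 ^ w) (1 / (l : ℝ) ^ 5) l ∧
    (Sys.mk a bt Q Bi 12 L τ lam B).OldOK (1 / (l : ℝ) ^ 4) (2 / (l : ℝ))

theorem core_of {C c b0 : ℝ} (hT : T2L C c b0) (hC : 0 < C) (hc : 0 < c) (hS : ExistsSys) :
    ∃ A : ℝ, 0 ≤ A ∧ ∃ k0 : ℕ, Core A k0 := by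
  obtain ⟨c2, hc2⟩ := exists_nat_gt (200 / c)
  have hc20 : 200 ≤ c * c2 := by
    rw [div_lt_iff₀ hc] at hc2
    linarith
  have hc21 : 1 ≤ c2 := by
    by_contra hcon
    have : c2 = 0 := by omega
    rw [this] at hc20
    norm_num at hc20
  have hev := (ZNum_all (c := c) (b0 := b0) hC hc20 hc21).and
    ((ev_poly 400 2).and (eventually_ge_atTop 10))
  obtain ⟨k0, hk0⟩ := Filter.eventually_atTop.mp hev
  refine ⟨2 * pA C c2 + 4, by unfold pA; positivity, k0, ?_⟩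
  intro q hq n hn hlog κ _ _ hκ a ha
  obtain ⟨hZ, hw, hq10⟩ := hk0 q hq
  have hn0 : (0 : ℝ) < n := by exact_mod_cast hn
  have hn1 : (n : ℝ) ≤ Real.exp (2 ^ q) := by
    rw [← Real.log_le_iff_le_exp hn0]; exact hlog
  have hm1 : (Fintype.card κ : ℝ) ≤ Real.exp (2 * 2 ^ q) := by
    have h1 : (Fintype.card κ : ℝ) ≤ (n : ℝ) ^ 2 := by exact_mod_cast hκ
    refine h1.trans ?_
    calc (n : ℝ) ^ 2 ≤ Real.exp (2 ^ q) ^ 2 := pow_le_pow_left₀ hn0.le hn1 2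
      _ = Real.exp (2 * 2 ^ q) := by rw [← Real.exp_nat_mul]; norm_num
  have hl : ((2 ^ q : ℕ) : ℝ) = 2 ^ q := cast_two_pow q
  obtain ⟨bt, Q, Bi, hsys⟩ := hS (Fin n) κ a
    (fun p => by rw [sq_eq]; exact ha p) (2 ^ q) (20 * q)
    (by
      calc 1000 ≤ 2 ^ 10 := by norm_num
        _ ≤ 2 ^ q := Nat.pow_le_pow_right (by norm_num) hq10)
    (by
      have h1 : ((20 * q) ^ 2 : ℕ) = 400 * q ^ 2 := by ring
      rw [h1]
      have h2 : ((400 * q ^ 2 : ℕ) : ℝ) ≤ ((2 ^ q : ℕ) : ℝ) := by push_cast; exact hw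
      exact_mod_cast h2)
    (by rw [← pow_mul, show q * 20 = 20 * q by ring])
    (by rw [Fintype.card_fin, hl]; exact hn1)
    (by rw [hl]; exact hm1)
  obtain ⟨hOK, hOld⟩ := hsys q (pτ q) (plam C c2 q) (pB C c2 q)
  obtain ⟨x, hx1, hx2⟩ := Z hT hC hc _ hOK hOld (by
    rw [Fintype.card_fin]
    exact hZ n (Fintype.card κ) hn1 hm1)
  refine ⟨x, hx1, fun j => (hx2 j).trans ?_⟩
  exact bound_all hC c2 q (by omega)

/-- the general bound, from the batch theorem and module S -/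
theorem komlos_of {C c b0 : ℝ} (hT : T2L C c b0) (hC : 0 < C) (hc : 0 < c) (hS : ExistsSys) :
    ∃ C' : ℝ, 0 < C' ∧ ∀ (n d : ℕ) (v : Fin n → Fin d → ℝ), (∀ i, ∑ j, (v i j) ^ 2 ≤ 1) →
      ∃ e : Fin n → ℝ, (∀ i, e i = 1 ∨ e i = -1) ∧ ∀ j,
        |∑ i, e i * v i j| ≤ C' * Real.log (Real.log (n + 16)) ^ 6 := by
  obtain ⟨A, hA, k0, hcore⟩ := core_of hT hC hc hS
  exact final_of_core A hA k0 hcore

end Pool.Agent.LibKG64
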