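import Pool.Agent.LibKG64.C3

set_option autoImplicit false

/-! Task D1: ridge regression with lag (LA3). `F s v` now depends on the batch `s` and is increasing in `s`. -/

open Finset Matrix

namespace Pool.Agent.LibKG64

variable {κ : Type*} [Fintype κ] [DecidableEq κ]

/-- the quadratic functional at a vector supported in `F` -/
theorem qv_aux (P : Matrix κ κ ℝ) (hs : Pᵀ = P) (F : Finset κ) (t : ℝ) (θ c : κ → ℝ)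
    (hc : res F c = c) :
    (θ - c) ⬝ᵥ P *ᵥ (θ - c) + t * sq c
      = θ ⬝ᵥ P *ᵥ θ - (2 * (c ⬝ᵥ res F (P *ᵥ θ)) - c ⬝ᵥ That P F t *ᵥ c) := by
  have h1 : c ⬝ᵥ That P F t *ᵥ c = c ⬝ᵥ P *ᵥ c + t * sq c := by
    rw [That_dot, hc]
  have h2 : c ⬝ᵥ res F (P *ᵥ θ) = c ⬝ᵥ P *ᵥ θ := by
    rw [← res_dot, hc]
  have h3 : θ ⬝ᵥ P *ᵥ c = c ⬝ᵥ P *ᵥ θ := by
    rw [sym_dot P hs, dotProduct_comm]
  rw [h1, h2, mulVec_sub, sub_dotProduct, dotProduct_sub, dotProduct_sub, h3]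
  ring

theorem qv_attained' (P : Matrix κ κ ℝ) (hs : Pᵀ = P) (hP : ∀ x, 0 ≤ x ⬝ᵥ P *ᵥ x)
    (F : Finset κ) {t : ℝ} (ht : 0 < t) (θ : κ → ℝ) :
    qv P F t θ = (θ - (That P F t)⁻¹ *ᵥ res F (P *ᵥ θ)) ⬝ᵥ P *ᵥ
        (θ - (That P F t)⁻¹ *ᵥ res F (P *ᵥ θ))
      + t * sq ((That P F t)⁻¹ *ᵥ res F (P *ᵥ θ)) := by
  have hc : res F ((That P F t)⁻¹ *ᵥ res F (P *ᵥ θ)) = (That P F t)⁻¹ *ᵥ res F (P *ᵥ θ) :=
    That_inv_res P hP F ht _ (res_res F _)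
  rw [qv_aux P hs F t θ _ hc, dual_eq P hs hP F ht, dotProduct_comm _ (res F (P *ᵥ θ)), qv]
  ring

theorem qv_nonneg (P : Matrix κ κ ℝ) (hs : Pᵀ = P) (hP : ∀ x, 0 ≤ x ⬝ᵥ P *ᵥ x)
    (F : Finset κ) {t : ℝ} (ht : 0 < t) (θ : κ → ℝ) : 0 ≤ qv P F t θ := by
  rw [qv_attained' P hs hP F ht θ]
  exact add_nonneg (hP _) (mul_nonneg ht.le (sq_nonneg' _))

theorem qv_le (P : Matrix κ κ ℝ) (hs : Pᵀ = P) (hP : ∀ x, 0 ≤ x ⬝ᵥ P *ᵥ x)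
    (hP1 : ∀ x, x ⬝ᵥ P *ᵥ x ≤ sq x) (F : Finset κ) {t : ℝ} (ht : 0 < t) (θ : κ → ℝ) :
    qv P F t θ ≤ sq θ := by
  have h1 := inv_nonneg P hs hP F ht (res F (P *ᵥ θ))
  have h2 := hP1 θ
  unfold qv
  linarith

/-- decreasing in `F` (`inv_mono_F`) -/
theorem qv_anti_F (P : Matrix κ κ ℝ) (hs : Pᵀ = P) (hP : ∀ x, 0 ≤ x ⬝ᵥ P *ᵥ x)
    {F F' : Finset κ} (hF : F ⊆ F') {t : ℝ} (ht : 0 < t) (θ : κ → ℝ) :
    qv P F' t θ ≤ qv P F t θ := by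
  have h1 := inv_mono_F P hs hP hF ht (P *ᵥ θ)
  unfold qv
  linarith

/-- `qv` is the minimum of `(θ-c)·P(θ-c) + t|c|²` over `c` supported in `F` -/
theorem qv_min (P : Matrix κ κ ℝ) (hs : Pᵀ = P) (hP : ∀ x, 0 ≤ x ⬝ᵥ P *ᵥ x)
    (F : Finset κ) {t : ℝ} (ht : 0 < t) (θ c : κ → ℝ) (hc : res F c = c) :
    qv P F t θ ≤ (θ - c) ⬝ᵥ P *ᵥ (θ - c) + t * sq c := by
  rw [qv_aux P hs F t θ c hc]
  have h1 := dual_le P hs hP F ht (res F (P *ᵥ θ)) c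
  unfold qv
  linarith

theorem qv_attained (P : Matrix κ κ ℝ) (hs : Pᵀ = P) (hP : ∀ x, 0 ≤ x ⬝ᵥ P *ᵥ x)
    (F : Finset κ) {t : ℝ} (ht : 0 < t) (θ : κ → ℝ) :
    qv P F t θ = (θ - (That P F t)⁻¹ *ᵥ res F (P *ᵥ θ)) ⬝ᵥ P *ᵥ
        (θ - (That P F t)⁻¹ *ᵥ res F (P *ᵥ θ))
      + t * sq ((That P F t)⁻¹ *ᵥ res F (P *ᵥ θ)) := qv_attained' P hs hP F ht θ

/-- loss of one batch -/
theorem qv_drop {Q : ℕ → Matrix κ κ ℝ} (hQ : Flag Q) (k s : ℕ) (F : Finset κ) {t : ℝ}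
    (ht : 0 < t) (θ : κ → ℝ) :
    (θ - (That (Q s) F t)⁻¹ *ᵥ res F (Q s *ᵥ θ)) ⬝ᵥ crit Q k s *ᵥ
        (θ - (That (Q s) F t)⁻¹ *ᵥ res F (Q s *ᵥ θ))
      ≤ qv (Q s) F t θ - qv (Q (s + k)) F t θ := by
  have hc : res F ((That (Q s) F t)⁻¹ *ᵥ res F (Q s *ᵥ θ))
      = (That (Q s) F t)⁻¹ *ᵥ res F (Q s *ᵥ θ) :=
    That_inv_res (Q s) (flag_nonneg hQ s) F ht _ (res_res F _)
  have h1 := qv_attained (Q s) (hQ.symm s) (flag_nonneg hQ s) F ht θ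
  have h2 := qv_min (Q (s + k)) (hQ.symm _) (flag_nonneg hQ _) F ht θ
    ((That (Q s) F t)⁻¹ *ᵥ res F (Q s *ᵥ θ)) hc
  rw [crit_dot_eq]
  linarith

/-- `c·C c ≤ 6 θ·C θ + 4 (q_s - q_{s+k})` for `c = T⁻¹ I_F Q_{s+k} θ`. With `c̃ = T⁻¹ I_F Q_s θ`,
`d = c̃ - c = T⁻¹ I_F C θ`, `d·C d ≤ d·T d ≤ θ·C θ` (`inv_form_le`). -/
theorem c_form_le {Q : ℕ → Matrix κ κ ℝ} (hQ : Flag Q) (k s : ℕ) (F : Finset κ) {t : ℝ}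
    (ht : 0 < t) (θ : κ → ℝ) :
    ((That (Q s) F t)⁻¹ *ᵥ res F (Q (s + k) *ᵥ θ)) ⬝ᵥ crit Q k s *ᵥ
        ((That (Q s) F t)⁻¹ *ᵥ res F (Q (s + k) *ᵥ θ))
      ≤ 6 * (θ ⬝ᵥ crit Q k s *ᵥ θ) + 4 * (qv (Q s) F t θ - qv (Q (s + k)) F t θ) := by
  have hdrop := qv_drop hQ k s F ht θ
  -- the difference vector
  have hd : (That (Q s) F t)⁻¹ *ᵥ res F (Q (s + k) *ᵥ θ)
      = (That (Q s) F t)⁻¹ *ᵥ res F (Q s *ᵥ θ)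
        + -((That (Q s) F t)⁻¹ *ᵥ res F (crit Q k s *ᵥ θ)) := by
    have h1 : res F (crit Q k s *ᵥ θ) = res F (Q s *ᵥ θ) - res F (Q (s + k) *ᵥ θ) := by
      rw [crit, sub_mulVec, res_sub]
    rw [h1, mulVec_sub]
    abel
  have hdF : res F ((That (Q s) F t)⁻¹ *ᵥ res F (crit Q k s *ᵥ θ))
      = (That (Q s) F t)⁻¹ *ᵥ res F (crit Q k s *ᵥ θ) :=
    That_inv_res (Q s) (flag_nonneg hQ s) F ht _ (res_res F _)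
  have hdd : ((That (Q s) F t)⁻¹ *ᵥ res F (crit Q k s *ᵥ θ)) ⬝ᵥ crit Q k s *ᵥ
      ((That (Q s) F t)⁻¹ *ᵥ res F (crit Q k s *ᵥ θ)) ≤ θ ⬝ᵥ crit Q k s *ᵥ θ := by
    have k1 := dual_eq (Q s) (hQ.symm s) (flag_nonneg hQ s) F ht (res F (crit Q k s *ᵥ θ))
    have k2 := inv_form_le (Q s) (crit Q k s) (hQ.symm s) (crit_symm hQ k s)
      (crit_nonneg hQ k s) (fun x => by
        rw [crit_dot_eq]
        have := flag_nonneg hQ (s + k) x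
        linarith) F ht θ
    have k3 := That_dot (Q s) F t ((That (Q s) F t)⁻¹ *ᵥ res F (crit Q k s *ᵥ θ))
    rw [hdF] at k3
    have k4 := flag_nonneg hQ (s + k) ((That (Q s) F t)⁻¹ *ᵥ res F (crit Q k s *ᵥ θ))
    have k5 := mul_nonneg ht.le (sq_nonneg' ((That (Q s) F t)⁻¹ *ᵥ res F (crit Q k s *ᵥ θ)))
    rw [crit_dot_eq]
    linarith
  have hneg : ∀ x : κ → ℝ, (-x) ⬝ᵥ crit Q k s *ᵥ (-x) = x ⬝ᵥ crit Q k s *ᵥ x := by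
    intro x
    rw [mulVec_neg, neg_dotProduct, dotProduct_neg, neg_neg]
  have ha := crit_add hQ k s ((That (Q s) F t)⁻¹ *ᵥ res F (Q s *ᵥ θ))
    (-((That (Q s) F t)⁻¹ *ᵥ res F (crit Q k s *ᵥ θ)))
  rw [← hd, hneg] at ha
  have hb := crit_add hQ k s θ (-(θ - (That (Q s) F t)⁻¹ *ᵥ res F (Q s *ᵥ θ)))
  rw [hneg, show θ + -(θ - (That (Q s) F t)⁻¹ *ᵥ res F (Q s *ᵥ θ))
    = (That (Q s) F t)⁻¹ *ᵥ res F (Q s *ᵥ θ) by abel] at hb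
  linarith

/-- `t |c|² ≤ |θ|²` -/
theorem c_sq_le {Q : ℕ → Matrix κ κ ℝ} (hQ : Flag Q) (k s : ℕ) (F : Finset κ) {t : ℝ}
    (ht : 0 < t) (θ : κ → ℝ) :
    t * sq ((That (Q s) F t)⁻¹ *ᵥ res F (Q (s + k) *ᵥ θ)) ≤ sq θ := by
  have k1 := inv_sq_le (Q s) (hQ.symm s) (flag_nonneg hQ s) F ht (res F (Q (s + k) *ᵥ θ))
  have k2 := inv_form_le (Q s) (Q (s + k)) (hQ.symm s) (hQ.symm (s + k))
      (flag_nonneg hQ (s + k)) (fun x => flag_anti hQ (Nat.le_add_right s k) x) F ht θ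
  have k3 := flag_le hQ (s + k) θ
  linarith

/-- (LA3) -/
theorem LA3 {Q : ℕ → Matrix κ κ ℝ} (hQ : Flag Q) (k : ℕ) (F : ℕ → Finset κ)
    (hF : ∀ s, F s ⊆ F (s + 1)) {t : ℝ} (ht : 0 < t) (θ : κ → ℝ) (T : ℕ) :
    ∑ s ∈ range T, ((That (Q s) (F s) t)⁻¹ *ᵥ res (F s) (Q (s + k) *ᵥ θ)) ⬝ᵥ crit Q k s *ᵥ
        ((That (Q s) (F s) t)⁻¹ *ᵥ res (F s) (Q (s + k) *ᵥ θ))
      ≤ 10 * k * sq θ := by
  have hmono : Monotone F := monotone_nat_of_le_succ hF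
  have h1 : ∀ s ∈ range T, ((That (Q s) (F s) t)⁻¹ *ᵥ res (F s) (Q (s + k) *ᵥ θ)) ⬝ᵥ
      crit Q k s *ᵥ ((That (Q s) (F s) t)⁻¹ *ᵥ res (F s) (Q (s + k) *ᵥ θ))
      ≤ 6 * (θ ⬝ᵥ crit Q k s *ᵥ θ)
        + 4 * (qv (Q s) (F s) t θ - qv (Q (s + k)) (F (s + k)) t θ) := by
    intro s _
    have k1 := c_form_le hQ k s (F s) ht θ
    have k2 := qv_anti_F (Q (s + k)) (hQ.symm _) (flag_nonneg hQ _)
      (hmono (Nat.le_add_right s k)) ht θ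
    linarith
  refine (sum_le_sum h1).trans ?_
  rw [sum_add_distrib, ← mul_sum, ← mul_sum]
  have h2 := crit_sum hQ k T θ
  have h3 := lag_sum k T (fun s => qv (Q s) (F s) t θ) (sq θ)
    (fun s => qv_nonneg (Q s) (hQ.symm s) (flag_nonneg hQ s) (F s) ht θ)
    (fun s => qv_le (Q s) (hQ.symm s) (flag_nonneg hQ s) (flag_le hQ s) (F s) ht θ)
  linarith

end Pool.Agent.LibKG64
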