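import Pool.Agent.LibKG64.D1

set_option autoImplicit false

/-! Task D2: (LA4). -/

open Finset Matrix

namespace Pool.Agent.LibKG64

variable {κ : Type*} [Fintype κ] [DecidableEq κ]

/-- `|x - ∑_{v<L} y_v|² ≤ (L+1) (|x|² + ∑ |y_v|²)` -/
theorem sq_sub_sum_le (L : ℕ) (x : κ → ℝ) (y : ℕ → κ → ℝ) :
    sq (x - ∑ v ∈ range L, y v) ≤ (L + 1) * (sq x + ∑ v ∈ range L, sq (y v)) := by
  have key : ∀ j, (x j - ∑ v ∈ range L, y v j) ^ 2
      ≤ (L + 1) * (x j ^ 2 + ∑ v ∈ range L, y v j ^ 2) := by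
    intro j
    have h := sq_sum_le_card_mul_sum_sq (s := range (L + 1))
      (f := fun v => if v = L then x j else - y v j)
    rw [sum_range_succ, sum_range_succ, card_range, if_pos rfl] at h
    have e1 : ∑ v ∈ range L, (if v = L then x j else - y v j) = - ∑ v ∈ range L, y v j := by
      rw [← sum_neg_distrib]
      refine sum_congr rfl (fun v hv => ?_)
      rw [if_neg (ne_of_lt (mem_range.mp hv))]
    have e2 : ∑ v ∈ range L, (if v = L then x j else - y v j) ^ 2 = ∑ v ∈ range L, y v j ^ 2 := by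
      refine sum_congr rfl (fun v hv => ?_)
      rw [if_neg (ne_of_lt (mem_range.mp hv))]
      ring
    rw [e1, e2] at h
    push_cast at h
    have e3 : x j - ∑ v ∈ range L, y v j = -∑ v ∈ range L, y v j + x j := by ring
    rw [e3]
    refine h.trans (le_of_eq ?_)
    ring
  rw [sq_eq, sq_eq]
  have e4 : ∑ v ∈ range L, sq (y v) = ∑ j, ∑ v ∈ range L, y v j ^ 2 := by
    rw [sum_comm]
    refine sum_congr rfl (fun v _ => ?_)
    rw [sq_eq]
  rw [e4, ← sum_add_distrib, mul_sum]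
  refine sum_le_sum (fun j _ => ?_)
  have := key j
  simp only [Pi.sub_apply, Finset.sum_apply]
  exact this

/-- (LA4): from `psi_eq`, `LA1`, `LA3`, `c_sq_le`, `crit_sum` and `|x_0 - ∑ x_v|² ≤ (L+1) (|x_0|² + ∑ |x_v|²)`. -/
theorem LA4 {Q : ℕ → Matrix κ κ ℝ} (hQ : Flag Q) (k : ℕ) (τ : ℕ → ℝ) (L : ℕ) (ε : ℝ)
    (hε : 0 ≤ ε) (hτ : RPar τ L ε) (F : ℕ → ℕ → Finset κ) (hF : ∀ s v, F s v ⊆ F (s + 1) v)
    (hF' : ∀ s v, F s (v + 1) ⊆ F s v) (θ : κ → ℝ) (T : ℕ) :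
    ∑ s ∈ range T, sq (psi Q k τ (F s) L s θ)
      ≤ (L + 1) * (k + 10 * k * L + T * L * ε) * sq θ := by
  have hθ : 0 ≤ sq θ := sq_nonneg' θ
  -- one stage
  have hst : ∀ s, ∀ v, v < L → sq ((Zm Q k τ (F s) s v)ᵀ *ᵥ cv Q k τ (F s) s v θ)
      ≤ cv Q k τ (F s) s v θ ⬝ᵥ crit Q k s *ᵥ cv Q k τ (F s) s v θ + ε * sq θ := by
    intro s v hv
    have h1 := LA1 hQ k τ hτ.pos hτ.mono (F s) (hF' s) s v (cv Q k τ (F s) s v θ)
    have h2 : res (F s v) (cv Q k τ (F s) s v θ) = cv Q k τ (F s) s v θ := by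
      unfold cv
      exact That_inv_res (Q s) (flag_nonneg hQ s) (F s v) (hτ.pos v) _ (res_res _ _)
    rw [h2] at h1
    refine h1.trans ?_
    have h3 : (if v = 0 then 0 else τ (v - 1)) * sq (cv Q k τ (F s) s v θ) ≤ ε * sq θ := by
      rcases Nat.eq_zero_or_pos v with h0 | h0
      · rw [if_pos h0, zero_mul]; positivity
      · rw [if_neg (Nat.pos_iff_ne_zero.mp h0)]
        have h4 : τ (v - 1) ≤ ε * τ v := by
          have := hτ.ratio (v - 1) (by omega)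
          rwa [Nat.sub_add_cancel h0] at this
        have h5 : τ v * sq (cv Q k τ (F s) s v θ) ≤ sq θ := c_sq_le hQ k s (F s v) (hτ.pos v) θ
        have h6 : 0 ≤ sq (cv Q k τ (F s) s v θ) := sq_nonneg' _
        calc τ (v - 1) * sq (cv Q k τ (F s) s v θ) ≤ (ε * τ v) * sq (cv Q k τ (F s) s v θ) := by
              gcongr
          _ = ε * (τ v * sq (cv Q k τ (F s) s v θ)) := by ring
          _ ≤ ε * sq θ := by gcongr
    linarith
  -- one batch
  have hb : ∀ s, sq (psi Q k τ (F s) L s θ) ≤ (L + 1) * (θ ⬝ᵥ crit Q k s *ᵥ θ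
      + ∑ v ∈ range L, (cv Q k τ (F s) s v θ ⬝ᵥ crit Q k s *ᵥ cv Q k τ (F s) s v θ + ε * sq θ)) := by
    intro s
    rw [psi_eq hQ k τ hτ.pos]
    refine (sq_sub_sum_le L _ _).trans ?_
    rw [← crit_dot hQ]
    gcongr with v hv
    exact hst s v (mem_range.mp hv)
  calc ∑ s ∈ range T, sq (psi Q k τ (F s) L s θ)
      ≤ ∑ s ∈ range T, (L + 1) * (θ ⬝ᵥ crit Q k s *ᵥ θ
      + ∑ v ∈ range L, (cv Q k τ (F s) s v θ ⬝ᵥ crit Q k s *ᵥ cv Q k τ (F s) s v θ + ε * sq θ)) :=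
        sum_le_sum (fun s _ => hb s)
    _ = (L + 1) * (∑ s ∈ range T, θ ⬝ᵥ crit Q k s *ᵥ θ
      + (∑ v ∈ range L, ∑ s ∈ range T, cv Q k τ (F s) s v θ ⬝ᵥ crit Q k s *ᵥ cv Q k τ (F s) s v θ)
      + T * L * ε * sq θ) := by
        rw [← mul_sum, sum_add_distrib, add_assoc]
        congr 2
        simp only [sum_add_distrib]
        rw [sum_comm]
        simp only [sum_const, card_range, nsmul_eq_mul]
        ring
    _ ≤ (L + 1) * (k * sq θ + (∑ v ∈ range L, 10 * k * sq θ) + T * L * ε * sq θ) := by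
        gcongr with v hv
        · exact crit_sum hQ k T θ
        · exact LA3 hQ k (fun s => F s v) (fun s => hF s v) (hτ.pos v) θ T
    _ = (L + 1) * (k + 10 * k * L + T * L * ε) * sq θ := by
        simp only [sum_const, card_range, nsmul_eq_mul]
        ring

end Pool.Agent.LibKG64
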