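import Mathlib

set_option autoImplicit false

/-!
General Komlós bound, module LA (protection of failed rows): definitions.
Notes: team-store notes_MP_c81d26_helper64_general.md, section 4.
Vectors are functions `κ → ℝ`, with `⬝ᵥ` and `*ᵥ`.
-/

open Finset Matrix

namespace Pool.Agent.LibKG64

variable {κ : Type*} [Fintype κ] [DecidableEq κ]

/-- squared euclidean norm -/
def sq (x : κ → ℝ) : ℝ := x ⬝ᵥ x

/-- restriction of a vector to a set of rows -/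
def res (F : Finset κ) (x : κ → ℝ) : κ → ℝ := fun j => if j ∈ F then x j else 0

/-- diagonal projection on a set of rows -/
def ind (F : Finset κ) : Matrix κ κ ℝ := Matrix.diagonal (fun j => if j ∈ F then (1 : ℝ) else 0)

/-- decreasing family of orthogonal projections -/
structure Flag (Q : ℕ → Matrix κ κ ℝ) : Prop where
  symm : ∀ i, (Q i)ᵀ = Q i
  mul : ∀ i j, Q i * Q j = Q (max i j)

/-- critical part of batch `s` (lag `k`) -/
def crit (Q : ℕ → Matrix κ κ ℝ) (k s : ℕ) : Matrix κ κ ℝ := Q s - Q (s + k)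

/-- the regularised Gram matrix of the rows in `F` -/
def That (P : Matrix κ κ ℝ) (F : Finset κ) (t : ℝ) : Matrix κ κ ℝ := ind F * P * ind F + t • 1

/-- `z` of stage `v` (a matrix acting on the displacement), `F v` = rows of level `> v` -/
noncomputable def Zm (Q : ℕ → Matrix κ κ ℝ) (k : ℕ) (τ : ℕ → ℝ) (F : ℕ → Finset κ) (s : ℕ) :
    ℕ → Matrix κ κ ℝ
  | 0 => ind (F 0) * crit Q k s
  | v + 1 => ind (F (v + 1)) *
      (Zm Q k τ F s v - Q (s + k) * ((That (Q s) (F v) (τ v))⁻¹ * Zm Q k τ F s v))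

/-- `ζ` of stage `v` -/
noncomputable def Ze (Q : ℕ → Matrix κ κ ℝ) (k : ℕ) (τ : ℕ → ℝ) (F : ℕ → Finset κ) (s v : ℕ) :
    Matrix κ κ ℝ := (That (Q s) (F v) (τ v))⁻¹ * Zm Q k τ F s v

/-- the control -/
noncomputable def Km (Q : ℕ → Matrix κ κ ℝ) (k : ℕ) (τ : ℕ → ℝ) (F : ℕ → Finset κ) (L s : ℕ) :
    Matrix κ κ ℝ := Q (s + k) * ∑ v ∈ range L, Ze Q k τ F s v

/-- coefficient vector of the functional `θ` at stage `v` -/
noncomputable def cv (Q : ℕ → Matrix κ κ ℝ) (k : ℕ) (τ : ℕ → ℝ) (F : ℕ → Finset κ) (s v : ℕ)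
    (θ : κ → ℝ) : κ → ℝ := (That (Q s) (F v) (τ v))⁻¹ *ᵥ res (F v) (Q (s + k) *ᵥ θ)

/-- the functional `D ↦ ⟨θ, crit D - control D⟩` -/
noncomputable def psi (Q : ℕ → Matrix κ κ ℝ) (k : ℕ) (τ : ℕ → ℝ) (F : ℕ → Finset κ) (L s : ℕ)
    (θ : κ → ℝ) : κ → ℝ := (crit Q k s - Km Q k τ F L s)ᵀ *ᵥ θ

/-- energy form of stage `v`: `D ↦ ⟨ζ, crit ζ⟩` -/
noncomputable def Nm (Q : ℕ → Matrix κ κ ℝ) (k : ℕ) (τ : ℕ → ℝ) (F : ℕ → Finset κ) (s v : ℕ) :
    Matrix κ κ ℝ := (Ze Q k τ F s v)ᵀ * crit Q k s * Ze Q k τ F s v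

/-- value of the ridge regression of `θ` on the rows in `F` -/
noncomputable def qv (P : Matrix κ κ ℝ) (F : Finset κ) (t : ℝ) (θ : κ → ℝ) : ℝ :=
  θ ⬝ᵥ P *ᵥ θ - res F (P *ᵥ θ) ⬝ᵥ (That P F t)⁻¹ *ᵥ res F (P *ᵥ θ)

/-- assumptions on the ridge parameters: positive, increasing with ratio at least `1/ε` -/
structure RPar (τ : ℕ → ℝ) (L : ℕ) (ε : ℝ) : Prop where
  pos : ∀ v, 0 < τ v
  le1 : ∀ v, τ v ≤ 1
  ratio : ∀ v, v + 1 < L → τ v ≤ ε * τ (v + 1)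
  mono : ∀ v, τ v ≤ τ (v + 1)

end Pool.Agent.LibKG64
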