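import Pool.Agent.LibKG64.D1

set_option autoImplicit false

/-! Task E1: (LA5), intervals of batches. `R` bounds `√(ζ·Tζ)`. -/

open Finset Matrix

namespace Pool.Agent.LibKG64

variable {κ : Type*} [Fintype κ] [DecidableEq κ]

/-- energy of stage `v` in batch `s` -/
noncomputable def en (Q : ℕ → Matrix κ κ ℝ) (k : ℕ) (τ : ℕ → ℝ) (F : ℕ → ℕ → Finset κ)
    (D : ℕ → κ → ℝ) (s v : ℕ) : ℝ :=
  (Ze Q k τ (F s) s v *ᵥ D s) ⬝ᵥ crit Q k s *ᵥ (Ze Q k τ (F s) s v *ᵥ D s)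

theorem en_nonneg {Q : ℕ → Matrix κ κ ℝ} (hQ : Flag Q) (k : ℕ) (τ : ℕ → ℝ)
    (F : ℕ → ℕ → Finset κ) (D : ℕ → κ → ℝ) (s v : ℕ) : 0 ≤ en Q k τ F D s v :=
  crit_nonneg hQ k s _

/-- monotonicity of the row sets -/
theorem F_mono (F : ℕ → ℕ → Finset κ) (hF : ∀ s v, F s v ⊆ F (s + 1) v) (v : ℕ) {a s : ℕ}
    (h : a ≤ s) : F a v ⊆ F s v := by
  induction s, h using Nat.le_induction with
  | base => exact Finset.Subset.refl _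
  | succ s _ ih => exact ih.trans (hF s v)

/-- Cauchy-Schwarz for `crit` with square roots -/
theorem crit_abs_le {Q : ℕ → Matrix κ κ ℝ} (hQ : Flag Q) (k s : ℕ) (x y : κ → ℝ) :
    |x ⬝ᵥ crit Q k s *ᵥ y| ≤ √(x ⬝ᵥ crit Q k s *ᵥ x) * √(y ⬝ᵥ crit Q k s *ᵥ y) := by
  rw [← Real.sqrt_mul (crit_nonneg hQ k s x)]
  exact Real.abs_le_sqrt (crit_cs hQ k s x y)

theorem dot_abs_le (x y : κ → ℝ) : |x ⬝ᵥ y| ≤ √(sq x) * √(sq y) := by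
  rw [← Real.sqrt_mul (sq_nonneg' x)]
  exact Real.abs_le_sqrt (cs x y)

/-- abstract summation over an interval -/
theorem interval_bound (a b : ℕ) (f c e g : ℕ → ℝ) (C E G : ℝ)
    (hc : ∀ s, 0 ≤ c s) (he : ∀ s, 0 ≤ e s)
    (hC : ∑ s ∈ Ico a b, c s ≤ C) (hE : ∑ s ∈ Ico a b, e s = E)
    (hg : ∀ s ∈ Ico a b, g s ≤ G)
    (hf : ∀ s ∈ Ico a b, |f s| ≤ √(c s) * √(e s) + g s) :
    |∑ s ∈ Ico a b, f s| ≤ √C * √E + (b - a : ℕ) * G := by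
  have h1 : |∑ s ∈ Ico a b, f s| ≤ ∑ s ∈ Ico a b, (√(c s) * √(e s) + g s) :=
    (Finset.abs_sum_le_sum_abs _ _).trans (Finset.sum_le_sum hf)
  have h2 : ∑ s ∈ Ico a b, √(c s) * √(e s) ≤ √C * √E := by
    refine (Real.sum_sqrt_mul_sqrt_le _ hc he).trans ?_
    rw [hE]
    exact mul_le_mul_of_nonneg_right (Real.sqrt_le_sqrt hC) (Real.sqrt_nonneg _)
  have h3 : ∑ s ∈ Ico a b, g s ≤ (b - a : ℕ) * G := by
    refine (Finset.sum_le_sum hg).trans ?_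
    rw [Finset.sum_const, Nat.card_Ico, nsmul_eq_mul]
  rw [Finset.sum_add_distrib] at h1
  linarith

theorem Ico_sum_le_range (a b : ℕ) (c : ℕ → ℝ) (hc : ∀ s, 0 ≤ c s) :
    ∑ s ∈ Ico a b, c s ≤ ∑ s ∈ range b, c s := by
  apply Finset.sum_le_sum_of_subset_of_nonneg
  · intro s hs
    rw [Finset.mem_Ico] at hs
    exact Finset.mem_range.mpr hs.2
  · intro s _ _
    exact hc s

/-- residual of the rows of `F a v` over the interval `[a, b)`: for `θ` supported in `F a v`,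
`∑_s θ·(z_v - Q' ζ_v) = ∑_s (θ·C ζ + τ θ·ζ)` (`resid_eq`), Cauchy-Schwarz. -/
theorem LA5a {Q : ℕ → Matrix κ κ ℝ} (hQ : Flag Q) (k : ℕ) (τ : ℕ → ℝ) (hτ : ∀ v, 0 < τ v)
    (F : ℕ → ℕ → Finset κ) (hF : ∀ s v, F s v ⊆ F (s + 1) v) (D : ℕ → κ → ℝ)
    (R : ℝ) (hR : 0 ≤ R) (v a b : ℕ)
    (hyy : ∀ s ∈ Ico a b, τ v * sq (Ze Q k τ (F s) s v *ᵥ D s) ≤ R ^ 2)
    (θ : κ → ℝ) (hθ : res (F a v) θ = θ) :
    |∑ s ∈ Ico a b, θ ⬝ᵥ (Zm Q k τ (F s) s v *ᵥ D s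
        - Q (s + k) *ᵥ (Ze Q k τ (F s) s v *ᵥ D s))|
      ≤ (√(k * ∑ s ∈ Ico a b, en Q k τ F D s v) + (b - a : ℕ) * √(τ v) * R) * √(sq θ) := by
  have hterm : ∀ s ∈ Ico a b, |θ ⬝ᵥ (Zm Q k τ (F s) s v *ᵥ D s
      - Q (s + k) *ᵥ (Ze Q k τ (F s) s v *ᵥ D s))|
      ≤ √(θ ⬝ᵥ crit Q k s *ᵥ θ) * √(en Q k τ F D s v) +
        τ v * (√(sq θ) * √(sq (Ze Q k τ (F s) s v *ᵥ D s))) := by
    intro s hs
    have has : a ≤ s := (Finset.mem_Ico.mp hs).1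
    have hsub := F_mono F hF v has
    have hθs : res (F s v) θ = θ := by
      rw [← hθ, res_res_of_subset hsub]
    have h1 : θ ⬝ᵥ (Zm Q k τ (F s) s v *ᵥ D s - Q (s + k) *ᵥ (Ze Q k τ (F s) s v *ᵥ D s))
        = θ ⬝ᵥ crit Q k s *ᵥ (Ze Q k τ (F s) s v *ᵥ D s)
          + τ v * (θ ⬝ᵥ (Ze Q k τ (F s) s v *ᵥ D s)) := by
      conv_lhs => rw [← hθs]
      rw [res_dot, resid_eq hQ k τ hτ (F s) s v (D s), dotProduct_add, ← res_dot, hθs,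
        dotProduct_smul, smul_eq_mul]
    rw [h1]
    refine (abs_add_le _ _).trans (add_le_add (crit_abs_le hQ k s _ _) ?_)
    rw [abs_mul, abs_of_pos (hτ v)]
    exact mul_le_mul_of_nonneg_left (dot_abs_le _ _) (hτ v).le
  have hC : ∑ s ∈ Ico a b, θ ⬝ᵥ crit Q k s *ᵥ θ ≤ k * sq θ :=
    (Ico_sum_le_range a b _ (fun s => crit_nonneg hQ k s θ)).trans (crit_sum hQ k b θ)
  have hg : ∀ s ∈ Ico a b, τ v * (√(sq θ) * √(sq (Ze Q k τ (F s) s v *ᵥ D s)))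
      ≤ √(τ v) * R * √(sq θ) := by
    intro s hs
    have h2 := hyy s hs
    have h3 : √(τ v) * √(sq (Ze Q k τ (F s) s v *ᵥ D s)) ≤ R := by
      rw [← Real.sqrt_mul (hτ v).le, ← Real.sqrt_sq hR]
      exact Real.sqrt_le_sqrt h2
    have h4 : τ v * (√(sq θ) * √(sq (Ze Q k τ (F s) s v *ᵥ D s)))
        = (√(τ v) * √(sq (Ze Q k τ (F s) s v *ᵥ D s))) * (√(τ v) * √(sq θ)) := by
      nth_rewrite 1 [← Real.mul_self_sqrt (hτ v).le]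
      ring
    rw [h4]
    calc (√(τ v) * √(sq (Ze Q k τ (F s) s v *ᵥ D s))) * (√(τ v) * √(sq θ))
        ≤ R * (√(τ v) * √(sq θ)) := mul_le_mul_of_nonneg_right h3 (by positivity)
      _ = √(τ v) * R * √(sq θ) := by ring
  have h := interval_bound a b _ _ _ _ _ _ _ (fun s => crit_nonneg hQ k s θ)
    (fun s => en_nonneg hQ k τ F D s v) hC rfl hg hterm
  refine h.trans (le_of_eq ?_)
  have hEn : 0 ≤ ∑ s ∈ Ico a b, en Q k τ F D s v :=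
    Finset.sum_nonneg (fun s _ => en_nonneg hQ k τ F D s v)
  rw [Real.sqrt_mul (Nat.cast_nonneg k), Real.sqrt_mul (Nat.cast_nonneg k)]
  ring

/-- disturbance of stage `v+1` over the interval `[a, b)`: `θ·Q' ζ_{v+1} = c·z_{v+1} =
c·(C ζ_v + τ_v ζ_v)`, (LA3). -/
theorem LA5b {Q : ℕ → Matrix κ κ ℝ} (hQ : Flag Q) (k : ℕ) (τ : ℕ → ℝ) (hτ : ∀ v, 0 < τ v)
    (F : ℕ → ℕ → Finset κ) (hF : ∀ s v, F s v ⊆ F (s + 1) v)
    (hF' : ∀ s v, F s (v + 1) ⊆ F s v) (D : ℕ → κ → ℝ)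
    (R : ℝ) (hR : 0 ≤ R) (v a b : ℕ)
    (hyy : ∀ s ∈ Ico a b, τ v * sq (Ze Q k τ (F s) s v *ᵥ D s) ≤ R ^ 2)
    (θ : κ → ℝ) :
    |∑ s ∈ Ico a b, θ ⬝ᵥ Q (s + k) *ᵥ (Ze Q k τ (F s) s (v + 1) *ᵥ D s)|
      ≤ (√(10 * k * ∑ s ∈ Ico a b, en Q k τ F D s v) + (b - a : ℕ) * √(τ v / τ (v + 1)) * R)
        * √(sq θ) := by
  set c : ℕ → κ → ℝ := fun s => (That (Q s) (F s (v + 1)) (τ (v + 1)))⁻¹ *ᵥ
    res (F s (v + 1)) (Q (s + k) *ᵥ θ) with hc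
  have hterm : ∀ s ∈ Ico a b, |θ ⬝ᵥ Q (s + k) *ᵥ (Ze Q k τ (F s) s (v + 1) *ᵥ D s)|
      ≤ √(c s ⬝ᵥ crit Q k s *ᵥ c s) * √(en Q k τ F D s v) +
        τ v * (√(sq (c s)) * √(sq (Ze Q k τ (F s) s v *ᵥ D s))) := by
    intro s hs
    have hP : ∀ x : κ → ℝ, 0 ≤ x ⬝ᵥ Q s *ᵥ x := fun x => flag_nonneg hQ s x
    have hcs : res (F s (v + 1)) (c s) = c s :=
      That_inv_res (Q s) hP (F s (v + 1)) (hτ (v + 1)) _ (res_res _ _)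
    have hTs := That_inv_symm (Q s) (hQ.symm s) (F s (v + 1)) (τ (v + 1))
    have h1 : θ ⬝ᵥ Q (s + k) *ᵥ (Ze Q k τ (F s) s (v + 1) *ᵥ D s)
        = c s ⬝ᵥ crit Q k s *ᵥ (Ze Q k τ (F s) s v *ᵥ D s)
          + τ v * (c s ⬝ᵥ (Ze Q k τ (F s) s v *ᵥ D s)) := by
      rw [sym_dot (Q (s + k)) (hQ.symm _), ← Ze_supp hQ k τ hτ (F s) s (v + 1) (D s), ← res_dot,
        Ze_eq, sym_dot _ hTs]
      show c s ⬝ᵥ _ = _
      rw [Zm_succ' hQ k τ hτ (F s) (hF' s) s v (D s), ← res_dot, hcs, dotProduct_add,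
        dotProduct_smul, smul_eq_mul]
    rw [h1]
    refine (abs_add_le _ _).trans (add_le_add (crit_abs_le hQ k s _ _) ?_)
    rw [abs_mul, abs_of_pos (hτ v)]
    exact mul_le_mul_of_nonneg_left (dot_abs_le _ _) (hτ v).le
  have hC : ∑ s ∈ Ico a b, c s ⬝ᵥ crit Q k s *ᵥ c s ≤ 10 * k * sq θ :=
    (Ico_sum_le_range a b _ (fun s => crit_nonneg hQ k s (c s))).trans
      (LA3 hQ k (fun s => F s (v + 1)) (fun s => hF s (v + 1)) (hτ (v + 1)) θ b)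
  have hg : ∀ s ∈ Ico a b, τ v * (√(sq (c s)) * √(sq (Ze Q k τ (F s) s v *ᵥ D s)))
      ≤ √(τ v / τ (v + 1)) * R * √(sq θ) := by
    intro s hs
    have h2 := hyy s hs
    have h3 : √(τ v) * √(sq (Ze Q k τ (F s) s v *ᵥ D s)) ≤ R := by
      rw [← Real.sqrt_mul (hτ v).le, ← Real.sqrt_sq hR]
      exact Real.sqrt_le_sqrt h2
    have h5 : √(sq (c s)) ≤ √(sq θ) / √(τ (v + 1)) := by
      rw [← Real.sqrt_div (sq_nonneg' θ)]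
      apply Real.sqrt_le_sqrt
      rw [le_div_iff₀ (hτ (v + 1)), mul_comm]
      exact c_sq_le hQ k s (F s (v + 1)) (hτ (v + 1)) θ
    have h4 : τ v * (√(sq (c s)) * √(sq (Ze Q k τ (F s) s v *ᵥ D s)))
        = (√(τ v) * √(sq (Ze Q k τ (F s) s v *ᵥ D s))) * (√(τ v) * √(sq (c s))) := by
      nth_rewrite 1 [← Real.mul_self_sqrt (hτ v).le]
      ring
    rw [h4]
    calc (√(τ v) * √(sq (Ze Q k τ (F s) s v *ᵥ D s))) * (√(τ v) * √(sq (c s)))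
        ≤ R * (√(τ v) * (√(sq θ) / √(τ (v + 1)))) :=
          mul_le_mul h3 (mul_le_mul_of_nonneg_left h5 (Real.sqrt_nonneg _)) (by positivity) hR
      _ = √(τ v / τ (v + 1)) * R * √(sq θ) := by
          rw [Real.sqrt_div (hτ v).le]
          ring
  have h := interval_bound a b _ _ _ _ _ _ _ (fun s => crit_nonneg hQ k s (c s))
    (fun s => en_nonneg hQ k τ F D s v) hC rfl hg hterm
  refine h.trans (le_of_eq ?_)
  rw [Real.sqrt_mul (by positivity : (0:ℝ) ≤ 10 * k), Real.sqrt_mul (by positivity : (0:ℝ) ≤ 10 * k)]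
  ring

end Pool.Agent.LibKG64
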