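import Pool.Agent.LibKG64.E1
import Pool.Agent.LibKG64.D2

set_option autoImplicit false

/-! Task E2: norms over an interval (duality with LA5a, LA5b) and the displacement of a row of level `u+1`. -/

open Finset Matrix

namespace Pool.Agent.LibKG64

variable {κ : Type*} [Fintype κ] [DecidableEq κ]

theorem sqrt_self_bound {N A B : ℝ} (hN : 0 ≤ N) (hA : 0 ≤ A) (hB : 0 ≤ B)
    (h : N ≤ (A + B) * √N) : N ≤ 2 * A ^ 2 + 2 * B ^ 2 := by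
  have h1 : √N * √N = N := Real.mul_self_sqrt hN
  have h2 : √N ≤ A + B := by
    by_contra hc
    push Not at hc
    have h3 : 0 ≤ √N := Real.sqrt_nonneg N
    nlinarith
  have h3 : 0 ≤ √N := Real.sqrt_nonneg N
  nlinarith [sq_nonneg (A - B)]

theorem dot_sum' (θ : κ → ℝ) (S : Finset ℕ) (f : ℕ → κ → ℝ) :
    θ ⬝ᵥ (fun j => ∑ s ∈ S, f s j) = ∑ s ∈ S, θ ⬝ᵥ f s := by
  unfold dotProduct
  rw [Finset.sum_comm]
  exact Finset.sum_congr rfl (fun j _ => Finset.mul_sum _ _ _)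

/-- take `θ j = ∑_{s ∈ [a,b)} (z_v - Q' ζ_v)_j` for `j ∈ F a v`, `0` otherwise, in LA5a -/
theorem LA5a_norm {Q : ℕ → Matrix κ κ ℝ} (hQ : Flag Q) (k : ℕ) (τ : ℕ → ℝ) (hτ : ∀ v, 0 < τ v)
    (F : ℕ → ℕ → Finset κ) (hF : ∀ s v, F s v ⊆ F (s + 1) v) (D : ℕ → κ → ℝ)
    (R : ℝ) (hR : 0 ≤ R) (v a b : ℕ)
    (hyy : ∀ s ∈ Ico a b, τ v * sq (Ze Q k τ (F s) s v *ᵥ D s) ≤ R ^ 2) :
    ∑ j ∈ F a v, (∑ s ∈ Ico a b, (Zm Q k τ (F s) s v *ᵥ D s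
        - Q (s + k) *ᵥ (Ze Q k τ (F s) s v *ᵥ D s)) j) ^ 2
      ≤ 2 * (k * ∑ s ∈ Ico a b, en Q k τ F D s v) + 2 * ((b - a : ℕ) : ℝ) ^ 2 * τ v * R ^ 2 := by
  set f : ℕ → κ → ℝ := fun s => Zm Q k τ (F s) s v *ᵥ D s
        - Q (s + k) *ᵥ (Ze Q k τ (F s) s v *ᵥ D s) with hf
  set y : κ → ℝ := fun j => ∑ s ∈ Ico a b, f s j with hy
  set θ : κ → ℝ := res (F a v) y with hθ
  have h1 : ∑ j ∈ F a v, (∑ s ∈ Ico a b, f s j) ^ 2 = sq θ := by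
    rw [sq_eq, hθ]
    unfold res
    rw [← Finset.sum_filter_add_sum_filter_not Finset.univ (fun j => j ∈ F a v)]
    rw [Finset.sum_eq_zero (s := Finset.univ.filter (fun j => ¬ j ∈ F a v)), add_zero]
    · rw [Finset.filter_mem_eq_inter, Finset.univ_inter]
      apply Finset.sum_congr rfl
      intro j hj
      rw [if_pos hj]
    · intro j hj
      rw [if_neg (Finset.mem_filter.mp hj).2]
      norm_num
  have h2 : θ ⬝ᵥ y = sq θ := by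
    rw [sq, hθ, res_dot_res]
  have h3 := LA5a hQ k τ hτ F hF D R hR v a b hyy θ (by rw [hθ, res_res])
  have h4 : ∑ s ∈ Ico a b, θ ⬝ᵥ (Zm Q k τ (F s) s v *ᵥ D s
        - Q (s + k) *ᵥ (Ze Q k τ (F s) s v *ᵥ D s)) = sq θ := by
    rw [← h2, hy, dot_sum']
  rw [h4, abs_of_nonneg (sq_nonneg' θ)] at h3
  have hEn : 0 ≤ ∑ s ∈ Ico a b, en Q k τ F D s v :=
    Finset.sum_nonneg (fun s _ => en_nonneg hQ k τ F D s v)
  have h5 := sqrt_self_bound (sq_nonneg' θ) (Real.sqrt_nonneg _) (by positivity) h3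
  rw [Real.sq_sqrt (by positivity), mul_pow, mul_pow, Real.sq_sqrt (hτ v).le] at h5
  show ∑ j ∈ F a v, (∑ s ∈ Ico a b, f s j) ^ 2 ≤ _
  rw [h1]
  linarith

/-- take `θ = ∑_{s ∈ [a,b)} Q' ζ_{v+1}` in LA5b -/
theorem LA5b_norm {Q : ℕ → Matrix κ κ ℝ} (hQ : Flag Q) (k : ℕ) (τ : ℕ → ℝ) (hτ : ∀ v, 0 < τ v)
    (F : ℕ → ℕ → Finset κ) (hF : ∀ s v, F s v ⊆ F (s + 1) v)
    (hF' : ∀ s v, F s (v + 1) ⊆ F s v) (D : ℕ → κ → ℝ)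
    (R : ℝ) (hR : 0 ≤ R) (v a b : ℕ)
    (hyy : ∀ s ∈ Ico a b, τ v * sq (Ze Q k τ (F s) s v *ᵥ D s) ≤ R ^ 2) :
    ∑ j, (∑ s ∈ Ico a b, (Q (s + k) *ᵥ (Ze Q k τ (F s) s (v + 1) *ᵥ D s)) j) ^ 2
      ≤ 2 * (10 * k * ∑ s ∈ Ico a b, en Q k τ F D s v)
        + 2 * ((b - a : ℕ) : ℝ) ^ 2 * (τ v / τ (v + 1)) * R ^ 2 := by
  set f : ℕ → κ → ℝ := fun s => Q (s + k) *ᵥ (Ze Q k τ (F s) s (v + 1) *ᵥ D s) with hf
  set y : κ → ℝ := fun j => ∑ s ∈ Ico a b, f s j with hy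
  have h1 : ∑ j, (∑ s ∈ Ico a b, f s j) ^ 2 = sq y := by
    rw [sq_eq]
  have h3 := LA5b hQ k τ hτ F hF hF' D R hR v a b hyy y
  have h4 : ∑ s ∈ Ico a b, y ⬝ᵥ Q (s + k) *ᵥ (Ze Q k τ (F s) s (v + 1) *ᵥ D s) = sq y := by
    have h5 : y ⬝ᵥ (fun j => ∑ s ∈ Ico a b, f s j) = ∑ s ∈ Ico a b, y ⬝ᵥ f s :=
      dot_sum' y _ f
    rw [← hy] at h5
    exact h5.symm
  rw [h4, abs_of_nonneg (sq_nonneg' y)] at h3
  have hEn : 0 ≤ ∑ s ∈ Ico a b, en Q k τ F D s v :=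
    Finset.sum_nonneg (fun s _ => en_nonneg hQ k τ F D s v)
  have hdiv : 0 ≤ τ v / τ (v + 1) := (div_pos (hτ v) (hτ (v + 1))).le
  have h5 := sqrt_self_bound (sq_nonneg' y) (Real.sqrt_nonneg _) (by positivity) h3
  rw [Real.sq_sqrt (by positivity), mul_pow, mul_pow, Real.sq_sqrt hdiv] at h5
  show ∑ j, (∑ s ∈ Ico a b, f s j) ^ 2 ≤ _
  rw [h1]
  linarith

/-- displacement of a row `j ∈ F u`: `(C D - κ)_j = (z_u - Q' ζ_u)_j - ∑_{u < v < L} (Q' ζ_v)_j` -/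
theorem disp_eq (Q : ℕ → Matrix κ κ ℝ) (k : ℕ) (τ : ℕ → ℝ) (F : ℕ → Finset κ)
    (hF : ∀ v, F (v + 1) ⊆ F v) (L s : ℕ) (D : κ → ℝ) (u : ℕ) (hu : u < L) (j : κ)
    (hj : j ∈ F u) :
    (crit Q k s *ᵥ D - Km Q k τ F L s *ᵥ D) j
      = (Zm Q k τ F s u *ᵥ D - Q (s + k) *ᵥ (Ze Q k τ F s u *ᵥ D)) j
        - ∑ v ∈ Ico (u + 1) L, (Q (s + k) *ᵥ (Ze Q k τ F s v *ᵥ D)) j := by
  have hmono : ∀ m, F (m + 1) ⊆ F m := hF
  have hz : ∀ m, j ∈ F m → (Zm Q k τ F s m *ᵥ D) j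
      = (crit Q k s *ᵥ D) j - ∑ v ∈ range m, (Q (s + k) *ᵥ (Ze Q k τ F s v *ᵥ D)) j := by
    intro m
    induction m with
    | zero =>
      intro hm
      rw [Zm_zero]
      unfold res
      simp [hm]
    | succ m ih =>
      intro hm
      rw [Zm_succ]
      have h1 := ih (hmono m hm)
      unfold res
      rw [if_pos hm, Pi.sub_apply, h1, Finset.sum_range_succ]
      ring
  have h1 := hz u hj
  have h2 : (Km Q k τ F L s *ᵥ D) j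
      = ∑ v ∈ range L, (Q (s + k) *ᵥ (Ze Q k τ F s v *ᵥ D)) j := by
    rw [Km, Matrix.mul_sum, Matrix.sum_mulVec, Finset.sum_apply]
    apply Finset.sum_congr rfl
    intro v _
    rw [Matrix.mulVec_mulVec]
  have h3 : ∑ v ∈ range L, (Q (s + k) *ᵥ (Ze Q k τ F s v *ᵥ D)) j
      = ∑ v ∈ range u, (Q (s + k) *ᵥ (Ze Q k τ F s v *ᵥ D)) j
        + ((Q (s + k) *ᵥ (Ze Q k τ F s u *ᵥ D)) j
        + ∑ v ∈ Ico (u + 1) L, (Q (s + k) *ᵥ (Ze Q k τ F s v *ᵥ D)) j) := by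
    rw [Finset.range_eq_Ico, ← Finset.sum_Ico_consecutive _ (Nat.zero_le u) hu.le,
      Finset.sum_eq_sum_Ico_succ_bot hu, Finset.range_eq_Ico]
  rw [Pi.sub_apply, Pi.sub_apply, h2, h3, h1]
  ring

end Pool.Agent.LibKG64
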