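import Mathlib

set_option autoImplicit false

/-! Task I1: dyadic decomposition of intervals. -/

open Finset

namespace Pool.Agent.LibKG64

section dyadic

variable (f : ℕ → ℝ) (a b : ℕ)

/-- The square of the sum over the dyadic interval `[m 2^i, (m+1) 2^i)` if it is in `[a,b)`. -/
private noncomputable def dyT (i m : ℕ) : ℝ :=
  if a ≤ m * 2 ^ i ∧ (m + 1) * 2 ^ i ≤ b then (∑ s ∈ Ico (m * 2 ^ i) ((m + 1) * 2 ^ i), f s) ^ 2
  else 0

/-- The sum of `dyT` over the dyadic intervals in the block `[c 2^k, (c+1) 2^k)`. -/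
private noncomputable def dyG : ℕ → ℕ → ℝ
  | 0, c => dyT f a b 0 c
  | k + 1, c => dyT f a b (k + 1) c + (dyG k (2 * c) + dyG k (2 * c + 1))

/-- The sum over the part of the block in `[a,b)`. -/
private noncomputable def dyS (k c : ℕ) : ℝ :=
  ∑ s ∈ Ico (c * 2 ^ k) ((c + 1) * 2 ^ k), if a ≤ s ∧ s < b then f s else 0

private theorem dyT_nonneg (i m : ℕ) : 0 ≤ dyT f a b i m := by
  unfold dyT
  split_ifs
  · exact sq_nonneg _
  · exact le_refl _

private theorem dyG_nonneg (k c : ℕ) : 0 ≤ dyG f a b k c := by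
  induction k generalizing c with
  | zero => exact dyT_nonneg f a b 0 c
  | succ k ih => exact add_nonneg (dyT_nonneg f a b _ c) (add_nonneg (ih _) (ih _))

private theorem dyT_le (k c : ℕ) : dyT f a b k c ≤ dyG f a b k c := by
  cases k with
  | zero => exact le_refl _
  | succ k =>
    exact le_add_of_nonneg_right (add_nonneg (dyG_nonneg f a b _ _) (dyG_nonneg f a b _ _))

private theorem dyG_eq (k c : ℕ) : dyG f a b k c = ∑ i ∈ range (k + 1),
    ∑ m ∈ Ico (c * 2 ^ (k - i)) ((c + 1) * 2 ^ (k - i)), dyT f a b i m := by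
  induction k generalizing c with
  | zero => simp [dyG]
  | succ k ih =>
    rw [sum_range_succ, dyG, ih, ih, ← sum_add_distrib, Nat.sub_self, add_comm]
    congr 1
    · refine sum_congr rfl fun i hi => ?_
      have hi' : i ≤ k := Nat.lt_succ_iff.mp (mem_range.mp hi)
      have e : k + 1 - i = (k - i) + 1 := by omega
      have e1 : 2 * c * 2 ^ (k - i) = c * 2 ^ (k + 1 - i) := by
        rw [e, pow_succ]
        ring
      have e2 : (2 * c + 1 + 1) * 2 ^ (k - i) = (c + 1) * 2 ^ (k + 1 - i) := by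
        rw [e, pow_succ]
        ring
      rw [e1, e2, sum_Ico_consecutive]
      · rw [← e1]
        exact Nat.mul_le_mul_right _ (by omega)
      · rw [← e2]
        exact Nat.mul_le_mul_right _ (by omega)
    · simp

private theorem dyS_succ (k c : ℕ) :
    dyS f a b (k + 1) c = dyS f a b k (2 * c) + dyS f a b k (2 * c + 1) := by
  unfold dyS
  have e1 : 2 * c * 2 ^ k = c * 2 ^ (k + 1) := by
    rw [pow_succ]
    ring
  have e2 : (2 * c + 1 + 1) * 2 ^ k = (c + 1) * 2 ^ (k + 1) := by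
    rw [pow_succ]
    ring
  rw [e1, e2, sum_Ico_consecutive]
  · rw [← e1]
    exact Nat.mul_le_mul_right _ (by omega)
  · rw [← e2]
    exact Nat.mul_le_mul_right _ (by omega)

private theorem dyS_full (k c : ℕ) (h1 : a ≤ c * 2 ^ k) (h2 : (c + 1) * 2 ^ k ≤ b) :
    dyS f a b k c ^ 2 ≤ dyG f a b k c := by
  refine le_trans (le_of_eq ?_) (dyT_le f a b k c)
  unfold dyT dyS
  rw [if_pos ⟨h1, h2⟩]
  congr 1
  refine sum_congr rfl fun s hs => ?_
  rw [mem_Ico] at hs
  rw [if_pos ⟨h1.trans hs.1, lt_of_lt_of_le hs.2 h2⟩]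

private theorem dyS_right (k c : ℕ) (h : b ≤ c * 2 ^ k) : dyS f a b k c = 0 := by
  unfold dyS
  refine sum_eq_zero fun s hs => ?_
  rw [mem_Ico] at hs
  rw [if_neg]
  intro h'
  exact absurd (lt_of_lt_of_le h'.2 h) (not_lt.mpr hs.1)

private theorem dyS_left (k c : ℕ) (h : (c + 1) * 2 ^ k ≤ a) : dyS f a b k c = 0 := by
  unfold dyS
  refine sum_eq_zero fun s hs => ?_
  rw [mem_Ico] at hs
  rw [if_neg]
  intro h'
  exact absurd (lt_of_lt_of_le hs.2 (h.trans h'.1)) (lt_irrefl _)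

private theorem dy_cs (k : ℕ) (x y G H : ℝ) (hx : x ^ 2 ≤ G) (hy : y ^ 2 ≤ (k + 1 : ℝ) * H) :
    (x + y) ^ 2 ≤ ((k : ℝ) + 1 + 1) * (G + H) := by
  have hk : (0 : ℝ) < (k : ℝ) + 1 := by positivity
  have h1 : ((k : ℝ) + 1) * (x + y) ^ 2 ≤ ((k : ℝ) + 1 + 1) * (((k : ℝ) + 1) * x ^ 2 + y ^ 2) := by
    nlinarith [sq_nonneg (((k : ℝ) + 1) * x - y)]
  have h2 : ((k : ℝ) + 1 + 1) * (((k : ℝ) + 1) * x ^ 2 + y ^ 2) ≤
      ((k : ℝ) + 1 + 1) * (((k : ℝ) + 1) * G + ((k : ℝ) + 1) * H) := by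
    have h3 := mul_le_mul_of_nonneg_left hx hk.le
    exact mul_le_mul_of_nonneg_left (by linarith) (by positivity)
  have h4 : ((k : ℝ) + 1) * (x + y) ^ 2 ≤ ((k : ℝ) + 1) * (((k : ℝ) + 1 + 1) * (G + H)) := by
    linarith
  exact le_of_mul_le_mul_left h4 hk

private theorem dy_prefix (k c : ℕ) (h : a ≤ c * 2 ^ k) :
    dyS f a b k c ^ 2 ≤ ((k : ℝ) + 1) * dyG f a b k c := by
  induction k generalizing c with
  | zero =>
    by_cases h2 : (c + 1) * 2 ^ 0 ≤ b
    · have := dyS_full f a b 0 c h h2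
      simpa using this
    · have : dyS f a b 0 c = 0 := dyS_right f a b 0 c (by simp at h2 ⊢; omega)
      rw [this]
      simpa using dyG_nonneg f a b 0 c
  | succ k ih =>
    have e1 : 2 * c * 2 ^ k = c * 2 ^ (k + 1) := by
      rw [pow_succ]
      ring
    have hL : a ≤ 2 * c * 2 ^ k := by rw [e1]; exact h
    have hR : a ≤ (2 * c + 1) * 2 ^ k := hL.trans (Nat.mul_le_mul_right _ (by omega))
    have hG : dyG f a b k (2 * c) + dyG f a b k (2 * c + 1) ≤ dyG f a b (k + 1) c :=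
      le_add_of_nonneg_left (dyT_nonneg f a b _ _)
    have h0 : (0 : ℝ) ≤ (k : ℝ) + 1 + 1 := by positivity
    rw [dyS_succ]
    push_cast
    by_cases h2 : (2 * c + 1) * 2 ^ k ≤ b
    · refine le_trans ?_ (mul_le_mul_of_nonneg_left hG h0)
      exact dy_cs k _ _ _ _ (dyS_full f a b k (2 * c) hL h2) (ih (2 * c + 1) hR)
    · push Not at h2
      rw [dyS_right f a b k (2 * c + 1) h2.le, add_zero]
      refine le_trans (ih (2 * c) hL) ?_
      have h3 := dyG_nonneg f a b k (2 * c)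
      have h4 := dyG_nonneg f a b k (2 * c + 1)
      have h5 : ((k : ℝ) + 1) * dyG f a b k (2 * c) ≤ ((k : ℝ) + 1 + 1) * dyG f a b (k + 1) c :=
        mul_le_mul (by linarith) (by linarith) h3 h0
      exact h5

private theorem dy_suffix (k c : ℕ) (h : (c + 1) * 2 ^ k ≤ b) :
    dyS f a b k c ^ 2 ≤ ((k : ℝ) + 1) * dyG f a b k c := by
  induction k generalizing c with
  | zero =>
    by_cases h2 : a ≤ c * 2 ^ 0
    · have := dyS_full f a b 0 c h2 h
      simpa using this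
    · have : dyS f a b 0 c = 0 := dyS_left f a b 0 c (by simp at h2 ⊢; omega)
      rw [this]
      simpa using dyG_nonneg f a b 0 c
  | succ k ih =>
    have e1 : (2 * c + 1 + 1) * 2 ^ k = (c + 1) * 2 ^ (k + 1) := by
      rw [pow_succ]
      ring
    have hR : (2 * c + 1 + 1) * 2 ^ k ≤ b := by rw [e1]; exact h
    have hL : (2 * c + 1) * 2 ^ k ≤ b := (Nat.mul_le_mul_right _ (by omega)).trans hR
    have hG : dyG f a b k (2 * c) + dyG f a b k (2 * c + 1) ≤ dyG f a b (k + 1) c :=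
      le_add_of_nonneg_left (dyT_nonneg f a b _ _)
    have h0 : (0 : ℝ) ≤ (k : ℝ) + 1 + 1 := by positivity
    rw [dyS_succ]
    push_cast
    by_cases h2 : a ≤ (2 * c + 1) * 2 ^ k
    · refine le_trans ?_ (mul_le_mul_of_nonneg_left hG h0)
      rw [add_comm, add_comm (dyG f a b k (2 * c))]
      exact dy_cs k _ _ _ _ (dyS_full f a b k (2 * c + 1) h2 hR) (ih (2 * c) hL)
    · push Not at h2
      rw [dyS_left f a b k (2 * c) h2.le, zero_add]
      refine le_trans (ih (2 * c + 1) hR) ?_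
      have h3 := dyG_nonneg f a b k (2 * c)
      have h4 := dyG_nonneg f a b k (2 * c + 1)
      have h5 : ((k : ℝ) + 1) * dyG f a b k (2 * c + 1) ≤
          ((k : ℝ) + 1 + 1) * dyG f a b (k + 1) c :=
        mul_le_mul (by linarith) (by linarith) h4 h0
      exact h5

private theorem dy_main (k c : ℕ) :
    dyS f a b k c ^ 2 ≤ 2 * ((k : ℝ) + 1) * dyG f a b k c := by
  induction k generalizing c with
  | zero =>
    have h0 := dyG_nonneg f a b 0 c
    by_cases h1 : a ≤ c * 2 ^ 0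
    · have := dy_prefix f a b 0 c h1
      simp only [Nat.cast_zero, zero_add, one_mul, mul_one] at this ⊢
      linarith
    · have : dyS f a b 0 c = 0 := dyS_left f a b 0 c (by simp at h1 ⊢; omega)
      rw [this]
      simpa using h0
  | succ k ih =>
    have hG : dyG f a b k (2 * c) + dyG f a b k (2 * c + 1) ≤ dyG f a b (k + 1) c :=
      le_add_of_nonneg_left (dyT_nonneg f a b _ _)
    have h3 := dyG_nonneg f a b k (2 * c)
    have h4 := dyG_nonneg f a b k (2 * c + 1)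
    have hk : (0 : ℝ) ≤ (k : ℝ) := Nat.cast_nonneg k
    rw [dyS_succ]
    push_cast
    by_cases h1 : a ≤ (2 * c + 1) * 2 ^ k
    · by_cases h2 : (2 * c + 1) * 2 ^ k ≤ b
      · have hx := dy_suffix f a b k (2 * c) h2
        have hy := dy_prefix f a b k (2 * c + 1) h1
        have h5 : (dyS f a b k (2 * c) + dyS f a b k (2 * c + 1)) ^ 2 ≤
            2 * (dyS f a b k (2 * c) ^ 2 + dyS f a b k (2 * c + 1) ^ 2) := by
          nlinarith [sq_nonneg (dyS f a b k (2 * c) - dyS f a b k (2 * c + 1))]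
        nlinarith
      · push Not at h2
        rw [dyS_right f a b k (2 * c + 1) h2.le, add_zero]
        have := ih (2 * c)
        nlinarith
    · push Not at h1
      rw [dyS_left f a b k (2 * c) h1.le, zero_add]
      have := ih (2 * c + 1)
      nlinarith

end dyadic

/-- An interval `[a,b) ⊆ [0, 2^k)` is a disjoint union of dyadic intervals `[m 2^i, (m+1) 2^i)`, at most two for each `i ≤ k`;
Cauchy-Schwarz. Induction on `k`: split at `2^(k-1)`. (It may be convenient to prove first, for prefixes `[0,b)` and suffixes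
`[a,2^k)`, a bound with `k+1` in place of `2 (k+1)`.) -/
theorem dyadic (k : ℕ) (f : ℕ → ℝ) (a b : ℕ) (hb : b ≤ 2 ^ k) :
    (∑ s ∈ Ico a b, f s) ^ 2 ≤ 2 * (k + 1) * ∑ i ∈ range (k + 1), ∑ m ∈ range (2 ^ (k - i)),
      if a ≤ m * 2 ^ i ∧ (m + 1) * 2 ^ i ≤ b then (∑ s ∈ Ico (m * 2 ^ i) ((m + 1) * 2 ^ i), f s) ^ 2
      else 0 := by
  have h1 := dy_main f a b k 0
  have h2 : dyS f a b k 0 = ∑ s ∈ Ico a b, f s := by
    unfold dyS
    rw [zero_mul, zero_add, one_mul, ← sum_filter]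
    refine sum_congr ?_ fun _ _ => rfl
    ext s
    simp only [mem_filter, mem_Ico]
    constructor
    · rintro ⟨_, h⟩
      exact h
    · intro h
      exact ⟨⟨Nat.zero_le _, lt_of_lt_of_le h.2 hb⟩, h⟩
  have h3 : dyG f a b k 0 = ∑ i ∈ range (k + 1), ∑ m ∈ range (2 ^ (k - i)),
      if a ≤ m * 2 ^ i ∧ (m + 1) * 2 ^ i ≤ b then (∑ s ∈ Ico (m * 2 ^ i) ((m + 1) * 2 ^ i), f s) ^ 2
      else 0 := by
    rw [dyG_eq]
    refine sum_congr rfl fun i _ => ?_
    rw [zero_mul, zero_add, one_mul, ← range_eq_Ico]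
    rfl
  rw [h2, h3] at h1
  exact h1

private theorem dy_blocks (e : ℕ → ℝ) (d N : ℕ) :
    ∑ m ∈ range N, ∑ s ∈ Ico (m * d) ((m + 1) * d), e s = ∑ s ∈ range (N * d), e s := by
  induction N with
  | zero => simp
  | succ N ih =>
    rw [sum_range_succ, ih, range_eq_Ico, sum_Ico_consecutive _ (Nat.zero_le _)
      (Nat.mul_le_mul_right _ (by omega)), ← range_eq_Ico]

/-- every point is in exactly one dyadic interval of each size: sums of a nonnegative function -/
theorem dyadic_sum (k : ℕ) (e : ℕ → ℝ) (he : ∀ s, 0 ≤ e s) :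
    ∑ i ∈ range (k + 1), ∑ m ∈ range (2 ^ (k - i)),
      ∑ s ∈ Ico (m * 2 ^ i) ((m + 1) * 2 ^ i), e s = (k + 1) * ∑ s ∈ range (2 ^ k), e s := by
  have h1 : ∀ i ∈ range (k + 1), ∑ m ∈ range (2 ^ (k - i)),
      ∑ s ∈ Ico (m * 2 ^ i) ((m + 1) * 2 ^ i), e s = ∑ s ∈ range (2 ^ k), e s := by
    intro i hi
    rw [dy_blocks, ← pow_add, Nat.sub_add_cancel (Nat.lt_succ_iff.mp (mem_range.mp hi))]
  rw [sum_congr rfl h1, sum_const, card_range, nsmul_eq_mul]
  push_cast
  rfl

end Pool.Agent.LibKG64
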