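import Pool.Agent.LibKG64.E2
import Pool.Agent.LibKG64.I1

set_option autoImplicit false

/-! Task E3: many rows, each with its own interval (dyadic decomposition). -/

open Finset Matrix

namespace Pool.Agent.LibKG64

variable {κ : Type*} [Fintype κ] [DecidableEq κ]

/-- abstract form: `x s j` increments, `A i m` bound for the dyadic interval `[m 2^i, (m+1) 2^i)` -/
theorem rows_dyadic (K : ℕ) (P : Finset κ) (x : ℕ → κ → ℝ) (a b : κ → ℕ)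
    (hb : ∀ j ∈ P, b j ≤ 2 ^ K) (A : ℕ → ℕ → ℝ)
    (hA : ∀ i m, ∑ j ∈ P.filter (fun j => a j ≤ m * 2 ^ i ∧ (m + 1) * 2 ^ i ≤ b j),
      (∑ s ∈ Ico (m * 2 ^ i) ((m + 1) * 2 ^ i), x s j) ^ 2 ≤ A i m) :
    ∑ j ∈ P, (∑ s ∈ Ico (a j) (b j), x s j) ^ 2
      ≤ 2 * (K + 1) * ∑ i ∈ range (K + 1), ∑ m ∈ range (2 ^ (K - i)), A i m := by
  have h1 : ∀ j ∈ P, (∑ s ∈ Ico (a j) (b j), x s j) ^ 2
      ≤ 2 * (K + 1) * ∑ i ∈ range (K + 1), ∑ m ∈ range (2 ^ (K - i)),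
        if a j ≤ m * 2 ^ i ∧ (m + 1) * 2 ^ i ≤ b j then
          (∑ s ∈ Ico (m * 2 ^ i) ((m + 1) * 2 ^ i), x s j) ^ 2 else 0 := fun j hj =>
    dyadic K (fun s => x s j) (a j) (b j) (hb j hj)
  refine (Finset.sum_le_sum h1).trans ?_
  rw [← Finset.mul_sum]
  refine mul_le_mul_of_nonneg_left ?_ (by positivity)
  rw [Finset.sum_comm]
  refine Finset.sum_le_sum fun i _ => ?_
  rw [Finset.sum_comm]
  refine Finset.sum_le_sum fun m _ => ?_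
  rw [← Finset.sum_filter]
  exact hA i m

theorem e3_geom (K : ℕ) : ∑ i ∈ range (K + 1), ∑ _m ∈ range (2 ^ (K - i)), ((2 : ℝ) ^ i) ^ 2
    ≤ 2 * 4 ^ K := by
  have h1 : ∀ i ∈ range (K + 1), ∑ _m ∈ range (2 ^ (K - i)), ((2 : ℝ) ^ i) ^ 2
      = 2 ^ K * 2 ^ i := by
    intro i hi
    have hi' : i ≤ K := Nat.lt_succ_iff.mp (mem_range.mp hi)
    rw [Finset.sum_const, card_range, nsmul_eq_mul]
    push_cast
    rw [← pow_mul, ← pow_add, ← pow_add]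
    congr 1
    omega
  rw [Finset.sum_congr rfl h1, ← Finset.mul_sum, geom_sum_eq (by norm_num)]
  have h4 : (4 : ℝ) ^ K = 2 ^ K * 2 ^ K := by
    rw [← mul_pow]; norm_num
  rw [h4, pow_succ]
  have : (0 : ℝ) < 2 ^ K := by positivity
  have h2 : ((2 : ℝ) ^ K * 2 - 1) / (2 - 1) = 2 ^ K * 2 - 1 := by norm_num
  rw [h2]
  nlinarith

theorem e3_total (K : ℕ) (e : ℕ → ℝ) (he : ∀ s, 0 ≤ e s) (c d : ℝ) (hd : 0 ≤ d) :
    ∑ i ∈ range (K + 1), ∑ m ∈ range (2 ^ (K - i)),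
      (c * (∑ s ∈ Ico (m * 2 ^ i) ((m + 1) * 2 ^ i), e s) + d * ((2 : ℝ) ^ i) ^ 2)
      ≤ c * ((K + 1) * ∑ s ∈ range (2 ^ K), e s) + d * (2 * 4 ^ K) := by
  have h1 : ∑ i ∈ range (K + 1), ∑ m ∈ range (2 ^ (K - i)),
      (c * (∑ s ∈ Ico (m * 2 ^ i) ((m + 1) * 2 ^ i), e s) + d * ((2 : ℝ) ^ i) ^ 2)
      = c * (∑ i ∈ range (K + 1), ∑ m ∈ range (2 ^ (K - i)),
          ∑ s ∈ Ico (m * 2 ^ i) ((m + 1) * 2 ^ i), e s)
        + d * ∑ i ∈ range (K + 1), ∑ _m ∈ range (2 ^ (K - i)), ((2 : ℝ) ^ i) ^ 2 := by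
    simp only [Finset.sum_add_distrib, Finset.mul_sum]
  rw [h1, dyadic_sum K e he]
  have := mul_le_mul_of_nonneg_left (e3_geom K) hd
  linarith

theorem e3_F_mono {F : ℕ → ℕ → Finset κ} (hF : ∀ s v, F s v ⊆ F (s + 1) v) (v : ℕ) {s t : ℕ}
    (h : s ≤ t) : F s v ⊆ F t v := by
  induction t, h using Nat.le_induction with
  | base => exact Finset.Subset.refl _
  | succ n _ ih => exact ih.trans (hF n v)

/-- residuals: every row `j ∈ P` is in `F (a j) v` -/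
theorem rows_resid {Q : ℕ → Matrix κ κ ℝ} (hQ : Flag Q) (k : ℕ) (τ : ℕ → ℝ)
    (hτ : ∀ v, 0 < τ v) (F : ℕ → ℕ → Finset κ) (hF : ∀ s v, F s v ⊆ F (s + 1) v)
    (D : ℕ → κ → ℝ) (R : ℝ) (hR : 0 ≤ R) (v K : ℕ)
    (hyy : ∀ s < 2 ^ K, τ v * sq (Ze Q k τ (F s) s v *ᵥ D s) ≤ R ^ 2)
    (P : Finset κ) (a b : κ → ℕ) (hb : ∀ j ∈ P, b j ≤ 2 ^ K) (ha : ∀ j ∈ P, j ∈ F (a j) v) :
    ∑ j ∈ P, (∑ s ∈ Ico (a j) (b j), (Zm Q k τ (F s) s v *ᵥ D s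
        - Q (s + k) *ᵥ (Ze Q k τ (F s) s v *ᵥ D s)) j) ^ 2
      ≤ 4 * (K + 1) ^ 2 * k * ∑ s ∈ range (2 ^ K), en Q k τ F D s v
        + 8 * (K + 1) * 4 ^ K * τ v * R ^ 2 := by
  have hen : ∀ s, 0 ≤ en Q k τ F D s v := fun s => crit_nonneg hQ k s _
  have hkey := rows_dyadic K P
    (fun s j => (Zm Q k τ (F s) s v *ᵥ D s - Q (s + k) *ᵥ (Ze Q k τ (F s) s v *ᵥ D s)) j) a b hb
    (fun i m => (2 * k) * (∑ s ∈ Ico (m * 2 ^ i) ((m + 1) * 2 ^ i), en Q k τ F D s v)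
      + (2 * τ v * R ^ 2) * ((2 : ℝ) ^ i) ^ 2) ?_
  · refine hkey.trans ?_
    have h2 := e3_total K (fun s => en Q k τ F D s v) hen (2 * k) (2 * τ v * R ^ 2)
      (by have := hτ v; positivity)
    have h3 := mul_le_mul_of_nonneg_left h2 (show (0 : ℝ) ≤ 2 * (K + 1) by positivity)
    refine h3.trans (le_of_eq ?_)
    ring
  · intro i m
    have hnn : (0 : ℝ) ≤ (2 * k) * (∑ s ∈ Ico (m * 2 ^ i) ((m + 1) * 2 ^ i), en Q k τ F D s v)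
      + (2 * τ v * R ^ 2) * ((2 : ℝ) ^ i) ^ 2 := by
      have := Finset.sum_nonneg (s := Ico (m * 2 ^ i) ((m + 1) * 2 ^ i))
        (f := fun s => en Q k τ F D s v) (fun s _ => hen s)
      have := hτ v
      positivity
    rcases (P.filter (fun j => a j ≤ m * 2 ^ i ∧ (m + 1) * 2 ^ i ≤ b j)).eq_empty_or_nonempty
      with h | h
    · rw [h]
      simpa using hnn
    · obtain ⟨j0, hj0⟩ := h
      rw [mem_filter] at hj0
      have hle : (m + 1) * 2 ^ i ≤ 2 ^ K := hj0.2.2.trans (hb j0 hj0.1)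
      have hsub : P.filter (fun j => a j ≤ m * 2 ^ i ∧ (m + 1) * 2 ^ i ≤ b j)
          ⊆ F (m * 2 ^ i) v := by
        intro j hj
        rw [mem_filter] at hj
        exact e3_F_mono hF v hj.2.1 (ha j hj.1)
      have hnorm := LA5a_norm hQ k τ hτ F hF D R hR v (m * 2 ^ i) ((m + 1) * 2 ^ i)
        (fun s hs => hyy s (lt_of_lt_of_le (mem_Ico.mp hs).2 hle))
      have hba : (m + 1) * 2 ^ i - m * 2 ^ i = 2 ^ i := by
        rw [add_mul, one_mul, Nat.add_sub_cancel_left]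
      rw [hba] at hnorm
      push_cast at hnorm
      refine (Finset.sum_le_sum_of_subset_of_nonneg hsub (fun j _ _ => sq_nonneg _)).trans ?_
      refine hnorm.trans (le_of_eq ?_)
      ring

/-- disturbances -/
theorem rows_dist {Q : ℕ → Matrix κ κ ℝ} (hQ : Flag Q) (k : ℕ) (τ : ℕ → ℝ)
    (hτ : ∀ v, 0 < τ v) (F : ℕ → ℕ → Finset κ) (hF : ∀ s v, F s v ⊆ F (s + 1) v)
    (hF' : ∀ s v, F s (v + 1) ⊆ F s v)
    (D : ℕ → κ → ℝ) (R : ℝ) (hR : 0 ≤ R) (v K : ℕ)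
    (hyy : ∀ s < 2 ^ K, τ v * sq (Ze Q k τ (F s) s v *ᵥ D s) ≤ R ^ 2)
    (P : Finset κ) (a b : κ → ℕ) (hb : ∀ j ∈ P, b j ≤ 2 ^ K) :
    ∑ j ∈ P, (∑ s ∈ Ico (a j) (b j), (Q (s + k) *ᵥ (Ze Q k τ (F s) s (v + 1) *ᵥ D s)) j) ^ 2
      ≤ 40 * (K + 1) ^ 2 * k * ∑ s ∈ range (2 ^ K), en Q k τ F D s v
        + 8 * (K + 1) * 4 ^ K * (τ v / τ (v + 1)) * R ^ 2 := by
  have hen : ∀ s, 0 ≤ en Q k τ F D s v := fun s => crit_nonneg hQ k s _
  have hr : 0 ≤ τ v / τ (v + 1) := div_nonneg (hτ v).le (hτ (v + 1)).le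
  have hkey := rows_dyadic K P
    (fun s j => (Q (s + k) *ᵥ (Ze Q k τ (F s) s (v + 1) *ᵥ D s)) j) a b hb
    (fun i m => (20 * k) * (∑ s ∈ Ico (m * 2 ^ i) ((m + 1) * 2 ^ i), en Q k τ F D s v)
      + (2 * (τ v / τ (v + 1)) * R ^ 2) * ((2 : ℝ) ^ i) ^ 2) ?_
  · refine hkey.trans ?_
    have h2 := e3_total K (fun s => en Q k τ F D s v) hen (20 * k)
      (2 * (τ v / τ (v + 1)) * R ^ 2) (by positivity)
    have h3 := mul_le_mul_of_nonneg_left h2 (show (0 : ℝ) ≤ 2 * (K + 1) by positivity)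
    refine h3.trans (le_of_eq ?_)
    ring
  · intro i m
    have hnn : (0 : ℝ) ≤ (20 * k) * (∑ s ∈ Ico (m * 2 ^ i) ((m + 1) * 2 ^ i), en Q k τ F D s v)
      + (2 * (τ v / τ (v + 1)) * R ^ 2) * ((2 : ℝ) ^ i) ^ 2 := by
      have := Finset.sum_nonneg (s := Ico (m * 2 ^ i) ((m + 1) * 2 ^ i))
        (f := fun s => en Q k τ F D s v) (fun s _ => hen s)
      positivity
    rcases (P.filter (fun j => a j ≤ m * 2 ^ i ∧ (m + 1) * 2 ^ i ≤ b j)).eq_empty_or_nonempty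
      with h | h
    · rw [h]
      simpa using hnn
    · obtain ⟨j0, hj0⟩ := h
      rw [mem_filter] at hj0
      have hle : (m + 1) * 2 ^ i ≤ 2 ^ K := hj0.2.2.trans (hb j0 hj0.1)
      have hnorm := LA5b_norm hQ k τ hτ F hF hF' D R hR v (m * 2 ^ i) ((m + 1) * 2 ^ i)
        (fun s hs => hyy s (lt_of_lt_of_le (mem_Ico.mp hs).2 hle))
      have hba : (m + 1) * 2 ^ i - m * 2 ^ i = 2 ^ i := by
        rw [add_mul, one_mul, Nat.add_sub_cancel_left]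
      rw [hba] at hnorm
      push_cast at hnorm
      refine (Finset.sum_le_sum_of_subset_of_nonneg (Finset.subset_univ _)
        (fun j _ _ => sq_nonneg _)).trans ?_
      refine hnorm.trans (le_of_eq ?_)
      ring

end Pool.Agent.LibKG64
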