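import Pool.Agent.LibKG64.E3

set_option autoImplicit false

/-! Task E4: (LA7), the promotion bound for one set of rows with its own control. -/

open Finset Matrix

namespace Pool.Agent.LibKG64

variable {κ : Type*} [Fintype κ] [DecidableEq κ]

/-- scalar Cauchy-Schwarz: `(x + ∑_{v ∈ [u+1, L)} y_v + z)² ≤ (L+1) (x² + ∑ y_v² + z²)` -/
theorem sq_add_sum_add_le (L u : ℕ) (hu : u < L) (x z : ℝ) (y : ℕ → ℝ) :
    (x + ∑ v ∈ Ico (u + 1) L, y v + z) ^ 2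
      ≤ (L + 1) * (x ^ 2 + ∑ v ∈ Ico (u + 1) L, y v ^ 2 + z ^ 2) := by
  have h := sq_sum_le_card_mul_sum_sq (s := range (L + 1))
    (f := fun v => if v = L then z else if v = u then x else if u < v then y v else 0)
  rw [sum_range_succ, sum_range_succ, card_range, if_pos rfl] at h
  have key : ∀ g : ℝ → ℝ, g 0 = 0 →
      ∑ v ∈ range L, g (if v = L then z else if v = u then x else if u < v then y v else 0)
        = g x + ∑ v ∈ Ico (u + 1) L, g (y v) := by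
    intro g hg
    have h1 : ∑ v ∈ range L, g (if v = L then z else if v = u then x else if u < v then y v else 0)
        = ∑ v ∈ range L, ((if v = u then g x else 0) + (if u < v then g (y v) else 0)) := by
      refine sum_congr rfl (fun v hv => ?_)
      have hv' : v ≠ L := ne_of_lt (mem_range.mp hv)
      rw [if_neg hv']
      by_cases h2 : v = u
      · rw [if_pos h2, if_pos h2, if_neg (by omega)]; ring
      · rw [if_neg h2, if_neg h2]
        by_cases h3 : u < v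
        · rw [if_pos h3, if_pos h3]; ring
        · rw [if_neg h3, if_neg h3, hg]; ring
    rw [h1, sum_add_distrib]
    congr 1
    · rw [sum_ite_eq' (range L) u (fun _ => g x), if_pos (mem_range.mpr hu)]
    · rw [← sum_filter]
      refine sum_congr ?_ (fun _ _ => rfl)
      ext v
      simp only [mem_filter, mem_range, mem_Ico]
      omega
  have e1 : ∑ v ∈ range L, (if v = L then z else if v = u then x else if u < v then y v else 0)
      = x + ∑ v ∈ Ico (u + 1) L, y v := key (fun t => t) rfl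
  have e2 : ∑ v ∈ range L, (if v = L then z else if v = u then x else if u < v then y v else 0) ^ 2
      = x ^ 2 + ∑ v ∈ Ico (u + 1) L, y v ^ 2 := key (fun t => t ^ 2) (by norm_num)
  rw [e1, e2] at h
  push_cast at h
  exact h

/-- `P` = rows whose displacement over `[a j, b j)`, while they are in `F · u` and not in `F · (u+1)`
(this is not needed), is at least `B`. `dY` = true displacement, within `δ` of the one of the control. Cauchy-Schwarz for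
`L + 1` terms: residual of stage `u`, disturbances of the stages `u+1, ..., L-1`, and the error. -/
theorem LA7 {Q : ℕ → Matrix κ κ ℝ} (hQ : Flag Q) (k : ℕ) (τ : ℕ → ℝ)
    (hτ : ∀ v, 0 < τ v) (F : ℕ → ℕ → Finset κ) (hF : ∀ s v, F s v ⊆ F (s + 1) v)
    (hF' : ∀ s v, F s (v + 1) ⊆ F s v)
    (D : ℕ → κ → ℝ) (R : ℝ) (hR : 0 ≤ R) (L u K : ℕ) (hu : u < L)
    (hyy : ∀ s < 2 ^ K, ∀ v < L, τ v * sq (Ze Q k τ (F s) s v *ᵥ D s) ≤ R ^ 2)
    (P : Finset κ) (a b : κ → ℕ) (hb : ∀ j ∈ P, b j ≤ 2 ^ K) (ha : ∀ j ∈ P, j ∈ F (a j) u)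
    (dY : ℕ → κ → ℝ) (δ B : ℝ) (hδ : 0 ≤ δ) (hB : 0 ≤ B)
    (hd : ∀ j ∈ P, ∀ s ∈ Ico (a j) (b j),
      |dY s j - (crit Q k s *ᵥ D s - Km Q k τ (F s) L s *ᵥ D s) j| ≤ δ)
    (hP : ∀ j ∈ P, B ≤ |∑ s ∈ Ico (a j) (b j), dY s j|)
    (ε : ℝ) (hε : 0 ≤ ε) (hr : ∀ v, v + 1 < L → τ v ≤ ε * τ (v + 1)) (hL : ∀ v < L, τ v ≤ ε) :
    B ^ 2 * P.card ≤ (L + 1) * (44 * (K + 1) ^ 2 * k *
        ∑ v ∈ Ico u L, ∑ s ∈ range (2 ^ K), en Q k τ F D s v
        + 8 * (K + 1) * 4 ^ K * L * ε * R ^ 2 + 4 ^ K * δ ^ 2 * P.card) := by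
  have hmono : ∀ s s' v, s ≤ s' → F s v ⊆ F s' v := by
    intro s s' v hss
    induction hss with
    | refl => exact Subset.refl _
    | step _ ih => exact ih.trans (hF _ v)
  -- the three parts
  set X : κ → ℝ := fun j => ∑ s ∈ Ico (a j) (b j), (Zm Q k τ (F s) s u *ᵥ D s
      - Q (s + k) *ᵥ (Ze Q k τ (F s) s u *ᵥ D s)) j with hX
  set W : ℕ → κ → ℝ := fun v j => ∑ s ∈ Ico (a j) (b j),
      (Q (s + k) *ᵥ (Ze Q k τ (F s) s v *ᵥ D s)) j with hW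
  have hen0 : ∀ s v, 0 ≤ en Q k τ F D s v := by
    intro s v
    exact crit_nonneg hQ k s _
  have hrow : ∀ j ∈ P, B ^ 2 ≤ (L + 1) * (X j ^ 2 + ∑ v ∈ Ico (u + 1) L, W v j ^ 2
      + 4 ^ K * δ ^ 2) := by
    intro j hj
    have h1 : ∑ s ∈ Ico (a j) (b j), (crit Q k s *ᵥ D s - Km Q k τ (F s) L s *ᵥ D s) j
        = X j - ∑ v ∈ Ico (u + 1) L, W v j := by
      rw [hX, hW]
      show _ = (∑ s ∈ Ico (a j) (b j), (Zm Q k τ (F s) s u *ᵥ D s
        - Q (s + k) *ᵥ (Ze Q k τ (F s) s u *ᵥ D s)) j) - ∑ v ∈ Ico (u + 1) L,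
          ∑ s ∈ Ico (a j) (b j), (Q (s + k) *ᵥ (Ze Q k τ (F s) s v *ᵥ D s)) j
      rw [sum_comm, ← sum_sub_distrib]
      refine sum_congr rfl (fun s hs => ?_)
      exact disp_eq Q k τ (F s) (hF' s) L s (D s) u hu j
        (hmono _ _ u (mem_Ico.mp hs).1 (ha j hj))
    have h2 : |∑ s ∈ Ico (a j) (b j), dY s j
        - ∑ s ∈ Ico (a j) (b j), (crit Q k s *ᵥ D s - Km Q k τ (F s) L s *ᵥ D s) j|
        ≤ 2 ^ K * δ := by
      rw [← sum_sub_distrib]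
      refine (abs_sum_le_sum_abs _ _).trans ?_
      refine (sum_le_sum (fun s hs => hd j hj s hs)).trans ?_
      rw [sum_const, Nat.card_Ico, nsmul_eq_mul]
      have h3 : ((b j - a j : ℕ) : ℝ) ≤ 2 ^ K := by
        have : b j - a j ≤ 2 ^ K := (Nat.sub_le _ _).trans (hb j hj)
        exact_mod_cast this
      gcongr
    have h4 : B ≤ |X j| + ∑ v ∈ Ico (u + 1) L, |W v j| + 2 ^ K * δ := by
      have h5 := hP j hj
      have h6 : |X j - ∑ v ∈ Ico (u + 1) L, W v j| ≤ |X j| + ∑ v ∈ Ico (u + 1) L, |W v j| :=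
        (abs_sub _ _).trans (by gcongr; exact abs_sum_le_sum_abs _ _)
      have h7 : |∑ s ∈ Ico (a j) (b j), dY s j| ≤ |X j - ∑ v ∈ Ico (u + 1) L, W v j| + 2 ^ K * δ := by
        rw [← h1]
        have := abs_sub_abs_le_abs_sub (∑ s ∈ Ico (a j) (b j), dY s j)
          (∑ s ∈ Ico (a j) (b j), (crit Q k s *ᵥ D s - Km Q k τ (F s) L s *ᵥ D s) j)
        linarith
      linarith
    have h8 := sq_add_sum_add_le L u hu (|X j|) (2 ^ K * δ) (fun v => |W v j|)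
    simp only [sq_abs] at h8
    have h9 : B ^ 2 ≤ (|X j| + ∑ v ∈ Ico (u + 1) L, |W v j| + 2 ^ K * δ) ^ 2 := by
      gcongr
    refine h9.trans (h8.trans (le_of_eq ?_))
    have : ((2 : ℝ) ^ K) ^ 2 = 4 ^ K := by
      rw [← pow_mul, mul_comm, pow_mul]; norm_num
    rw [mul_pow, this]
  have hXs := rows_resid hQ k τ hτ F hF D R hR u K (fun s hs => hyy s hs u hu) P a b hb ha
  have hWs : ∀ v ∈ Ico (u + 1) L, ∑ j ∈ P, W v j ^ 2
      ≤ 40 * (K + 1) ^ 2 * k * ∑ s ∈ range (2 ^ K), en Q k τ F D s (v - 1)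
        + 8 * (K + 1) * 4 ^ K * ε * R ^ 2 := by
    intro v hv
    obtain ⟨hv1, hv2⟩ := mem_Ico.mp hv
    obtain ⟨v', rfl⟩ : ∃ v', v = v' + 1 := ⟨v - 1, by omega⟩
    have h1 := rows_dist hQ k τ hτ F hF hF' D R hR v' K (fun s hs => hyy s hs v' (by omega)) P a b hb
    refine h1.trans ?_
    rw [Nat.add_sub_cancel]
    have h2 : τ v' / τ (v' + 1) ≤ ε := by
      rw [div_le_iff₀ (hτ _)]
      exact hr v' hv2
    gcongr
  -- sum over the rows
  have hsum : B ^ 2 * P.card ≤ (L + 1) * (∑ j ∈ P, X j ^ 2 + ∑ v ∈ Ico (u + 1) L, ∑ j ∈ P, W v j ^ 2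
      + 4 ^ K * δ ^ 2 * P.card) := by
    calc B ^ 2 * P.card = ∑ j ∈ P, B ^ 2 := by rw [sum_const, nsmul_eq_mul]; ring
      _ ≤ ∑ j ∈ P, (L + 1) * (X j ^ 2 + ∑ v ∈ Ico (u + 1) L, W v j ^ 2 + 4 ^ K * δ ^ 2) :=
          sum_le_sum hrow
      _ = _ := by
          rw [← mul_sum, sum_add_distrib, sum_add_distrib, sum_comm, sum_const, nsmul_eq_mul]
          ring
  refine hsum.trans ?_
  -- energies
  have hshift : ∑ v ∈ Ico (u + 1) L, ∑ s ∈ range (2 ^ K), en Q k τ F D s (v - 1)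
      ≤ ∑ v ∈ Ico u L, ∑ s ∈ range (2 ^ K), en Q k τ F D s v := by
    have h1 : ∑ v ∈ Ico (u + 1) L, ∑ s ∈ range (2 ^ K), en Q k τ F D s (v - 1)
        = ∑ v ∈ Ico u (L - 1), ∑ s ∈ range (2 ^ K), en Q k τ F D s v := by
      rw [show L = (L - 1) + 1 by omega, ← sum_Ico_add' _ u (L - 1) 1]
      simp
    rw [h1]
    refine sum_le_sum_of_subset_of_nonneg ?_ (fun v _ _ => sum_nonneg (fun s _ => hen0 s v))
    intro v hv
    rw [mem_Ico] at hv ⊢
    omega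
  have hone : ∑ s ∈ range (2 ^ K), en Q k τ F D s u
      ≤ ∑ v ∈ Ico u L, ∑ s ∈ range (2 ^ K), en Q k τ F D s v := by
    refine single_le_sum (f := fun v => ∑ s ∈ range (2 ^ K), en Q k τ F D s v)
      (fun v _ => sum_nonneg (fun s _ => hen0 s v)) ?_
    rw [mem_Ico]; omega
  set E := ∑ v ∈ Ico u L, ∑ s ∈ range (2 ^ K), en Q k τ F D s v with hE
  have hXs' : ∑ j ∈ P, X j ^ 2 ≤ 4 * (K + 1) ^ 2 * k * E + 8 * (K + 1) * 4 ^ K * ε * R ^ 2 := by
    refine hXs.trans ?_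
    have : τ u ≤ ε := hL u hu
    gcongr
  have hWs' : ∑ v ∈ Ico (u + 1) L, ∑ j ∈ P, W v j ^ 2
      ≤ 40 * (K + 1) ^ 2 * k * E + (L - 1) * (8 * (K + 1) * 4 ^ K * ε * R ^ 2) := by
    refine (sum_le_sum hWs).trans ?_
    rw [sum_add_distrib, ← mul_sum, sum_const, Nat.card_Ico, nsmul_eq_mul]
    have h1 : ((L - (u + 1) : ℕ) : ℝ) ≤ L - 1 := by
      rw [Nat.cast_sub (by omega)]
      push_cast
      have : (0 : ℝ) ≤ (u : ℝ) := Nat.cast_nonneg u
      linarith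
    have h2 : 0 ≤ 8 * ((K : ℝ) + 1) * 4 ^ K * ε * R ^ 2 := by positivity
    gcongr
  have h3 : ∑ j ∈ P, X j ^ 2 + ∑ v ∈ Ico (u + 1) L, ∑ j ∈ P, W v j ^ 2 + 4 ^ K * δ ^ 2 * P.card
      ≤ 44 * (K + 1) ^ 2 * k * E + 8 * (K + 1) * 4 ^ K * L * ε * R ^ 2 + 4 ^ K * δ ^ 2 * P.card := by
    have h4 : 4 * ((K : ℝ) + 1) ^ 2 * k * E + 8 * (K + 1) * 4 ^ K * ε * R ^ 2
        + (40 * (K + 1) ^ 2 * k * E + (L - 1) * (8 * (K + 1) * 4 ^ K * ε * R ^ 2))
        = 44 * (K + 1) ^ 2 * k * E + 8 * (K + 1) * 4 ^ K * L * ε * R ^ 2 := by ring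
    linarith
  gcongr

end Pool.Agent.LibKG64
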