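import Pool.Agent.LibKG64.S2
import Pool.Agent.LibKG64.AO

set_option autoImplicit false

/-! O-En 1: spectral data of the energy forms of the clusters. -/

open Finset Matrix

namespace Pool.Agent.LibKG64

variable {κ : Type*} [Fintype κ] [DecidableEq κ]

/-- spectral data of the energy form of the control of `F ∩ A`, stage `v` -/
structure EData (Q : ℕ → Matrix κ κ ℝ) (k : ℕ) (τ : ℕ → ℝ) (F : ℕ → Finset κ) (s : ℕ)
    (w : Finset κ → ℕ → κ → κ → ℝ) (n : Finset κ → ℕ → κ → ℝ) : Prop where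
  n0 : ∀ A v i, 0 ≤ n A v i
  w1 : ∀ A v i, sq (w A v i) = 1
  w2 : ∀ A v i j, i ≠ j → w A v i ⬝ᵥ w A v j = 0
  eig : ∀ A v i, Nm Q k τ (fun u => F u ∩ A) s v *ᵥ w A v i = n A v i • w A v i
  form : ∀ A v x, x ⬝ᵥ Nm Q k τ (fun u => F u ∩ A) s v *ᵥ x = ∑ i, n A v i * (w A v i ⬝ᵥ x) ^ 2
  tr : ∀ A v, (Nm Q k τ (fun u => F u ∩ A) s v).trace = ∑ i, n A v i

theorem Nm_symm {Q : ℕ → Matrix κ κ ℝ} (hQ : Flag Q) (k : ℕ) (τ : ℕ → ℝ) (F : ℕ → Finset κ)
    (s v : ℕ) : (Nm Q k τ F s v)ᵀ = Nm Q k τ F s v := by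
  unfold Nm
  rw [Matrix.transpose_mul, Matrix.transpose_mul, Matrix.transpose_transpose, crit_symm hQ,
    Matrix.mul_assoc]

theorem Nm_nonneg {Q : ℕ → Matrix κ κ ℝ} (hQ : Flag Q) (k : ℕ) (τ : ℕ → ℝ) (F : ℕ → Finset κ)
    (s v : ℕ) (x : κ → ℝ) : 0 ≤ x ⬝ᵥ Nm Q k τ F s v *ᵥ x := by
  rw [Nm_dot]
  exact crit_nonneg hQ k s _

theorem exists_EData {Q : ℕ → Matrix κ κ ℝ} (hQ : Flag Q) (k : ℕ) (τ : ℕ → ℝ)
    (F : ℕ → Finset κ) (s : ℕ) : ∃ w n, EData Q k τ F s w n := by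
  have h := fun (A : Finset κ) (v : ℕ) => exists_spectral (Nm Q k τ (fun u => F u ∩ A) s v)
    (Nm_symm hQ k τ _ s v) (Nm_nonneg hQ k τ _ s v)
  choose w n h0 h1 h2 _ h4 h5 h6 using h
  exact ⟨w, n, h0, h1, h2, h4, h5, h6⟩

section

variable {Q : ℕ → Matrix κ κ ℝ} (hQ : Flag Q) {k : ℕ} {τ : ℕ → ℝ} (hτ : ∀ v, 0 < τ v)
  (hm : ∀ v, τ v ≤ τ (v + 1)) (hτ1 : ∀ v, τ v ≤ 1) {F : ℕ → Finset κ}
  (hF : ∀ v, F (v + 1) ⊆ F v) {s : ℕ} {w : Finset κ → ℕ → κ → κ → ℝ}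
  {n : Finset κ → ℕ → κ → ℝ} (hE : EData Q k τ F s w n)

include hQ hτ hm hτ1 hF hE in
/-- the eigenvectors with eigenvalue `≥ ν` are `C β`, `β` supported in `F 0 ∩ A`, `|β|² ≤ B` -/
theorem en_repr (A : Finset κ) (v : ℕ) (i : κ) {ν B : ℝ} (hν : 0 < ν) (hn : ν ≤ n A v i)
    (hB : (∏ v' ∈ range v, (4 / τ v' ^ 2)) * (1 / (ν ^ 2 * τ v ^ 3)) ≤ B) :
    ∃ β : κ → ℝ, res (F 0 ∩ A) β = β ∧ w A v i = crit Q k s *ᵥ β ∧ sq β ≤ B := by
  have hn0 : 0 < n A v i := lt_of_lt_of_le hν hn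
  have hF' : ∀ v, (fun u => F u ∩ A) (v + 1) ⊆ (fun u => F u ∩ A) v := fun v =>
    Finset.inter_subset_inter_right (hF v)
  obtain ⟨α, _, hα1, hα2⟩ := Nm_eigen hQ k τ hτ hm (fun u => F u ∩ A) hF' s v (w A v i)
    (hE.w1 A v i) (n A v i) hn0 (hE.eig A v i)
  obtain ⟨β, hβ0, hβ1, hβ2⟩ := ZmT_repr hQ k τ hτ hτ1 (fun u => F u ∩ A) hF' s v α
  refine ⟨β, hβ0, ?_, ?_⟩
  · rw [hα1, hβ1]
  · refine hβ2.trans (le_trans ?_ hB)
    have hp : 0 ≤ ∏ v' ∈ range v, (4 / τ v' ^ 2) := Finset.prod_nonneg fun v' _ => by positivity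
    refine mul_le_mul_of_nonneg_left (hα2.trans ?_) hp
    have h3 : 0 < τ v ^ 3 := pow_pos (hτ v) 3
    apply one_div_le_one_div_of_le
    · positivity
    · apply mul_le_mul_of_nonneg_right _ h3.le
      exact pow_le_pow_left₀ hν.le hn 2

include hQ hτ hm hF hE in
/-- eigenvectors with positive eigenvalue lie in the range of `C` -/
theorem en_crit (A : Finset κ) (v : ℕ) (i : κ) (hn : 0 < n A v i) (hτ1 : ∀ v, τ v ≤ 1) :
    crit Q k s *ᵥ w A v i = w A v i := by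
  obtain ⟨β, _, h1, _⟩ := en_repr hQ hτ hm hτ1 hF hE A v i hn le_rfl le_rfl
  rw [h1, Matrix.mulVec_mulVec, crit_mul hQ]

include hQ hτ hE in
/-- at most `card A` positive eigenvalues -/
theorem en_card (A : Finset κ) (v : ℕ) {ν : ℝ} (hν : 0 < ν) :
    (univ.filter (fun i => ν ≤ n A v i)).card ≤ A.card := by
  have h1 := Nm_rank hQ k τ hτ (fun u => F u ∩ A) s v (w A v) (n A v) (hE.w1 A v)
    (hE.w2 A v) (hE.eig A v)
  refine le_trans (Finset.card_le_card ?_) (h1.trans (Finset.card_le_card Finset.inter_subset_right))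
  intro i hi
  rw [Finset.mem_filter] at hi ⊢
  exact ⟨hi.1, (lt_of_lt_of_le hν hi.2).ne'⟩

include hQ hτ hE in
theorem en_card' (A : Finset κ) (v : ℕ) :
    (univ.filter (fun i => n A v i ≠ 0)).card ≤ A.card := by
  have h1 := Nm_rank hQ k τ hτ (fun u => F u ∩ A) s v (w A v) (n A v) (hE.w1 A v)
    (hE.w2 A v) (hE.eig A v)
  exact h1.trans (Finset.card_le_card Finset.inter_subset_right)

end

/-- `l¹` norm against `l²` norm -/
theorem l1_sq_le (A : Finset κ) (β : κ → ℝ) (hβ : res A β = β) :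
    (∑ j, |β j|) ^ 2 ≤ A.card * sq β := by
  have h0 : ∀ j, j ∉ A → β j = 0 := by
    intro j hj
    have := congrFun hβ j
    simp only [res, if_neg hj] at this
    exact this.symm
  have h1 : ∑ j, |β j| = ∑ j ∈ A, |β j| := by
    symm
    apply Finset.sum_subset (Finset.subset_univ A)
    intro j _ hj
    rw [h0 j hj, abs_zero]
  have h2 : ∑ j ∈ A, β j ^ 2 = sq β := by
    rw [sq_eq]
    apply Finset.sum_subset (Finset.subset_univ A)
    intro j _ hj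
    rw [h0 j hj]
    ring
  rw [h1]
  have h3 := sq_sum_le_card_mul_sum_sq (s := A) (f := fun j => |β j|)
  simp only [sq_abs] at h3
  rw [h2] at h3
  exact h3

/-- a bilinear form with small entries -/
theorem bil_small (M : Matrix κ κ ℝ) (A A' : Finset κ) {g : ℝ}
    (hM : ∀ j ∈ A, ∀ j' ∈ A', |M j j'| ≤ g) (β β' : κ → ℝ) (hβ : res A β = β)
    (hβ' : res A' β' = β') :
    |β ⬝ᵥ M *ᵥ β'| ≤ g * (∑ j, |β j|) * (∑ j, |β' j|) := by
  have h0 : ∀ j, j ∉ A → β j = 0 := by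
    intro j hj
    have := congrFun hβ j
    simp only [res, if_neg hj] at this
    exact this.symm
  have h0' : ∀ j, j ∉ A' → β' j = 0 := by
    intro j hj
    have := congrFun hβ' j
    simp only [res, if_neg hj] at this
    exact this.symm
  unfold dotProduct mulVec dotProduct
  calc |∑ j, β j * ∑ j', M j j' * β' j'| ≤ ∑ j, |β j * ∑ j', M j j' * β' j'| :=
        Finset.abs_sum_le_sum_abs _ _
    _ ≤ ∑ j, |β j| * (g * ∑ j', |β' j'|) := by
        apply Finset.sum_le_sum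
        intro j _
        rw [abs_mul]
        by_cases hj : j ∈ A
        · apply mul_le_mul_of_nonneg_left _ (abs_nonneg _)
          refine (Finset.abs_sum_le_sum_abs _ _).trans ?_
          rw [Finset.mul_sum]
          apply Finset.sum_le_sum
          intro j' _
          rw [abs_mul]
          by_cases hj' : j' ∈ A'
          · exact mul_le_mul_of_nonneg_right (hM j hj j' hj') (abs_nonneg _)
          · rw [h0' j' hj']; simp
        · rw [h0 j hj]; simp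
    _ = g * (∑ j, |β j|) * (∑ j, |β' j|) := by
        rw [← Finset.sum_mul]
        ring

end Pool.Agent.LibKG64
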