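import Pool.Agent.LibKG64.En1

set_option autoImplicit false

/-! O-En 2: column norm of the energy rows. -/

open Finset Matrix

namespace Pool.Agent.LibKG64

variable {κ : Type*} [Fintype κ] [DecidableEq κ]

section

variable {Q : ℕ → Matrix κ κ ℝ} (hQ : Flag Q) {k : ℕ} {τ : ℕ → ℝ} (hτ : ∀ v, 0 < τ v)
  (hm : ∀ v, τ v ≤ τ (v + 1)) (hτ1 : ∀ v, τ v ≤ 1) {F : ℕ → Finset κ}
  (hF : ∀ v, F (v + 1) ⊆ F v) {s : ℕ} {w : Finset κ → ℕ → κ → κ → ℝ}
  {n : Finset κ → ℕ → κ → ℝ} (hE : EData Q k τ F s w n)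

/-- number of near clusters -/
theorem near_card (Cl : Finset (Finset κ)) (hdis : ∀ A ∈ Cl, ∀ A' ∈ Cl, A ≠ A' → Disjoint A A')
    (N : Finset κ) : (Cl.filter (fun A => ∃ j ∈ A, j ∈ N)).card ≤ N.card := by
  have h1 : ((Cl.filter (fun A => ∃ j ∈ A, j ∈ N)).biUnion (fun A => A ∩ N)).card
      = ∑ A ∈ Cl.filter (fun A => ∃ j ∈ A, j ∈ N), (A ∩ N).card := by
    apply Finset.card_biUnion
    intro A hA A' hA' hne
    have hA := Finset.mem_filter.mp (Finset.mem_coe.mp hA)
    have hA' := Finset.mem_filter.mp (Finset.mem_coe.mp hA')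
    exact (hdis A hA.1 A' hA'.1 hne).mono Finset.inter_subset_left Finset.inter_subset_left
  have h2 : ∑ A ∈ Cl.filter (fun A => ∃ j ∈ A, j ∈ N), 1
      ≤ ∑ A ∈ Cl.filter (fun A => ∃ j ∈ A, j ∈ N), (A ∩ N).card := by
    apply Finset.sum_le_sum
    intro A hA
    rw [Finset.mem_filter] at hA
    obtain ⟨j, hj, hj'⟩ := hA.2
    exact Finset.card_pos.mpr ⟨j, Finset.mem_inter.mpr ⟨hj, hj'⟩⟩
  rw [Finset.card_eq_sum_ones]
  refine h2.trans ?_
  rw [← h1]
  apply Finset.card_le_card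
  intro j hj
  rw [Finset.mem_biUnion] at hj
  obtain ⟨A, _, hj⟩ := hj
  exact (Finset.mem_inter.mp hj).2

include hQ hτ hm hτ1 hF hE in
/-- **column norm**: fixed stage `v`. -/
theorem en_col (Cl : Finset (Finset κ)) (hdis : ∀ A ∈ Cl, ∀ A' ∈ Cl, A ≠ A' → Disjoint A A')
    (hsub : ∀ A ∈ Cl, A ⊆ F 0) (l l' : ℕ) (hl : ∀ A ∈ Cl, A.card ≤ l) {g : ℝ} (hg : 0 ≤ g)
    (hgC : ∀ A ∈ Cl, ∀ A' ∈ Cl, A ≠ A' → ∀ j ∈ A, ∀ j' ∈ A', |crit Q k s j j'| ≤ g)
    (v : ℕ) {ν B : ℝ} (hν : 0 < ν)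
    (hB : (∏ v' ∈ range v, (4 / τ v' ^ 2)) * (1 / (ν ^ 2 * τ v ^ 3)) ≤ B)
    (a : κ → ℝ) (ha : sq a ≤ 1) (γ e2 : ℝ)
    (hnear : ((F 0).filter (fun j => γ ≤ |(crit Q k s *ᵥ a) j|)).card ≤ l')
    (hfar : ∑ j ∈ (F 0).filter (fun j => ¬ γ ≤ |(crit Q k s *ᵥ a) j|),
      (crit Q k s *ᵥ a) j ^ 2 ≤ e2) :
    ∑ A ∈ Cl, ∑ i ∈ univ.filter (fun i => ν ≤ n A v i), (w A v i ⬝ᵥ a) ^ 2
      ≤ 1 + B * (g * l ^ 2 * l' + l * e2) := by
  classical
  have hB0 : 0 ≤ B := by
    refine le_trans ?_ hB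
    have h3 : 0 < τ v ^ 3 := pow_pos (hτ v) 3
    have hp : 0 ≤ ∏ v' ∈ range v, (4 / τ v' ^ 2) := Finset.prod_nonneg fun v' _ => by positivity
    positivity
  set N := (F 0).filter (fun j => γ ≤ |(crit Q k s *ᵥ a) j|) with hN
  set near := fun A : Finset κ => ∃ j ∈ A, j ∈ N with hnear'
  rw [← Finset.sum_filter_add_sum_filter_not Cl near]
  have hrep := fun (A : Finset κ) (i : κ) (hi : ν ≤ n A v i) =>
    en_repr hQ hτ hm hτ1 hF hE A v i hν hi hB
  -- near clusters
  have h1 : ∑ A ∈ Cl.filter near, ∑ i ∈ univ.filter (fun i => ν ≤ n A v i), (w A v i ⬝ᵥ a) ^ 2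
      ≤ 1 + B * (g * l ^ 2 * l') := by
    set S := ((Cl.filter near).sigma (fun A => univ.filter (fun i => ν ≤ n A v i))) with hS
    have hsum : ∑ A ∈ Cl.filter near, ∑ i ∈ univ.filter (fun i => ν ≤ n A v i),
        (w A v i ⬝ᵥ a) ^ 2 = ∑ p ∈ S, (w p.1 v p.2 ⬝ᵥ a) ^ 2 := by
      rw [hS, Finset.sum_sigma]
    have hcard : (S.card : ℝ) ≤ l' * l := by
      have h2 : S.card ≤ l' * l := by
        rw [hS, Finset.card_sigma]
        calc ∑ A ∈ Cl.filter near, (univ.filter (fun i => ν ≤ n A v i)).card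
            ≤ ∑ A ∈ Cl.filter near, l := by
              apply Finset.sum_le_sum
              intro A hA
              exact (en_card hQ hτ hE A v hν).trans (hl A (Finset.mem_filter.mp hA).1)
          _ = (Cl.filter near).card * l := by rw [Finset.sum_const, smul_eq_mul]
          _ ≤ l' * l := Nat.mul_le_mul_right _ ((near_card Cl hdis N).trans hnear)
      exact_mod_cast h2
    have hε : 0 ≤ g * l * B := by positivity
    have hb := bessel S (fun p => w p.1 v p.2) (g * l * B) hε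
      (fun p _ => (hE.w1 p.1 v p.2).le) (by
        intro p hp q hq hpq
        rw [hS, Finset.mem_sigma, Finset.mem_filter, Finset.mem_filter] at hp hq
        by_cases hA : p.1 = q.1
        · have hi : p.2 ≠ q.2 := by
            intro hi
            apply hpq
            obtain ⟨p1, p2⟩ := p
            obtain ⟨q1, q2⟩ := q
            simp only at hA hi
            subst hA
            subst hi
            rfl
          show |w p.1 v p.2 ⬝ᵥ w q.1 v q.2| ≤ _
          rw [← hA, hE.w2 p.1 v p.2 q.2 hi, abs_zero]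
          exact hε
        · obtain ⟨β, hβ0, hβ1, hβ2⟩ := hrep p.1 p.2 hp.2.2
          obtain ⟨β', hβ'0, hβ'1, hβ'2⟩ := hrep q.1 q.2 hq.2.2
          show |w p.1 v p.2 ⬝ᵥ w q.1 v q.2| ≤ _
          rw [hβ1, hβ'1, ← sym_dot _ (crit_symm hQ k s), Matrix.mulVec_mulVec, crit_mul hQ]
          have h3 := bil_small (crit Q k s) (F 0 ∩ p.1) (F 0 ∩ q.1) (g := g)
            (fun j hj j' hj' => hgC p.1 hp.1.1 q.1 hq.1.1 hA j (Finset.mem_inter.mp hj).2 j'
              (Finset.mem_inter.mp hj').2) β β' hβ0 hβ'0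
          refine h3.trans ?_
          have h4 := l1_sq_le _ β hβ0
          have h5 := l1_sq_le _ β' hβ'0
          have h6 : ((F 0 ∩ p.1).card : ℝ) ≤ l := by
            exact_mod_cast (Finset.card_le_card Finset.inter_subset_right).trans (hl _ hp.1.1)
          have h7 : ((F 0 ∩ q.1).card : ℝ) ≤ l := by
            exact_mod_cast (Finset.card_le_card Finset.inter_subset_right).trans (hl _ hq.1.1)
          have h8 : (∑ j, |β j|) ^ 2 ≤ l * B :=
            h4.trans (mul_le_mul h6 hβ2 (sq_nonneg' _) (by positivity))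
          have h9 : (∑ j, |β' j|) ^ 2 ≤ l * B :=
            h5.trans (mul_le_mul h7 hβ'2 (sq_nonneg' _) (by positivity))
          have h10 : (∑ j, |β j|) * (∑ j, |β' j|) ≤ l * B := by
            nlinarith [sq_nonneg ((∑ j, |β j|) - (∑ j, |β' j|))]
          calc g * (∑ j, |β j|) * (∑ j, |β' j|) = g * ((∑ j, |β j|) * (∑ j, |β' j|)) := by ring
            _ ≤ g * (l * B) := mul_le_mul_of_nonneg_left h10 hg
            _ = g * l * B := by ring) a
    rw [hsum]
    refine hb.trans ?_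
    have h2 : 1 + g * l * B * S.card ≤ 1 + B * (g * l ^ 2 * l') := by
      have := mul_le_mul_of_nonneg_left hcard hε
      nlinarith
    have h3 : 0 ≤ 1 + g * l * B * (S.card : ℝ) := by positivity
    calc (1 + g * l * B * (S.card : ℝ)) * sq a ≤ (1 + g * l * B * (S.card : ℝ)) * 1 :=
          mul_le_mul_of_nonneg_left ha h3
      _ ≤ _ := by rw [mul_one]; exact h2
  -- far clusters
  have h2 : ∑ A ∈ Cl.filter (fun A => ¬ near A), ∑ i ∈ univ.filter (fun i => ν ≤ n A v i),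
      (w A v i ⬝ᵥ a) ^ 2 ≤ B * (l * e2) := by
    have hone : ∀ A ∈ Cl.filter (fun A => ¬ near A),
        ∑ i ∈ univ.filter (fun i => ν ≤ n A v i), (w A v i ⬝ᵥ a) ^ 2
          ≤ l * B * ∑ j ∈ A, (crit Q k s *ᵥ a) j ^ 2 := by
      intro A hA
      rw [Finset.mem_filter] at hA
      have h3 : ∀ i ∈ univ.filter (fun i => ν ≤ n A v i), (w A v i ⬝ᵥ a) ^ 2
          ≤ B * ∑ j ∈ A, (crit Q k s *ᵥ a) j ^ 2 := by
        intro i hi
        rw [Finset.mem_filter] at hi
        obtain ⟨β, hβ0, hβ1, hβ2⟩ := hrep A i hi.2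
        rw [hβ1, ← sym_dot _ (crit_symm hQ k s), ← hβ0, res_dot]
        refine (cs _ _).trans ?_
        have h4 : sq (res (F 0 ∩ A) (crit Q k s *ᵥ a)) ≤ ∑ j ∈ A, (crit Q k s *ᵥ a) j ^ 2 := by
          rw [sq_eq]
          have h5 : ∀ j, (res (F 0 ∩ A) (crit Q k s *ᵥ a) j) ^ 2
              ≤ if j ∈ A then (crit Q k s *ᵥ a) j ^ 2 else 0 := by
            intro j
            unfold res
            by_cases hj : j ∈ A
            · rw [if_pos hj]
              split_ifs
              · exact le_rfl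
              · rw [zero_pow two_ne_zero]
                exact sq_nonneg _
            · rw [if_neg hj, if_neg (fun h => hj (Finset.mem_inter.mp h).2)]
              simp
          refine (Finset.sum_le_sum fun j _ => h5 j).trans (le_of_eq ?_)
          rw [← Finset.sum_filter]
          congr 1
          ext j
          simp
        exact mul_le_mul hβ2 h4 (sq_nonneg' _) hB0
      refine (Finset.sum_le_sum h3).trans ?_
      rw [Finset.sum_const, nsmul_eq_mul, mul_assoc]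
      apply mul_le_mul_of_nonneg_right
      · exact_mod_cast (en_card hQ hτ hE A v hν).trans (hl A hA.1)
      · exact mul_nonneg hB0 (Finset.sum_nonneg fun j _ => sq_nonneg _)
    refine (Finset.sum_le_sum hone).trans ?_
    rw [← Finset.mul_sum]
    have h3 : ∑ A ∈ Cl.filter (fun A => ¬ near A), ∑ j ∈ A, (crit Q k s *ᵥ a) j ^ 2 ≤ e2 := by
      rw [← Finset.sum_biUnion]
      · refine le_trans (Finset.sum_le_sum_of_subset_of_nonneg ?_ ?_) hfar
        · intro j hj
          rw [Finset.mem_biUnion] at hj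
          obtain ⟨A, hA, hj⟩ := hj
          rw [Finset.mem_filter] at hA ⊢
          refine ⟨hsub A hA.1 hj, ?_⟩
          intro hγ
          exact hA.2 ⟨j, hj, Finset.mem_filter.mpr ⟨hsub A hA.1 hj, hγ⟩⟩
        · intro j _ _
          exact sq_nonneg _
      · intro A hA A' hA' hne
        have hA := Finset.mem_filter.mp (Finset.mem_coe.mp hA)
        have hA' := Finset.mem_filter.mp (Finset.mem_coe.mp hA')
        exact hdis A hA.1 A' hA'.1 hne
    calc l * B * ∑ A ∈ Cl.filter (fun A => ¬ near A), ∑ j ∈ A, (crit Q k s *ᵥ a) j ^ 2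
        ≤ l * B * e2 := mul_le_mul_of_nonneg_left h3 (by positivity)
      _ = B * (l * e2) := by ring
  linarith

end

end Pool.Agent.LibKG64
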