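import Pool.Agent.LibKG64.En2

set_option autoImplicit false

/-! O-En 3: operator norm of the energy rows; energy bound. -/

open Finset Matrix

namespace Pool.Agent.LibKG64

variable {κ : Type*} [Fintype κ] [DecidableEq κ]

theorem dot_supp_disj {A A' : Finset κ} (h : Disjoint A A') (x y : κ → ℝ) (hx : res A x = x)
    (hy : res A' y = y) : x ⬝ᵥ y = 0 := by
  rw [← hx, ← hy]
  unfold dotProduct res
  apply Finset.sum_eq_zero
  intro j _
  by_cases h1 : j ∈ A
  · have h2 : j ∉ A' := Finset.disjoint_left.mp h h1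
    simp [h2]
  · simp [h1]

theorem sq_add_dot (x y : κ → ℝ) : sq (x + y) = sq x + 2 * (x ⬝ᵥ y) + sq y := by
  unfold sq
  rw [dotProduct_add, add_dotProduct, add_dotProduct, dotProduct_comm y x]
  ring

/-- disjoint supports -/
theorem sq_sum_disj (Cl : Finset (Finset κ))
    (hdis : ∀ A ∈ Cl, ∀ A' ∈ Cl, A ≠ A' → Disjoint A A') (y : Finset κ → κ → ℝ)
    (hy : ∀ A ∈ Cl, res A (y A) = y A) : sq (∑ A ∈ Cl, y A) = ∑ A ∈ Cl, sq (y A) := by
  classical
  induction Cl using Finset.induction_on with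
  | empty => simp [sq]
  | insert A S hA ih =>
    rw [Finset.sum_insert hA, Finset.sum_insert hA, sq_add_dot,
      ih (fun B hB B' hB' => hdis B (Finset.mem_insert_of_mem hB) B' (Finset.mem_insert_of_mem hB'))
        (fun B hB => hy B (Finset.mem_insert_of_mem hB))]
    have h1 : y A ⬝ᵥ ∑ B ∈ S, y B = 0 := by
      rw [dotProduct_sum]
      apply Finset.sum_eq_zero
      intro B hB
      apply dot_supp_disj (hdis A (Finset.mem_insert_self _ _) B (Finset.mem_insert_of_mem hB) _)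
        _ _ (hy A (Finset.mem_insert_self _ _)) (hy B (Finset.mem_insert_of_mem hB))
      intro h
      rw [h] at hA
      exact hA hB
    rw [h1]
    ring

/-- Cauchy-Schwarz for a linear combination of vectors -/
theorem sq_comb_le {α : Type*} (S : Finset α) (c : α → ℝ) (b : α → κ → ℝ) :
    sq (∑ i ∈ S, c i • b i) ≤ (∑ i ∈ S, c i ^ 2) * ∑ i ∈ S, sq (b i) := by
  rw [sq_eq]
  have h1 : ∀ j, (∑ i ∈ S, c i • b i) j ^ 2 ≤ (∑ i ∈ S, c i ^ 2) * ∑ i ∈ S, b i j ^ 2 := by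
    intro j
    rw [Finset.sum_apply]
    exact Finset.sum_mul_sq_le_sq_mul_sq S c (fun i => b i j)
  refine (Finset.sum_le_sum fun j _ => h1 j).trans (le_of_eq ?_)
  rw [← Finset.mul_sum, Finset.sum_comm]
  congr 1
  apply Finset.sum_congr rfl
  intro i _
  rw [sq_eq]

theorem res_sum {α : Type*} (F : Finset κ) (S : Finset α) (b : α → κ → ℝ) :
    res F (∑ i ∈ S, b i) = ∑ i ∈ S, res F (b i) := by
  classical
  induction S using Finset.induction_on with
  | empty => simp only [Finset.sum_empty]; funext j; simp [res]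
  | insert a S ha ih => rw [Finset.sum_insert ha, Finset.sum_insert ha, res_add, ih]

section

variable {Q : ℕ → Matrix κ κ ℝ} (hQ : Flag Q) {k : ℕ} {τ : ℕ → ℝ} (hτ : ∀ v, 0 < τ v)
  (hm : ∀ v, τ v ≤ τ (v + 1)) (hτ1 : ∀ v, τ v ≤ 1) {F : ℕ → Finset κ}
  (hF : ∀ v, F (v + 1) ⊆ F v) {s : ℕ} {w : Finset κ → ℕ → κ → κ → ℝ}
  {n : Finset κ → ℕ → κ → ℝ} (hE : EData Q k τ F s w n)

include hQ in
theorem sq_crit_le (x : κ → ℝ) : sq (crit Q k s *ᵥ x) ≤ sq x := by
  rw [← crit_dot hQ]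
  exact crit_le hQ k s x

include hQ hτ hm hτ1 hF hE in
/-- **operator norm**: fixed stage `v`. -/
theorem en_op (Cl : Finset (Finset κ)) (hdis : ∀ A ∈ Cl, ∀ A' ∈ Cl, A ≠ A' → Disjoint A A')
    (l : ℕ) (hl : ∀ A ∈ Cl, A.card ≤ l) (v : ℕ) {ν B : ℝ} (hν : 0 < ν)
    (hB : (∏ v' ∈ range v, (4 / τ v' ^ 2)) * (1 / (ν ^ 2 * τ v ^ 3)) ≤ B)
    (c : Finset κ → κ → ℝ) :
    sq (∑ A ∈ Cl, ∑ i ∈ univ.filter (fun i => ν ≤ n A v i), c A i • w A v i)
      ≤ l * B * ∑ A ∈ Cl, ∑ i ∈ univ.filter (fun i => ν ≤ n A v i), c A i ^ 2 := by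
  classical
  have hrep := fun (A : Finset κ) (i : κ) (hi : ν ≤ n A v i) =>
    en_repr hQ hτ hm hτ1 hF hE A v i hν hi hB
  have hB0 : 0 ≤ B := by
    refine le_trans ?_ hB
    have h3 : 0 < τ v ^ 3 := pow_pos (hτ v) 3
    have hp : 0 ≤ ∏ v' ∈ range v, (4 / τ v' ^ 2) := Finset.prod_nonneg fun v' _ => by positivity
    positivity
  choose! β hβ0 hβ1 hβ2 using hrep
  have hβA : ∀ A i, ν ≤ n A v i → res A (β A i) = β A i := by
    intro A i hi
    have h1 := hβ0 A i hi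
    conv_lhs => rw [← h1]
    rw [res_res_of_subset Finset.inter_subset_right, h1]
  have h1 : (∑ A ∈ Cl, ∑ i ∈ univ.filter (fun i => ν ≤ n A v i), c A i • w A v i)
      = crit Q k s *ᵥ (∑ A ∈ Cl, ∑ i ∈ univ.filter (fun i => ν ≤ n A v i), c A i • β A i) := by
    rw [Matrix.mulVec_sum]
    apply Finset.sum_congr rfl
    intro A _
    rw [Matrix.mulVec_sum]
    apply Finset.sum_congr rfl
    intro i hi
    rw [Matrix.mulVec_smul, ← hβ1 A i (Finset.mem_filter.mp hi).2]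
  rw [h1]
  refine (sq_crit_le hQ _).trans ?_
  rw [sq_sum_disj Cl hdis (fun A => ∑ i ∈ univ.filter (fun i => ν ≤ n A v i), c A i • β A i) (by
    intro A _
    rw [res_sum]
    apply Finset.sum_congr rfl
    intro i hi
    rw [res_smul, hβA A i (Finset.mem_filter.mp hi).2]), Finset.mul_sum]
  apply Finset.sum_le_sum
  intro A hA
  refine (sq_comb_le _ _ _).trans ?_
  rw [mul_comm]
  apply mul_le_mul_of_nonneg_right _ (Finset.sum_nonneg fun i _ => sq_nonneg _)
  calc ∑ i ∈ univ.filter (fun i => ν ≤ n A v i), sq (β A i)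
      ≤ ∑ i ∈ univ.filter (fun i => ν ≤ n A v i), B :=
        Finset.sum_le_sum fun i hi => hβ2 A i (Finset.mem_filter.mp hi).2
    _ = (univ.filter (fun i => ν ≤ n A v i)).card * B := by rw [Finset.sum_const, nsmul_eq_mul]
    _ ≤ l * B := by
        apply mul_le_mul_of_nonneg_right _ hB0
        exact_mod_cast (en_card hQ hτ hE A v hν).trans (hl A hA)

include hQ hτ hm hF hE in
/-- **energy bound** for a cluster `A` -/
theorem en_energy (A : Finset κ) (l : ℕ) (hl : A.card ≤ l) (v : ℕ) {ν M M' : ℝ}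
    (hν : 0 < ν) (D : κ → ℝ) (h1 : ∀ i, ν ≤ n A v i → |w A v i ⬝ᵥ D| ≤ M)
    (h2 : ∀ i, 0 < n A v i → |w A v i ⬝ᵥ D| ≤ M') :
    D ⬝ᵥ Nm Q k τ (fun u => F u ∩ A) s v *ᵥ D
      ≤ M ^ 2 * ((That (Q s) (F v ∩ A) (τ v))⁻¹
          * (ind (F v ∩ A) * crit Q k s * ind (F v ∩ A))).trace + l * ν * M' ^ 2 := by
  have hF' : ∀ v, (fun u => F u ∩ A) (v + 1) ⊆ (fun u => F u ∩ A) v := fun v =>
    Finset.inter_subset_inter_right (hF v)
  have h3 := Nm_trace hQ k τ hτ hm (fun u => F u ∩ A) hF' s v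
  rw [hE.form A v D]
  have h4 : ∀ i, n A v i * (w A v i ⬝ᵥ D) ^ 2
      ≤ M ^ 2 * n A v i + (if n A v i ≠ 0 then ν * M' ^ 2 else 0) := by
    intro i
    have h0 := hE.n0 A v i
    by_cases hi : ν ≤ n A v i
    · have h5 : (w A v i ⬝ᵥ D) ^ 2 ≤ M ^ 2 := by
        rw [← sq_abs]
        exact pow_le_pow_left₀ (abs_nonneg _) (h1 i hi) 2
      have h6 : 0 ≤ (if n A v i ≠ 0 then ν * M' ^ 2 else 0) := by
        split_ifs
        · positivity
        · exact le_rfl
      have := mul_le_mul_of_nonneg_left h5 h0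
      linarith
    · rw [not_le] at hi
      rcases h0.lt_or_eq with h5 | h5
      · rw [if_pos h5.ne']
        have h6 : (w A v i ⬝ᵥ D) ^ 2 ≤ M' ^ 2 := by
          rw [← sq_abs]
          exact pow_le_pow_left₀ (abs_nonneg _) (h2 i h5) 2
        have h7 := mul_le_mul hi.le h6 (sq_nonneg _) hν.le
        have h8 : 0 ≤ M ^ 2 * n A v i := by positivity
        linarith
      · rw [← h5]
        simp
  refine (Finset.sum_le_sum fun i _ => h4 i).trans ?_
  rw [Finset.sum_add_distrib, ← Finset.mul_sum, ← hE.tr A v]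
  have h5 : ∑ i, (if n A v i ≠ 0 then ν * M' ^ 2 else 0) ≤ l * ν * M' ^ 2 := by
    rw [← Finset.sum_filter, Finset.sum_const, nsmul_eq_mul, mul_assoc]
    apply mul_le_mul_of_nonneg_right _ (by positivity)
    exact_mod_cast (en_card' hQ hτ hE A v).trans hl
  have h6 := mul_le_mul_of_nonneg_left h3 (sq_nonneg M)
  linarith

end

end Pool.Agent.LibKG64
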