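import Pool.Agent.LibKG64.En3

set_option autoImplicit false

/-! O-En 4: comparison of the traces of a closed set and of its clusters. -/

open Finset Matrix

namespace Pool.Agent.LibKG64

variable {κ : Type*} [Fintype κ] [DecidableEq κ]

/-- trace against a restricted matrix -/
theorem tr_ind (M C : Matrix κ κ ℝ) (F : Finset κ) :
    (M * (ind F * C * ind F)).trace = ∑ j ∈ F, ∑ j' ∈ F, M j j' * C j' j := by
  have hent : ∀ j' j, (ind F * C * ind F) j' j
      = (if j' ∈ F then 1 else 0) * C j' j * (if j ∈ F then 1 else 0) := by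
    intro j' j
    unfold ind
    rw [Matrix.mul_diagonal, Matrix.diagonal_mul]
  rw [Matrix.trace]
  simp only [Matrix.diag_apply]
  have h0 : ∀ j, (M * (ind F * C * ind F)) j j
      = ∑ j', M j j' * ((if j' ∈ F then 1 else 0) * C j' j * (if j ∈ F then 1 else 0)) := by
    intro j
    rw [Matrix.mul_apply]
    exact Finset.sum_congr rfl fun j' _ => by rw [hent]
  simp only [h0]
  rw [← Finset.sum_filter_add_sum_filter_not univ (fun j => j ∈ F)]
  have h1 : ∑ j ∈ univ.filter (fun j => ¬ j ∈ F),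
      ∑ j', M j j' * ((if j' ∈ F then 1 else 0) * C j' j * (if j ∈ F then 1 else 0)) = 0 := by
    apply Finset.sum_eq_zero
    intro j hj
    apply Finset.sum_eq_zero
    intro j' _
    rw [if_neg (Finset.mem_filter.mp hj).2]
    ring
  rw [h1, add_zero]
  have h2 : univ.filter (fun j => j ∈ F) = F := by ext j; simp
  rw [h2]
  apply Finset.sum_congr rfl
  intro j hj
  rw [← Finset.sum_filter_add_sum_filter_not univ (fun j' => j' ∈ F)]
  have h3 : ∑ j' ∈ univ.filter (fun j' => ¬ j' ∈ F),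
      M j j' * ((if j' ∈ F then 1 else 0) * C j' j * (if j ∈ F then 1 else 0)) = 0 := by
    apply Finset.sum_eq_zero
    intro j' hj'
    rw [if_neg (Finset.mem_filter.mp hj').2]
    ring
  rw [h3, add_zero, h2]
  apply Finset.sum_congr rfl
  intro j' hj'
  rw [if_pos hj, if_pos hj']
  ring

/-- the same trace as a sum of quadratic forms when `C` is a symmetric idempotent -/
theorem tr_ind_form (M C : Matrix κ κ ℝ) (hCs : Cᵀ = C) (hC : C * C = C) (F : Finset κ) :
    (M * (ind F * C * ind F)).trace = ∑ j, res F (C.col j) ⬝ᵥ M *ᵥ res F (C.col j) := by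
  have h1 : M * (ind F * C * ind F) = (M * ind F * C) * (C * ind F) := by
    conv_lhs => rw [← hC]
    simp only [Matrix.mul_assoc]
  rw [h1, Matrix.trace_mul_comm, Matrix.trace]
  apply Finset.sum_congr rfl
  intro j _
  have h2 : C * ind F * (M * ind F * C) = (ind F * C)ᵀ * (M * (ind F * C)) := by
    rw [Matrix.transpose_mul, ind_transpose, hCs]
    simp only [Matrix.mul_assoc]
  have h3 : ∀ i, (ind F * C) i j = res F (C.col j) i := by
    intro i
    unfold ind res
    rw [Matrix.diagonal_mul]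
    simp only [Matrix.col_apply]
    split_ifs <;> simp
  rw [Matrix.diag_apply, h2, Matrix.mul_apply]
  unfold dotProduct
  apply Finset.sum_congr rfl
  intro i _
  rw [Matrix.transpose_apply, h3, Matrix.mul_apply]
  congr 1
  unfold mulVec dotProduct
  apply Finset.sum_congr rfl
  intro i' _
  rw [h3]

/-- entries of the inverse -/
theorem inv_entry (P : Matrix κ κ ℝ) (hs : Pᵀ = P) (hP : ∀ x, 0 ≤ x ⬝ᵥ P *ᵥ x) (F : Finset κ)
    {t : ℝ} (ht : 0 < t) (j j' : κ) : |(That P F t)⁻¹ j j'| ≤ 1 / t := by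
  have h1 : (That P F t)⁻¹ j j' = Pi.single j 1 ⬝ᵥ (That P F t)⁻¹ *ᵥ Pi.single j' 1 := by
    simp [Matrix.mulVec_single_one, single_one_dotProduct]
  have h2 : sq (Pi.single j' 1 : κ → ℝ) = 1 := by simp [sq]
  have h2' : sq (Pi.single j 1 : κ → ℝ) = 1 := by simp [sq]
  have h3 := inv_le P hs hP F ht (Pi.single j' 1)
  have h4 := inv_sq_le P hs hP F ht (Pi.single j' 1)
  rw [h2] at h3
  have h5 : sq ((That P F t)⁻¹ *ᵥ (Pi.single j' 1 : κ → ℝ)) ≤ (1 / t) ^ 2 := by
    have h6 : t * sq ((That P F t)⁻¹ *ᵥ (Pi.single j' 1 : κ → ℝ)) ≤ 1 / t := h4.trans h3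
    rw [← le_div_iff₀' ht] at h6
    refine h6.trans (le_of_eq ?_)
    field_simp
  have h6 := cs (Pi.single j 1 : κ → ℝ) ((That P F t)⁻¹ *ᵥ Pi.single j' 1)
  rw [h2', one_mul, ← h1] at h6
  exact abs_le_of_sq_le_sq (h6.trans h5) (by positivity)

/-- **trace comparison** -/
theorem en_trace {Q : ℕ → Matrix κ κ ℝ} (hQ : Flag Q) (k s : ℕ) (Cl : Finset (Finset κ))
    (hdis : ∀ A ∈ Cl, ∀ A' ∈ Cl, A ≠ A' → Disjoint A A') {g t : ℝ} (ht : 0 < t) (hg : 0 ≤ g)
    (hgC : ∀ A ∈ Cl, ∀ A' ∈ Cl, A ≠ A' → ∀ j ∈ A, ∀ j' ∈ A', |crit Q k s j j'| ≤ g)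
    (G : Finset κ) (hG : G ⊆ Cl.biUnion id) :
    ∑ A ∈ Cl, ((That (Q s) (G ∩ A) t)⁻¹ * (ind (G ∩ A) * crit Q k s * ind (G ∩ A))).trace
      ≤ ((That (Q s) G t)⁻¹ * (ind G * crit Q k s * ind G)).trace + g * G.card ^ 2 / t := by
  have hs := hQ.symm s
  have hP := flag_nonneg hQ s
  set T := (That (Q s) G t)⁻¹ with hT
  have h1 : ∀ A ∈ Cl, ((That (Q s) (G ∩ A) t)⁻¹
      * (ind (G ∩ A) * crit Q k s * ind (G ∩ A))).trace
      ≤ (T * (ind (G ∩ A) * crit Q k s * ind (G ∩ A))).trace := by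
    intro A _
    rw [tr_ind_form _ _ (crit_symm hQ k s) (crit_mul hQ k s),
      tr_ind_form _ _ (crit_symm hQ k s) (crit_mul hQ k s)]
    apply Finset.sum_le_sum
    intro j _
    have h2 := inv_mono_F (Q s) hs hP (Finset.inter_subset_left : G ∩ A ⊆ G) ht
      (res (G ∩ A) ((crit Q k s).col j))
    rw [res_res, res_res_of_subset Finset.inter_subset_left] at h2
    exact h2
  refine (Finset.sum_le_sum h1).trans ?_
  simp only [tr_ind]
  -- cluster of a row
  have hcl : ∀ j ∈ G, ∃ A ∈ Cl, j ∈ A := by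
    intro j hj
    have := hG hj
    rw [Finset.mem_biUnion] at this
    exact this
  choose! c hc1 hc2 using hcl
  have hcA : ∀ A ∈ Cl, ∀ j ∈ G, j ∈ A → c j = A := by
    intro A hA j hj hjA
    by_contra hne
    exact Finset.disjoint_left.mp (hdis _ (hc1 j hj) _ hA hne) (hc2 j hj) hjA
  have h3 : ∑ A ∈ Cl, ∑ j ∈ G ∩ A, ∑ j' ∈ G ∩ A, T j j' * crit Q k s j' j
      = ∑ j ∈ G, ∑ j' ∈ G ∩ c j, T j j' * crit Q k s j' j := by
    have h4 : ∀ A ∈ Cl, ∑ j ∈ G ∩ A, ∑ j' ∈ G ∩ A, T j j' * crit Q k s j' j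
        = ∑ j ∈ G.filter (fun j => c j = A), ∑ j' ∈ G ∩ c j, T j j' * crit Q k s j' j := by
      intro A hA
      have h5 : G ∩ A = G.filter (fun j => c j = A) := by
        ext j
        rw [Finset.mem_inter, Finset.mem_filter]
        constructor
        · rintro ⟨h6, h7⟩
          exact ⟨h6, hcA A hA j h6 h7⟩
        · rintro ⟨h6, h7⟩
          exact ⟨h6, h7 ▸ hc2 j h6⟩
      rw [← h5]
      apply Finset.sum_congr rfl
      intro j hj
      rw [Finset.mem_inter] at hj
      rw [hcA A hA j hj.1 hj.2]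
    rw [Finset.sum_congr rfl h4]
    exact Finset.sum_fiberwise_of_maps_to hc1 _
  rw [h3]
  have h6 : ∀ j ∈ G, ∑ j' ∈ G ∩ c j, T j j' * crit Q k s j' j
      ≤ ∑ j' ∈ G, T j j' * crit Q k s j' j + G.card * (g / t) := by
    intro j hj
    have h7 : ∑ j' ∈ G, T j j' * crit Q k s j' j
        = ∑ j' ∈ G ∩ c j, T j j' * crit Q k s j' j
          + ∑ j' ∈ G \ c j, T j j' * crit Q k s j' j := by
      rw [← Finset.sdiff_union_inter G (c j), Finset.sum_union (Finset.disjoint_sdiff_inter _ _)]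
      rw [Finset.sdiff_union_inter G (c j)]
      ring
    have h8 : |∑ j' ∈ G \ c j, T j j' * crit Q k s j' j| ≤ G.card * (g / t) := by
      refine (Finset.abs_sum_le_sum_abs _ _).trans ?_
      calc ∑ j' ∈ G \ c j, |T j j' * crit Q k s j' j| ≤ ∑ j' ∈ G \ c j, g / t := by
            apply Finset.sum_le_sum
            intro j' hj'
            rw [Finset.mem_sdiff] at hj'
            rw [abs_mul]
            have h9 := inv_entry (Q s) hs hP G ht j j'
            have h10 : |crit Q k s j' j| ≤ g := by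
              apply hgC (c j') (hc1 j' hj'.1) (c j) (hc1 j hj) _ j' (hc2 j' hj'.1) j (hc2 j hj)
              intro h11
              exact hj'.2 (h11 ▸ hc2 j' hj'.1)
            calc |T j j'| * |crit Q k s j' j| ≤ (1 / t) * g :=
                  mul_le_mul h9 h10 (abs_nonneg _) (by positivity)
              _ = g / t := by ring
        _ = (G \ c j).card * (g / t) := by rw [Finset.sum_const, nsmul_eq_mul]
        _ ≤ G.card * (g / t) := by
            apply mul_le_mul_of_nonneg_right _ (by positivity)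
            exact_mod_cast Finset.card_le_card Finset.sdiff_subset
    have h9 := (abs_le.mp h8).1
    linarith
  refine (Finset.sum_le_sum h6).trans (le_of_eq ?_)
  rw [Finset.sum_add_distrib, Finset.sum_const, nsmul_eq_mul]
  ring

end Pool.Agent.LibKG64
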