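import Pool.Agent.LibKG64.C3

set_option autoImplicit false

/-! Task H1: the global control restricted to a set `R` of rows is almost the control of `F · ∩ R`, when the cross terms
are small. -/

open Finset Matrix

namespace Pool.Agent.LibKG64

variable {κ : Type*} [Fintype κ] [DecidableEq κ]

/-- error of stage `v`: `e_0 = 0`, `e_{v+1} = e_v + (e_v + e)/τ_v + e` -/
noncomputable def errz (τ : ℕ → ℝ) (e : ℝ) : ℕ → ℝ
  | 0 => 0
  | v + 1 => errz τ e v + (errz τ e v + e) / τ v + e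

theorem h1_nrm_add (x y : κ → ℝ) : √(sq (x + y)) ≤ √(sq x) + √(sq y) := by
  have h1 : sq (x + y) = sq x + 2 * (x ⬝ᵥ y) + sq y := by
    unfold sq
    rw [add_dotProduct, dotProduct_add, dotProduct_add, dotProduct_comm y x]
    ring
  have h2 := cs x y
  have hx := sq_nonneg' x
  have hy := sq_nonneg' y
  have h3 : x ⬝ᵥ y ≤ √(sq x) * √(sq y) := by
    rw [← Real.sqrt_mul hx]
    exact Real.le_sqrt_of_sq_le h2
  refine Real.sqrt_le_iff.2 ⟨add_nonneg (Real.sqrt_nonneg _) (Real.sqrt_nonneg _), ?_⟩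
  rw [h1, add_sq, Real.sq_sqrt hx, Real.sq_sqrt hy]
  linarith

theorem h1_nrm_neg (x : κ → ℝ) : √(sq (-x)) = √(sq x) := by
  congr 1
  unfold sq
  rw [neg_dotProduct, dotProduct_neg, neg_neg]

theorem h1_nrm_sub (x y : κ → ℝ) : √(sq (x - y)) ≤ √(sq x) + √(sq y) := by
  rw [sub_eq_add_neg, ← h1_nrm_neg y]
  exact h1_nrm_add x (-y)

theorem h1_nrm_res (F : Finset κ) (x : κ → ℝ) : √(sq (res F x)) ≤ √(sq x) :=
  Real.sqrt_le_sqrt (sq_res_le F x)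

theorem h1_nrm_flag {Q : ℕ → Matrix κ κ ℝ} (hQ : Flag Q) (i : ℕ) (x : κ → ℝ) :
    √(sq (Q i *ᵥ x)) ≤ √(sq x) := by
  refine Real.sqrt_le_sqrt ?_
  rw [← flag_dot hQ]
  exact flag_le hQ i x

theorem h1_abs_le_nrm (x : κ → ℝ) (j : κ) : |x j| ≤ √(sq x) := by
  rw [← Real.sqrt_sq_eq_abs]
  refine Real.sqrt_le_sqrt ?_
  rw [sq_eq]
  exact single_le_sum (f := fun j => x j ^ 2) (fun i _ => sq_nonneg _) (mem_univ j)

theorem h1_res_inter (F R : Finset κ) (x : κ → ℝ) : res (F ∩ R) x = res F (res R x) := by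
  funext j
  unfold res
  by_cases h1 : j ∈ F <;> by_cases h2 : j ∈ R <;> simp [h1, h2]

theorem h1_res_comm (F R : Finset κ) (x : κ → ℝ) : res F (res R x) = res R (res F x) := by
  rw [← h1_res_inter, ← h1_res_inter, inter_comm]

/-- one stage: from `z` to `ζ` -/
theorem h1_local_step {Q : ℕ → Matrix κ κ ℝ} (hQ : Flag Q) (k : ℕ) (τ : ℕ → ℝ)
    (hτ : ∀ v, 0 < τ v) (F : ℕ → Finset κ) (s : ℕ) (D : κ → ℝ)
    (R : Finset κ) (e E : ℝ) (v : ℕ)
    (h1 : √(sq (res R (Q s *ᵥ (Ze Q k τ F s v *ᵥ D - res R (Ze Q k τ F s v *ᵥ D))))) ≤ e)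
    (hE : √(sq (res R (Zm Q k τ F s v *ᵥ D) - Zm Q k τ (fun v => F v ∩ R) s v *ᵥ D)) ≤ E) :
    √(sq (res R (Ze Q k τ F s v *ᵥ D) - Ze Q k τ (fun v => F v ∩ R) s v *ᵥ D))
      ≤ (E + e) / τ v := by
  set ζ := Ze Q k τ F s v *ᵥ D with hζ
  set ζR := Ze Q k τ (fun v => F v ∩ R) s v *ᵥ D with hζR
  set z := Zm Q k τ F s v *ᵥ D with hz
  set zR := Zm Q k τ (fun v => F v ∩ R) s v *ᵥ D with hzR
  have e1 : z = res (F v) (Q s *ᵥ ζ) + τ v • ζ := Zm_eq_Ze hQ k τ hτ F s v D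
  have e2 : zR = res (F v ∩ R) (Q s *ᵥ ζR) + τ v • ζR :=
    Zm_eq_Ze hQ k τ hτ (fun v => F v ∩ R) s v D
  have s1 : res (F v) ζ = ζ := Ze_supp hQ k τ hτ F s v D
  have s2 : res (F v ∩ R) ζR = ζR := Ze_supp hQ k τ hτ (fun v => F v ∩ R) s v D
  have s3 : res (F v ∩ R) (res R ζ - ζR) = res R ζ - ζR := by
    rw [res_sub, s2, h1_res_inter, res_res, h1_res_comm, s1]
  have hw : That (Q s) (F v ∩ R) (τ v) *ᵥ (res R ζ - ζR)
      = (res R z - zR) - res (F v) (res R (Q s *ᵥ (ζ - res R ζ))) := by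
    rw [That_mulVec, s3, e1, e2, res_add, res_smul, mulVec_sub, res_sub, mulVec_sub, res_sub,
      res_sub, smul_sub, h1_res_comm R (F v), h1_res_inter, h1_res_inter]
    abel
  have hwn : √(sq (That (Q s) (F v ∩ R) (τ v) *ᵥ (res R ζ - ζR))) ≤ E + e := by
    rw [hw]
    refine (h1_nrm_sub _ _).trans (add_le_add hE ?_)
    exact (h1_nrm_res _ _).trans h1
  have hge := That_ge (Q s) (flag_nonneg hQ s) (F v ∩ R) (τ v) (res R ζ - ζR)
  have hcs := cs (res R ζ - ζR) (That (Q s) (F v ∩ R) (τ v) *ᵥ (res R ζ - ζR))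
  have hn0 := sq_nonneg' (res R ζ - ζR)
  have hcs' : (res R ζ - ζR) ⬝ᵥ That (Q s) (F v ∩ R) (τ v) *ᵥ (res R ζ - ζR)
      ≤ √(sq (res R ζ - ζR)) * √(sq (That (Q s) (F v ∩ R) (τ v) *ᵥ (res R ζ - ζR))) := by
    rw [← Real.sqrt_mul hn0]
    exact Real.le_sqrt_of_sq_le hcs
  rw [le_div_iff₀ (hτ v)]
  rcases (Real.sqrt_nonneg (sq (res R ζ - ζR))).eq_or_lt with h0 | h0
  · rw [← h0, zero_mul]
    exact (Real.sqrt_nonneg _).trans hwn
  · have k1 : τ v * (√(sq (res R ζ - ζR)) * √(sq (res R ζ - ζR)))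
        ≤ √(sq (res R ζ - ζR)) * (E + e) := by
      rw [Real.mul_self_sqrt hn0]
      exact hge.trans (hcs'.trans (mul_le_mul_of_nonneg_left hwn h0.le))
    have k2 : √(sq (res R ζ - ζR)) * (√(sq (res R ζ - ζR)) * τ v)
        ≤ √(sq (res R ζ - ζR)) * (E + e) := by linarith
    exact le_of_mul_le_mul_left k2 h0

/-- Induction on `v`: with `ζ = Ze (F) D`, `ζR = Ze (F ∩ R) D`, `δ = res R ζ - ζR`:
`That_R δ = (res R z - zR) - res (F∩R) (Q_s (ζ - res R ζ))`, so `|δ| ≤ (errz v + e)/τ_v`; and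
`res R z' - zR' = res (F'∩R) ((res R z - zR) - Q' δ - Q' (ζ - res R ζ))`. Here `|x| = √(sq x)`. -/
theorem local_z {Q : ℕ → Matrix κ κ ℝ} (hQ : Flag Q) (k : ℕ) (τ : ℕ → ℝ)
    (hτ : ∀ v, 0 < τ v) (F : ℕ → Finset κ) (hF : ∀ v, F (v + 1) ⊆ F v) (s : ℕ) (D : κ → ℝ)
    (R : Finset κ) (e : ℝ) (he : 0 ≤ e) (L : ℕ)
    (h1 : ∀ v < L, √(sq (res R (Q s *ᵥ (Ze Q k τ F s v *ᵥ D - res R (Ze Q k τ F s v *ᵥ D))))) ≤ e)
    (h2 : ∀ v < L, √(sq (res R (Q (s + k) *ᵥ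
      (Ze Q k τ F s v *ᵥ D - res R (Ze Q k τ F s v *ᵥ D))))) ≤ e)
    (v : ℕ) (hv : v < L) :
    √(sq (res R (Zm Q k τ F s v *ᵥ D) - Zm Q k τ (fun v => F v ∩ R) s v *ᵥ D)) ≤ errz τ e v ∧
    √(sq (res R (Ze Q k τ F s v *ᵥ D) - Ze Q k τ (fun v => F v ∩ R) s v *ᵥ D))
      ≤ (errz τ e v + e) / τ v := by
  have hA : √(sq (res R (Zm Q k τ F s v *ᵥ D) - Zm Q k τ (fun v => F v ∩ R) s v *ᵥ D))
      ≤ errz τ e v := by
    induction v with
    | zero =>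
      have h0 : res R (Zm Q k τ F s 0 *ᵥ D) - Zm Q k τ (fun v => F v ∩ R) s 0 *ᵥ D = 0 := by
        rw [Zm_zero, Zm_zero, h1_res_comm, ← h1_res_inter, sub_self]
      rw [h0]
      simp [sq, errz]
    | succ v ih =>
      have hv' : v < L := Nat.lt_of_succ_lt hv
      have hz := ih hv'
      have hζ := h1_local_step hQ k τ hτ F s D R e (errz τ e v) v (h1 v hv') hz
      have h3 := h2 v hv'
      have hdec : res R (Zm Q k τ F s (v + 1) *ᵥ D) - Zm Q k τ (fun v => F v ∩ R) s (v + 1) *ᵥ D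
          = res (F (v + 1)) (res R ((res R (Zm Q k τ F s v *ᵥ D)
              - Zm Q k τ (fun v => F v ∩ R) s v *ᵥ D)
            - Q (s + k) *ᵥ (res R (Ze Q k τ F s v *ᵥ D)
              - Ze Q k τ (fun v => F v ∩ R) s v *ᵥ D)))
            - res (F (v + 1)) (res R (Q (s + k) *ᵥ
              (Ze Q k τ F s v *ᵥ D - res R (Ze Q k τ F s v *ᵥ D)))) := by
        rw [Zm_succ, Zm_succ, h1_res_comm R (F (v + 1)), h1_res_inter]
        simp only [res_sub, mulVec_sub, res_res]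
        abel
      rw [hdec]
      refine (h1_nrm_sub _ _).trans ?_
      show _ ≤ errz τ e v + (errz τ e v + e) / τ v + e
      refine add_le_add ((h1_nrm_res _ _).trans ((h1_nrm_res _ _).trans ((h1_nrm_sub _ _).trans
        (add_le_add hz ((h1_nrm_flag hQ _ _).trans hζ))))) ((h1_nrm_res _ _).trans h3)
  exact ⟨hA, h1_local_step hQ k τ hτ F s D R e (errz τ e v) v (h1 v hv) hA⟩

/-- displacement of the rows of `R` -/
theorem local_disp {Q : ℕ → Matrix κ κ ℝ} (hQ : Flag Q) (k : ℕ) (τ : ℕ → ℝ)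
    (hτ : ∀ v, 0 < τ v) (F : ℕ → Finset κ) (hF : ∀ v, F (v + 1) ⊆ F v) (s : ℕ) (D : κ → ℝ)
    (R : Finset κ) (e : ℝ) (he : 0 ≤ e) (L : ℕ)
    (h1 : ∀ v < L, √(sq (res R (Q s *ᵥ (Ze Q k τ F s v *ᵥ D - res R (Ze Q k τ F s v *ᵥ D))))) ≤ e)
    (h2 : ∀ v < L, √(sq (res R (Q (s + k) *ᵥ
      (Ze Q k τ F s v *ᵥ D - res R (Ze Q k τ F s v *ᵥ D))))) ≤ e)
    (j : κ) (hj : j ∈ R) :
    |(Km Q k τ F L s *ᵥ D) j - (Km Q k τ (fun v => F v ∩ R) L s *ᵥ D) j|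
      ≤ ∑ v ∈ range L, ((errz τ e v + e) / τ v + e) := by
  have hK : ∀ G : ℕ → Finset κ, (Km Q k τ G L s *ᵥ D) j
      = ∑ v ∈ range L, (Q (s + k) *ᵥ (Ze Q k τ G s v *ᵥ D)) j := by
    intro G
    rw [Km, mul_sum, sum_mulVec, Finset.sum_apply]
    refine sum_congr rfl fun v _ => ?_
    rw [mulVec_mulVec]
  rw [hK, hK, ← sum_sub_distrib]
  refine (abs_sum_le_sum_abs _ _).trans (sum_le_sum fun v hv => ?_)
  rw [mem_range] at hv
  have hζ := (local_z hQ k τ hτ F hF s D R e he L h1 h2 v hv).2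
  have h3 := h2 v hv
  have hdec : (Q (s + k) *ᵥ (Ze Q k τ F s v *ᵥ D)) j
      - (Q (s + k) *ᵥ (Ze Q k τ (fun v => F v ∩ R) s v *ᵥ D)) j
      = (Q (s + k) *ᵥ (res R (Ze Q k τ F s v *ᵥ D)
          - Ze Q k τ (fun v => F v ∩ R) s v *ᵥ D)) j
        + (res R (Q (s + k) *ᵥ (Ze Q k τ F s v *ᵥ D - res R (Ze Q k τ F s v *ᵥ D)))) j := by
    have hr : ∀ x : κ → ℝ, res R x j = x j := fun x => by
      unfold res
      rw [if_pos hj]
    rw [hr, mulVec_sub, mulVec_sub, Pi.sub_apply, Pi.sub_apply]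
    ring
  rw [hdec]
  refine (abs_add_le _ _).trans (add_le_add ?_ ?_)
  · exact (h1_abs_le_nrm _ j).trans ((h1_nrm_flag hQ _ _).trans hζ)
  · exact (h1_abs_le_nrm _ j).trans h3

/-- if `ε ≥ 4/τ_v` for all `v`, the error is at most `ε^v e` (`errz v ≤ ε^v e`) -/
theorem errz_le (τ : ℕ → ℝ) (hτ : ∀ v, 0 < τ v) (e : ℝ) (he : 0 ≤ e) (A : ℝ)
    (hA : ∀ v, 4 / τ v ≤ A) (hA1 : 4 ≤ A) (v : ℕ) : errz τ e v ≤ A ^ v * e := by
  induction v with
  | zero => simpa [errz] using he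
  | succ v ih =>
    have h1 : 1 ≤ A ^ v := one_le_pow₀ (by linarith)
    have h2 : e ≤ A ^ v * e := le_mul_of_one_le_left he h1
    have h3 : (errz τ e v + e) / τ v ≤ (2 * (A ^ v * e)) * (A / 4) := by
      have h4 : 1 / τ v ≤ A / 4 := by
        have := hA v
        rw [show (4 : ℝ) / τ v = 4 * (1 / τ v) by ring] at this
        linarith
      rw [show (errz τ e v + e) / τ v = (errz τ e v + e) * (1 / τ v) by ring]
      have h5 : 0 ≤ 1 / τ v := by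
        have := hτ v
        positivity
      calc (errz τ e v + e) * (1 / τ v) ≤ (2 * (A ^ v * e)) * (1 / τ v) :=
            mul_le_mul_of_nonneg_right (by linarith) h5
        _ ≤ (2 * (A ^ v * e)) * (A / 4) := mul_le_mul_of_nonneg_left h4 (by linarith)
    show errz τ e v + (errz τ e v + e) / τ v + e ≤ A ^ (v + 1) * e
    have h6 : A ^ (v + 1) * e = (A ^ v * e) * A := by ring
    have h7 : 0 ≤ A ^ v * e := by linarith
    rw [h6]
    nlinarith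

end Pool.Agent.LibKG64
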