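import Pool.Agent.LibKG64.En4
import Pool.Agent.LibKG64.H1

set_option autoImplicit false

/-! O-En 5: the energy of a closed set against the energies of its clusters. -/

open Finset Matrix

namespace Pool.Agent.LibKG64

variable {κ : Type*} [Fintype κ] [DecidableEq κ]

theorem nrm_sum_le {α : Type*} (S : Finset α) (b : α → κ → ℝ) :
    √(sq (∑ i ∈ S, b i)) ≤ ∑ i ∈ S, √(sq (b i)) := by
  classical
  induction S using Finset.induction_on with
  | empty => simp [sq]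
  | insert a S ha ih =>
    rw [Finset.sum_insert ha, Finset.sum_insert ha]
    exact (h1_nrm_add _ _).trans (by linarith)

/-- a vector supported in a union of disjoint sets -/
theorem res_biUnion (Cl : Finset (Finset κ))
    (hdis : ∀ A ∈ Cl, ∀ A' ∈ Cl, A ≠ A' → Disjoint A A') (x : κ → ℝ) :
    res (Cl.biUnion id) x = ∑ A ∈ Cl, res A x := by
  funext j
  rw [Finset.sum_apply]
  unfold res
  by_cases h : j ∈ Cl.biUnion id
  · rw [if_pos h]
    rw [Finset.mem_biUnion] at h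
    obtain ⟨A, hA, hj⟩ := h
    rw [Finset.sum_eq_single_of_mem A hA]
    · exact (if_pos hj).symm
    · intro B hB hne
      rw [if_neg]
      intro hjB
      exact Finset.disjoint_left.mp (hdis B hB A hA hne) hjB hj
  · rw [if_neg h]
    symm
    apply Finset.sum_eq_zero
    intro A hA
    rw [if_neg]
    intro hj
    exact h (Finset.mem_biUnion.mpr ⟨A, hA, hj⟩)

/-- quadratic form of a sum of vectors with disjoint supports and small cross entries -/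
theorem form_sum_le (M : Matrix κ κ ℝ) (Cl : Finset (Finset κ)) {g : ℝ}
    (hgC : ∀ A ∈ Cl, ∀ A' ∈ Cl, A ≠ A' → ∀ j ∈ A, ∀ j' ∈ A', |M j j'| ≤ g) (hg : 0 ≤ g)
    (y : Finset κ → κ → ℝ) (hy : ∀ A ∈ Cl, res A (y A) = y A) :
    (∑ A ∈ Cl, y A) ⬝ᵥ M *ᵥ (∑ A ∈ Cl, y A)
      ≤ ∑ A ∈ Cl, y A ⬝ᵥ M *ᵥ y A + g * (∑ A ∈ Cl, ∑ j, |y A j|) ^ 2 := by
  classical
  have h1 : (∑ A ∈ Cl, y A) ⬝ᵥ M *ᵥ (∑ A ∈ Cl, y A)
      = ∑ A ∈ Cl, ∑ B ∈ Cl, y A ⬝ᵥ M *ᵥ y B := by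
    rw [Matrix.mulVec_sum, sum_dotProduct]
    apply Finset.sum_congr rfl
    intro A _
    rw [dotProduct_sum]
  rw [h1]
  have h2 : ∀ A ∈ Cl, ∑ B ∈ Cl, y A ⬝ᵥ M *ᵥ y B
      ≤ y A ⬝ᵥ M *ᵥ y A + ∑ B ∈ Cl, g * (∑ j, |y A j|) * (∑ j, |y B j|) := by
    intro A hA
    rw [← Finset.add_sum_erase Cl _ hA, ← Finset.add_sum_erase Cl
      (fun B => g * (∑ j, |y A j|) * (∑ j, |y B j|)) hA]
    have h3 : ∑ B ∈ Cl.erase A, y A ⬝ᵥ M *ᵥ y B
        ≤ ∑ B ∈ Cl.erase A, g * (∑ j, |y A j|) * (∑ j, |y B j|) := by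
      apply Finset.sum_le_sum
      intro B hB
      rw [Finset.mem_erase] at hB
      exact (le_abs_self _).trans (bil_small M A B
        (fun j hj j' hj' => hgC A hA B hB.2 (Ne.symm hB.1) j hj j' hj') _ _ (hy A hA) (hy B hB.2))
    have h4 : 0 ≤ g * (∑ j, |y A j|) * (∑ j, |y A j|) := by
      have : 0 ≤ ∑ j, |y A j| := Finset.sum_nonneg fun j _ => abs_nonneg _
      positivity
    linarith
  refine (Finset.sum_le_sum h2).trans (le_of_eq ?_)
  rw [Finset.sum_add_distrib]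
  congr 1
  rw [pow_two, Finset.sum_mul, Finset.mul_sum]
  apply Finset.sum_congr rfl
  intro A _
  rw [← Finset.mul_sum]
  ring

/-- **energy comparison**: `R` closed, `R ∩ F 0` the union of the clusters `Cl`. -/
theorem en_local {Q : ℕ → Matrix κ κ ℝ} (hQ : Flag Q) (k : ℕ) (τ : ℕ → ℝ)
    (hτ : ∀ v, 0 < τ v) (F : ℕ → Finset κ) (s v : ℕ) (hF0 : F v ⊆ F 0)
    (D : κ → ℝ) (R : Finset κ) (Cl : Finset (Finset κ))
    (hdis : ∀ A ∈ Cl, ∀ A' ∈ Cl, A ≠ A' → Disjoint A A') (hne : ∀ A ∈ Cl, A.Nonempty)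
    (hR : R ∩ F 0 = Cl.biUnion id) (l : ℕ) (hl : R.card ≤ l) {g : ℝ} (hg : 0 ≤ g)
    (hgC : ∀ A ∈ Cl, ∀ A' ∈ Cl, A ≠ A' → ∀ j ∈ A, ∀ j' ∈ A', |crit Q k s j j'| ≤ g)
    {ε M : ℝ} (hM0 : 0 ≤ M) (hM : ∀ j ∈ R, |(Ze Q k τ F s v *ᵥ D) j| ≤ M)
    (h1 : √(sq (res R (Ze Q k τ F s v *ᵥ D) - Ze Q k τ (fun u => F u ∩ R) s v *ᵥ D)) ≤ ε)
    (h2 : ∀ A ∈ Cl,
      √(sq (res A (Ze Q k τ F s v *ᵥ D) - Ze Q k τ (fun u => F u ∩ A) s v *ᵥ D)) ≤ ε) :
    (Ze Q k τ (fun u => F u ∩ R) s v *ᵥ D)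
        ⬝ᵥ crit Q k s *ᵥ (Ze Q k τ (fun u => F u ∩ R) s v *ᵥ D)
      ≤ 2 * ∑ A ∈ Cl, (Ze Q k τ (fun u => F u ∩ A) s v *ᵥ D)
          ⬝ᵥ crit Q k s *ᵥ (Ze Q k τ (fun u => F u ∩ A) s v *ᵥ D)
        + 2 * g * (l * (M + ε)) ^ 2 + 2 * ((1 + l) * ε) ^ 2 := by
  classical
  have hε : 0 ≤ ε := (Real.sqrt_nonneg _).trans h1
  set ζ := Ze Q k τ F s v *ᵥ D with hζ
  set ζR := Ze Q k τ (fun u => F u ∩ R) s v *ᵥ D with hζR
  set y := fun A : Finset κ => Ze Q k τ (fun u => F u ∩ A) s v *ᵥ D with hy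
  have hyA : ∀ A ∈ Cl, res A (y A) = y A := by
    intro A _
    have h3 := Ze_supp hQ k τ hτ (fun u => F u ∩ A) s v D
    show res A (Ze Q k τ (fun u => F u ∩ A) s v *ᵥ D) = Ze Q k τ (fun u => F u ∩ A) s v *ᵥ D
    rw [← h3, res_res_of_subset Finset.inter_subset_right]
  have hAR : ∀ A ∈ Cl, A ⊆ R := by
    intro A hA j hj
    have : j ∈ R ∩ F 0 := by
      rw [hR]
      exact Finset.mem_biUnion.mpr ⟨A, hA, hj⟩
    exact (Finset.mem_inter.mp this).1
  have hcards : ∑ A ∈ Cl, A.card ≤ l := by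
    have h3 : (Cl.biUnion id).card = ∑ A ∈ Cl, A.card := Finset.card_biUnion (by
      intro A hA B hB hne
      exact hdis A hA B hB hne)
    rw [← h3, ← hR]
    exact (Finset.card_le_card Finset.inter_subset_left).trans hl
  have hclcard : Cl.card ≤ l := by
    refine le_trans ?_ hcards
    rw [Finset.card_eq_sum_ones]
    exact Finset.sum_le_sum fun A hA => (hne A hA).card_pos
  -- decomposition of `ζR`
  have hdec : ζR = (∑ A ∈ Cl, y A) + (∑ A ∈ Cl, (res A ζ - y A) - (res R ζ - ζR)) := by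
    have h3 : res R ζ = ∑ A ∈ Cl, res A ζ := by
      rw [← res_biUnion Cl hdis, ← hR]
      have h4 : res (F 0) ζ = ζ := by
        have h5 := Ze_supp hQ k τ hτ F s v D
        rw [hζ, ← h5, res_res_of_subset hF0]
      conv_lhs => rw [← h4]
      rw [h1_res_inter]
    rw [Finset.sum_sub_distrib, ← h3]
    abel
  set x := ∑ A ∈ Cl, y A with hx
  set d := ∑ A ∈ Cl, (res A ζ - y A) - (res R ζ - ζR) with hd
  have hdn : √(sq d) ≤ (1 + l) * ε := by
    refine (h1_nrm_sub _ _).trans ?_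
    have h3 : √(sq (∑ A ∈ Cl, (res A ζ - y A))) ≤ l * ε := by
      refine (nrm_sum_le _ _).trans ?_
      refine (Finset.sum_le_sum fun A hA => h2 A hA).trans ?_
      rw [Finset.sum_const, nsmul_eq_mul]
      apply mul_le_mul_of_nonneg_right _ hε
      exact_mod_cast hclcard
    linarith
  have hdn2 : sq d ≤ ((1 + l) * ε) ^ 2 := by
    have h3 := Real.sq_sqrt (sq_nonneg' d)
    rw [← h3]
    exact pow_le_pow_left₀ (Real.sqrt_nonneg _) hdn 2
  have h3 : ζR ⬝ᵥ crit Q k s *ᵥ ζR ≤ 2 * (x ⬝ᵥ crit Q k s *ᵥ x) + 2 * (d ⬝ᵥ crit Q k s *ᵥ d) := by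
    rw [hdec]
    exact crit_add hQ k s x d
  have h4 := crit_le hQ k s d
  have h5 := form_sum_le (crit Q k s) Cl hgC hg y hyA
  have h6 : ∑ A ∈ Cl, ∑ j, |y A j| ≤ l * (M + ε) := by
    have h7 : ∀ A ∈ Cl, ∑ j, |y A j| ≤ A.card * (M + ε) := by
      intro A hA
      have h8 := l1_sq_le A (y A) (hyA A hA)
      have h9 : √(sq (y A)) ≤ √(A.card) * M + ε := by
        have h10 : y A = res A ζ - (res A ζ - y A) := by abel
        rw [h10]
        refine (h1_nrm_sub _ _).trans (add_le_add ?_ (h2 A hA))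
        rw [← Real.sqrt_sq hM0, ← Real.sqrt_mul (Nat.cast_nonneg _)]
        apply Real.sqrt_le_sqrt
        rw [sq_eq]
        calc ∑ j, (res A ζ j) ^ 2 ≤ ∑ j, if j ∈ A then M ^ 2 else 0 := by
              apply Finset.sum_le_sum
              intro j _
              unfold res
              by_cases hj : j ∈ A
              · rw [if_pos hj, if_pos hj, ← sq_abs]
                exact pow_le_pow_left₀ (abs_nonneg _) (hM j (hAR A hA hj)) 2
              · rw [if_neg hj, if_neg hj]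
                simp
          _ = A.card * M ^ 2 := by
              rw [← Finset.sum_filter, Finset.sum_const, nsmul_eq_mul]
              congr 2
              simp
      have h11 : (1 : ℝ) ≤ √(A.card) := by
        rw [Real.one_le_sqrt]
        exact_mod_cast (hne A hA).card_pos
      have h12 : √(sq (y A)) ≤ √(A.card) * (M + ε) := by
        nlinarith
      have h13 : (∑ j, |y A j|) ≤ √(A.card) * √(sq (y A)) := by
        rw [← Real.sqrt_mul (Nat.cast_nonneg _)]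
        exact Real.le_sqrt_of_sq_le h8
      have h14 : √(A.card : ℝ) * √(A.card) = A.card := Real.mul_self_sqrt (Nat.cast_nonneg _)
      calc ∑ j, |y A j| ≤ √(A.card) * √(sq (y A)) := h13
        _ ≤ √(A.card) * (√(A.card) * (M + ε)) := mul_le_mul_of_nonneg_left h12 (Real.sqrt_nonneg _)
        _ = A.card * (M + ε) := by rw [← mul_assoc, h14]
    refine (Finset.sum_le_sum h7).trans ?_
    rw [← Finset.sum_mul]
    apply mul_le_mul_of_nonneg_right _ (by linarith)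
    exact_mod_cast hcards
  have h7 : (∑ A ∈ Cl, ∑ j, |y A j|) ^ 2 ≤ (l * (M + ε)) ^ 2 :=
    pow_le_pow_left₀ (Finset.sum_nonneg fun A _ => Finset.sum_nonneg fun j _ => abs_nonneg _) h6 2
  have h8 := mul_le_mul_of_nonneg_left h7 hg
  have h9 : ∑ A ∈ Cl, y A ⬝ᵥ crit Q k s *ᵥ y A
      = ∑ A ∈ Cl, (Ze Q k τ (fun u => F u ∩ A) s v *ᵥ D)
          ⬝ᵥ crit Q k s *ᵥ (Ze Q k τ (fun u => F u ∩ A) s v *ᵥ D) := rfl
  rw [← h9]
  linarith

end Pool.Agent.LibKG64
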