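import Pool.Agent.LibKG64.En5

set_option autoImplicit false

/-! O-En 6: the energy rows with a fixed index type. -/

open Finset Matrix

namespace Pool.Agent.LibKG64

variable {κ : Type*} [Fintype κ] [DecidableEq κ]

/-- reindexing of the clusters by representatives -/
theorem sum_rep {β : Type*} [AddCommMonoid β] (Cl : Finset (Finset κ)) (cl : κ → Finset κ)
    (r : Finset κ → κ) (hcl : ∀ A ∈ Cl, cl (r A) = A) (f : κ → Finset κ → β) :
    ∑ j, (if cl j ∈ Cl ∧ r (cl j) = j then f j (cl j) else 0) = ∑ A ∈ Cl, f (r A) A := by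
  classical
  rw [← Finset.sum_filter]
  refine Finset.sum_bij' (fun j _ => cl j) (fun A _ => r A) ?_ ?_ ?_ ?_ ?_
  · intro j hj
    exact (Finset.mem_filter.mp hj).2.1
  · intro A hA
    rw [Finset.mem_filter]
    refine ⟨Finset.mem_univ _, ?_, ?_⟩
    · rw [hcl A hA]; exact hA
    · rw [hcl A hA]
  · intro j hj
    exact (Finset.mem_filter.mp hj).2.2
  · intro A hA
    exact hcl A hA
  · intro j hj
    rw [(Finset.mem_filter.mp hj).2.2]

theorem sum_rows {β : Type*} [AddCommMonoid β] {L : ℕ} (Cl : Finset (Finset κ))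
    (cl : κ → Finset κ) (r : Finset κ → κ) (hcl : ∀ A ∈ Cl, cl (r A) = A) {ν : ℝ}
    (n : Finset κ → ℕ → κ → ℝ) (f : κ → Finset κ → Fin L → κ → β) :
    ∑ e : κ × Fin L × κ, (if cl e.1 ∈ Cl ∧ r (cl e.1) = e.1 then
      (if ν ≤ n (cl e.1) e.2.1 e.2.2 then f e.1 (cl e.1) e.2.1 e.2.2 else 0) else 0)
      = ∑ v : Fin L, ∑ A ∈ Cl, ∑ i ∈ univ.filter (fun i => ν ≤ n A v i), f (r A) A v i := by
  classical
  rw [Fintype.sum_prod_type]
  simp only [Fintype.sum_prod_type]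
  rw [Finset.sum_comm]
  apply Finset.sum_congr rfl
  intro v _
  rw [← sum_rep Cl cl r hcl
    (fun j A => ∑ i ∈ univ.filter (fun i => ν ≤ n A v i), f j A v i)]
  apply Finset.sum_congr rfl
  intro j _
  split_ifs with h
  · rw [Finset.sum_filter]
  · exact Finset.sum_const_zero

/-- near rows and far mass from the truncated mass -/
theorem near_far_of_min (S : Finset κ) (x : κ → ℝ) {γ e2 : ℝ} (l' : ℕ) (hγ : 0 < γ)
    (h : ∑ j ∈ S, min (x j ^ 2) (γ ^ 2) ≤ e2) (hl' : e2 ≤ γ ^ 2 * l') :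
    (S.filter (fun j => γ ≤ |x j|)).card ≤ l' ∧
      ∑ j ∈ S.filter (fun j => ¬ γ ≤ |x j|), x j ^ 2 ≤ e2 := by
  have hnn : ∀ j, 0 ≤ min (x j ^ 2) (γ ^ 2) := fun j => le_min (sq_nonneg _) (sq_nonneg _)
  have hsplit := Finset.sum_filter_add_sum_filter_not S (fun j => γ ≤ |x j|)
    (fun j => min (x j ^ 2) (γ ^ 2))
  have hγ2 : 0 < γ ^ 2 := by positivity
  constructor
  · have h1 : ((S.filter (fun j => γ ≤ |x j|)).card : ℝ) * γ ^ 2
        = ∑ j ∈ S.filter (fun j => γ ≤ |x j|), min (x j ^ 2) (γ ^ 2) := by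
      rw [← nsmul_eq_mul, ← Finset.sum_const]
      apply Finset.sum_congr rfl
      intro j hj
      have h2 := (Finset.mem_filter.mp hj).2
      rw [min_eq_right]
      rw [← sq_abs (x j)]
      exact pow_le_pow_left₀ hγ.le h2 2
    have h2 : 0 ≤ ∑ j ∈ S.filter (fun j => ¬ γ ≤ |x j|), min (x j ^ 2) (γ ^ 2) :=
      Finset.sum_nonneg fun j _ => hnn j
    have h3 : ((S.filter (fun j => γ ≤ |x j|)).card : ℝ) * γ ^ 2 ≤ l' * γ ^ 2 := by
      rw [h1]; linarith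
    exact_mod_cast le_of_mul_le_mul_right h3 hγ2
  · have h1 : ∑ j ∈ S.filter (fun j => ¬ γ ≤ |x j|), x j ^ 2
        = ∑ j ∈ S.filter (fun j => ¬ γ ≤ |x j|), min (x j ^ 2) (γ ^ 2) := by
      apply Finset.sum_congr rfl
      intro j hj
      have h2 := (Finset.mem_filter.mp hj).2
      rw [not_le] at h2
      rw [min_eq_left]
      rw [← sq_abs (x j)]
      exact pow_le_pow_left₀ (abs_nonneg _) h2.le 2
    have h2 : 0 ≤ ∑ j ∈ S.filter (fun j => γ ≤ |x j|), min (x j ^ 2) (γ ^ 2) :=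
      Finset.sum_nonneg fun j _ => hnn j
    rw [h1]
    linarith

/-- **energy rows** -/
theorem exists_energy_rows {Q : ℕ → Matrix κ κ ℝ} (hQ : Flag Q) (k : ℕ) (τ : ℕ → ℝ)
    (hτ : ∀ v, 0 < τ v) (hm : ∀ v, τ v ≤ τ (v + 1)) (hτ1 : ∀ v, τ v ≤ 1) (F : ℕ → Finset κ)
    (hF : ∀ v, F (v + 1) ⊆ F v) (s L : ℕ) (Cl : Finset (Finset κ))
    (hdis : ∀ A ∈ Cl, ∀ A' ∈ Cl, A ≠ A' → Disjoint A A') (hne : ∀ A ∈ Cl, A.Nonempty)
    (hsub : ∀ A ∈ Cl, A ⊆ F 0) (l l' : ℕ) (hl : ∀ A ∈ Cl, A.card ≤ l) {g : ℝ} (hg : 0 ≤ g)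
    (hgC : ∀ A ∈ Cl, ∀ A' ∈ Cl, A ≠ A' → ∀ j ∈ A, ∀ j' ∈ A', |crit Q k s j j'| ≤ g)
    {ν B : ℝ} (hν : 0 < ν)
    (hB : ∀ v < L, (∏ v' ∈ range v, (4 / τ v' ^ 2)) * (1 / (ν ^ 2 * τ v ^ 3)) ≤ B)
    {γ e2 : ℝ} (hsm : B * (g * l ^ 2 * l' + l * e2) ≤ 1) :
    ∃ w w' : κ × Fin L × κ → κ → ℝ,
      (∀ e, crit Q k s *ᵥ w e = w e) ∧ (∀ e, crit Q k s *ᵥ w' e = w' e) ∧
      (∀ e, sq (w e) ≤ 1) ∧ (∀ e, sq (w' e) ≤ 1) ∧
      (∀ a : κ → ℝ, sq a ≤ 1 →
        ((F 0).filter (fun j => γ ≤ |(crit Q k s *ᵥ a) j|)).card ≤ l' →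
        ∑ j ∈ (F 0).filter (fun j => ¬ γ ≤ |(crit Q k s *ᵥ a) j|),
          (crit Q k s *ᵥ a) j ^ 2 ≤ e2 → ∑ e, (w e ⬝ᵥ a) ^ 2 ≤ 2 * L) ∧
      (∀ c : κ × Fin L × κ → ℝ, sq (∑ e, c e • w e) ≤ L * (l * B) * ∑ e, c e ^ 2) ∧
      (∀ (D : κ → ℝ) (M M' : ℝ), (∀ e, |w e ⬝ᵥ D| ≤ M) → (∀ e, |w' e ⬝ᵥ D| ≤ M') →
        ∀ A ∈ Cl, ∀ v < L, D ⬝ᵥ Nm Q k τ (fun u => F u ∩ A) s v *ᵥ D
          ≤ M ^ 2 * ((That (Q s) (F v ∩ A) (τ v))⁻¹
            * (ind (F v ∩ A) * crit Q k s * ind (F v ∩ A))).trace + l * ν * M' ^ 2) := by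
  classical
  rcases isEmpty_or_nonempty κ with hκ | hκ
  · refine ⟨fun _ => 0, fun _ => 0, fun _ => by simp, fun _ => by simp, fun _ => by simp [sq],
      fun _ => by simp [sq], fun a _ _ _ => by simp, fun c => by simp [sq], ?_⟩
    intro D M M' _ _ A hA
    exact hκ.elim (hne A hA).choose
  obtain ⟨w, n, hE⟩ := exists_EData hQ k τ F s
  -- clusters of rows and representatives
  obtain ⟨r, hr⟩ : ∃ r : Finset κ → κ, ∀ A ∈ Cl, r A ∈ A := by
    have h1 : ∀ A : Finset κ, ∃ j : κ, A ∈ Cl → j ∈ A := by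
      intro A
      by_cases hA : A ∈ Cl
      · obtain ⟨j, hj⟩ := hne A hA
        exact ⟨j, fun _ => hj⟩
      · exact ⟨Classical.arbitrary κ, fun h => absurd h hA⟩
    choose r hr using h1
    exact ⟨r, hr⟩
  obtain ⟨cl, hcl⟩ : ∃ cl : κ → Finset κ, ∀ A ∈ Cl, cl (r A) = A := by
    have h1 : ∀ j : κ, ∃ A : Finset κ, ∀ A' ∈ Cl, r A' = j → A = A' := by
      intro j
      by_cases h : ∃ A ∈ Cl, r A = j
      · obtain ⟨A, hA, hj⟩ := h
        refine ⟨A, fun A' hA' hj' => ?_⟩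
        by_contra hne'
        refine Finset.disjoint_left.mp (hdis A hA A' hA' hne') (hr A hA) ?_
        rw [hj, ← hj']
        exact hr A' hA'
      · exact ⟨∅, fun A' hA' hj' => absurd ⟨A', hA', hj'⟩ h⟩
    choose cl hcl using h1
    exact ⟨cl, fun A hA => hcl (r A) A hA rfl⟩
  set W := fun e : κ × Fin L × κ =>
    if cl e.1 ∈ Cl ∧ r (cl e.1) = e.1 then
      (if ν ≤ n (cl e.1) e.2.1 e.2.2 then w (cl e.1) e.2.1 e.2.2 else 0) else 0 with hW
  set W' := fun e : κ × Fin L × κ =>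
    if cl e.1 ∈ Cl ∧ r (cl e.1) = e.1 then
      (if 0 < n (cl e.1) e.2.1 e.2.2 then w (cl e.1) e.2.1 e.2.2 else 0) else 0 with hW'
  have hWval : ∀ A ∈ Cl, ∀ (v : Fin L) (i : κ), W (r A, v, i)
      = if ν ≤ n A v i then w A v i else 0 := by
    intro A hA v i
    simp only [hW]
    rw [hcl A hA, if_pos ⟨hA, rfl⟩]
  have hWval' : ∀ A ∈ Cl, ∀ (v : Fin L) (i : κ), W' (r A, v, i)
      = if 0 < n A v i then w A v i else 0 := by
    intro A hA v i
    simp only [hW']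
    rw [hcl A hA, if_pos ⟨hA, rfl⟩]
  have hcritW : ∀ (A : Finset κ) (v : ℕ) (i : κ), 0 < n A v i →
      crit Q k s *ᵥ w A v i = w A v i := fun A v i h => en_crit hQ hτ hm hF hE A v i h hτ1
  refine ⟨W, W', ?_, ?_, ?_, ?_, ?_, ?_, ?_⟩
  · intro e
    simp only [hW]
    split_ifs with h1 h2
    · exact hcritW _ _ _ (lt_of_lt_of_le hν h2)
    · simp
    · simp
  · intro e
    simp only [hW']
    split_ifs with h1 h2
    · exact hcritW _ _ _ h2
    · simp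
    · simp
  · intro e
    simp only [hW]
    split_ifs with h1 h2
    · exact (hE.w1 _ _ _).le
    · simp [sq]
    · simp [sq]
  · intro e
    simp only [hW']
    split_ifs with h1 h2
    · exact (hE.w1 _ _ _).le
    · simp [sq]
    · simp [sq]
  · intro a ha hnear hfar
    have h1 := sum_rows (ν := ν) Cl cl r hcl n (fun _ A (v : Fin L) i => (w A v i ⬝ᵥ a) ^ 2)
    have h2 : ∑ e, (W e ⬝ᵥ a) ^ 2 = ∑ e : κ × Fin L × κ, (if cl e.1 ∈ Cl ∧ r (cl e.1) = e.1 then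
        (if ν ≤ n (cl e.1) e.2.1 e.2.2 then (w (cl e.1) e.2.1 e.2.2 ⬝ᵥ a) ^ 2 else 0) else 0) := by
      apply Finset.sum_congr rfl
      intro e _
      simp only [hW]
      split_ifs <;> simp
    rw [h2, h1]
    calc ∑ v : Fin L, ∑ A ∈ Cl, ∑ i ∈ univ.filter (fun i => ν ≤ n A v i), (w A v i ⬝ᵥ a) ^ 2
        ≤ ∑ v : Fin L, (2 : ℝ) := by
          apply Finset.sum_le_sum
          intro v _
          have h3 := en_col hQ hτ hm hτ1 hF hE Cl hdis hsub l l' hl hg hgC v hν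
            (hB v v.2) a ha γ e2 hnear hfar
          linarith
      _ = 2 * L := by
          rw [Finset.sum_const, Finset.card_univ, Fintype.card_fin, nsmul_eq_mul]
          ring
  · intro c
    have h1 := sum_rows (ν := ν) Cl cl r hcl n (fun j A (v : Fin L) i => c (j, v, i) • w A v i)
    have h2 : ∑ e, c e • W e = ∑ e : κ × Fin L × κ, (if cl e.1 ∈ Cl ∧ r (cl e.1) = e.1 then
        (if ν ≤ n (cl e.1) e.2.1 e.2.2 then c (e.1, e.2.1, e.2.2) • w (cl e.1) e.2.1 e.2.2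
          else 0) else 0) := by
      apply Finset.sum_congr rfl
      intro e _
      simp only [hW]
      split_ifs <;> simp
    have h3 := sum_rows (ν := ν) Cl cl r hcl n (fun j A (v : Fin L) i => c (j, v, i) ^ 2)
    have h4 : ∑ e : κ × Fin L × κ, (if cl e.1 ∈ Cl ∧ r (cl e.1) = e.1 then
        (if ν ≤ n (cl e.1) e.2.1 e.2.2 then c (e.1, e.2.1, e.2.2) ^ 2 else 0) else 0)
        ≤ ∑ e, c e ^ 2 := by
      apply Finset.sum_le_sum
      intro e _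
      split_ifs
      · exact le_rfl
      · exact sq_nonneg _
      · exact sq_nonneg _
    rw [h3] at h4
    rw [h2, h1]
    have h5 := sq_comb_le (univ : Finset (Fin L)) (fun _ => (1 : ℝ))
      (fun v => ∑ A ∈ Cl, ∑ i ∈ univ.filter (fun i => ν ≤ n A v i), c (r A, v, i) • w A v i)
    simp only [one_smul] at h5
    refine h5.trans ?_
    have h6 : ∑ v : Fin L, (1 : ℝ) ^ 2 = L := by simp
    rw [h6, mul_assoc]
    apply mul_le_mul_of_nonneg_left _ (Nat.cast_nonneg _)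
    refine le_trans (Finset.sum_le_sum fun v _ => en_op hQ hτ hm hτ1 hF hE Cl hdis l hl v hν
      (hB v v.2) (fun A i => c (r A, v, i))) ?_
    rw [← Finset.mul_sum]
    rcases Nat.eq_zero_or_pos L with hL | hL
    · subst hL
      simp
    · have hB0 : 0 ≤ B := by
        refine le_trans ?_ (hB 0 hL)
        have h3 : 0 < τ 0 ^ 3 := pow_pos (hτ 0) 3
        have hp : 0 ≤ ∏ v' ∈ range 0, (4 / τ v' ^ 2) := by simp
        positivity
      exact mul_le_mul_of_nonneg_left h4 (by positivity)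
  · intro D M M' h1 h2 A hA v hv
    refine en_energy hQ hτ hm hF hE A l (hl A hA) v hν D ?_ ?_
    · intro i hi
      have h3 := h1 (r A, ⟨v, hv⟩, i)
      rw [hWval A hA, if_pos hi] at h3
      exact h3
    · intro i hi
      have h3 := h2 (r A, ⟨v, hv⟩, i)
      rw [hWval' A hA, if_pos hi] at h3
      exact h3

end Pool.Agent.LibKG64
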