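import Pool.Agent.LibKG64.G1
import Pool.Agent.LibKG64.A1

set_option autoImplicit false
set_option linter.unusedSectionVars false
set_option linter.unusedVariables false

/-! Task G2: connected sets of rows, their number; degree of the graph. -/

open Finset Matrix

namespace Pool.Agent.LibKG64

variable {κ : Type} [Fintype κ] [DecidableEq κ]

private theorem mem_conn_succ {A : κ → κ → Prop} {m : ℕ} {J : Finset κ} :
    J ∈ conn A (m + 1) ↔ ∃ J0 ∈ conn A m, ∃ j ∈ J0, ∃ j' ∈ nbs A j \ J0, insert j' J0 = J := by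
  simp only [conn, Finset.mem_biUnion, Finset.mem_image]

theorem conn_card {A : κ → κ → Prop} (m : ℕ) {J : Finset κ} (h : J ∈ conn A m) :
    J.card = m + 1 := by
  induction m generalizing J with
  | zero =>
    obtain ⟨j, _, rfl⟩ := Finset.mem_image.1 h
    simp
  | succ m ih =>
    obtain ⟨J0, hJ0, j, hj, j', hj', rfl⟩ := mem_conn_succ.1 h
    rw [Finset.card_insert_of_notMem (Finset.mem_sdiff.1 hj').2, ih hJ0]

private theorem mem_nbs {A : κ → κ → Prop} {j j' : κ} : j' ∈ nbs A j ↔ A j j' := by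
  classical
  unfold nbs
  simp

private theorem exists_exit {r : κ → κ → Prop} {J : Finset κ} {i y : κ}
    (h : Relation.ReflTransGen r i y) (hi : i ∈ J) (hy : y ∉ J) :
    ∃ x z, Relation.ReflTransGen r i x ∧ x ∈ J ∧ z ∉ J ∧ r x z := by
  induction h with
  | refl => exact absurd hi hy
  | @tail b c h1 h2 ih =>
    by_cases hb : b ∈ J
    · exact ⟨b, c, h1, hb, hy, h2⟩
    · exact ih hb

/-- a component with more than `m` elements contains a connected set with `m + 1` elements (induction on `m`, a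
connected set `J ⊆ cl A F j` with `J ≠ cl A F j` has an edge to `cl A F j \ J`) -/
theorem exists_conn {A : κ → κ → Prop} {F R : Finset κ} (hR : R ∈ comps A F) (m : ℕ)
    (h : m < R.card) : ∃ J ∈ conn A m, J ⊆ R := by
  obtain ⟨i, hi, rfl⟩ := Finset.mem_image.1 hR
  suffices H : ∃ J ∈ conn A m, J ⊆ cl A F i ∧ i ∈ J by
    obtain ⟨J, h1, h2, _⟩ := H
    exact ⟨J, h1, h2⟩
  induction m with
  | zero =>
    exact ⟨{i}, Finset.mem_image_of_mem _ (Finset.mem_univ i),
      Finset.singleton_subset_iff.2 (mem_cl_self A hi), Finset.mem_singleton_self i⟩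
  | succ m ih =>
    obtain ⟨J, hJ1, hJ2, hJ3⟩ := ih (by omega)
    have hc := conn_card m hJ1
    have hne : ∃ y ∈ cl A F i, y ∉ J := by
      by_contra hcon
      push Not at hcon
      have := Finset.card_le_card (show cl A F i ⊆ J from hcon)
      omega
    obtain ⟨y, hy1, hy2⟩ := hne
    have hy3 : conF A F i y := by
      classical
      have := hy1
      unfold cl at this
      exact (Finset.mem_filter.1 this).2
    obtain ⟨x, z, hx1, hx2, hz, hxF, hzF, hxz⟩ := exists_exit hy3 hJ3 hy2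
    refine ⟨insert z J, mem_conn_succ.2 ⟨J, hJ1, x, hx2, z,
      Finset.mem_sdiff.2 ⟨mem_nbs.2 hxz, hz⟩, rfl⟩, ?_, Finset.mem_insert_of_mem hJ3⟩
    intro w hw
    rcases Finset.mem_insert.1 hw with rfl | hw
    · classical
      unfold cl
      exact Finset.mem_filter.2 ⟨hzF, Relation.ReflTransGen.tail hx1 ⟨hxF, hzF, hxz⟩⟩
    · exact hJ2 hw

/-- counting, if every row has at most `d` neighbours -/
theorem card_conn (A : κ → κ → Prop) (d : ℕ) (hd : ∀ j, (nbs A j).card ≤ d) (m : ℕ) :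
    (conn A m).card ≤ Fintype.card κ * ((m + 1) * d) ^ m := by
  induction m with
  | zero =>
    simp only [conn, pow_zero, mul_one]
    exact (Finset.card_image_le).trans (by simp)
  | succ m ih =>
    have h1 : (conn A (m + 1)).card ≤ ∑ J ∈ conn A m, ∑ j ∈ J, (nbs A j \ J).card := by
      simp only [conn]
      refine Finset.card_biUnion_le.trans ?_
      refine Finset.sum_le_sum fun J _ => ?_
      refine Finset.card_biUnion_le.trans ?_
      exact Finset.sum_le_sum fun j _ => Finset.card_image_le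
    have h2 : ∑ J ∈ conn A m, ∑ j ∈ J, (nbs A j \ J).card ≤ ∑ J ∈ conn A m, (m + 1) * d := by
      refine Finset.sum_le_sum fun J hJ => ?_
      have : ∑ j ∈ J, (nbs A j \ J).card ≤ ∑ _j ∈ J, d :=
        Finset.sum_le_sum fun j _ => (Finset.card_le_card Finset.sdiff_subset).trans (hd j)
      refine this.trans (le_of_eq ?_)
      rw [Finset.sum_const, conn_card m hJ, smul_eq_mul]
    rw [Finset.sum_const, smul_eq_mul] at h2
    calc (conn A (m + 1)).card ≤ (conn A m).card * ((m + 1) * d) := h1.trans h2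
      _ ≤ (Fintype.card κ * ((m + 1) * d) ^ m) * ((m + 1) * d) := Nat.mul_le_mul_right _ ih
      _ = Fintype.card κ * ((m + 1) * d) ^ (m + 1) := by rw [pow_succ, mul_assoc]
      _ ≤ Fintype.card κ * ((m + 1 + 1) * d) ^ (m + 1) := by
          gcongr
          omega

theorem adj_symm {Q : ℕ → Matrix κ κ ℝ} (hQ : Flag Q) (N : ℕ) (γ : ℝ) (j j' : κ)
    (h : adj Q N γ j j') : adj Q N γ j' j := by
  obtain ⟨i, hi, h1⟩ := h
  refine ⟨i, hi, ?_⟩
  have : Q i j' j = Q i j j' := by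
    conv_lhs => rw [← hQ.symm i]
    rfl
  rw [this]; exact h1

/-- degree: `∑_j' (Q i j j')² ≤ 1` -/
theorem adj_degree {Q : ℕ → Matrix κ κ ℝ} (hQ : Flag Q) (N : ℕ) {γ : ℝ} (hγ : 0 < γ) (j : κ) :
    ((nbs (adj Q N γ) j).card : ℝ) ≤ N / γ ^ 2 := by
  have hγ2 : 0 < γ ^ 2 := by positivity
  rw [le_div_iff₀ hγ2]
  have h1 : ((nbs (adj Q N γ) j).card : ℝ) * γ ^ 2 ≤
      ∑ j' ∈ nbs (adj Q N γ) j, ∑ i ∈ Finset.range N, Q i j j' ^ 2 := by
    rw [← nsmul_eq_mul, ← Finset.sum_const]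
    refine Finset.sum_le_sum fun j' hj' => ?_
    obtain ⟨i, hi, h2⟩ := mem_nbs.1 hj'
    calc γ ^ 2 ≤ |Q i j j'| ^ 2 := by gcongr
      _ = Q i j j' ^ 2 := sq_abs _
      _ ≤ ∑ i ∈ Finset.range N, Q i j j' ^ 2 :=
        Finset.single_le_sum (f := fun i => Q i j j' ^ 2) (fun i _ => sq_nonneg _)
          (Finset.mem_range.2 hi)
  have h3 : ∑ j' ∈ nbs (adj Q N γ) j, ∑ i ∈ Finset.range N, Q i j j' ^ 2 ≤
      ∑ j', ∑ i ∈ Finset.range N, Q i j j' ^ 2 :=
    Finset.sum_le_sum_of_subset_of_nonneg (Finset.subset_univ _)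
      (fun j' _ _ => Finset.sum_nonneg fun i _ => sq_nonneg _)
  have h5 : ∑ j', ∑ i ∈ Finset.range N, Q i j j' ^ 2 = ∑ i ∈ Finset.range N, ∑ j', Q i j j' ^ 2 :=
    Finset.sum_comm
  have h4 : ∑ i ∈ Finset.range N, ∑ j', Q i j j' ^ 2 ≤ ∑ _i ∈ Finset.range N, (1 : ℝ) :=
    Finset.sum_le_sum fun i _ => flag_row hQ i j
  rw [Finset.sum_const, Finset.card_range, nsmul_eq_mul, mul_one] at h4
  exact h1.trans (h3.trans (h5.le.trans h4))

/-- entries of the projections between non adjacent rows -/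
theorem abs_Q_lt {Q : ℕ → Matrix κ κ ℝ} {N : ℕ} {γ : ℝ} {j j' : κ} (h : ¬ adj Q N γ j j') {i : ℕ}
    (hi : i < N) : |Q i j j'| < γ := by
  by_contra hc
  exact h ⟨i, hi, not_lt.1 hc⟩

theorem abs_crit_lt {Q : ℕ → Matrix κ κ ℝ} {N : ℕ} {γ : ℝ} {j j' : κ} (h : ¬ adj Q N γ j j')
    {k s : ℕ} (hi : s + k < N) : |crit Q k s j j'| < 2 * γ := by
  have h1 := abs_Q_lt h (i := s) (by omega)
  have h2 := abs_Q_lt h hi
  have : crit Q k s j j' = Q s j j' - Q (s + k) j j' := rfl
  rw [this]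
  calc |Q s j j' - Q (s + k) j j'| ≤ |Q s j j'| + |Q (s + k) j j'| := abs_sub _ _
    _ < γ + γ := add_lt_add h1 h2
    _ = 2 * γ := by ring

end Pool.Agent.LibKG64
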