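import Pool.Agent.LibKG64.En6
import Pool.Agent.LibKG64.G2

set_option autoImplicit false

/-! O-En 7: the energy rows for the clusters `comps (adj Q N γ) (F 0)`. -/

open Finset Matrix

namespace Pool.Agent.LibKG64

variable {κ : Type} [Fintype κ] [DecidableEq κ]

/-- **energy rows** of the clusters of `F 0` -/
theorem energy_rows {Q : ℕ → Matrix κ κ ℝ} (hQ : Flag Q) (k : ℕ) (τ : ℕ → ℝ)
    (hτ : ∀ v, 0 < τ v) (hm : ∀ v, τ v ≤ τ (v + 1)) (hτ1 : ∀ v, τ v ≤ 1) (F : ℕ → Finset κ)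
    (hF : ∀ v, F (v + 1) ⊆ F v) (s L N : ℕ) {γ : ℝ} (hγ : 0 < γ) (hs : s + k < N)
    (l l' : ℕ) (hl : ∀ A ∈ comps (adj Q N γ) (F 0), A.card ≤ l)
    {ν B e2 : ℝ} (hν : 0 < ν) (he : e2 ≤ γ ^ 2 * l')
    (hB : ∀ v < L, (∏ v' ∈ range v, (4 / τ v' ^ 2)) * (1 / (ν ^ 2 * τ v ^ 3)) ≤ B)
    (hsm : B * (2 * γ * l ^ 2 * l' + l * e2) ≤ 1) :
    ∃ w w' : κ × Fin L × κ → κ → ℝ,
      (∀ e, crit Q k s *ᵥ w e = w e) ∧ (∀ e, crit Q k s *ᵥ w' e = w' e) ∧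
      (∀ e, sq (w e) ≤ 1) ∧ (∀ e, sq (w' e) ≤ 1) ∧
      (∀ a : κ → ℝ, sq a ≤ 1 →
        ∑ j ∈ F 0, min ((crit Q k s *ᵥ a) j ^ 2) (γ ^ 2) ≤ e2 →
        ∑ e, (w e ⬝ᵥ a) ^ 2 ≤ 2 * L) ∧
      (∀ c : κ × Fin L × κ → ℝ, sq (∑ e, c e • w e) ≤ L * (l * B) * ∑ e, c e ^ 2) ∧
      (∀ (D : κ → ℝ) (M M' : ℝ), (∀ e, |w e ⬝ᵥ D| ≤ M) → (∀ e, |w' e ⬝ᵥ D| ≤ M') →
        ∀ A ∈ comps (adj Q N γ) (F 0), ∀ v < L,
          D ⬝ᵥ Nm Q k τ (fun u => F u ∩ A) s v *ᵥ D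
          ≤ M ^ 2 * ((That (Q s) (F v ∩ A) (τ v))⁻¹
            * (ind (F v ∩ A) * crit Q k s * ind (F v ∩ A))).trace + l * ν * M' ^ 2) := by
  have hA := adj_symm hQ N γ
  obtain ⟨w, w', h1, h2, h3, h4, h5, h6, h7⟩ := exists_energy_rows hQ k τ hτ hm hτ1 F hF s L
    (comps (adj Q N γ) (F 0)) (fun A h A' h' hne => comps_disjoint hA h h' hne)
    (fun A h => comps_nonempty h) (fun A h => comps_subset h) l l' hl
    (by positivity : (0 : ℝ) ≤ 2 * γ)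
    (fun A h A' h' hne j hj j' hj' => (abs_crit_lt (comps_not_adj hA h h' hne hj hj') hs).le)
    hν hB (γ := γ) hsm
  refine ⟨w, w', h1, h2, h3, h4, ?_, h6, h7⟩
  intro a ha hmin
  obtain ⟨h8, h9⟩ := near_far_of_min (F 0) (crit Q k s *ᵥ a) l' hγ hmin he
  exact h5 a ha h8 h9

/-- **energy of a component of a bigger set** against the energies of its clusters -/
theorem energy_comp {Q : ℕ → Matrix κ κ ℝ} (hQ : Flag Q) (k : ℕ) (τ : ℕ → ℝ)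
    (hτ : ∀ v, 0 < τ v) (F : ℕ → Finset κ) (hF : ∀ v, F (v + 1) ⊆ F v) (s v N : ℕ)
    {γ : ℝ} (hγ : 0 < γ) (hs : s + k < N) (F' R : Finset κ) (hFF : F 0 ⊆ F')
    (hR : R ∈ comps (adj Q N γ) F') (l : ℕ) (hl : R.card ≤ l) (D : κ → ℝ) {ε M : ℝ}
    (hM0 : 0 ≤ M) (hM : ∀ j ∈ R, |(Ze Q k τ F s v *ᵥ D) j| ≤ M)
    (h1 : √(sq (res R (Ze Q k τ F s v *ᵥ D) - Ze Q k τ (fun u => F u ∩ R) s v *ᵥ D)) ≤ ε)
    (h2 : ∀ A ∈ comps (adj Q N γ) (F 0), A ⊆ R →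
      √(sq (res A (Ze Q k τ F s v *ᵥ D) - Ze Q k τ (fun u => F u ∩ A) s v *ᵥ D)) ≤ ε) :
    D ⬝ᵥ Nm Q k τ (fun u => F u ∩ R) s v *ᵥ D
      ≤ 2 * ∑ A ∈ (comps (adj Q N γ) (F 0)).filter (fun A => A ⊆ R),
          D ⬝ᵥ Nm Q k τ (fun u => F u ∩ A) s v *ᵥ D
        + 4 * γ * (l * (M + ε)) ^ 2 + 2 * ((1 + l) * ε) ^ 2 := by
  have hA := adj_symm hQ N γ
  have hF0 : ∀ v, F v ⊆ F 0 := by
    intro v
    induction v with
    | zero => exact Finset.Subset.refl _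
    | succ v ih => exact (hF v).trans ih
  have h3 := en_local hQ k τ hτ F s v (hF0 v) D R
    ((comps (adj Q N γ) (F 0)).filter (fun A => A ⊆ R))
    (fun A h A' h' hne => comps_disjoint hA (Finset.mem_filter.mp h).1
      (Finset.mem_filter.mp h').1 hne)
    (fun A h => comps_nonempty (Finset.mem_filter.mp h).1) (biUnion_comps hA hFF hR) l hl
    (by positivity : (0 : ℝ) ≤ 2 * γ)
    (fun A h A' h' hne j hj j' hj' => (abs_crit_lt (comps_not_adj hA (Finset.mem_filter.mp h).1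
      (Finset.mem_filter.mp h').1 hne hj hj') hs).le) hM0 hM h1
    (fun A h => h2 A (Finset.mem_filter.mp h).1 (Finset.mem_filter.mp h).2)
  simp only [Nm_dot]
  refine h3.trans (le_of_eq ?_)
  ring

/-- **trace comparison** for a component of a bigger set -/
theorem trace_comp {Q : ℕ → Matrix κ κ ℝ} (hQ : Flag Q) (k s N : ℕ) {γ t : ℝ} (hγ : 0 < γ)
    (ht : 0 < t) (hs : s + k < N) (F0 G F' R : Finset κ) (hFF : F0 ⊆ F') (hG : G ⊆ F0)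
    (hR : R ∈ comps (adj Q N γ) F') (l : ℕ) (hl : R.card ≤ l) :
    ∑ A ∈ (comps (adj Q N γ) F0).filter (fun A => A ⊆ R),
        ((That (Q s) (G ∩ A) t)⁻¹ * (ind (G ∩ A) * crit Q k s * ind (G ∩ A))).trace
      ≤ ((That (Q s) (G ∩ R) t)⁻¹ * (ind (G ∩ R) * crit Q k s * ind (G ∩ R))).trace
        + 2 * γ * l ^ 2 / t := by
  have hA := adj_symm hQ N γ
  have hU := biUnion_comps hA hFF hR
  have h1 := en_trace hQ k s ((comps (adj Q N γ) F0).filter (fun A => A ⊆ R))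
    (fun A h A' h' hne => comps_disjoint hA (Finset.mem_filter.mp h).1
      (Finset.mem_filter.mp h').1 hne) ht (by positivity : (0 : ℝ) ≤ 2 * γ)
    (fun A h A' h' hne j hj j' hj' => (abs_crit_lt (comps_not_adj hA (Finset.mem_filter.mp h).1
      (Finset.mem_filter.mp h').1 hne hj hj') hs).le) (G ∩ R) (by
        rw [← hU]
        intro j hj
        rw [Finset.mem_inter] at hj ⊢
        exact ⟨hj.2, hG hj.1⟩)
  have h2 : ∀ A ∈ (comps (adj Q N γ) F0).filter (fun A => A ⊆ R), G ∩ R ∩ A = G ∩ A := by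
    intro A hA'
    rw [Finset.inter_assoc, Finset.inter_eq_right.mpr (Finset.mem_filter.mp hA').2]
  have h3 : ∑ A ∈ (comps (adj Q N γ) F0).filter (fun A => A ⊆ R),
        ((That (Q s) (G ∩ A) t)⁻¹ * (ind (G ∩ A) * crit Q k s * ind (G ∩ A))).trace
      = ∑ A ∈ (comps (adj Q N γ) F0).filter (fun A => A ⊆ R),
        ((That (Q s) (G ∩ R ∩ A) t)⁻¹
          * (ind (G ∩ R ∩ A) * crit Q k s * ind (G ∩ R ∩ A))).trace := by
    apply Finset.sum_congr rfl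
    intro A hA'
    rw [h2 A hA']
  rw [h3]
  refine h1.trans ?_
  have h4 : ((G ∩ R).card : ℝ) ^ 2 ≤ (l : ℝ) ^ 2 := by
    apply pow_le_pow_left₀ (Nat.cast_nonneg _)
    exact_mod_cast (Finset.card_le_card Finset.inter_subset_right).trans hl
  have h5 : 2 * γ * ((G ∩ R).card : ℝ) ^ 2 / t ≤ 2 * γ * l ^ 2 / t := by
    apply div_le_div_of_nonneg_right _ ht.le
    exact mul_le_mul_of_nonneg_left h4 (by positivity)
  linarith

end Pool.Agent.LibKG64
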