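import Pool.Agent.LibKG64.O0

set_option autoImplicit false
set_option linter.unusedSectionVars false
set_option linter.unusedVariables false

/-! Task G1: clusters of a finite set of rows for a symmetric relation. -/

open Finset

namespace Pool.Agent.LibKG64

variable {κ : Type} [Fintype κ] [DecidableEq κ] {A : κ → κ → Prop}

theorem cl_subset (A : κ → κ → Prop) (F : Finset κ) (j : κ) : cl A F j ⊆ F := by
  classical
  exact Finset.filter_subset _ _

private theorem mem_cl {F : Finset κ} {j j' : κ} : j' ∈ cl A F j ↔ j' ∈ F ∧ conF A F j j' := by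
  classical
  unfold cl
  exact Finset.mem_filter

theorem mem_cl_self (A : κ → κ → Prop) {F : Finset κ} {j : κ} (h : j ∈ F) : j ∈ cl A F j :=
  mem_cl.2 ⟨h, Relation.ReflTransGen.refl⟩

private theorem conF_symm (hA : ∀ x y, A x y → A y x) {F : Finset κ} {x y : κ}
    (h : conF A F x y) : conF A F y x := by
  unfold conF at h ⊢
  induction h with
  | refl => exact Relation.ReflTransGen.refl
  | tail _ h2 ih => exact Relation.ReflTransGen.head ⟨h2.2.1, h2.1, hA _ _ h2.2.2⟩ ih

private theorem conF_mono {F F' : Finset κ} (hF : F ⊆ F') {x y : κ}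
    (h : conF A F x y) : conF A F' x y := by
  unfold conF at h ⊢
  induction h with
  | refl => exact Relation.ReflTransGen.refl
  | tail _ h2 ih => exact Relation.ReflTransGen.tail ih ⟨hF h2.1, hF h2.2.1, h2.2.2⟩

theorem cl_eq (hA : ∀ x y, A x y → A y x) {F : Finset κ} {j j' : κ} (hj : j ∈ F)
    (h : j' ∈ cl A F j) : cl A F j' = cl A F j := by
  have h1 := (mem_cl.1 h).2
  ext x
  rw [mem_cl, mem_cl]
  constructor
  · rintro ⟨h2, h3⟩; exact ⟨h2, Relation.ReflTransGen.trans h1 h3⟩
  · rintro ⟨h2, h3⟩; exact ⟨h2, Relation.ReflTransGen.trans (conF_symm hA h1) h3⟩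

private theorem mem_comps {F R : Finset κ} : R ∈ comps A F ↔ ∃ j ∈ F, cl A F j = R := by
  unfold comps
  exact Finset.mem_image

theorem comps_nonempty {F : Finset κ} {R : Finset κ} (h : R ∈ comps A F) : R.Nonempty := by
  obtain ⟨j, hj, rfl⟩ := mem_comps.1 h
  exact ⟨j, mem_cl_self A hj⟩

theorem comps_subset {F R : Finset κ} (h : R ∈ comps A F) : R ⊆ F := by
  obtain ⟨j, hj, rfl⟩ := mem_comps.1 h
  exact cl_subset A F j

private theorem comp_eq_cl' (hA : ∀ x y, A x y → A y x) {F R : Finset κ} {j : κ}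
    (h : R ∈ comps A F) (hj : j ∈ R) : R = cl A F j := by
  obtain ⟨i, hi, rfl⟩ := mem_comps.1 h
  exact (cl_eq hA hi hj).symm

theorem comps_disjoint (hA : ∀ x y, A x y → A y x) {F R R' : Finset κ} (h : R ∈ comps A F)
    (h' : R' ∈ comps A F) (hne : R ≠ R') : Disjoint R R' := by
  rw [Finset.disjoint_left]
  intro x hx hx'
  exact hne ((comp_eq_cl' hA h hx).trans (comp_eq_cl' hA h' hx').symm)

theorem exists_comp {F : Finset κ} {j : κ} (hj : j ∈ F) : ∃ R ∈ comps A F, j ∈ R :=
  ⟨cl A F j, mem_comps.2 ⟨j, hj, rfl⟩, mem_cl_self A hj⟩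

theorem comp_eq_cl (hA : ∀ x y, A x y → A y x) {F R : Finset κ} {j : κ} (h : R ∈ comps A F)
    (hj : j ∈ R) : R = cl A F j := comp_eq_cl' hA h hj

/-- there is no edge from a component to the rest -/
theorem closed_comp {F F' R : Finset κ} (hF : F ⊆ F') (h : R ∈ comps A F') :
    Closed A F R := by
  obtain ⟨i, hi, rfl⟩ := mem_comps.1 h
  intro j hj j' hj' hn hjj
  obtain ⟨hj1, hj2⟩ := mem_cl.1 hj
  exact hn (mem_cl.2 ⟨hF hj', Relation.ReflTransGen.tail hj2 ⟨hj1, hF hj', hjj⟩⟩)

/-- two different components are not adjacent -/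
theorem comps_not_adj (hA : ∀ x y, A x y → A y x) {F R R' : Finset κ} (h : R ∈ comps A F)
    (h' : R' ∈ comps A F) (hne : R ≠ R') {j j' : κ} (hj : j ∈ R) (hj' : j' ∈ R') : ¬ A j j' := by
  refine closed_comp (Finset.Subset.refl F) h j hj j' (comps_subset h' hj') ?_
  exact fun hx => (Finset.disjoint_left.1 (comps_disjoint hA h h' hne)) hx hj'

/-- a component of a smaller set lies in one component of the bigger set, or is disjoint from it -/
theorem comps_mono (hA : ∀ x y, A x y → A y x) {F F' Q R : Finset κ} (hF : F ⊆ F')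
    (hQ : Q ∈ comps A F) (hR : R ∈ comps A F') : Q ⊆ R ∨ Disjoint Q R := by
  by_cases h : Disjoint Q R
  · exact Or.inr h
  · left
    rw [Finset.not_disjoint_iff] at h
    obtain ⟨x, hx, hx'⟩ := h
    rw [comp_eq_cl' hA hQ hx, comp_eq_cl' hA hR hx']
    intro z hz
    obtain ⟨h1, h2⟩ := mem_cl.1 hz
    exact mem_cl.2 ⟨hF h1, conF_mono hF h2⟩

/-- `R ∩ F` is the disjoint union of the components of `F` inside `R` -/
theorem biUnion_comps (hA : ∀ x y, A x y → A y x) {F F' R : Finset κ} (hF : F ⊆ F')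
    (hR : R ∈ comps A F') : R ∩ F = ((comps A F).filter (fun Q => Q ⊆ R)).biUnion id := by
  ext x
  rw [Finset.mem_inter, Finset.mem_biUnion]
  constructor
  · rintro ⟨h1, h2⟩
    obtain ⟨Q, hQ, hx⟩ := exists_comp (A := A) h2
    refine ⟨Q, Finset.mem_filter.2 ⟨hQ, ?_⟩, hx⟩
    rcases comps_mono hA hF hQ hR with h | h
    · exact h
    · exact absurd h1 ((Finset.disjoint_left.1 h) hx)
  · rintro ⟨Q, hQ, hx⟩
    obtain ⟨hQ1, hQ2⟩ := Finset.mem_filter.1 hQ
    exact ⟨hQ2 hx, comps_subset hQ1 hx⟩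

/-- number of components inside `R` -/
theorem card_comps_le (hA : ∀ x y, A x y → A y x) (F R : Finset κ) :
    ((comps A F).filter (fun Q => Q ⊆ R)).card ≤ R.card := by
  have h1 : ((comps A F).filter (fun Q => Q ⊆ R)).card ≤
      (((comps A F).filter (fun Q => Q ⊆ R)).biUnion id).card := by
    refine Finset.card_le_card_biUnion ?_ ?_
    · intro Q hQ Q' hQ' hne
      exact comps_disjoint hA (Finset.mem_filter.1 (Finset.mem_coe.1 hQ)).1
        (Finset.mem_filter.1 (Finset.mem_coe.1 hQ')).1 hne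
    · intro Q hQ
      exact comps_nonempty (Finset.mem_filter.1 hQ).1
  refine h1.trans (Finset.card_le_card ?_)
  intro x hx
  obtain ⟨Q, hQ, hx'⟩ := Finset.mem_biUnion.1 hx
  exact (Finset.mem_filter.1 hQ).2 hx'

end Pool.Agent.LibKG64
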