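import Pool.Agent.LibKG64.H1
import Pool.Agent.LibKG64.G2

set_option autoImplicit false

/-! Task L1: the global control restricted to a closed set `R` of rows (no edge from `R` to `F 0 \ R`), using the bounds for
single rows only. -/

open Finset Matrix

namespace Pool.Agent.LibKG64

variable {κ : Type} [Fintype κ] [DecidableEq κ]

/-- error of the localisation: entries of `Q (ζ - res R ζ)` -/
noncomputable def e1c (l : ℕ) (M3 eF γ t0 : ℝ) : ℝ := √l * (M3 * eF + l * γ * M3) / √t0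

/-- error of the localisation: `|res R ζ - ζ_R|` -/
noncomputable def e2c (l L : ℕ) (M3 eF γ t0 : ℝ) : ℝ := (4 / t0) ^ L * e1c l M3 eF γ t0

open Classical in
/-- row by row: for `j ∈ R`, `(Q (z - res R z))_j = ∑_{j' ∈ F0, not adjacent} - ∑_{j' ∈ F0 ∩ R, not adjacent}` -/
theorem cross_small {Q : ℕ → Matrix κ κ ℝ} (N : ℕ) (γ : ℝ) (hγ : 0 ≤ γ) (F0 R : Finset κ)
    (hcl : Closed (adj Q N γ) F0 R) {l : ℕ} (hR : R.card ≤ l) {i : ℕ} (hi : i < N)
    (z : κ → ℝ) (hz : res F0 z = z) {m1 m2 : ℝ} (hm1 : 0 ≤ m1) (hm2 : 0 ≤ m2)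
    (h1 : ∀ j, |z j| ≤ m1)
    (h2 : ∀ j, |∑ j' ∈ F0.filter (fun j' => ¬ adj Q N γ j j'), Q i j j' * z j'| ≤ m2) :
    √(sq (res R (Q i *ᵥ (z - res R z)))) ≤ √l * (m2 + l * γ * m1) := by
  set y : κ → ℝ := Q i *ᵥ (z - res R z) with hy
  have hmg : 0 ≤ m2 + l * γ * m1 :=
    add_nonneg hm2 (mul_nonneg (mul_nonneg (Nat.cast_nonneg l) hγ) hm1)
  have hz0 : ∀ j', j' ∉ F0 → z j' = 0 := by
    intro j' hj'
    rw [← hz]
    simp [res, hj']
  have hrow : ∀ j ∈ R, |y j| ≤ m2 + l * γ * m1 := by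
    intro j hj
    have e1 : y j = ∑ j', Q i j j' * (if j' ∈ R then 0 else z j') := by
      rw [hy, Matrix.mulVec, dotProduct]
      refine Finset.sum_congr rfl fun j' _ => ?_
      by_cases h : j' ∈ R
      · simp [res, h]
      · simp [res, h]
    have e2 : ∑ j', Q i j j' * (if j' ∈ R then 0 else z j') =
        ∑ j' ∈ F0.filter (fun j' => ¬ adj Q N γ j j'), Q i j j' * (if j' ∈ R then 0 else z j') := by
      symm
      refine Finset.sum_subset (Finset.subset_univ _) ?_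
      intro j' _ hj'
      by_cases hR' : j' ∈ R
      · simp [hR']
      · by_cases hF' : j' ∈ F0
        · exact absurd (Finset.mem_filter.2 ⟨hF', hcl j hj j' hF' hR'⟩) hj'
        · simp [hR', hz0 j' hF']
    have e3 : ∑ j' ∈ F0.filter (fun j' => ¬ adj Q N γ j j'), Q i j j' * (if j' ∈ R then 0 else z j')
        = ∑ j' ∈ F0.filter (fun j' => ¬ adj Q N γ j j'), Q i j j' * z j' -
          ∑ j' ∈ F0.filter (fun j' => ¬ adj Q N γ j j'),
            Q i j j' * (if j' ∈ R then z j' else 0) := by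
      rw [← Finset.sum_sub_distrib]
      refine Finset.sum_congr rfl fun j' _ => ?_
      by_cases h : j' ∈ R
      · simp [h]
      · simp [h]
    have e4 : ∑ j' ∈ F0.filter (fun j' => ¬ adj Q N γ j j'),
            Q i j j' * (if j' ∈ R then z j' else 0) =
        ∑ j' ∈ (F0.filter (fun j' => ¬ adj Q N γ j j')).filter (fun j' => j' ∈ R),
            Q i j j' * z j' := by
      rw [Finset.sum_filter (fun j' => j' ∈ R)]
      refine Finset.sum_congr rfl fun j' _ => ?_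
      by_cases h : j' ∈ R
      · simp [h]
      · simp [h]
    have e5 : |∑ j' ∈ (F0.filter (fun j' => ¬ adj Q N γ j j')).filter (fun j' => j' ∈ R),
            Q i j j' * z j'| ≤ l * γ * m1 := by
      refine (Finset.abs_sum_le_sum_abs _ _).trans ?_
      have h3 : ∀ j' ∈ (F0.filter (fun j' => ¬ adj Q N γ j j')).filter (fun j' => j' ∈ R),
          |Q i j j' * z j'| ≤ γ * m1 := by
        intro j' hj'
        rw [abs_mul]
        have h4 : ¬ adj Q N γ j j' := (Finset.mem_filter.1 (Finset.mem_filter.1 hj').1).2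
        exact mul_le_mul (abs_Q_lt h4 hi).le (h1 j') (abs_nonneg _) hγ
      refine (Finset.sum_le_card_nsmul _ _ _ h3).trans ?_
      rw [nsmul_eq_mul, mul_assoc]
      refine mul_le_mul_of_nonneg_right ?_ (mul_nonneg hγ hm1)
      have h5 : ((F0.filter (fun j' => ¬ adj Q N γ j j')).filter (fun j' => j' ∈ R)).card ≤ l := by
        refine le_trans (Finset.card_le_card ?_) hR
        intro j' hj'
        exact (Finset.mem_filter.1 hj').2
      exact_mod_cast h5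
    rw [e1, e2, e3, e4]
    exact (abs_sub _ _).trans (add_le_add (h2 j) e5)
  have hsq : sq (res R y) ≤ l * (m2 + l * γ * m1) ^ 2 := by
    rw [sq_eq]
    have e1 : ∑ j, res R y j ^ 2 = ∑ j ∈ R, y j ^ 2 := by
      rw [← Finset.sum_subset (Finset.subset_univ R)]
      · refine Finset.sum_congr rfl fun j hj => ?_
        simp [res, hj]
      · intro j _ hj
        simp [res, hj]
    rw [e1]
    have h3 : ∀ j ∈ R, y j ^ 2 ≤ (m2 + l * γ * m1) ^ 2 := by
      intro j hj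
      rw [← sq_abs (y j)]
      exact pow_le_pow_left₀ (abs_nonneg _) (hrow j hj) 2
    refine (Finset.sum_le_card_nsmul _ _ _ h3).trans ?_
    rw [nsmul_eq_mul]
    refine mul_le_mul_of_nonneg_right ?_ (sq_nonneg _)
    exact_mod_cast hR
  calc √(sq (res R y)) ≤ √(l * (m2 + l * γ * m1) ^ 2) := Real.sqrt_le_sqrt hsq
    _ = √l * (m2 + l * γ * m1) := by
      rw [Real.sqrt_mul (Nat.cast_nonneg l), Real.sqrt_sq hmg]

theorem e1c_nonneg {l : ℕ} {M3 eF γ t0 : ℝ} (hM3 : 0 ≤ M3) (heF : 0 ≤ eF) (hγ : 0 ≤ γ) :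
    0 ≤ e1c l M3 eF γ t0 := by
  unfold e1c
  positivity

theorem sq_res_le_card (R : Finset κ) {l : ℕ} (hR : R.card ≤ l) (z : κ → ℝ) {m : ℝ} (hm : 0 ≤ m)
    (h : ∀ j, |z j| ≤ m) : √(sq (res R z)) ≤ √l * m := by
  have hsq : sq (res R z) ≤ l * m ^ 2 := by
    rw [sq_eq]
    have e1 : ∑ j, res R z j ^ 2 = ∑ j ∈ R, z j ^ 2 := by
      rw [← Finset.sum_subset (Finset.subset_univ R)]
      · refine Finset.sum_congr rfl fun j hj => ?_
        simp [res, hj]
      · intro j _ hj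
        simp [res, hj]
    rw [e1]
    have h3 : ∀ j ∈ R, z j ^ 2 ≤ m ^ 2 := by
      intro j _
      rw [← sq_abs (z j)]
      exact pow_le_pow_left₀ (abs_nonneg _) (h j) 2
    refine (Finset.sum_le_card_nsmul _ _ _ h3).trans ?_
    rw [nsmul_eq_mul]
    refine mul_le_mul_of_nonneg_right ?_ (sq_nonneg _)
    exact_mod_cast hR
  calc √(sq (res R z)) ≤ √(l * m ^ 2) := Real.sqrt_le_sqrt hsq
    _ = √l * m := by rw [Real.sqrt_mul (Nat.cast_nonneg l), Real.sqrt_sq hm]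

open Classical in
/-- all the facts about the control of `F · ∩ R` -/
theorem loc_ctrl {Q : ℕ → Matrix κ κ ℝ} (hQ : Flag Q) (k s N L l : ℕ) (τ : ℕ → ℝ)
    (hτ : ∀ v, 0 < τ v) (hτ1 : ∀ v, τ v ≤ 1) (hm : ∀ v, τ v ≤ τ (v + 1)) {γ eF M3 : ℝ}
    (hγ : 0 ≤ γ) (heF : 0 ≤ eF) (hM3 : 0 ≤ M3) (hl : 1 ≤ l) (hN : s + k < N)
    (F : ℕ → Finset κ) (hF : ∀ v, F (v + 1) ⊆ F v) (D : κ → ℝ)
    (hz : ∀ v < L, ∀ j, √(τ v) * |(Ze Q k τ F s v *ᵥ D) j| ≤ M3)
    (hx : ∀ v < L, ∀ j, ∀ i, (i = s ∨ i = s + k) →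
      √(τ v) * |∑ j' ∈ (F 0).filter (fun j' => ¬ adj Q N γ j j'),
        Q i j j' * (Ze Q k τ F s v *ᵥ D) j'| ≤ M3 * eF)
    (R : Finset κ) (hcl : Closed (adj Q N γ) (F 0) R) (hR : R.card ≤ l)
    (he2 : e2c l L M3 eF γ (τ 0) ≤ M3) :
    (∀ v < L, √(sq (res R (Ze Q k τ F s v *ᵥ D) - Ze Q k τ (fun v => F v ∩ R) s v *ᵥ D))
      ≤ e2c l L M3 eF γ (τ 0)) ∧
    (∀ j ∈ R, |(Km Q k τ F L s *ᵥ D) j - (Km Q k τ (fun v => F v ∩ R) L s *ᵥ D) j|
      ≤ 2 * L * e2c l L M3 eF γ (τ 0)) ∧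
    (∀ v < L, τ v * sq (Ze Q k τ (fun v => F v ∩ R) s v *ᵥ D) ≤ 4 * l * M3 ^ 2) ∧
    (∀ v < L, ∀ j, |(Ze Q k τ (fun v => F v ∩ R) s v *ᵥ D) j| ≤ 2 * M3 / √(τ 0)) := by
  have hmono : ∀ v, τ 0 ≤ τ v := by
    intro v
    induction v with
    | zero => exact le_rfl
    | succ v ih => exact ih.trans (hm v)
  have ht0 : 0 < τ 0 := hτ 0
  have hs0 : 0 < √(τ 0) := Real.sqrt_pos.2 ht0
  have hs01 : √(τ 0) ≤ 1 := Real.sqrt_le_one.2 (hτ1 0)
  set e : ℝ := e1c l M3 eF γ (τ 0) with he_def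
  have he : 0 ≤ e := e1c_nonneg hM3 heF hγ
  set A : ℝ := 4 / τ 0 with hA_def
  have hA4 : 4 ≤ A := by
    rw [hA_def, le_div_iff₀ ht0]
    have := hτ1 0
    linarith
  have hAv : ∀ v, 4 / τ v ≤ A := fun v =>
    div_le_div_of_nonneg_left (by norm_num) ht0 (hmono v)
  have hA1 : 1 ≤ A := by linarith
  have hF0 : ∀ v, F v ⊆ F 0 := by
    intro v
    induction v with
    | zero => exact Finset.Subset.refl _
    | succ v ih => exact (hF v).trans ih
  -- entries of `ζ`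
  have hze : ∀ v < L, ∀ j, |(Ze Q k τ F s v *ᵥ D) j| ≤ M3 / √(τ v) := by
    intro v hv j
    have hsv : 0 < √(τ v) := Real.sqrt_pos.2 (hτ v)
    rw [le_div_iff₀ hsv, mul_comm]
    exact hz v hv j
  have hze0 : ∀ v < L, ∀ j, |(Ze Q k τ F s v *ᵥ D) j| ≤ M3 / √(τ 0) := fun v hv j =>
    (hze v hv j).trans (div_le_div_of_nonneg_left hM3 hs0 (Real.sqrt_le_sqrt (hmono v)))
  have hsupp : ∀ v, res (F 0) (Ze Q k τ F s v *ᵥ D) = Ze Q k τ F s v *ᵥ D := by
    intro v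
    conv_lhs => rw [← Ze_supp hQ k τ hτ F s v D]
    rw [h1_res_comm, ← h1_res_inter, Finset.inter_eq_left.2 (hF0 v)]
    exact Ze_supp hQ k τ hτ F s v D
  have hcross : ∀ v < L, ∀ i, (i = s ∨ i = s + k) →
      √(sq (res R (Q i *ᵥ (Ze Q k τ F s v *ᵥ D - res R (Ze Q k τ F s v *ᵥ D))))) ≤ e := by
    intro v hv i hi
    have hiN : i < N := by rcases hi with h | h <;> omega
    have h3 := cross_small N γ hγ (F 0) R hcl hR hiN (Ze Q k τ F s v *ᵥ D) (hsupp v)
      (m1 := M3 / √(τ 0)) (m2 := M3 * eF / √(τ 0)) (by positivity) (by positivity) (hze0 v hv) (by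
        intro j
        have hsv : 0 < √(τ v) := Real.sqrt_pos.2 (hτ v)
        have h4 := hx v hv j i hi
        have h5 : |∑ j' ∈ (F 0).filter (fun j' => ¬ adj Q N γ j j'),
            Q i j j' * (Ze Q k τ F s v *ᵥ D) j'| ≤ M3 * eF / √(τ v) := by
          rw [le_div_iff₀ hsv, mul_comm]
          exact h4
        exact h5.trans (div_le_div_of_nonneg_left (mul_nonneg hM3 heF) hs0
          (Real.sqrt_le_sqrt (hmono v))))
    refine h3.trans (le_of_eq ?_)
    rw [he_def, e1c]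
    field_simp
  have hlz := local_z hQ k τ hτ F hF s D R e he L (fun v hv => hcross v hv s (Or.inl rfl))
    (fun v hv => hcross v hv (s + k) (Or.inr rfl))
  have hld := local_disp hQ k τ hτ F hF s D R e he L (fun v hv => hcross v hv s (Or.inl rfl))
    (fun v hv => hcross v hv (s + k) (Or.inr rfl))
  have herr : ∀ v < L, (errz τ e v + e) / τ v ≤ A ^ L * e / 2 := by
    intro v hv
    have h3 := errz_le τ hτ e he A hAv hA4 v
    have h4 : (1 : ℝ) ≤ A ^ v := one_le_pow₀ hA1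
    have h5 : errz τ e v + e ≤ 2 * (A ^ v * e) := by nlinarith
    have h6 : (errz τ e v + e) / τ v ≤ 2 * (A ^ v * e) / τ v :=
      div_le_div_of_nonneg_right h5 (hτ v).le
    have h7 : 2 * (A ^ v * e) / τ v = (4 / τ v) * (A ^ v * e) / 2 := by ring
    have h8 : (4 / τ v) * (A ^ v * e) / 2 ≤ A * (A ^ v * e) / 2 := by
      have h9 : 0 ≤ A ^ v * e := mul_nonneg (by positivity) he
      have := mul_le_mul_of_nonneg_right (hAv v) h9
      linarith
    have h9 : A * (A ^ v * e) / 2 ≤ A ^ L * e / 2 := by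
      have h10 : A ^ (v + 1) ≤ A ^ L := pow_le_pow_right₀ hA1 hv
      have h11 : A * (A ^ v * e) = A ^ (v + 1) * e := by ring
      rw [h11]
      have := mul_le_mul_of_nonneg_right h10 he
      linarith
    linarith
  have hAL : (1 : ℝ) ≤ A ^ L := one_le_pow₀ hA1
  have hALe : 0 ≤ A ^ L * e := mul_nonneg (by linarith) he
  have heAL : e ≤ A ^ L * e := le_mul_of_one_le_left he hAL
  have he2' : e2c l L M3 eF γ (τ 0) = A ^ L * e := rfl
  have hdiff : ∀ v < L, √(sq (res R (Ze Q k τ F s v *ᵥ D) -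
      Ze Q k τ (fun v => F v ∩ R) s v *ᵥ D)) ≤ A ^ L * e := by
    intro v hv
    have h3 := (hlz v hv).2
    have h4 := herr v hv
    linarith
  rw [he2'] at he2 ⊢
  have hR1 : (1 : ℝ) ≤ √l := by
    rw [Real.one_le_sqrt]
    exact_mod_cast hl
  refine ⟨hdiff, ?_, ?_, ?_⟩
  · intro j hj
    refine (hld j hj).trans ?_
    have h3 : ∀ v ∈ range L, (errz τ e v + e) / τ v + e ≤ 2 * (A ^ L * e) := by
      intro v hv
      have := herr v (Finset.mem_range.1 hv)
      linarith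
    refine (Finset.sum_le_card_nsmul _ _ _ h3).trans (le_of_eq ?_)
    rw [Finset.card_range, nsmul_eq_mul]
    ring
  · intro v hv
    have hsv : 0 < √(τ v) := Real.sqrt_pos.2 (hτ v)
    have hsv1 : √(τ v) ≤ 1 := Real.sqrt_le_one.2 (hτ1 v)
    have h3 : √(sq (res R (Ze Q k τ F s v *ᵥ D))) ≤ √l * (M3 / √(τ v)) :=
      sq_res_le_card R hR _ (by positivity) (hze v hv)
    have h4 : √(sq (Ze Q k τ (fun v => F v ∩ R) s v *ᵥ D)) ≤ √l * (M3 / √(τ v)) + A ^ L * e := by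
      have h5 := h1_nrm_sub (res R (Ze Q k τ F s v *ᵥ D))
        (res R (Ze Q k τ F s v *ᵥ D) - Ze Q k τ (fun v => F v ∩ R) s v *ᵥ D)
      rw [sub_sub_cancel] at h5
      exact h5.trans (add_le_add h3 (hdiff v hv))
    have h6 : √(τ v) * √(sq (Ze Q k τ (fun v => F v ∩ R) s v *ᵥ D)) ≤ 2 * (√l * M3) := by
      have h7 := mul_le_mul_of_nonneg_left h4 hsv.le
      have h8 : √(τ v) * (√l * (M3 / √(τ v)) + A ^ L * e) = √l * M3 + √(τ v) * (A ^ L * e) := by
        field_simp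
      have h9 : √(τ v) * (A ^ L * e) ≤ A ^ L * e := mul_le_of_le_one_left hALe hsv1
      have h10 : M3 ≤ √l * M3 := le_mul_of_one_le_left hM3 hR1
      linarith
    have h11 : (√(τ v) * √(sq (Ze Q k τ (fun v => F v ∩ R) s v *ᵥ D))) ^ 2 ≤
        (2 * (√l * M3)) ^ 2 := pow_le_pow_left₀ (by positivity) h6 2
    rw [mul_pow, Real.sq_sqrt (hτ v).le, Real.sq_sqrt (sq_nonneg' _), mul_pow, mul_pow,
      Real.sq_sqrt (Nat.cast_nonneg l)] at h11
    linarith
  · intro v hv j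
    have h3 := h1_abs_le_nrm (res R (Ze Q k τ F s v *ᵥ D) -
      Ze Q k τ (fun v => F v ∩ R) s v *ᵥ D) j
    have h4 : |res R (Ze Q k τ F s v *ᵥ D) j| ≤ M3 / √(τ 0) := by
      by_cases hj : j ∈ R
      · have : res R (Ze Q k τ F s v *ᵥ D) j = (Ze Q k τ F s v *ᵥ D) j := by simp [res, hj]
        rw [this]
        exact hze0 v hv j
      · have : res R (Ze Q k τ F s v *ᵥ D) j = 0 := by simp [res, hj]
        rw [this, abs_zero]
        positivity
    have h5 : M3 ≤ M3 / √(τ 0) := by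
      rw [le_div_iff₀ hs0]
      exact mul_le_of_le_one_right hM3 hs01
    have h6 : (Ze Q k τ (fun v => F v ∩ R) s v *ᵥ D) j =
        res R (Ze Q k τ F s v *ᵥ D) j - (res R (Ze Q k τ F s v *ᵥ D) -
          Ze Q k τ (fun v => F v ∩ R) s v *ᵥ D) j := by
      rw [Pi.sub_apply, sub_sub_cancel]
    rw [h6]
    have h7 := abs_sub (res R (Ze Q k τ F s v *ᵥ D) j) ((res R (Ze Q k τ F s v *ᵥ D) -
          Ze Q k τ (fun v => F v ∩ R) s v *ᵥ D) j)
    have h8 := hdiff v hv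
    have h9 : 2 * M3 / √(τ 0) = M3 / √(τ 0) + M3 / √(τ 0) := by ring
    linarith

end Pool.Agent.LibKG64
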