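import Pool.Agent.LibKG64.B2

set_option autoImplicit false

/-! Task T1: (LA6), the trace bound. -/

open Finset Matrix

namespace Pool.Agent.LibKG64

variable {κ : Type*} [Fintype κ] [DecidableEq κ]

open scoped MatrixOrder in
theorem t1_factor (T : Matrix κ κ ℝ) (hT : T.PosSemidef) : ∃ B : Matrix κ κ ℝ, T = Bᵀ * B := by
  obtain ⟨B, hB⟩ := CStarAlgebra.nonneg_iff_eq_star_mul_self.mp hT.nonneg
  exact ⟨B, by rw [hB, star_eq_conjTranspose, conjTranspose_eq_transpose_of_trivial]⟩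

theorem t1_log_det_le (M : Matrix κ κ ℝ) (hM : M.PosDef) :
    Real.log M.det ≤ M.trace - Fintype.card κ := by
  have h1 : M.det = ∏ i, hM.1.eigenvalues i := by
    rw [hM.1.det_eq_prod_eigenvalues]; simp
  have h2 : M.trace = ∑ i, hM.1.eigenvalues i := by
    rw [hM.1.trace_eq_sum_eigenvalues]; simp
  rw [h1, h2, Real.log_prod (fun i _ => (hM.eigenvalues_pos i).ne')]
  calc ∑ i, Real.log (hM.1.eigenvalues i) ≤ ∑ i, (hM.1.eigenvalues i - 1) :=
        Finset.sum_le_sum (fun i _ => Real.log_le_sub_one_of_pos (hM.eigenvalues_pos i))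
    _ = ∑ i, hM.1.eigenvalues i - Fintype.card κ := by
        simp [Finset.sum_sub_distrib, Finset.card_univ]

theorem tr_le_logdet (A Δ : Matrix κ κ ℝ) (hA : A.PosDef) (hΔ : Δ.PosSemidef) :
    ((A + Δ)⁻¹ * Δ).trace ≤ Real.log (A + Δ).det - Real.log A.det := by
  have hT : (A + Δ).PosDef := hA.add_posSemidef hΔ
  obtain ⟨B, hB⟩ := t1_factor (A + Δ) hT.posSemidef
  have hdT : 0 < (A + Δ).det := hT.det_pos
  have hdT' : (A + Δ).det = B.det * B.det := by rw [hB, det_mul, det_transpose]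
  have hdB : B.det ≠ 0 := by
    intro h
    rw [hdT', h] at hdT
    simp at hdT
  have hBu : IsUnit B.det := isUnit_iff_ne_zero.mpr hdB
  have hM : (B⁻¹ᵀ * A * B⁻¹).PosDef := by
    have hinj : Function.Injective (B⁻¹.mulVec) := by
      apply mulVec_injective_iff_isUnit.mpr
      rw [isUnit_iff_isUnit_det, isUnit_nonsing_inv_det_iff]
      exact hBu
    have := hA.conjTranspose_mul_mul_same hinj
    rwa [conjTranspose_eq_transpose_of_trivial] at this
  have h1 := t1_log_det_le _ hM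
  have hinv : (A + Δ)⁻¹ = B⁻¹ * B⁻¹ᵀ := by
    rw [hB, Matrix.mul_inv_rev, transpose_nonsing_inv]
  have htr : (B⁻¹ᵀ * A * B⁻¹).trace = Fintype.card κ - ((A + Δ)⁻¹ * Δ).trace := by
    rw [trace_mul_comm, ← mul_assoc, ← hinv]
    have h3 : (A + Δ)⁻¹ * A = 1 - (A + Δ)⁻¹ * Δ := by
      rw [eq_sub_iff_add_eq, ← mul_add]
      exact nonsing_inv_mul _ (isUnit_iff_ne_zero.mpr hdT.ne')
    rw [h3, trace_sub, trace_one]
  have hdet : (B⁻¹ᵀ * A * B⁻¹).det = A.det / (A + Δ).det := by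
    rw [det_mul, det_mul, det_transpose, det_nonsing_inv, Ring.inverse_eq_inv', hdT']
    field_simp
  rw [htr, hdet, Real.log_div hA.det_pos.ne' hdT.ne'] at h1
  linarith

theorem t1_trace_nonneg (A Δ : Matrix κ κ ℝ) (hA : A.PosSemidef) (hΔ : Δ.PosSemidef) :
    0 ≤ (A * Δ).trace := by
  obtain ⟨B, hB⟩ := t1_factor Δ hΔ
  rw [hB, ← mul_assoc, trace_mul_comm, ← mul_assoc]
  have := (hA.mul_mul_conjTranspose_same B).trace_nonneg
  rwa [conjTranspose_eq_transpose_of_trivial] at this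

theorem t1_logdet_mono (A Δ : Matrix κ κ ℝ) (hA : A.PosDef) (hΔ : Δ.PosSemidef) :
    Real.log A.det ≤ Real.log (A + Δ).det := by
  have h1 := tr_le_logdet A Δ hA hΔ
  have h2 := t1_trace_nonneg (A + Δ)⁻¹ Δ (hA.add_posSemidef hΔ).inv.posSemidef hΔ
  linarith

theorem t1_psd_of (M : Matrix κ κ ℝ) (hs : Mᵀ = M) (h : ∀ x, 0 ≤ x ⬝ᵥ M *ᵥ x) :
    M.PosSemidef := by
  apply PosSemidef.of_dotProduct_mulVec_nonneg
  · rw [IsHermitian, conjTranspose_eq_transpose_of_trivial]; exact hs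
  · intro x
    simpa using h x

theorem t1_indP_symm (P : Matrix κ κ ℝ) (hs : Pᵀ = P) (F : Finset κ) :
    (ind F * P * ind F)ᵀ = ind F * P * ind F := by
  rw [transpose_mul, transpose_mul, ind_transpose, hs, mul_assoc]

theorem t1_indP_dot (P : Matrix κ κ ℝ) (F : Finset κ) (x : κ → ℝ) :
    x ⬝ᵥ (ind F * P * ind F) *ᵥ x = res F x ⬝ᵥ P *ᵥ res F x := by
  rw [← mulVec_mulVec, ← mulVec_mulVec, ind_mulVec, ind_mulVec, ← res_dot]

theorem t1_smul_posDef {t : ℝ} (ht : 0 < t) : (t • (1 : Matrix κ κ ℝ)).PosDef :=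
  PosDef.one.smul ht

theorem t1_logdet_smul {t : ℝ} (ht : 0 < t) :
    Real.log (t • (1 : Matrix κ κ ℝ)).det = Fintype.card κ * Real.log t := by
  rw [det_smul, det_one, mul_one, Real.log_pow]

theorem t1_logdet_ind (F : Finset κ) {t : ℝ} (ht : 0 < t) :
    Real.log (t • (1 : Matrix κ κ ℝ) + ind F).det
      = Fintype.card κ * Real.log t + F.card * Real.log (1 + 1 / t) := by
  have h1 : t • (1 : Matrix κ κ ℝ) + ind F
      = Matrix.diagonal (fun j => t * (if j ∈ F then (1 + 1 / t) else 1)) := by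
    rw [ind, ← diagonal_one, ← diagonal_smul, diagonal_add]
    congr 1
    funext j
    by_cases hj : j ∈ F
    · simp only [Pi.smul_apply, hj, if_true, smul_eq_mul]
      field_simp
    · simp [hj]
  rw [h1, det_diagonal, Finset.prod_mul_distrib, Finset.prod_const, Finset.card_univ,
    Finset.prod_ite_mem, Finset.univ_inter, Finset.prod_const,
    Real.log_mul (pow_ne_zero _ ht.ne') (pow_ne_zero _ (by positivity)), Real.log_pow, Real.log_pow]

theorem logdet_bounds (P : Matrix κ κ ℝ) (hs : Pᵀ = P) (h0 : ∀ x, 0 ≤ x ⬝ᵥ P *ᵥ x)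
    (h1 : ∀ x, x ⬝ᵥ P *ᵥ x ≤ sq x) (F : Finset κ) {t : ℝ} (ht : 0 < t) :
    0 ≤ Real.log (That P F t).det - Fintype.card κ * Real.log t ∧
      Real.log (That P F t).det - Fintype.card κ * Real.log t
        ≤ F.card * Real.log (1 + 1 / t) := by
  have hpsd : (ind F * P * ind F).PosSemidef :=
    t1_psd_of _ (t1_indP_symm P hs F) (fun x => by rw [t1_indP_dot]; exact h0 _)
  constructor
  · have h2 := t1_logdet_mono (t • (1 : Matrix κ κ ℝ)) (ind F * P * ind F) (t1_smul_posDef ht) hpsd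
    rw [t1_logdet_smul ht] at h2
    rw [That, add_comm]
    linarith
  · have hpd : (That P F t).PosDef := by
      rw [That, add_comm]
      exact (t1_smul_posDef ht).add_posSemidef hpsd
    have hΔ : (ind F - ind F * P * ind F).PosSemidef := by
      apply t1_psd_of
      · rw [transpose_sub, ind_transpose, t1_indP_symm P hs F]
      · intro x
        rw [sub_mulVec, dotProduct_sub, t1_indP_dot, ind_mulVec]
        have h3 := h1 (res F x)
        have h4 : sq (res F x) = x ⬝ᵥ res F x := by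
          rw [sq, res_dot, res_res]
        linarith
    have h2 := t1_logdet_mono (That P F t) (ind F - ind F * P * ind F) hpd hΔ
    have h3 : That P F t + (ind F - ind F * P * ind F) = t • (1 : Matrix κ κ ℝ) + ind F := by
      rw [That]; abel
    rw [h3, t1_logdet_ind F ht] at h2
    linarith

theorem t1_trace_crit {Q : ℕ → Matrix κ κ ℝ} (hQ : Flag Q) (k s : ℕ) (F : Finset κ) (t : ℝ) :
    ((That (Q s) F t)⁻¹ * (ind F * crit Q k s * ind F)).trace
      = ∑ j, res F (crit Q k s *ᵥ Pi.single j 1) ⬝ᵥ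
          (That (Q s) F t)⁻¹ *ᵥ res F (crit Q k s *ᵥ Pi.single j 1) := by
  have h1 : ((That (Q s) F t)⁻¹ * (ind F * crit Q k s * ind F)).trace
      = (crit Q k s * (ind F * (That (Q s) F t)⁻¹ * ind F) * crit Q k s).trace := by
    rw [trace_mul_comm (crit Q k s * (ind F * (That (Q s) F t)⁻¹ * ind F)) (crit Q k s),
      ← mul_assoc (crit Q k s) (crit Q k s), crit_mul hQ, trace_mul_comm (crit Q k s),
      trace_mul_comm (That (Q s) F t)⁻¹]
    have h2 : ind F * crit Q k s * ind F * (That (Q s) F t)⁻¹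
        = ind F * (crit Q k s * ind F * (That (Q s) F t)⁻¹) := by
      simp only [mul_assoc]
    rw [h2, trace_mul_comm (ind F)]
    have h3 : crit Q k s * ind F * (That (Q s) F t)⁻¹ * ind F
        = crit Q k s * (ind F * (That (Q s) F t)⁻¹ * ind F) := by
      simp only [mul_assoc]
    rw [h3, trace_mul_comm (crit Q k s)]
  rw [h1, trace]
  apply Finset.sum_congr rfl
  intro j _
  set M := crit Q k s * (ind F * (That (Q s) F t)⁻¹ * ind F) * crit Q k s with hM
  have h4 : M.diag j = Pi.single j 1 ⬝ᵥ M *ᵥ Pi.single j 1 := by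
    simp
  rw [h4, hM]
  simp only [← mulVec_mulVec]
  rw [sym_dot _ (crit_symm hQ k s)]
  rw [ind_mulVec, ind_mulVec, ← res_dot]

theorem tr_mono_F {Q : ℕ → Matrix κ κ ℝ} (hQ : Flag Q) (k s : ℕ) {F F' : Finset κ}
    (hF : F ⊆ F') {t : ℝ} (ht : 0 < t) :
    ((That (Q s) F t)⁻¹ * (ind F * crit Q k s * ind F)).trace
      ≤ ((That (Q s) F' t)⁻¹ * (ind F' * crit Q k s * ind F')).trace := by
  rw [t1_trace_crit hQ, t1_trace_crit hQ]
  apply Finset.sum_le_sum
  intro j _
  exact inv_mono_F (Q s) (hQ.symm s) (flag_nonneg hQ s) hF ht _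

/-- (LA6) -/
theorem LA6 {Q : ℕ → Matrix κ κ ℝ} (hQ : Flag Q) (k T : ℕ) (F : ℕ → Finset κ)
    (F' : Finset κ) (hF : ∀ s, F s ⊆ F') {t : ℝ} (ht : 0 < t) :
    ∑ s ∈ range T, ((That (Q s) (F s) t)⁻¹ * (ind (F s) * crit Q k s * ind (F s))).trace
      ≤ k * (F'.card * Real.log (1 + 1 / t)) := by
  set u : ℕ → ℝ := fun s => Real.log (That (Q s) F' t).det - Fintype.card κ * Real.log t with hu
  have hb : ∀ s, 0 ≤ u s ∧ u s ≤ F'.card * Real.log (1 + 1 / t) := fun s =>
    logdet_bounds (Q s) (hQ.symm s) (flag_nonneg hQ s) (flag_le hQ s) F' ht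
  refine le_trans ?_ (lag_sum k T u _ (fun s => (hb s).1) (fun s => (hb s).2))
  apply Finset.sum_le_sum
  intro s _
  refine le_trans (tr_mono_F hQ k s (hF s) ht) ?_
  have hpd : (That (Q (s + k)) F' t).PosDef := by
    rw [That, add_comm]
    exact (t1_smul_posDef ht).add_posSemidef
      (t1_psd_of _ (t1_indP_symm _ (hQ.symm _) F')
        (fun x => by rw [t1_indP_dot]; exact flag_nonneg hQ _ _))
  have hΔ : (ind F' * crit Q k s * ind F').PosSemidef :=
    t1_psd_of _ (t1_indP_symm _ (crit_symm hQ k s) F')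
        (fun x => by rw [t1_indP_dot]; exact crit_nonneg hQ k s _)
  have h1 := tr_le_logdet (That (Q (s + k)) F' t) (ind F' * crit Q k s * ind F') hpd hΔ
  have h2 : That (Q (s + k)) F' t + ind F' * crit Q k s * ind F' = That (Q s) F' t := by
    rw [That, That, crit, mul_sub, sub_mul]; abel
  rw [h2] at h1
  simp only [hu]
  linarith

end Pool.Agent.LibKG64
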