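import Pool.Agent.LibKG64.S1
import Pool.Agent.LibKG64.T1

set_option autoImplicit false

/-! Task S2: the energy form `Nm` and its eigenvectors. -/

open Finset Matrix

namespace Pool.Agent.LibKG64

variable {κ : Type*} [Fintype κ] [DecidableEq κ]

theorem Nm_dot (Q : ℕ → Matrix κ κ ℝ) (k : ℕ) (τ : ℕ → ℝ) (F : ℕ → Finset κ) (s v : ℕ)
    (D : κ → ℝ) : D ⬝ᵥ Nm Q k τ F s v *ᵥ D
      = (Ze Q k τ F s v *ᵥ D) ⬝ᵥ crit Q k s *ᵥ (Ze Q k τ F s v *ᵥ D) := by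
  unfold Nm
  rw [← Matrix.mulVec_mulVec, ← Matrix.mulVec_mulVec, Matrix.dotProduct_mulVec,
    Matrix.vecMul_transpose]

omit [DecidableEq κ] in
theorem s2_ext {x y : κ → ℝ} (h : ∀ z, x ⬝ᵥ z = y ⬝ᵥ z) : x = y := by
  have h1 : (x - y) ⬝ᵥ (x - y) = 0 := by
    rw [sub_dotProduct, h, sub_self]
  have h2 := dotProduct_self_eq_zero.1 h1
  exact sub_eq_zero.1 h2

omit [DecidableEq κ] in
theorem s2_tr (A : Matrix κ κ ℝ) (x y : κ → ℝ) : (Aᵀ *ᵥ x) ⬝ᵥ y = x ⬝ᵥ A *ᵥ y := by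
  rw [Matrix.dotProduct_mulVec, Matrix.mulVec_transpose]

/-- `Zᵀ K C x = Zᵀ K res F (C x)`, for all vectors `C x`. -/
theorem s2_supp {Q : ℕ → Matrix κ κ ℝ} (hQ : Flag Q) (k : ℕ) (τ : ℕ → ℝ)
    (hτ : ∀ v, 0 < τ v) (F : ℕ → Finset κ) (s v : ℕ) (x : κ → ℝ) :
    (Zm Q k τ F s v)ᵀ *ᵥ ((That (Q s) (F v) (τ v))⁻¹ *ᵥ x)
      = (Zm Q k τ F s v)ᵀ *ᵥ ((That (Q s) (F v) (τ v))⁻¹ *ᵥ res (F v) x) := by
  refine s2_ext fun z => ?_
  have hK := That_inv_symm (Q s) (hQ.symm s) (F v) (τ v)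
  rw [s2_tr, s2_tr, ← sym_dot _ hK, ← sym_dot _ hK, ← Ze_eq, res_dot, Ze_supp hQ k τ hτ]

theorem s2_Nm {Q : ℕ → Matrix κ κ ℝ} (hQ : Flag Q) (k : ℕ) (τ : ℕ → ℝ)
    (F : ℕ → Finset κ) (s v : ℕ) (x : κ → ℝ) :
    Nm Q k τ F s v *ᵥ x = (Zm Q k τ F s v)ᵀ *ᵥ ((That (Q s) (F v) (τ v))⁻¹ *ᵥ
      (crit Q k s *ᵥ (Ze Q k τ F s v *ᵥ x))) := by
  unfold Nm
  rw [← Matrix.mulVec_mulVec, ← Matrix.mulVec_mulVec]
  have h1 : (Ze Q k τ F s v)ᵀ = (Zm Q k τ F s v)ᵀ * (That (Q s) (F v) (τ v))⁻¹ := by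
    rw [Ze, Matrix.transpose_mul, That_inv_symm (Q s) (hQ.symm s)]
  rw [h1, ← Matrix.mulVec_mulVec]

theorem s2_sq_crit {Q : ℕ → Matrix κ κ ℝ} (hQ : Flag Q) (k s : ℕ) (x : κ → ℝ) :
    sq (crit Q k s *ᵥ x) ≤ sq x := by
  rw [← crit_dot hQ]
  exact crit_le hQ k s x

theorem s2_sq_inv {Q : ℕ → Matrix κ κ ℝ} (hQ : Flag Q) (s : ℕ) (F : Finset κ) {t : ℝ}
    (ht : 0 < t) (y : κ → ℝ) : sq ((That (Q s) F t)⁻¹ *ᵥ y) ≤ sq y / t ^ 2 := by
  have h1 := inv_sq_le (Q s) (hQ.symm s) (flag_nonneg hQ s) F ht y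
  have h2 := inv_le (Q s) (hQ.symm s) (flag_nonneg hQ s) F ht y
  have h3 := h1.trans h2
  rw [le_div_iff₀ ht] at h3
  rw [le_div_iff₀ (by positivity)]
  nlinarith

theorem s2_sq_add (x y : κ → ℝ) : sq (x + y) ≤ 2 * sq x + 2 * sq y := by
  have h1 : sq (x + y) + sq (x - y) = 2 * sq x + 2 * sq y := by
    unfold sq
    simp only [add_dotProduct, sub_dotProduct, dotProduct_add, dotProduct_sub]
    ring
  have h2 := sq_nonneg' (x - y)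
  linarith

omit [DecidableEq κ] in
theorem s2_sq_smul (c : ℝ) (x : κ → ℝ) : sq (c • x) = c ^ 2 * sq x := by
  unfold sq
  rw [smul_dotProduct, dotProduct_smul, smul_eq_mul, smul_eq_mul]
  ring

/-- by (LA1): `|Zᵀ u|² ≤ u · T u` -/
theorem s2_LA {Q : ℕ → Matrix κ κ ℝ} (hQ : Flag Q) (k : ℕ) (τ : ℕ → ℝ)
    (hτ : ∀ v, 0 < τ v) (hm : ∀ v, τ v ≤ τ (v + 1)) (F : ℕ → Finset κ)
    (hF : ∀ v, F (v + 1) ⊆ F v) (s v : ℕ) (u : κ → ℝ) :
    sq ((Zm Q k τ F s v)ᵀ *ᵥ u) ≤ u ⬝ᵥ That (Q s) (F v) (τ v) *ᵥ u := by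
  have h1 := LA1 hQ k τ hτ hm F hF s v u
  rw [That_dot]
  rw [crit_dot_eq] at h1
  have h2 := flag_nonneg hQ (s + k) (res (F v) u)
  have h3 := sq_res_le (F v) u
  have h4 := sq_nonneg' (res (F v) u)
  have h5 : (if v = 0 then 0 else τ (v - 1)) ≤ τ v := by
    split_ifs with hv
    · exact (hτ v).le
    · obtain ⟨w, rfl⟩ := Nat.exists_eq_succ_of_ne_zero hv
      exact hm w
  have h6 : (if v = 0 then 0 else τ (v - 1)) * sq (res (F v) u) ≤ τ v * sq u :=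
    (mul_le_mul_of_nonneg_right h5 h4).trans (mul_le_mul_of_nonneg_left h3 (hτ v).le)
  linarith

theorem s2_trace (M : Matrix κ κ ℝ) : (M * Mᵀ).trace = ∑ j, sq (M *ᵥ Pi.single j 1) := by
  unfold Matrix.trace sq
  simp only [Matrix.diag_apply, Matrix.mul_apply, Matrix.transpose_apply,
    Matrix.mulVec_single_one, dotProduct, Matrix.col_apply]
  exact Finset.sum_comm

/-- the trace: `tr(Zᵀ T⁻¹ C T⁻¹ Z) = tr(C T⁻¹ Z Zᵀ T⁻¹ C) ≤ tr(C T⁻¹ T T⁻¹ C) ≤ tr(T⁻¹ I_F C I_F)`: by (LA1)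
`ZZᵀ ≤ I_F C I_F + τ_{v-1} I_F ≤ T`, and `Z = I_F Z`. -/
theorem Nm_trace {Q : ℕ → Matrix κ κ ℝ} (hQ : Flag Q) (k : ℕ) (τ : ℕ → ℝ)
    (hτ : ∀ v, 0 < τ v) (hm : ∀ v, τ v ≤ τ (v + 1)) (F : ℕ → Finset κ)
    (hF : ∀ v, F (v + 1) ⊆ F v) (s v : ℕ) :
    (Nm Q k τ F s v).trace
      ≤ ((That (Q s) (F v) (τ v))⁻¹ * (ind (F v) * crit Q k s * ind (F v))).trace := by
  set K := (That (Q s) (F v) (τ v))⁻¹ with hKdef
  set C := crit Q k s with hCdef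
  set Z := Zm Q k τ F s v with hZdef
  have hK : Kᵀ = K := That_inv_symm (Q s) (hQ.symm s) (F v) (τ v)
  have hC : Cᵀ = C := crit_symm hQ k s
  have hCC : C * C = C := crit_mul hQ k s
  have h1 : Nm Q k τ F s v = (Zᵀ * K * C) * (Zᵀ * K * C)ᵀ := by
    have e1 : Nm Q k τ F s v = (K * Z)ᵀ * C * (K * Z) := rfl
    rw [e1]
    simp only [Matrix.transpose_mul, Matrix.transpose_transpose, hK, hC]
    calc Zᵀ * K * C * (K * Z) = Zᵀ * K * (C * C) * (K * Z) := by rw [hCC]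
      _ = _ := by simp only [Matrix.mul_assoc]
  rw [h1, s2_trace]
  have h2 : ∀ j : κ, sq ((Zᵀ * K * C) *ᵥ Pi.single j 1)
      ≤ (C *ᵥ Pi.single j 1) ⬝ᵥ (ind (F v) * K * ind (F v)) *ᵥ (C *ᵥ Pi.single j 1) := by
    intro j
    set y := C *ᵥ Pi.single j (1 : ℝ) with hy
    have e1 : (Zᵀ * K * C) *ᵥ Pi.single j 1 = Zᵀ *ᵥ (K *ᵥ res (F v) y) := by
      rw [← Matrix.mulVec_mulVec, ← Matrix.mulVec_mulVec]
      exact s2_supp hQ k τ hτ F s v y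
    rw [e1]
    refine (s2_LA hQ k τ hτ hm F hF s v _).trans (le_of_eq ?_)
    rw [hKdef, That_inv_mulVec (Q s) (flag_nonneg hQ s) (F v) (hτ v), ← hKdef]
    rw [← Matrix.mulVec_mulVec, ← Matrix.mulVec_mulVec, ind_mulVec, ind_mulVec, ← res_dot,
      dotProduct_comm]
  refine (Finset.sum_le_sum fun j _ => h2 j).trans (le_of_eq ?_)
  have h3 : ∀ j : κ, (C *ᵥ Pi.single j 1) ⬝ᵥ (ind (F v) * K * ind (F v)) *ᵥ
      (C *ᵥ Pi.single j 1) = (C * (ind (F v) * K * ind (F v)) * C) j j := by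
    intro j
    rw [← sym_dot C hC, Matrix.mulVec_mulVec, Matrix.mulVec_mulVec, single_one_dotProduct,
      Matrix.mulVec_single_one, Matrix.col_apply]
  rw [Finset.sum_congr rfl fun j _ => h3 j]
  change (C * (ind (F v) * K * ind (F v)) * C).trace = _
  rw [Matrix.trace_mul_comm, ← Matrix.mul_assoc, hCC]
  calc (C * (ind (F v) * K * ind (F v))).trace
      = ((C * ind (F v)) * (K * ind (F v))).trace := by simp only [Matrix.mul_assoc]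
    _ = ((K * ind (F v)) * (C * ind (F v))).trace := Matrix.trace_mul_comm _ _
    _ = (K * (ind (F v) * C * ind (F v))).trace := by simp only [Matrix.mul_assoc]

/-- at most `|F v|` eigenvalues are nonzero: the kernel contains the orthogonal of the range of `Zᵀ`, of dimension `≤ |F v|` -/
theorem Nm_rank {Q : ℕ → Matrix κ κ ℝ} (hQ : Flag Q) (k : ℕ) (τ : ℕ → ℝ)
    (hτ : ∀ v, 0 < τ v) (F : ℕ → Finset κ) (s v : ℕ) (w : κ → κ → ℝ) (n : κ → ℝ)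
    (hw1 : ∀ i, sq (w i) = 1) (hw2 : ∀ i j, i ≠ j → w i ⬝ᵥ w j = 0)
    (hn : ∀ i, Nm Q k τ F s v *ᵥ w i = n i • w i) :
    (univ.filter (fun i => n i ≠ 0)).card ≤ (F v).card := by
  classical
  -- the linear map `a ↦ Zᵀ a` on the vectors supported in `F v`
  let ext : (F v → ℝ) →ₗ[ℝ] (κ → ℝ) :=
    { toFun := fun a j => if h : j ∈ F v then a ⟨j, h⟩ else 0
      map_add' := fun a b => by
        funext j
        by_cases h : j ∈ F v <;> simp [h]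
      map_smul' := fun c a => by
        funext j
        by_cases h : j ∈ F v <;> simp [h] }
  let f : (F v → ℝ) →ₗ[ℝ] (κ → ℝ) := (Matrix.mulVecLin (Zm Q k τ F s v)ᵀ).comp ext
  have hext : ∀ α : κ → ℝ, ext (fun j => α j.1) = res (F v) α := by
    intro α
    funext j
    by_cases h : j ∈ F v <;> simp [ext, res, h]
  have hrep : ∀ i : {i // n i ≠ 0}, ∃ a : F v → ℝ, f a = w i.1 := by
    rintro ⟨i, hi⟩
    have h1 := hn i
    rw [s2_Nm hQ, s2_supp hQ k τ hτ] at h1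
    set y := (That (Q s) (F v) (τ v))⁻¹ *ᵥ
      res (F v) (crit Q k s *ᵥ (Ze Q k τ F s v *ᵥ w i)) with hy
    have hyF : res (F v) y = y :=
      That_inv_res (Q s) (flag_nonneg hQ s) (F v) (hτ v) _ (res_res _ _)
    refine ⟨fun j => ((n i)⁻¹ • y) j.1, ?_⟩
    change (Zm Q k τ F s v)ᵀ *ᵥ (ext fun j => ((n i)⁻¹ • y) j.1) = w i
    rw [hext, res_smul, hyF, Matrix.mulVec_smul, h1, smul_smul, inv_mul_cancel₀ hi, one_smul]
  choose a ha using hrep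
  have hli : LinearIndependent ℝ (fun i : {i // n i ≠ 0} => w i.1) := by
    rw [Fintype.linearIndependent_iff]
    intro g hg i
    have h1 : w i.1 ⬝ᵥ ∑ j, g j • w j.1 = 0 := by rw [hg, dotProduct_zero]
    rw [dotProduct_sum, Finset.sum_eq_single i] at h1
    · rw [dotProduct_smul] at h1
      have h2 : w i.1 ⬝ᵥ w i.1 = 1 := hw1 i.1
      rw [h2, smul_eq_mul, mul_one] at h1
      exact h1
    · intro j _ hj
      rw [dotProduct_smul, hw2 i.1 j.1 (fun h => hj (Subtype.ext h.symm)), smul_zero]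
    · intro h
      exact absurd (Finset.mem_univ i) h
  have hli2 : LinearIndependent ℝ a := by
    refine LinearIndependent.of_comp f ?_
    have : (⇑f ∘ a) = fun i : {i // n i ≠ 0} => w i.1 := funext ha
    rw [this]
    exact hli
  have h3 := hli2.fintype_card_le_finrank
  rw [Module.finrank_fintype_fun_eq_card, Fintype.card_coe] at h3
  rwa [Fintype.card_subtype] at h3

/-- an eigenvector with eigenvalue `n > 0` is `Zᵀ α` with `α = n⁻¹ T⁻¹ C T⁻¹ Z w`, supported in `F v` -/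
theorem Nm_eigen {Q : ℕ → Matrix κ κ ℝ} (hQ : Flag Q) (k : ℕ) (τ : ℕ → ℝ)
    (hτ : ∀ v, 0 < τ v) (hm : ∀ v, τ v ≤ τ (v + 1)) (F : ℕ → Finset κ)
    (hF : ∀ v, F (v + 1) ⊆ F v) (s v : ℕ) (w : κ → ℝ)
    (hw : sq w = 1) (n : ℝ) (hn0 : 0 < n) (hn : Nm Q k τ F s v *ᵥ w = n • w) :
    ∃ α : κ → ℝ, res (F v) α = α ∧ w = (Zm Q k τ F s v)ᵀ *ᵥ α ∧
      sq α ≤ 1 / (n ^ 2 * τ v ^ 3) := by
  rw [s2_Nm hQ, s2_supp hQ k τ hτ] at hn
  set x := crit Q k s *ᵥ (Ze Q k τ F s v *ᵥ w) with hx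
  set y := (That (Q s) (F v) (τ v))⁻¹ *ᵥ res (F v) x with hy
  have hyF : res (F v) y = y :=
    That_inv_res (Q s) (flag_nonneg hQ s) (F v) (hτ v) _ (res_res _ _)
  refine ⟨n⁻¹ • y, ?_, ?_, ?_⟩
  · rw [res_smul, hyF]
  · rw [Matrix.mulVec_smul, hn, smul_smul, inv_mul_cancel₀ hn0.ne', one_smul]
  · have hτv := hτ v
    have h1 : sq y ≤ sq (res (F v) x) / τ v ^ 2 := s2_sq_inv hQ s (F v) hτv _
    have h2 : sq (res (F v) x) ≤ sq x := sq_res_le _ _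
    have h3 : sq x ≤ sq (Ze Q k τ F s v *ᵥ w) := s2_sq_crit hQ k s _
    have h4 : τ v * sq (Ze Q k τ F s v *ᵥ w) ≤ 1 := by
      rw [← hw]
      exact sq_Ze_le hQ k τ hτ hm F hF s v w
    have h5 : sq (Ze Q k τ F s v *ᵥ w) ≤ 1 / τ v := by
      rw [le_div_iff₀ hτv]
      linarith
    have h6 : sq y ≤ (1 / τ v) / τ v ^ 2 := by
      refine h1.trans ?_
      gcongr
      exact (h2.trans h3).trans h5
    rw [s2_sq_smul]
    calc n⁻¹ ^ 2 * sq y ≤ n⁻¹ ^ 2 * ((1 / τ v) / τ v ^ 2) := by gcongr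
      _ = 1 / (n ^ 2 * τ v ^ 3) := by
        field_simp

/-- `Z_vᵀ α = C β` with `β` supported in `F 0` and `|β|² ≤ (∏_{v' < v} 4/τ_{v'}²) |α|²`: induction on `v` with
`Zm_transpose`. -/
theorem ZmT_repr {Q : ℕ → Matrix κ κ ℝ} (hQ : Flag Q) (k : ℕ) (τ : ℕ → ℝ)
    (hτ : ∀ v, 0 < τ v) (hτ1 : ∀ v, τ v ≤ 1) (F : ℕ → Finset κ)
    (hF : ∀ v, F (v + 1) ⊆ F v) (s v : ℕ) (α : κ → ℝ) :
    ∃ β : κ → ℝ, res (F 0) β = β ∧ (Zm Q k τ F s v)ᵀ *ᵥ α = crit Q k s *ᵥ β ∧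
      sq β ≤ (∏ v' ∈ range v, (4 / τ v' ^ 2)) * sq α := by
  induction v generalizing α with
  | zero =>
    refine ⟨res (F 0) α, res_res _ _, Zm_transpose_zero hQ k τ F s α, ?_⟩
    rw [Finset.prod_range_zero, one_mul]
    exact sq_res_le _ _
  | succ v ih =>
    rw [Zm_transpose hQ k τ hτ F hF s v α]
    set x := res (F (v + 1)) α with hx
    have hxF : res (F v) x = x := res_res_of_subset (hF v) α
    rw [hxF]
    set y := res (F v) (crit Q k s *ᵥ x) + τ v • x with hy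
    obtain ⟨β, hβ1, hβ2, hβ3⟩ := ih ((That (Q s) (F v) (τ v))⁻¹ *ᵥ y)
    refine ⟨β, hβ1, hβ2, hβ3.trans ?_⟩
    have hτv := hτ v
    have h1 : sq y ≤ 4 * sq α := by
      have e1 := s2_sq_add (res (F v) (crit Q k s *ᵥ x)) (τ v • x)
      have e2 : sq (res (F v) (crit Q k s *ᵥ x)) ≤ sq x :=
        (sq_res_le _ _).trans (s2_sq_crit hQ k s x)
      have e3 : sq (τ v • x) ≤ sq x := by
        rw [s2_sq_smul]
        have e4 := sq_nonneg' x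
        have e5 : τ v ^ 2 ≤ 1 := pow_le_one₀ hτv.le (hτ1 v)
        nlinarith
      have e6 : sq x ≤ sq α := sq_res_le _ _
      linarith
    have h2 := s2_sq_inv hQ s (F v) hτv y
    have h3 : sq ((That (Q s) (F v) (τ v))⁻¹ *ᵥ y) ≤ 4 / τ v ^ 2 * sq α := by
      refine h2.trans ?_
      rw [div_mul_eq_mul_div]
      gcongr
    rw [Finset.prod_range_succ, mul_assoc]
    have h4 : 0 ≤ ∏ v' ∈ range v, (4 / τ v' ^ 2) :=
      Finset.prod_nonneg fun i _ => by positivity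
    exact mul_le_mul_of_nonneg_left h3 h4

end Pool.Agent.LibKG64
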