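import Pool.Agent.LibKG64.L1
import Pool.Agent.LibKG64.S2
import Pool.Agent.LibKG64.En5

set_option autoImplicit false

/-! Task L2: energies and traces of a closed set `R` against those of the clusters inside `R`. -/

open Finset Matrix

namespace Pool.Agent.LibKG64

variable {κ : Type} [Fintype κ] [DecidableEq κ]

/-- trace of stage `v` for the rows `F ∩ R` -/
noncomputable def trc (Q : ℕ → Matrix κ κ ℝ) (k s : ℕ) (F : Finset κ) (t : ℝ) : ℝ :=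
  ((That (Q s) F t)⁻¹ * (ind F * crit Q k s * ind F)).trace

/-- `∑_Q tr_Q ≤ tr_R + 2γ|R|²/t`: `T_Q⁻¹ ≤ T_R⁻¹` on the vectors supported in `Q` (`inv_mono_F`); off-diagonal entries of
`T_R⁻¹` are at most `1/t`, those of `crit` at most `2γ`. -/
theorem trc_sum_le {Q : ℕ → Matrix κ κ ℝ} (hQ : Flag Q) (k s : ℕ) {t γ : ℝ} (ht : 0 < t)
    (hγ : 0 ≤ γ) (F R : Finset κ) (Cl : Finset (Finset κ))
    (hd : ∀ P ∈ Cl, ∀ P' ∈ Cl, P ≠ P' → Disjoint P P') (hs : ∀ P ∈ Cl, P ⊆ R)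
    (hQ' : ∀ P ∈ Cl, ∀ P' ∈ Cl, P ≠ P' → ∀ j ∈ P, ∀ j' ∈ P', |crit Q k s j j'| ≤ 2 * γ)
    (hcov : F ∩ R ⊆ Cl.biUnion id) :
    ∑ P ∈ Cl, trc Q k s (F ∩ P) t ≤ trc Q k s (F ∩ R) t + 2 * γ * (R.card : ℝ) ^ 2 / t := by
  have h1 := en_trace hQ k s Cl hd ht (by positivity : (0 : ℝ) ≤ 2 * γ) hQ' (F ∩ R) hcov
  have h2 : ∑ P ∈ Cl, trc Q k s (F ∩ P) t = ∑ P ∈ Cl, ((That (Q s) (F ∩ R ∩ P) t)⁻¹
      * (ind (F ∩ R ∩ P) * crit Q k s * ind (F ∩ R ∩ P))).trace := by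
    apply Finset.sum_congr rfl
    intro P hP
    have h3 : F ∩ R ∩ P = F ∩ P := by
      rw [Finset.inter_assoc, Finset.inter_eq_right.mpr (hs P hP)]
    rw [h3]
    rfl
  rw [h2]
  refine h1.trans ?_
  have h4 : ((F ∩ R).card : ℝ) ^ 2 ≤ (R.card : ℝ) ^ 2 := by
    apply pow_le_pow_left₀ (Nat.cast_nonneg _)
    exact_mod_cast Finset.card_le_card Finset.inter_subset_right
  have h5 : 2 * γ * ((F ∩ R).card : ℝ) ^ 2 / t ≤ 2 * γ * (R.card : ℝ) ^ 2 / t := by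
    apply div_le_div_of_nonneg_right _ ht.le
    exact mul_le_mul_of_nonneg_left h4 (by positivity)
  have h6 : trc Q k s (F ∩ R) t = ((That (Q s) (F ∩ R) t)⁻¹
      * (ind (F ∩ R) * crit Q k s * ind (F ∩ R))).trace := rfl
  rw [h6]
  linarith

/-- energies: if `ζ_R` is within `e` of `∑_P ζ_P` -/
theorem en_sum_le {Q : ℕ → Matrix κ κ ℝ} (hQ : Flag Q) (k s : ℕ) {γ : ℝ} (hγ : 0 ≤ γ)
    (R : Finset κ) (Cl : Finset (Finset κ))
    (hd : ∀ P ∈ Cl, ∀ P' ∈ Cl, P ≠ P' → Disjoint P P') (hs : ∀ P ∈ Cl, P ⊆ R)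
    (hQ' : ∀ P ∈ Cl, ∀ P' ∈ Cl, P ≠ P' → ∀ j ∈ P, ∀ j' ∈ P', |crit Q k s j j'| ≤ 2 * γ)
    (z : κ → ℝ) (zP : Finset κ → κ → ℝ) (hsupp : ∀ P ∈ Cl, res P (zP P) = zP P)
    {M4 e : ℝ} (hM4 : 0 ≤ M4) (he : 0 ≤ e) (hz4 : ∀ P ∈ Cl, ∀ j, |zP P j| ≤ M4)
    (hclose : √(sq (z - ∑ P ∈ Cl, zP P)) ≤ e) :
    z ⬝ᵥ crit Q k s *ᵥ z ≤ 2 * ∑ P ∈ Cl, zP P ⬝ᵥ crit Q k s *ᵥ zP P
      + 4 * γ * (R.card : ℝ) ^ 2 * M4 ^ 2 + 2 * e ^ 2 := by
  classical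
  set x := ∑ P ∈ Cl, zP P with hx
  set d := z - x with hdd
  have hz : z = x + d := by rw [hdd]; abel
  have h1 : z ⬝ᵥ crit Q k s *ᵥ z ≤ 2 * (x ⬝ᵥ crit Q k s *ᵥ x) + 2 * (d ⬝ᵥ crit Q k s *ᵥ d) := by
    rw [hz]
    exact crit_add hQ k s x d
  have h2 := crit_le hQ k s d
  have h3 : sq d ≤ e ^ 2 := by
    rw [← Real.sq_sqrt (sq_nonneg' d)]
    exact pow_le_pow_left₀ (Real.sqrt_nonneg _) hclose 2
  have h4 := form_sum_le (crit Q k s) Cl hQ' (by positivity : (0 : ℝ) ≤ 2 * γ) zP hsupp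
  have hcards : ∑ P ∈ Cl, P.card ≤ R.card := by
    have h5 : (Cl.biUnion id).card = ∑ P ∈ Cl, P.card := Finset.card_biUnion (by
      intro A hA B hB hne
      exact hd A hA B hB hne)
    rw [← h5]
    apply Finset.card_le_card
    intro j hj
    obtain ⟨P, hP, hjP⟩ := Finset.mem_biUnion.mp hj
    exact hs P hP hjP
  have h6 : ∑ P ∈ Cl, ∑ j, |zP P j| ≤ R.card * M4 := by
    have h7 : ∀ P ∈ Cl, ∑ j, |zP P j| ≤ P.card * M4 := by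
      intro P hP
      have h8 : ∀ j, |zP P j| ≤ if j ∈ P then M4 else 0 := by
        intro j
        by_cases hj : j ∈ P
        · rw [if_pos hj]
          exact hz4 P hP j
        · rw [if_neg hj]
          have h9 : zP P j = 0 := by
            have h10 := congrFun (hsupp P hP) j
            unfold res at h10
            rw [if_neg hj] at h10
            exact h10.symm
          rw [h9, abs_zero]
      refine (Finset.sum_le_sum fun j _ => h8 j).trans (le_of_eq ?_)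
      rw [← Finset.sum_filter, Finset.sum_const, nsmul_eq_mul]
      congr 2
      simp
    refine (Finset.sum_le_sum h7).trans ?_
    rw [← Finset.sum_mul]
    apply mul_le_mul_of_nonneg_right _ hM4
    exact_mod_cast hcards
  have h7 : (∑ P ∈ Cl, ∑ j, |zP P j|) ^ 2 ≤ (R.card * M4) ^ 2 :=
    pow_le_pow_left₀ (Finset.sum_nonneg fun P _ => Finset.sum_nonneg fun j _ => abs_nonneg _) h6 2
  have h8 := mul_le_mul_of_nonneg_left h7 (by positivity : (0 : ℝ) ≤ 2 * γ)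
  have h9 : 2 * (2 * γ * (R.card * M4) ^ 2) = 4 * γ * (R.card : ℝ) ^ 2 * M4 ^ 2 := by ring
  linarith

/-- error term of the energy bound -/
noncomputable def eEc (l L : ℕ) (M3 eF γ t0 Λ e3 : ℝ) : ℝ :=
  4 * Λ ^ 2 * γ * l ^ 2 / t0 + 2 * l * e3 + 4 * γ * l ^ 2 * (2 * M3 / √t0) ^ 2
    + 2 * ((l + 1) * e2c l L M3 eF γ t0) ^ 2

open Classical in
/-- the energy of the control of `F · ∩ R`, `R` a component of a bigger set `F'` -/
theorem en_comp2 {Q : ℕ → Matrix κ κ ℝ} (hQ : Flag Q) (k s N L l : ℕ) (τ : ℕ → ℝ)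
    (hτ : ∀ v, 0 < τ v) (hτ1 : ∀ v, τ v ≤ 1) (hm : ∀ v, τ v ≤ τ (v + 1)) {γ eF M3 Λ e3 : ℝ}
    (hγ : 0 ≤ γ) (heF : 0 ≤ eF) (hM3 : 0 ≤ M3) (he3 : 0 ≤ e3) (hl : 1 ≤ l) (hN : s + k < N)
    (F : ℕ → Finset κ) (hF : ∀ v, F (v + 1) ⊆ F v) (D : κ → ℝ)
    (hz : ∀ v < L, ∀ j, √(τ v) * |(Ze Q k τ F s v *ᵥ D) j| ≤ M3)
    (hx : ∀ v < L, ∀ j, ∀ i, (i = s ∨ i = s + k) →
      √(τ v) * |∑ j' ∈ (F 0).filter (fun j' => ¬ adj Q N γ j j'),
        Q i j j' * (Ze Q k τ F s v *ᵥ D) j'| ≤ M3 * eF)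
    (hc : ∀ P ∈ comps (adj Q N γ) (F 0), P.card ≤ l)
    (hen : ∀ P ∈ comps (adj Q N γ) (F 0), ∀ v < L,
      D ⬝ᵥ Nm Q k τ (fun v => F v ∩ P) s v *ᵥ D ≤ Λ ^ 2 * trc Q k s (F v ∩ P) (τ v) + e3)
    (F' R : Finset κ) (hFF : F 0 ⊆ F') (hRF : R ∈ comps (adj Q N γ) F') (hR : R.card ≤ l)
    (he2 : e2c l L M3 eF γ (τ 0) ≤ M3) (v : ℕ) (hv : v < L) :
    (Ze Q k τ (fun v => F v ∩ R) s v *ᵥ D) ⬝ᵥ crit Q k s *ᵥ
        (Ze Q k τ (fun v => F v ∩ R) s v *ᵥ D)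
      ≤ 2 * Λ ^ 2 * trc Q k s (F v ∩ R) (τ v) + eEc l L M3 eF γ (τ 0) Λ e3 := by
  have hA := adj_symm hQ N γ
  have hF0 : ∀ v, F v ⊆ F 0 := by
    intro v
    induction v with
    | zero => exact Finset.Subset.refl _
    | succ v ih => exact (hF v).trans ih
  have hτ0 : ∀ v, τ 0 ≤ τ v := by
    intro v
    induction v with
    | zero => exact le_rfl
    | succ v ih => exact ih.trans (hm v)
  have hU := biUnion_comps hA hFF hRF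
  set Cl := (comps (adj Q N γ) (F 0)).filter (fun P => P ⊆ R) with hCl
  have hmem : ∀ P ∈ Cl, P ∈ comps (adj Q N γ) (F 0) := fun P hP => (Finset.mem_filter.mp hP).1
  have hsub : ∀ P ∈ Cl, P ⊆ R := fun P hP => (Finset.mem_filter.mp hP).2
  have hd : ∀ P ∈ Cl, ∀ P' ∈ Cl, P ≠ P' → Disjoint P P' := fun P hP P' hP' hne =>
    comps_disjoint hA (hmem P hP) (hmem P' hP') hne
  have hcr : ∀ P ∈ Cl, ∀ P' ∈ Cl, P ≠ P' → ∀ j ∈ P, ∀ j' ∈ P', |crit Q k s j j'| ≤ 2 * γ :=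
    fun P hP P' hP' hne j hj j' hj' =>
      (abs_crit_lt (comps_not_adj hA (hmem P hP) (hmem P' hP') hne hj hj') hN).le
  have hclcard : (Cl.card : ℝ) ≤ l := by
    exact_mod_cast (card_comps_le hA (F 0) R).trans hR
  have hlR := loc_ctrl hQ k s N L l τ hτ hτ1 hm hγ heF hM3 hl hN F hF D hz hx R
    (closed_comp hFF hRF) hR he2
  have hlP : ∀ P ∈ Cl, _ := fun P hP => loc_ctrl hQ k s N L l τ hτ hτ1 hm hγ heF hM3 hl hN F hF D
    hz hx P (closed_comp (Finset.Subset.refl _) (hmem P hP)) (hc P (hmem P hP)) he2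
  set ζ := Ze Q k τ F s v *ᵥ D with hζ
  set ζR := Ze Q k τ (fun v => F v ∩ R) s v *ᵥ D with hζR
  set ε := e2c l L M3 eF γ (τ 0) with hε
  have hε0 : 0 ≤ ε := (Real.sqrt_nonneg _).trans (hlR.1 v hv)
  -- the difference
  have hres : res R ζ = ∑ P ∈ Cl, res P ζ := by
    rw [← res_biUnion Cl hd, ← hU]
    have h4 : res (F 0) ζ = ζ := by
      have h5 := Ze_supp hQ k τ hτ F s v D
      rw [hζ, ← h5, res_res_of_subset (hF0 v)]
    conv_lhs => rw [← h4]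
    rw [h1_res_inter]
  have hdec : ζR - ∑ P ∈ Cl, Ze Q k τ (fun v => F v ∩ P) s v *ᵥ D =
      (∑ P ∈ Cl, (res P ζ - Ze Q k τ (fun v => F v ∩ P) s v *ᵥ D)) - (res R ζ - ζR) := by
    rw [Finset.sum_sub_distrib, ← hres]
    abel
  have hclose : √(sq (ζR - ∑ P ∈ Cl, Ze Q k τ (fun v => F v ∩ P) s v *ᵥ D)) ≤ (l + 1) * ε := by
    rw [hdec]
    refine (h1_nrm_sub _ _).trans ?_
    have h1 : √(sq (∑ P ∈ Cl, (res P ζ - Ze Q k τ (fun v => F v ∩ P) s v *ᵥ D))) ≤ l * ε := by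
      refine (nrm_sum_le _ _).trans ?_
      refine (Finset.sum_le_sum fun P hP => (hlP P hP).1 v hv).trans ?_
      rw [Finset.sum_const, nsmul_eq_mul]
      exact mul_le_mul_of_nonneg_right hclcard hε0
    have h2 := hlR.1 v hv
    linarith
  have hsupp : ∀ P ∈ Cl, res P (Ze Q k τ (fun v => F v ∩ P) s v *ᵥ D) =
      Ze Q k τ (fun v => F v ∩ P) s v *ᵥ D := by
    intro P _
    have h3 := Ze_supp hQ k τ hτ (fun u => F u ∩ P) s v D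
    rw [← h3, res_res_of_subset Finset.inter_subset_right]
  have hM4 : (0 : ℝ) ≤ 2 * M3 / √(τ 0) := by positivity
  have h5 := en_sum_le hQ k s hγ R Cl hd hsub hcr ζR
    (fun P => Ze Q k τ (fun v => F v ∩ P) s v *ᵥ D) hsupp hM4
    (by positivity : (0 : ℝ) ≤ (l + 1) * ε)
    (fun P hP j => (hlP P hP).2.2.2 v hv j) hclose
  have h6 : ∑ P ∈ Cl, (Ze Q k τ (fun v => F v ∩ P) s v *ᵥ D) ⬝ᵥ crit Q k s *ᵥ
      (Ze Q k τ (fun v => F v ∩ P) s v *ᵥ D) ≤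
      Λ ^ 2 * ∑ P ∈ Cl, trc Q k s (F v ∩ P) (τ v) + l * e3 := by
    rw [Finset.mul_sum]
    calc ∑ P ∈ Cl, (Ze Q k τ (fun v => F v ∩ P) s v *ᵥ D) ⬝ᵥ crit Q k s *ᵥ
          (Ze Q k τ (fun v => F v ∩ P) s v *ᵥ D)
        ≤ ∑ P ∈ Cl, (Λ ^ 2 * trc Q k s (F v ∩ P) (τ v) + e3) := by
          apply Finset.sum_le_sum
          intro P hP
          have h7 := hen P (hmem P hP) v hv
          rw [Nm_dot] at h7
          exact h7
      _ = ∑ P ∈ Cl, Λ ^ 2 * trc Q k s (F v ∩ P) (τ v) + Cl.card * e3 := by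
          rw [Finset.sum_add_distrib, Finset.sum_const, nsmul_eq_mul]
      _ ≤ _ := by
          have := mul_le_mul_of_nonneg_right hclcard he3
          linarith
  have h7 : ∑ P ∈ Cl, trc Q k s (F v ∩ P) (τ v) ≤
      trc Q k s (F v ∩ R) (τ v) + 2 * γ * (l : ℝ) ^ 2 / τ 0 := by
    have h8 := trc_sum_le hQ k s (hτ v) hγ (F v) R Cl hd hsub hcr (by
      rw [← hU]
      intro j hj
      rw [Finset.mem_inter] at hj ⊢
      exact ⟨hj.2, hF0 v hj.1⟩)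
    refine h8.trans ?_
    have h9 : (R.card : ℝ) ^ 2 ≤ (l : ℝ) ^ 2 := by
      apply pow_le_pow_left₀ (Nat.cast_nonneg _)
      exact_mod_cast hR
    have h10 : 2 * γ * (R.card : ℝ) ^ 2 / τ v ≤ 2 * γ * (l : ℝ) ^ 2 / τ 0 := by
      apply div_le_div₀ (by positivity) _ (hτ 0) (hτ0 v)
      exact mul_le_mul_of_nonneg_left h9 (by positivity)
    linarith
  have h8 := mul_le_mul_of_nonneg_left h7 (sq_nonneg Λ)
  have h9 : 4 * γ * (R.card : ℝ) ^ 2 * (2 * M3 / √(τ 0)) ^ 2 ≤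
      4 * γ * (l : ℝ) ^ 2 * (2 * M3 / √(τ 0)) ^ 2 := by
    apply mul_le_mul_of_nonneg_right _ (sq_nonneg _)
    apply mul_le_mul_of_nonneg_left _ (by positivity)
    apply pow_le_pow_left₀ (Nat.cast_nonneg _)
    exact_mod_cast hR
  have h10 : eEc l L M3 eF γ (τ 0) Λ e3 = 4 * Λ ^ 2 * γ * l ^ 2 / τ 0 + 2 * l * e3
      + 4 * γ * l ^ 2 * (2 * M3 / √(τ 0)) ^ 2 + 2 * ((l + 1) * ε) ^ 2 := rfl
  rw [h10]
  have h11 : 2 * (Λ ^ 2 * (trc Q k s (F v ∩ R) (τ v) + 2 * γ * (l : ℝ) ^ 2 / τ 0)) =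
      2 * Λ ^ 2 * trc Q k s (F v ∩ R) (τ v) + 4 * Λ ^ 2 * γ * l ^ 2 / τ 0 := by ring
  linarith

end Pool.Agent.LibKG64
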