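import Pool.Agent.LibKG64.L2
import Pool.Agent.LibKG64.E4
import Pool.Agent.LibKG64.T1

set_option autoImplicit false

/-! Task L3: the counting lemma. -/

open Finset Matrix

namespace Pool.Agent.LibKG64

variable {κ : Type} [Fintype κ] [DecidableEq κ]

open Classical in
/-- Counting: in a component `R` of `F t 0`, the number of rows of level `> u+1` is at most a quarter of the number of rows
of level `> u`. Proof: `LA7` for `F' s v = F (min s t) v ∩ R`, `D' s = D s` for `s < t`, `0` else; `loc_ctrl`, `en_comp2`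
(with `F' = F t 0`), `LA6`. -/
theorem counting {Q : ℕ → Matrix κ κ ℝ} (hQ : Flag Q) (k N L l Kd t : ℕ) (τ : ℕ → ℝ) {ε : ℝ}
    (hε : 0 ≤ ε) (hτ : RPar τ L ε) (hτL : ∀ v < L, τ v ≤ ε) {γ eF M3 Λ e3 B : ℝ}
    (hγ : 0 ≤ γ) (heF : 0 ≤ eF) (hM3 : 0 ≤ M3) (he3 : 0 ≤ e3) (hB : 0 < B) (hl : 1 ≤ l)
    (hN : t + k ≤ N) (htK : t ≤ 2 ^ Kd)
    (F : ℕ → ℕ → Finset κ) (hF : ∀ s v, F s v ⊆ F (s + 1) v) (hF' : ∀ s v, F s (v + 1) ⊆ F s v)
    (D Y : ℕ → κ → ℝ)
    (hY : ∀ s < t, Y (s + 1) = Y s + (crit Q k s *ᵥ D s - Km Q k τ (F s) L s *ᵥ D s))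
    (hz : ∀ s < t, ∀ v < L, ∀ j, √(τ v) * |(Ze Q k τ (F s) s v *ᵥ D s) j| ≤ M3)
    (hx : ∀ s < t, ∀ v < L, ∀ j, ∀ i, (i = s ∨ i = s + k) →
      √(τ v) * |∑ j' ∈ (F s 0).filter (fun j' => ¬ adj Q N γ j j'),
        Q i j j' * (Ze Q k τ (F s) s v *ᵥ D s) j'| ≤ M3 * eF)
    (hc : ∀ s < t, ∀ P ∈ comps (adj Q N γ) (F s 0), P.card ≤ l)
    (hen : ∀ s < t, ∀ P ∈ comps (adj Q N γ) (F s 0), ∀ v < L,
      D s ⬝ᵥ Nm Q k τ (fun v => F s v ∩ P) s v *ᵥ D s
        ≤ Λ ^ 2 * trc Q k s (F s v ∩ P) (τ v) + e3)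
    (he2 : e2c l L M3 eF γ (τ 0) ≤ M3)
    (R : Finset κ) (hRF : R ∈ comps (adj Q N γ) (F t 0)) (hR : R.card ≤ l) (u : ℕ) (hu : u < L)
    (hP : ∀ j ∈ F t (u + 1) ∩ R, ∃ a b, a < b ∧ b ≤ t ∧ j ∈ F a u ∧ B ≤ |Y b j - Y a j|)
    (hBB : 4 * ((L + 1) * (44 * (Kd + 1) ^ 2 * k *
          (L * (2 * Λ ^ 2 * (k * Real.log (1 + 1 / τ 0)) + t * eEc l L M3 eF γ (τ 0) Λ e3))
        + 8 * (Kd + 1) * 4 ^ Kd * L * ε * (4 * l * M3 ^ 2)
        + 4 ^ Kd * (2 * L * e2c l L M3 eF γ (τ 0)) ^ 2 * l)) ≤ B ^ 2) :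
    4 * (F t (u + 1) ∩ R).card ≤ (F t u ∩ R).card := by
  classical
  have hFm : ∀ a b, a ≤ b → ∀ v, F a v ⊆ F b v := by
    intro a b hab v
    induction b, hab using Nat.le_induction with
    | base => exact Subset.refl _
    | succ b _ ih => exact ih.trans (hF b v)
  have hFa : ∀ s v w, v ≤ w → F s w ⊆ F s v := by
    intro s v w hvw
    induction w, hvw using Nat.le_induction with
    | base => exact Subset.refl _
    | succ w _ ih => exact (hF' s w).trans ih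
  set δ : ℝ := 2 * L * e2c l L M3 eF γ (τ 0) with hδdef
  set R0 : ℝ := √(4 * l * M3 ^ 2) with hR0def
  have hR0sq : R0 ^ 2 = 4 * l * M3 ^ 2 := Real.sq_sqrt (by positivity)
  have hτ0pos := hτ.pos 0
  have he2c0 : 0 ≤ e2c l L M3 eF γ (τ 0) := by
    unfold e2c e1c
    positivity
  have hδ : 0 ≤ δ := by positivity
  have heE0 : 0 ≤ eEc l L M3 eF γ (τ 0) Λ e3 := by
    unfold eEc
    positivity
  set F'' : ℕ → ℕ → Finset κ := fun s v => F (min s t) v ∩ R with hF''def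
  set D' : ℕ → κ → ℝ := fun s => if s < t then D s else 0 with hD'def
  set P : Finset κ := F t (u + 1) ∩ R with hPdef
  have hF''s : ∀ s < t, F'' s = fun v => F s v ∩ R := by
    intro s hs
    simp only [hF''def]
    rw [min_eq_left hs.le]
  have hD's : ∀ s < t, D' s = D s := fun s hs => by simp only [hD'def, if_pos hs]
  have hD'0 : ∀ s, ¬ s < t → D' s = 0 := fun s hs => by simp only [hD'def, if_neg hs]
  have hmono : ∀ s v, F'' s v ⊆ F'' (s + 1) v := fun s v =>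
    Finset.inter_subset_inter_right (hFm _ _ (min_le_min_right t (Nat.le_succ s)) v)
  have hsucc : ∀ s v, F'' s (v + 1) ⊆ F'' s v := fun s v =>
    Finset.inter_subset_inter_right (hF' _ v)
  choose! a b hab hbs hlev hmove using hP
  have hloc : ∀ s < t, _ := fun s hs => loc_ctrl hQ k s N L l τ hτ.pos hτ.le1 hτ.mono hγ heF hM3
    hl (by omega) (F s) (hF' s) (D s) (hz s hs) (hx s hs) R
    (closed_comp (hFm s t hs.le 0) hRF) hR he2
  have hsub : ∀ s s', s ≤ s' → ∀ j, Y s' j - Y s j = ∑ r ∈ Ico s s', (Y (r + 1) j - Y r j) := by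
    intro s s' hss j
    induction s', hss using Nat.le_induction with
    | base => simp
    | succ s' h ih =>
      rw [Finset.sum_Ico_succ_top h, ← ih]
      ring
  have h7 := LA7 hQ k τ hτ.pos F'' hmono hsucc D' R0 (Real.sqrt_nonneg _) L u Kd hu
    (by
      intro s _ v hv
      by_cases h : s < t
      · rw [hF''s s h, hD's s h, hR0sq]
        exact (hloc s h).2.2.1 v hv
      · rw [hD'0 s h, Matrix.mulVec_zero]
        have : sq (0 : κ → ℝ) = 0 := by simp [sq]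
        rw [this, mul_zero]
        positivity)
    P a b (fun j hj => (hbs j hj).trans htK)
    (by
      intro j hj
      have h1 : a j < t := lt_of_lt_of_le (hab j hj) (hbs j hj)
      rw [hF''s _ h1, Finset.mem_inter]
      exact ⟨hlev j hj, (Finset.mem_inter.1 hj).2⟩)
    (fun s j => Y (s + 1) j - Y s j) δ B hδ hB.le
    (by
      intro j hj s hs
      have h1 : s < t := lt_of_lt_of_le (Finset.mem_Ico.1 hs).2 (hbs j hj)
      rw [hF''s s h1, hD's s h1, hY s h1]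
      have h2 := (hloc s h1).2.1 j (Finset.mem_inter.1 hj).2
      rw [abs_sub_comm] at h2
      refine le_trans (le_of_eq ?_) h2
      congr 1
      simp only [Pi.add_apply, Pi.sub_apply]
      ring)
    (by
      intro j hj
      rw [← hsub (a j) (b j) (hab j hj).le j]
      exact hmove j hj)
    ε hε hτ.ratio hτL
  rw [hR0sq] at h7
  set f : ℕ := (F t u ∩ R).card with hf
  have hPf : P.card ≤ f := Finset.card_le_card
    (Finset.inter_subset_inter_right (hF' t u))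
  rcases Nat.eq_zero_or_pos f with hf0 | hfpos
  · omega
  have hf1 : (1 : ℝ) ≤ f := by exact_mod_cast hfpos
  have hτ0 : ∀ v, τ 0 ≤ τ v := fun v => monotone_nat_of_le_succ hτ.mono (Nat.zero_le v)
  have hlog0 : 0 ≤ Real.log (1 + 1 / τ 0) := by
    apply Real.log_nonneg
    have h2 : 0 < 1 / τ 0 := by positivity
    linarith
  set E : ℝ := 2 * Λ ^ 2 * (k * Real.log (1 + 1 / τ 0)) + t * eEc l L M3 eF γ (τ 0) Λ e3
    with hEdef
  have hE0 : 0 ≤ E := by positivity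
  have hE : ∀ v ∈ Ico u L, ∑ s ∈ range (2 ^ Kd), en Q k τ F'' D' s v ≤ f * E := by
    intro v hv
    obtain ⟨hv1, hv2⟩ := Finset.mem_Ico.1 hv
    have hτv := hτ.pos v
    have h1 : ∑ s ∈ range (2 ^ Kd), en Q k τ F'' D' s v =
        ∑ s ∈ range t, en Q k τ F'' D' s v := by
      symm
      apply Finset.sum_subset (Finset.range_subset_range.2 htK)
      intro s _ hs
      unfold en
      rw [hD'0 s (fun h => hs (Finset.mem_range.2 h)), Matrix.mulVec_zero, Matrix.mulVec_zero]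
      simp
    have h2 : ∑ s ∈ range t, en Q k τ F'' D' s v ≤ ∑ s ∈ range t,
        (2 * Λ ^ 2 * ((That (Q s) (F'' s v) (τ v))⁻¹ *
          (ind (F'' s v) * crit Q k s * ind (F'' s v))).trace
          + eEc l L M3 eF γ (τ 0) Λ e3) := by
      apply Finset.sum_le_sum
      intro s hs
      have hs' := Finset.mem_range.1 hs
      unfold en
      rw [hF''s s hs', hD's s hs']
      exact en_comp2 hQ k s N L l τ hτ.pos hτ.le1 hτ.mono hγ heF hM3 he3 hl (by omega) (F s)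
        (hF' s) (D s) (hz s hs') (hx s hs') (hc s hs') (hen s hs') (F t 0) R
        (hFm s t hs'.le 0) hRF hR he2 v hv2
    have h3 := LA6 hQ k t (fun s => F'' s v) (F t v ∩ R)
      (fun s => Finset.inter_subset_inter_right (hFm _ _ (min_le_right s t) v)) hτv
    have h4 : ((F t v ∩ R).card : ℝ) ≤ f := by
      have : (F t v ∩ R).card ≤ f := Finset.card_le_card
        (Finset.inter_subset_inter_right (hFa t u v hv1))
      exact_mod_cast this
    have h5 : Real.log (1 + 1 / τ v) ≤ Real.log (1 + 1 / τ 0) := by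
      apply Real.log_le_log
      · positivity
      · have := one_div_le_one_div_of_le hτ0pos (hτ0 v)
        linarith
    have h6 : 0 ≤ Real.log (1 + 1 / τ v) := by
      apply Real.log_nonneg
      have h2 : 0 < 1 / τ v := by positivity
      linarith
    rw [h1]
    refine h2.trans ?_
    rw [Finset.sum_add_distrib, ← Finset.mul_sum, Finset.sum_const, Finset.card_range,
      nsmul_eq_mul]
    have h7 : 2 * Λ ^ 2 * ∑ s ∈ range t, ((That (Q s) (F'' s v) (τ v))⁻¹ *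
          (ind (F'' s v) * crit Q k s * ind (F'' s v))).trace ≤
        2 * Λ ^ 2 * (k * (f * Real.log (1 + 1 / τ 0))) := by
      apply mul_le_mul_of_nonneg_left _ (by positivity)
      refine h3.trans ?_
      apply mul_le_mul_of_nonneg_left _ (Nat.cast_nonneg _)
      exact mul_le_mul h4 h5 h6 (by positivity)
    have h8 : (t : ℝ) * eEc l L M3 eF γ (τ 0) Λ e3 ≤ f * (t * eEc l L M3 eF γ (τ 0) Λ e3) :=
      le_mul_of_one_le_left (by positivity) hf1
    calc _ ≤ 2 * Λ ^ 2 * (k * (f * Real.log (1 + 1 / τ 0)))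
          + f * (t * eEc l L M3 eF γ (τ 0) Λ e3) := add_le_add h7 h8
      _ = _ := by ring
  have hsumE : ∑ v ∈ Ico u L, ∑ s ∈ range (2 ^ Kd), en Q k τ F'' D' s v ≤ L * (f * E) := by
    refine (Finset.sum_le_sum hE).trans ?_
    rw [Finset.sum_const, nsmul_eq_mul, Nat.card_Ico]
    apply mul_le_mul_of_nonneg_right _ (by positivity)
    exact_mod_cast Nat.sub_le _ _
  have hPf' : (P.card : ℝ) ≤ f := by exact_mod_cast hPf
  have hl' : (1 : ℝ) ≤ l := by exact_mod_cast hl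
  have h8 : B ^ 2 * P.card ≤ f * ((L + 1) * (44 * (Kd + 1) ^ 2 * k * (L * E)
      + 8 * (Kd + 1) * 4 ^ Kd * L * ε * (4 * l * M3 ^ 2) + 4 ^ Kd * δ ^ 2 * l)) := by
    refine h7.trans ?_
    have h9 : (44 * ((Kd : ℝ) + 1) ^ 2 * k) *
        ∑ v ∈ Ico u L, ∑ s ∈ range (2 ^ Kd), en Q k τ F'' D' s v ≤
        (44 * ((Kd : ℝ) + 1) ^ 2 * k) * (L * (f * E)) :=
      mul_le_mul_of_nonneg_left hsumE (by positivity)
    have h10 : 8 * ((Kd : ℝ) + 1) * 4 ^ Kd * L * ε * (4 * l * M3 ^ 2) ≤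
        f * (8 * (Kd + 1) * 4 ^ Kd * L * ε * (4 * l * M3 ^ 2)) :=
      le_mul_of_one_le_left (by positivity) hf1
    have h11 : (4 : ℝ) ^ Kd * δ ^ 2 * P.card ≤ 4 ^ Kd * δ ^ 2 * f * l := by
      calc (4 : ℝ) ^ Kd * δ ^ 2 * P.card ≤ 4 ^ Kd * δ ^ 2 * f :=
            mul_le_mul_of_nonneg_left hPf' (by positivity)
        _ ≤ _ := le_mul_of_one_le_right (by positivity) hl'
    have h12 : (0 : ℝ) ≤ (L : ℝ) + 1 := by positivity
    calc _ ≤ ((L : ℝ) + 1) * ((44 * ((Kd : ℝ) + 1) ^ 2 * k) * (L * (f * E))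
          + f * (8 * (Kd + 1) * 4 ^ Kd * L * ε * (4 * l * M3 ^ 2))
          + 4 ^ Kd * δ ^ 2 * f * l) := by
          apply mul_le_mul_of_nonneg_left _ h12
          linarith
      _ = _ := by ring
  have h9 : 4 * (B ^ 2 * P.card) ≤ f * B ^ 2 := by
    have h10 : (f : ℝ) * (4 * ((L + 1) * (44 * (Kd + 1) ^ 2 * k * (L * E)
      + 8 * (Kd + 1) * 4 ^ Kd * L * ε * (4 * l * M3 ^ 2) + 4 ^ Kd * δ ^ 2 * l))) ≤ f * B ^ 2 :=
      mul_le_mul_of_nonneg_left hBB (by positivity)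
    linarith
  have h10 : (4 * P.card : ℝ) ≤ f := by
    have hB2 : 0 < B ^ 2 := by positivity
    have : B ^ 2 * (4 * P.card) ≤ B ^ 2 * f := by linarith
    exact le_of_mul_le_mul_left this hB2
  exact_mod_cast h10

end Pool.Agent.LibKG64
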