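import Pool.Agent.LibKG64.O0
import Pool.Agent.LibKG64.L2

set_option autoImplicit false

/-! Definitions for one batch: the weights, `Good`, `BatchOK`. -/

open Finset Matrix

namespace Pool.Agent.LibKG64

variable {ι κ : Type} [Fintype ι] [DecidableEq ι] [Fintype κ] [DecidableEq κ]

/-- the weight functions on rows: squares of the rows of the projections `Q i` (`i < N`), and of the critical parts
`crit r` (`r ≤ T`) of the columns; each has total mass at most `1` -/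
noncomputable def Sys.wt (S : Sys ι κ) (N T : ℕ) : (κ × Fin N) ⊕ (ι × Fin (T + 1)) → κ → ℝ
  | Sum.inl (j, i), j' => (S.Q i j j') ^ 2
  | Sum.inr (p, r), j' => ((crit S.Q S.k r *ᵥ S.a p) j') ^ 2

/-- the condition (G1)-(G3) on the set of failed rows -/
structure Sys.Good (S : Sys ι κ) (N T l : ℕ) (γ e2 : ℝ) (F0 : Finset κ) : Prop where
  comp : ∀ P ∈ comps (adj S.Q N γ) F0, P.card ≤ l
  wt : ∀ i, ∑ j ∈ F0, min (S.wt N T i j) (γ ^ 2) < e2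

open Classical in
/-- what a good batch satisfies. `Λ` bound for the rows, `M3` bound for the unit functionals of the list, `eF` size of the
cross functionals, `e3` error of the energies. -/
structure Sys.BatchOK (S : Sys ι κ) (N : ℕ) (γ eF Λ M3 e3 W η : ℝ) (s : ℕ) (st : St κ)
    (x : ι → ℝ) : Prop where
  sgn : ∀ p, x p = 1 ∨ x p = -1
  rC : ∀ j, |(crit S.Q S.k s *ᵥ S.D s st x) j| ≤ Λ
  rZ : ∀ v < S.L, ∀ j,
    |(S.Q (s + S.k) *ᵥ (Ze S.Q S.k S.τ st.F s v *ᵥ S.D s st x)) j| ≤ Λ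
  en : ∀ P ∈ comps (adj S.Q N γ) (st.F 0), ∀ v < S.L,
    S.D s st x ⬝ᵥ Nm S.Q S.k S.τ (fun v => st.F v ∩ P) s v *ᵥ S.D s st x
      ≤ Λ ^ 2 * trc S.Q S.k s (st.F v ∩ P) (S.τ v) + e3
  zc : ∀ v < S.L, ∀ j,
    √(S.τ v) * |(Ze S.Q S.k S.τ st.F s v *ᵥ S.D s st x) j| ≤ M3
  xc : ∀ v < S.L, ∀ j, ∀ i, (i = s ∨ i = s + S.k) →
    √(S.τ v) * |∑ j' ∈ (st.F 0).filter (fun j' => ¬ adj S.Q N γ j j'),
      S.Q i j j' * (Ze S.Q S.k S.τ st.F s v *ᵥ S.D s st x) j'| ≤ M3 * eF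
  side : ∀ j, |(S.Sd s *ᵥ (S.Q (s + S.k) *ᵥ S.D s st x
    + Km S.Q S.k S.τ st.F S.L s *ᵥ S.D s st x)) j| ≤ 4 * η * (Λ + S.L * M3)
  drift : ∀ i ∈ S.U s, |S.a i ⬝ᵥ S.h s st.F (S.D s st x)| ≤ 2 * (Λ + S.L * M3) / √W

end Pool.Agent.LibKG64
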