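import Pool.Agent.LibKG64.M0
import Pool.Agent.LibKG64.C3
import Pool.Agent.LibKG64.BB

set_option autoImplicit false

/-! Task M1: the list of unit functionals (P3) of one batch. -/

open Finset Matrix

namespace Pool.Agent.LibKG64

variable {ι κ : Type} [Fintype ι] [DecidableEq ι] [Fintype κ] [DecidableEq κ]

/-- duality: operator norm of the transpose -/
theorem sq_transpose_le (M : Matrix κ κ ℝ) {r : ℝ} (hr : 0 ≤ r) (h : ∀ x, sq (M *ᵥ x) ≤ r * sq x)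
    (u : κ → ℝ) : sq (Mᵀ *ᵥ u) ≤ r * sq u := by
  set y := Mᵀ *ᵥ u with hy
  have h1 : sq y = u ⬝ᵥ (M *ᵥ y) := by
    rw [← BB_tdot]
    rfl
  have h2 := cs u (M *ᵥ y)
  rw [← h1] at h2
  refine BB_le_of_sq (sq_nonneg' y) (mul_nonneg hr (sq_nonneg' u)) (h2.trans ?_)
  calc sq u * sq (M *ᵥ y) ≤ sq u * (r * sq y) := mul_le_mul_of_nonneg_left (h y) (sq_nonneg' u)
    _ = r * sq u * sq y := by ring

/-- `|Bi x| ≤ (2/W) |x|`: `Bi` is symmetric, `0 ≤ x·Bi x = ∑_{i ∈ U} (a_i·Bi x)² ≤ (2/W) |x|²` -/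
theorem sq_Bi_le (S : Sys ι κ) {W η : ℝ} {T : ℕ} (hS : S.OK W η T) {s : ℕ} (hs : s ≤ T)
    (x : κ → ℝ) : sq (S.Bi s *ᵥ x) ≤ (2 / W) ^ 2 * sq x := by
  have hW : (0 : ℝ) < W := lt_of_lt_of_le one_pos hS.Wpos
  set y := S.Bi s *ᵥ x with hy
  have h1 : sq y = ∑ i ∈ S.U s, (S.a i ⬝ᵥ S.Bi s *ᵥ y) * (S.a i ⬝ᵥ S.Bi s *ᵥ x) := by
    rw [← BA_gram_dot S.a (S.U s) (S.Bi s *ᵥ y) (S.Bi s *ᵥ x),
      ← sym_dot (S.Bi s) (hS.BiS s hs), Matrix.mulVec_mulVec, Matrix.mulVec_mulVec,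
      Matrix.mul_assoc, BA_BiG S hS hs]
    rfl
  have h2 : sq y ^ 2 ≤ (y ⬝ᵥ S.Bi s *ᵥ y) * (x ⬝ᵥ S.Bi s *ᵥ x) := by
    rw [← sum_drift S hS hs y, ← sum_drift S hS hs x, h1]
    exact Finset.sum_mul_sq_le_sq_mul_sq _ _ _
  have h3 := hS.Bi2 s hs y
  have h4 := hS.Bi2 s hs x
  have h5 : 0 ≤ x ⬝ᵥ S.Bi s *ᵥ x := by
    rw [← sum_drift S hS hs]; exact Finset.sum_nonneg fun i _ => sq_nonneg _
  have h6 : 0 ≤ 2 / W * sq y := mul_nonneg (by positivity) (sq_nonneg' _)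
  refine BB_le_of_sq (sq_nonneg' y) (mul_nonneg (sq_nonneg _) (sq_nonneg' x)) (h2.trans ?_)
  calc (y ⬝ᵥ S.Bi s *ᵥ y) * (x ⬝ᵥ S.Bi s *ᵥ x) ≤ (2 / W * sq y) * (2 / W * sq x) :=
        mul_le_mul h3 h4 h5 h6
    _ = (2 / W) ^ 2 * sq x * sq y := by ring

/-- `Bi Q' = Bi`, `Sd Q' = Sd` -/
theorem Bi_mul_Q (S : Sys ι κ) {W η : ℝ} {T : ℕ} (hS : S.OK W η T) {s : ℕ} (hs : s ≤ T) :
    S.Bi s * S.Q (s + S.k) = S.Bi s := by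
  have h := congrArg Matrix.transpose (hS.BiQ s hs)
  rw [Matrix.transpose_mul, hS.BiS s hs, hS.flag.symm] at h
  exact h

theorem Sd_mul_Q (S : Sys ι κ) {W η : ℝ} {T : ℕ} (hS : S.OK W η T) {s : ℕ} (hs : s ≤ T) :
    S.Sd s * S.Q (s + S.k) = S.Sd s := by
  unfold Sys.Sd
  rw [Matrix.mul_assoc, Bi_mul_Q S hS hs]

/-- the transposed control lies in the range of the critical projection -/
theorem M1_crit_KmT {Q : ℕ → Matrix κ κ ℝ} (hQ : Flag Q) (k : ℕ) (τ : ℕ → ℝ)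
    (F : ℕ → Finset κ) (L s : ℕ) (u : κ → ℝ) :
    crit Q k s *ᵥ ((Km Q k τ F L s)ᵀ *ᵥ u) = (Km Q k τ F L s)ᵀ *ᵥ u := by
  have hK : Km Q k τ F L s * crit Q k s = Km Q k τ F L s := by
    rw [Km, Matrix.mul_assoc, Matrix.sum_mul]
    congr 1
    refine Finset.sum_congr rfl fun v _ => ?_
    rw [Ze, Matrix.mul_assoc, Zm_crit hQ]
  have h2 : crit Q k s * (Km Q k τ F L s)ᵀ = (Km Q k τ F L s)ᵀ := by
    have h := congrArg Matrix.transpose hK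
    rw [Matrix.transpose_mul, crit_symm hQ] at h
    exact h
  rw [Matrix.mulVec_mulVec, h2]

theorem M1_sq_smul (c : ℝ) (x : κ → ℝ) : sq (c • x) = c ^ 2 * sq x := by
  unfold sq
  rw [smul_dotProduct, dotProduct_smul, smul_eq_mul, smul_eq_mul]
  ring

/-- a unit functional `D ↦ c (u·M D)` -/
theorem M1_mk {Q : ℕ → Matrix κ κ ℝ} (k s : ℕ) (M : Matrix κ κ ℝ) {r : ℝ} (hr : 0 ≤ r)
    (h : ∀ x, sq (M *ᵥ x) ≤ r * sq x) (u : κ → ℝ)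
    (hc : crit Q k s *ᵥ (Mᵀ *ᵥ u) = Mᵀ *ᵥ u) (c : ℝ) (h1 : c ^ 2 * (r * sq u) ≤ 1) :
    ∃ φ : κ → ℝ, crit Q k s *ᵥ φ = φ ∧ sq φ ≤ 1 ∧ ∀ D, φ ⬝ᵥ D = c * (u ⬝ᵥ M *ᵥ D) := by
  refine ⟨c • (Mᵀ *ᵥ u), ?_, ?_, fun D => ?_⟩
  · rw [Matrix.mulVec_smul, hc]
  · rw [M1_sq_smul]
    exact (mul_le_mul_of_nonneg_left (sq_transpose_le M hr h u) (sq_nonneg c)).trans h1
  · rw [smul_dotProduct, smul_eq_mul, BB_tdot]

theorem M1_Ze_op {Q : ℕ → Matrix κ κ ℝ} (hQ : Flag Q) (k : ℕ) (τ : ℕ → ℝ)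
    (hτ : ∀ v, 0 < τ v) (hm : ∀ v, τ v ≤ τ (v + 1)) (F : ℕ → Finset κ)
    (hF : ∀ v, F (v + 1) ⊆ F v) (s v : ℕ) (x : κ → ℝ) :
    sq (Ze Q k τ F s v *ᵥ x) ≤ 1 / τ v * sq x := by
  have h := sq_Ze_le hQ k τ hτ hm F hF s v x
  have ht := hτ v
  rw [one_div, inv_mul_eq_div, le_div_iff₀ ht]
  linarith

theorem M1_sq_single (j : κ) : sq (Pi.single j (1 : ℝ) : κ → ℝ) = 1 := by
  unfold sq
  rw [single_dotProduct]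
  simp

/-- coordinates of `ζ_v`: the functional `√τ_v Ze_vᵀ e_j` -/
theorem phi_z (S : Sys ι κ) (hQ : Flag S.Q) (hτ : ∀ v, 0 < S.τ v)
    (hm : ∀ v, S.τ v ≤ S.τ (v + 1)) (F : ℕ → Finset κ) (hF : ∀ v, F (v + 1) ⊆ F v) (s v : ℕ)
    (j : κ) : ∃ φ : κ → ℝ, crit S.Q S.k s *ᵥ φ = φ ∧ sq φ ≤ 1 ∧
      ∀ D, φ ⬝ᵥ D = √(S.τ v) * (Ze S.Q S.k S.τ F s v *ᵥ D) j := by
  obtain ⟨φ, h1, h2, h3⟩ := M1_mk (Q := S.Q) S.k s (Ze S.Q S.k S.τ F s v)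
    (one_div_nonneg.mpr (hτ v).le) (M1_Ze_op hQ S.k S.τ hτ hm F hF s v) (Pi.single j 1)
    (crit_ZeT hQ _ _ _ _ _ _) √(S.τ v) (by
      rw [Real.sq_sqrt (hτ v).le, M1_sq_single, mul_one, mul_one_div, div_self (hτ v).ne'])
  refine ⟨φ, h1, h2, fun D => ?_⟩
  rw [h3 D, single_dotProduct, one_mul]

open Classical in
/-- cross functionals: `√τ_v/eF · Ze_vᵀ (res (Q i e_j))` -/
theorem phi_x (S : Sys ι κ) (hQ : Flag S.Q) (hτ : ∀ v, 0 < S.τ v)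
    (hm : ∀ v, S.τ v ≤ S.τ (v + 1)) (F : ℕ → Finset κ) (hF : ∀ v, F (v + 1) ⊆ F v) (s v : ℕ)
    {N : ℕ} {γ eF : ℝ} (heF : 0 < eF) (j : κ) {i : ℕ} (hi : i < N)
    (hw : ∑ j' ∈ F 0, min ((S.Q i j j') ^ 2) (γ ^ 2) ≤ eF ^ 2) :
    ∃ φ : κ → ℝ, crit S.Q S.k s *ᵥ φ = φ ∧ sq φ ≤ 1 ∧
      ∀ D, eF * (φ ⬝ᵥ D) = √(S.τ v) * ∑ j' ∈ (F 0).filter (fun j' => ¬ adj S.Q N γ j j'),
        S.Q i j j' * (Ze S.Q S.k S.τ F s v *ᵥ D) j' := by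
  set G := (F 0).filter (fun j' => ¬ adj S.Q N γ j j') with hG
  set w : κ → ℝ := fun j' => if j' ∈ G then S.Q i j j' else 0 with hwdef
  have hdot : ∀ x : κ → ℝ, w ⬝ᵥ x = ∑ j' ∈ G, S.Q i j j' * x j' := by
    intro x
    unfold dotProduct
    rw [← Finset.sum_subset (Finset.subset_univ G) (fun j' _ hj' => by simp [hwdef, hj'])]
    exact Finset.sum_congr rfl fun j' hj' => by simp [hwdef, hj']
  have hsq : sq w ≤ eF ^ 2 := by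
    unfold sq
    rw [hdot]
    refine le_trans ?_ hw
    calc ∑ j' ∈ G, S.Q i j j' * w j' ≤ ∑ j' ∈ G, min ((S.Q i j j') ^ 2) (γ ^ 2) := by
          refine Finset.sum_le_sum fun j' hj' => ?_
          have h1 : w j' = S.Q i j j' := by simp [hwdef, hj']
          rw [h1, ← pow_two]
          refine le_min le_rfl ?_
          have h2 : ¬ adj S.Q N γ j j' := (Finset.mem_filter.mp hj').2
          have h3 : |S.Q i j j'| < γ := by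
            by_contra hcon
            exact h2 ⟨i, hi, not_lt.mp hcon⟩
          rw [← sq_abs]
          exact pow_le_pow_left₀ (abs_nonneg _) h3.le 2
      _ ≤ ∑ j' ∈ F 0, min ((S.Q i j j') ^ 2) (γ ^ 2) :=
          Finset.sum_le_sum_of_subset_of_nonneg (Finset.filter_subset _ _)
            fun j' _ _ => le_min (sq_nonneg _) (sq_nonneg _)
  obtain ⟨φ, h1, h2, h3⟩ := M1_mk (Q := S.Q) S.k s (Ze S.Q S.k S.τ F s v)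
    (one_div_nonneg.mpr (hτ v).le) (M1_Ze_op hQ S.k S.τ hτ hm F hF s v) w
    (crit_ZeT hQ _ _ _ _ _ _) (√(S.τ v) / eF) (by
      have ht := hτ v
      rw [div_pow, Real.sq_sqrt (hτ v).le]
      have : S.τ v / eF ^ 2 * (1 / S.τ v * sq w) = sq w / eF ^ 2 := by
        field_simp
      rw [this, div_le_one (by positivity)]
      exact hsq)
  refine ⟨φ, h1, h2, fun D => ?_⟩
  rw [h3 D, hdot]
  field_simp

/-- side of the control: `(1/(4 η L)) Kmᵀ Sdᵀ e_j` -/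
theorem phi_s (S : Sys ι κ) {W η : ℝ} {T : ℕ} (hS : S.OK W η T) (hτ : ∀ v, 0 < S.τ v)
    (hm : ∀ v, S.τ v ≤ S.τ (v + 1)) (hL : 0 < S.L) (F : ℕ → Finset κ)
    (hF : ∀ v, F (v + 1) ⊆ F v) {s : ℕ} (hs : s ≤ T) (j : κ) :
    ∃ φ : κ → ℝ, crit S.Q S.k s *ᵥ φ = φ ∧ sq φ ≤ 1 ∧
      ∀ D, 4 * η * S.L * (φ ⬝ᵥ D) = (S.Sd s *ᵥ (Km S.Q S.k S.τ F S.L s *ᵥ D)) j := by
  have hη := hS.ηpos
  have hL' : (0 : ℝ) < S.L := Nat.cast_pos.mpr hL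
  have hu : sq ((S.Sd s)ᵀ *ᵥ Pi.single j (1 : ℝ)) ≤ 16 * η ^ 2 := by
    have h := sq_transpose_le (S.Sd s) (by positivity) (hS.sd1 s hs) (Pi.single j (1 : ℝ))
    rwa [M1_sq_single, mul_one] at h
  obtain ⟨φ, h1, h2, h3⟩ := M1_mk (Q := S.Q) S.k s (Km S.Q S.k S.τ F S.L s)
    (sq_nonneg _) (sq_Km_le hS.flag S.k S.τ hτ hm F hF S.L s)
    ((S.Sd s)ᵀ *ᵥ Pi.single j (1 : ℝ))
    (M1_crit_KmT hS.flag _ _ _ _ _ _) (1 / (4 * η * S.L)) (by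
      calc (1 / (4 * η * S.L)) ^ 2 * ((S.L : ℝ) ^ 2 * sq ((S.Sd s)ᵀ *ᵥ Pi.single j (1 : ℝ)))
          ≤ (1 / (4 * η * S.L)) ^ 2 * ((S.L : ℝ) ^ 2 * (16 * η ^ 2)) := by gcongr
        _ = 1 := by field_simp; ring)
  refine ⟨φ, h1, h2, fun D => ?_⟩
  rw [h3 D, BB_tdot, single_dotProduct, one_mul]
  field_simp

/-- drift of the control: `(W/(2 L)) Kmᵀ Bi a_i` -/
theorem phi_d (S : Sys ι κ) {W η : ℝ} {T : ℕ} (hS : S.OK W η T) (hτ : ∀ v, 0 < S.τ v)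
    (hm : ∀ v, S.τ v ≤ S.τ (v + 1)) (hL : 0 < S.L) (F : ℕ → Finset κ)
    (hF : ∀ v, F (v + 1) ⊆ F v) {s : ℕ} (hs : s ≤ T) (i : ι) :
    ∃ φ : κ → ℝ, crit S.Q S.k s *ᵥ φ = φ ∧ sq φ ≤ 1 ∧
      ∀ D, 2 * S.L / W * (φ ⬝ᵥ D) = S.a i ⬝ᵥ S.Bi s *ᵥ (Km S.Q S.k S.τ F S.L s *ᵥ D) := by
  have hW : (0 : ℝ) < W := lt_of_lt_of_le one_pos hS.Wpos
  have hL' : (0 : ℝ) < S.L := Nat.cast_pos.mpr hL
  have hu : sq (S.Bi s *ᵥ S.a i) ≤ (2 / W) ^ 2 := by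
    refine (sq_Bi_le S hS hs (S.a i)).trans ?_
    have := mul_le_mul_of_nonneg_left (hS.col i) (sq_nonneg (2 / W))
    rwa [mul_one] at this
  obtain ⟨φ, h1, h2, h3⟩ := M1_mk (Q := S.Q) S.k s (Km S.Q S.k S.τ F S.L s)
    (sq_nonneg _) (sq_Km_le hS.flag S.k S.τ hτ hm F hF S.L s)
    (S.Bi s *ᵥ S.a i)
    (M1_crit_KmT hS.flag _ _ _ _ _ _) (W / (2 * S.L)) (by
      calc (W / (2 * S.L)) ^ 2 * ((S.L : ℝ) ^ 2 * sq (S.Bi s *ᵥ S.a i))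
          ≤ (W / (2 * S.L)) ^ 2 * ((S.L : ℝ) ^ 2 * (2 / W) ^ 2) := by gcongr
        _ = 1 := by field_simp)
  refine ⟨φ, h1, h2, fun D => ?_⟩
  rw [h3 D, ← sym_dot (S.Bi s) (hS.BiS s hs)]
  field_simp

end Pool.Agent.LibKG64
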