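import Pool.Agent.LibKG64.M1
import Pool.Agent.LibKG64.BC
import Pool.Agent.LibKG64.En7

set_option autoImplicit false

/-! Task M1b: one batch, complete: signs with `BatchOK` and the exponential inequality for arbitrary weights. -/

open Finset Matrix

namespace Pool.Agent.LibKG64

variable {ι κ : Type} [Fintype ι] [DecidableEq ι] [Fintype κ] [DecidableEq κ]

/-- levels of a state are decreasing sets -/
theorem St.F_anti (st : St κ) (v : ℕ) : st.F (v + 1) ⊆ st.F v := by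
  intro j hj
  simp only [St.F, Finset.mem_filter, Finset.mem_univ, true_and] at hj ⊢
  omega

/-- number of functionals in the list (P3): coordinates of `ζ`, cross (2 per coordinate), energies, side, drift -/
def nP3 (ι κ : Type) [Fintype ι] [Fintype κ] (L : ℕ) : ℕ :=
  3 * (Fintype.card κ * L) + Fintype.card κ * (L * Fintype.card κ) + Fintype.card κ
    + Fintype.card ι

/-- choice of the weight `δ` of the list -/
theorem M1b_delta {R n X B e : ℝ} (hR : 0 ≤ R) (hn : 0 ≤ n) (hX : 0 < X) (he : 0 < e)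
    (he1 : e ≤ 1) (hB : 0 < B) (hBe : B * (1 + e / 2) ≤ 1 + e) :
    ∃ δ : ℝ, 0 ≤ δ ∧ ∀ A Z : ℝ, 0 ≤ A → (R = 0 → A = 0) → 0 ≤ Z →
      A + δ * Z ≤ B * (R + δ * (2 * n) * X) → A ≤ (1 + e) * R ∧ Z ≤ 8 * (n + 1) * X / e := by
  rcases hR.eq_or_lt with h0 | h0
  · refine ⟨1, zero_le_one, fun A Z hA hA0 hZ h => ?_⟩
    have hA' := hA0 h0.symm
    rw [← h0, hA'] at h ⊢
    refine ⟨by simp, ?_⟩
    have hB2 : B ≤ 2 := by nlinarith
    have h1 : Z ≤ B * (2 * n * X) := by linarith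
    have h2 : 0 ≤ 2 * n * X := by positivity
    have h3 : B * (2 * n * X) ≤ 2 * (2 * n * X) := mul_le_mul_of_nonneg_right hB2 h2
    rw [le_div_iff₀ he]
    have h4 : Z * e ≤ Z * 1 := mul_le_mul_of_nonneg_left he1 hZ
    nlinarith
  · have hn1 : 0 < n + 1 := by linarith
    refine ⟨e / 4 * R / ((n + 1) * X), by positivity, fun A Z hA _ hZ h => ?_⟩
    set δ := e / 4 * R / ((n + 1) * X) with hδ
    have hδ0 : 0 < δ := by positivity
    have h1 : δ * ((n + 1) * X) = e / 4 * R := by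
      rw [hδ]; field_simp
    have h2 : δ * (2 * n) * X ≤ e / 2 * R := by
      have : δ * (2 * n) * X ≤ 2 * (δ * ((n + 1) * X)) := by
        have := mul_pos hδ0 hX
        nlinarith
      rw [h1] at this
      linarith
    have h3 : B * (R + δ * (2 * n) * X) ≤ (1 + e) * R := by
      calc B * (R + δ * (2 * n) * X) ≤ B * (R + e / 2 * R) := by gcongr
        _ = B * (1 + e / 2) * R := by ring
        _ ≤ (1 + e) * R := mul_le_mul_of_nonneg_right hBe h0.le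
    have h4 : A + δ * Z ≤ (1 + e) * R := h.trans h3
    have h5 : 0 ≤ δ * Z := mul_nonneg hδ0.le hZ
    refine ⟨by linarith, ?_⟩
    have h6 : δ * Z ≤ 2 * R := by nlinarith
    have h7 : Z ≤ 2 * R / δ := by
      rw [le_div_iff₀ hδ0]; linarith
    have h8 : 2 * R / δ = 8 * (n + 1) * X / e := by
      rw [hδ]; field_simp; ring
    rw [← h8]
    exact h7

theorem M1b_abs_le {Z K c t u M : ℝ} (ht : 0 < t) (hK : 0 < K)
    (hZ : Z ≤ K * Real.exp c) (h1 : Real.exp (t * u) ≤ Z) (h2 : Real.exp (-(t * u)) ≤ Z)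
    (hM : (Real.log K + c) / t ≤ M) : |u| ≤ M := by
  have h3 : K * Real.exp c = Real.exp (Real.log K + c) := by
    rw [Real.exp_add, Real.exp_log hK]
  have h4 : t * u ≤ Real.log K + c := Real.exp_le_exp.mp (h3 ▸ h1.trans hZ)
  have h5 : -(t * u) ≤ Real.log K + c := Real.exp_le_exp.mp (h3 ▸ h2.trans hZ)
  have h6 : |u| ≤ (Real.log K + c) / t := by
    have h7 : |u| * t = |t * u| := by rw [abs_mul, abs_of_pos ht, mul_comm]
    rw [le_div_iff₀ ht, h7]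
    exact abs_le.mpr ⟨by linarith, h4⟩
  exact h6.trans hM

/-- the index type of the list -/
abbrev K3T (ι κ : Type) (L : ℕ) :=
  (κ × Fin L) ⊕ (Bool × κ × Fin L) ⊕ (κ × Fin L × κ) ⊕ κ ⊕ ι

theorem card_K3T (ι κ : Type) [Fintype ι] [Fintype κ] (L : ℕ) :
    Fintype.card (K3T ι κ L) = nP3 ι κ L := by
  simp only [Fintype.card_sum, Fintype.card_prod, Fintype.card_fin, Fintype.card_bool, nP3]
  ring

/-- Proof. Energy rows `w, w'` from `energy_rows` (with `e2 = eF²`, `l' = 2 l + 2`, `γ² = eF²/(2l+2)`), `batch_step` with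
`E = κ × Fin L × κ`, `K3` = the functionals `phi_z`, `phi_x` (for `i = s, s + k`), `w'`, `phi_s`, `phi_d`, and
`δ = e/4 · R / (nP3 · exp (C/c1² t²))` where `R` is the sum on the right (`δ = 1` when `R = 0`). Every functional of the list
satisfies `δ exp(t |φ·D|) ≤ exp(b^{-c}) (1 + e/2) R ≤ 2 R`, so `|φ·D| ≤ log(8 nP3 exp(C t²/c1²)/e)/t ≤ M3`. -/
theorem hbatch {C c b0 : ℝ} (hT : T2L C c b0) (hC : 0 < C) (hc : 0 < c)
    (S : Sys ι κ) {W η : ℝ} {T : ℕ} (hS : S.OK W η T) (hτ : ∀ v, 0 < S.τ v)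
    (hτ1 : ∀ v, S.τ v ≤ 1) (hm : ∀ v, S.τ v ≤ S.τ (v + 1)) (hL : 0 < S.L)
    {N l : ℕ} {γ eF ν BE : ℝ} (hγ : 0 < γ) (heF : 0 < eF) (hγe : eF ^ 2 = 2 * (l + 1) * γ ^ 2)
    (hν : 0 < ν)
    (hBE : ∀ v < S.L, (∏ v' ∈ range v, (4 / S.τ v' ^ 2)) * (1 / (ν ^ 2 * S.τ v ^ 3)) ≤ BE)
    (hsm : BE * (2 * γ * l ^ 2 * (2 * l + 2 : ℕ) + l * eF ^ 2) ≤ 1)
    {s : ℕ} (hs : s ≤ T) (hN : s + S.k < N) (st : St κ)
    (hgood : S.Good N T l γ (eF ^ 2) (st.F 0)) (hy : ∀ p ∈ S.V s, |S.y st p| ≤ 1)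
    {c1 : ℝ} (hc0 : 0 < c1) (hc1 : c1 ^ 2 * (4 * S.L + 8) ≤ 1)
    {b : ℝ} (hb : b0 ≤ b) (hb1 : 1 ≤ b)
    (hV : 12 * W ^ 2 * (S.L + S.L * (l * BE) + 4) ≤ b ^ c)
    {e t Λ M3 : ℝ} (he : 0 < e) (he1 : e ≤ 1) (ht : 0 < t) (ht2 : t ^ 2 / c1 ^ 2 ≤ b ^ c)
    (hbe : Real.exp (b ^ (-c)) * (1 + e / 2) ≤ 1 + e)
    (hΛ : C * √(Real.log b) / c1 ≤ Λ)
    (hM3 : (Real.log (8 * (nP3 ι κ S.L + 1) / e) + C / c1 ^ 2 * t ^ 2) / t ≤ M3)
    {Ω : Type} [Fintype Ω]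
    (hcard1 : (Fintype.card ι : ℝ) ≤ Real.exp (b ^ c))
    (hcard2 : (Fintype.card (Row ι κ (κ × Fin S.L × κ) S.L) : ℝ) ≤ Real.exp (b ^ c))
    (hcard3 : (Fintype.card Ω + 2 * nP3 ι κ S.L : ℝ) ≤ Real.exp (b ^ c))
    (θ : Ω → κ → ℝ) (hθ : ∀ o, crit S.Q S.k s *ᵥ θ o = θ o) (χ : Ω → ι → ℝ) (w : Ω → ℝ)
    (hw : ∀ o, 0 ≤ w o) (hθχ : ∀ o, (sq (θ o) + ∑ p, χ o p ^ 2) / c1 ^ 2 ≤ b ^ c) :
    ∃ x : ι → ℝ, S.BatchOK N γ eF Λ M3 (l * ν * M3 ^ 2) W η s st x ∧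
      ∑ o, w o * Real.exp (θ o ⬝ᵥ S.D s st x + ∑ p ∈ S.V s, χ o p * (x p - S.y st p))
        ≤ (1 + e) * ∑ o, w o * Real.exp (C / c1 ^ 2 * (sq (θ o) + ∑ p ∈ S.V s, χ o p ^ 2)) := by
  classical
  have hW : (0 : ℝ) < W := lt_of_lt_of_le one_pos hS.Wpos
  have hη := hS.ηpos
  have hF : ∀ v, st.F (v + 1) ⊆ st.F v := St.F_anti st
  have hbc : 0 < Real.exp (b ^ (-c)) := Real.exp_pos _
  have hBE0 : 0 ≤ BE := by
    refine le_trans ?_ (hBE 0 hL)
    have := hτ 0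
    simp only [Finset.range_zero, Finset.prod_empty, one_mul]
    positivity
  -- energy rows
  obtain ⟨w1, w', hw1C, hw'C, hw1n, hw'n, hw1a, hw1o, hen⟩ := energy_rows hS.flag S.k S.τ hτ hm hτ1
    st.F hF s S.L N hγ hN l (2 * l + 2) hgood.comp hν
    (by rw [hγe]; push_cast; linarith : eF ^ 2 ≤ γ ^ 2 * ((2 * l + 2 : ℕ) : ℝ)) hBE hsm
  -- the list
  have hiN : ∀ b' : Bool, (if b' then s else s + S.k) < N := by
    intro b'
    cases b'
    · simpa using hN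
    · simp only [if_true]; omega
  have hzP := fun jv : κ × Fin S.L => phi_z S hS.flag hτ hm st.F hF s jv.2 jv.1
  have hxP := fun bjv : Bool × κ × Fin S.L =>
    phi_x S hS.flag hτ hm st.F hF s bjv.2.2 (N := N) (γ := γ) heF bjv.2.1 (hiN bjv.1)
      (hgood.wt (Sum.inl (bjv.2.1, ⟨_, hiN bjv.1⟩))).le
  have hsP := fun j : κ => phi_s S hS hτ hm hL st.F hF hs j
  have hdP := fun i : ι => phi_d S hS hτ hm hL st.F hF hs i
  choose φz hz1 hz2 hz3 using hzP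
  choose φx hx1 hx2 hx3 using hxP
  choose φs hs1 hs2 hs3 using hsP
  choose φd hd1 hd2 hd3 using hdP
  set φ : K3T ι κ S.L → κ → ℝ :=
    Sum.elim φz (Sum.elim φx (Sum.elim w' (Sum.elim φs φd))) with hφdef
  have hφC : ∀ i, crit S.Q S.k s *ᵥ φ i = φ i := by
    rintro (i | i | i | i | i)
    · exact hz1 i
    · exact hx1 i
    · exact hw'C i
    · exact hs1 i
    · exact hd1 i
  have hφn : ∀ i, sq (φ i) ≤ 1 := by
    rintro (i | i | i | i | i)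
    · exact hz2 i
    · exact hx2 i
    · exact hw'n i
    · exact hs2 i
    · exact hd2 i
  set R : ℝ := ∑ o, w o * Real.exp (C / c1 ^ 2 * (sq (θ o) + ∑ p ∈ S.V s, χ o p ^ 2)) with hR
  have hR0 : 0 ≤ R := Finset.sum_nonneg fun o _ => mul_nonneg (hw o) (Real.exp_pos _).le
  obtain ⟨δ, hδ0, hδ⟩ := M1b_delta (R := R) (n := nP3 ι κ S.L)
    (X := Real.exp (C / c1 ^ 2 * t ^ 2)) hR0 (Nat.cast_nonneg _) (Real.exp_pos _) he he1 hbc hbe
  obtain ⟨x, hx, hrC, hrZ, hrE, hrS, hrD, hpot⟩ := batch_step hT hC hc S hS hτ hm hs st w1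
    (fun p hp => (hw1a (S.a p) (hS.col p)
      (hgood.wt (Sum.inr (p, ⟨s, Nat.lt_succ_of_le hs⟩))).le).trans (by linarith))
    hw1C (Cop := S.L * (l * BE)) (by positivity) hw1o hc0 hc1 hb hb1 hV hy hcard1 hcard2
    (by rw [card_K3T]; exact hcard3) θ hθ χ w hw hθχ φ hφC hφn ht.le ht2 hδ0
  set D := S.D s st x with hD
  rw [card_K3T] at hpot
  have hA0 : 0 ≤ ∑ o, w o * Real.exp (θ o ⬝ᵥ D + ∑ p ∈ S.V s, χ o p * (x p - S.y st p)) :=
    Finset.sum_nonneg fun o _ => mul_nonneg (hw o) (Real.exp_pos _).le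
  have hZ0 : 0 ≤ ∑ i, (Real.exp (t * (φ i ⬝ᵥ D)) + Real.exp (-(t * (φ i ⬝ᵥ D)))) :=
    Finset.sum_nonneg fun i _ => add_nonneg (Real.exp_pos _).le (Real.exp_pos _).le
  obtain ⟨hfin, hZ⟩ := hδ _ _ hA0 (fun hR00 => by
    have h1 : ∀ o ∈ Finset.univ, w o * Real.exp (C / c1 ^ 2 * (sq (θ o)
        + ∑ p ∈ S.V s, χ o p ^ 2)) = 0 :=
      (Finset.sum_eq_zero_iff_of_nonneg
        (fun o _ => mul_nonneg (hw o) (Real.exp_pos _).le)).mp hR00
    refine Finset.sum_eq_zero fun o ho => ?_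
    have h2 := h1 o ho
    rcases mul_eq_zero.mp h2 with h3 | h3
    · rw [h3, zero_mul]
    · exact absurd h3 (Real.exp_pos _).ne') hZ0 hpot
  -- every functional of the list is small
  have hn1 : (0 : ℝ) < 8 * (nP3 ι κ S.L + 1) / e := by positivity
  have hall : ∀ i, |φ i ⬝ᵥ D| ≤ M3 := by
    intro i
    have hle : Real.exp (t * (φ i ⬝ᵥ D)) + Real.exp (-(t * (φ i ⬝ᵥ D)))
        ≤ ∑ i, (Real.exp (t * (φ i ⬝ᵥ D)) + Real.exp (-(t * (φ i ⬝ᵥ D)))) :=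
      Finset.single_le_sum (f := fun i => Real.exp (t * (φ i ⬝ᵥ D))
        + Real.exp (-(t * (φ i ⬝ᵥ D))))
        (fun i _ => add_nonneg (Real.exp_pos _).le (Real.exp_pos _).le) (Finset.mem_univ i)
    have hp1 := Real.exp_pos (t * (φ i ⬝ᵥ D))
    have hp2 := Real.exp_pos (-(t * (φ i ⬝ᵥ D)))
    refine M1b_abs_le (Z := ∑ i, (Real.exp (t * (φ i ⬝ᵥ D)) + Real.exp (-(t * (φ i ⬝ᵥ D)))))
      ht hn1 (hZ.trans (le_of_eq ?_)) (by linarith) (by linarith) hM3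
    ring
  have hM30 : 0 ≤ M3 := by
    have : Nonempty (K3T ι κ S.L) ∨ IsEmpty (K3T ι κ S.L) := (isEmpty_or_nonempty _).symm
    rcases this with ⟨⟨i⟩⟩ | hemp
    · exact (abs_nonneg _).trans (hall i)
    · refine le_trans ?_ hM3
      have h1 : (1 : ℝ) ≤ 8 * (nP3 ι κ S.L + 1) / e := by
        rw [le_div_iff₀ he]
        have : (0 : ℝ) ≤ nP3 ι κ S.L := Nat.cast_nonneg _
        linarith
      have h2 := Real.log_nonneg h1
      positivity
  have hallz : ∀ i, |φz i ⬝ᵥ D| ≤ M3 := fun i => hall (Sum.inl i)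
  have hallx : ∀ i, |φx i ⬝ᵥ D| ≤ M3 := fun i => hall (Sum.inr (Sum.inl i))
  have hallw : ∀ i, |w' i ⬝ᵥ D| ≤ M3 := fun i => hall (Sum.inr (Sum.inr (Sum.inl i)))
  have halls : ∀ i, |φs i ⬝ᵥ D| ≤ M3 := fun i => hall (Sum.inr (Sum.inr (Sum.inr (Sum.inl i))))
  have halld : ∀ i, |φd i ⬝ᵥ D| ≤ M3 := fun i => hall (Sum.inr (Sum.inr (Sum.inr (Sum.inr i))))
  have hΛ0 : 0 ≤ Λ := le_trans (by positivity) hΛ
  refine ⟨x, ⟨hx, fun j => (hrC j).trans hΛ, fun v hv j => (hrZ v hv j).trans hΛ, ?_, ?_, ?_, ?_,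
    ?_⟩, hfin⟩
  · -- energies
    intro P hP v hv
    exact hen D Λ M3 (fun e' => (hrE e').trans hΛ) hallw P hP v hv
  · -- coordinates
    intro v hv j
    have h := hallz (j, ⟨v, hv⟩)
    rw [hz3, abs_mul, abs_of_nonneg (Real.sqrt_nonneg _)] at h
    exact h
  · -- cross
    intro v hv j i hi
    have hb' : ∃ b' : Bool, i = if b' then s else s + S.k := by
      rcases hi with h | h
      · exact ⟨true, by simp [h]⟩
      · exact ⟨false, by simp [h]⟩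
    obtain ⟨b', hb'⟩ := hb'
    have h := hx3 (b', j, ⟨v, hv⟩) D
    have h2 := hallx (b', j, ⟨v, hv⟩)
    simp only at h
    rw [hb', ← abs_of_nonneg (Real.sqrt_nonneg (S.τ v)), ← abs_mul, ← h, abs_mul,
      abs_of_pos heF, mul_comm]
    exact mul_le_mul_of_nonneg_right h2 heF.le
  · -- side
    intro j
    have hL' : (0 : ℝ) < S.L := Nat.cast_pos.mpr hL
    rw [Matrix.mulVec_add, Pi.add_apply, Matrix.mulVec_mulVec, Sd_mul_Q S hS hs, ← hs3]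
    refine (abs_add_le _ _).trans ?_
    have h1 : |(S.Sd s *ᵥ D) j| ≤ 4 * η * Λ := by
      refine (hrS j).trans ?_
      exact mul_le_mul_of_nonneg_left hΛ (by positivity)
    have h2 : |4 * η * ↑S.L * (φs j ⬝ᵥ D)| ≤ 4 * η * S.L * M3 := by
      rw [abs_mul, abs_of_pos (by positivity : (0 : ℝ) < 4 * η * S.L)]
      exact mul_le_mul_of_nonneg_left (halls j) (by positivity)
    calc _ ≤ 4 * η * Λ + 4 * η * S.L * M3 := add_le_add h1 h2
      _ = _ := by ring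
  · -- drift
    intro i hi
    have hL' : (0 : ℝ) < S.L := Nat.cast_pos.mpr hL
    have hsW : 0 < √W := Real.sqrt_pos.mpr hW
    have hWs : √W * √W = W := Real.mul_self_sqrt hW.le
    have hs1' : 1 ≤ √W := by
      rw [← Real.sqrt_one]; exact Real.sqrt_le_sqrt hS.Wpos
    unfold Sys.h
    rw [Matrix.mulVec_add, dotProduct_add, Matrix.mulVec_mulVec, Bi_mul_Q S hS hs, ← hd3]
    refine (abs_add_le _ _).trans ?_
    have h1 : |S.a i ⬝ᵥ S.Bi s *ᵥ D| ≤ 2 * Λ / √W := by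
      have h3 := (hrD i hi).trans hΛ
      have h4 : √W / 2 ≤ √(W / 2) := by
        refine Real.le_sqrt_of_sq_le ?_
        rw [div_pow, Real.sq_sqrt hW.le]
        linarith
      rw [le_div_iff₀ hsW]
      have h5 : √W / 2 * |S.a i ⬝ᵥ S.Bi s *ᵥ D| ≤ Λ :=
        (mul_le_mul_of_nonneg_right h4 (abs_nonneg _)).trans h3
      linarith
    have h2 : |2 * ↑S.L / W * (φd i ⬝ᵥ D)| ≤ 2 * (S.L * M3) / √W := by
      rw [abs_mul, abs_of_pos (by positivity : (0 : ℝ) < 2 * S.L / W)]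
      have h3 : 2 * (S.L : ℝ) / W * |φd i ⬝ᵥ D| ≤ 2 * S.L / W * M3 :=
        mul_le_mul_of_nonneg_left (halld i) (by positivity)
      refine h3.trans ?_
      rw [div_mul_eq_mul_div, div_le_div_iff₀ hW hsW]
      have h4 : √W ≤ W := by nlinarith
      have h5 : 0 ≤ 2 * S.L * M3 := by positivity
      calc 2 * ↑S.L * M3 * √W ≤ 2 * S.L * M3 * W := mul_le_mul_of_nonneg_left h4 h5
        _ = _ := by ring
    calc _ ≤ 2 * Λ / √W + 2 * (S.L * M3) / √W := add_le_add h1 h2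
      _ = _ := by ring

end Pool.Agent.LibKG64
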