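import Pool.Agent.LibKG64.O0

set_option autoImplicit false

/-! Task O1: levels along the trajectory of one row. Everything by induction on `s`. -/

open Finset

namespace Pool.Agent.LibKG64

variable {lam B : ℝ} {y : ℕ → ℝ}

private theorem lrStep_le (lam B : ℝ) (r : ℕ × ℝ) (y : ℝ) :
    r.1 ≤ (lrStep lam B r y).1 := by
  unfold lrStep
  split_ifs <;> simp_all

private theorem lrStep_le_succ (lam B : ℝ) (r : ℕ × ℝ) (y : ℝ) :
    (lrStep lam B r y).1 ≤ r.1 + 1 := by
  unfold lrStep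
  split_ifs <;> simp_all

theorem lrev_mono (lam B : ℝ) (y : ℕ → ℝ) {s t : ℕ} (h : s ≤ t) :
    (lrev lam B y s).1 ≤ (lrev lam B y t).1 := by
  induction h with
  | refl => exact le_rfl
  | step _ ih => exact ih.trans (lrStep_le _ _ _ _)

theorem lrev_succ_le (lam B : ℝ) (y : ℕ → ℝ) (s : ℕ) :
    (lrev lam B y (s + 1)).1 ≤ (lrev lam B y s).1 + 1 := lrStep_le_succ _ _ _ _

/-- the four possible steps -/
private theorem lrev_cases (lam B : ℝ) (y : ℕ → ℝ) (s : ℕ) :
    ((lrev lam B y s).1 = 0 ∧ lam ≤ |y (s + 1)| ∧ lrev lam B y (s + 1) = (1, y (s + 1))) ∨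
    ((lrev lam B y s).1 = 0 ∧ |y (s + 1)| < lam ∧ lrev lam B y (s + 1) = (0, 0)) ∨
    (1 ≤ (lrev lam B y s).1 ∧ B ≤ |y (s + 1) - (lrev lam B y s).2| ∧
      lrev lam B y (s + 1) = ((lrev lam B y s).1 + 1, y (s + 1))) ∨
    (1 ≤ (lrev lam B y s).1 ∧ |y (s + 1) - (lrev lam B y s).2| < B ∧
      lrev lam B y (s + 1) = lrev lam B y s) := by
  have e : lrev lam B y (s + 1) = lrStep lam B (lrev lam B y s) (y (s + 1)) := rfl
  by_cases h0 : (lrev lam B y s).1 = 0
  · by_cases h1 : lam ≤ |y (s + 1)|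
    · left; refine ⟨h0, h1, ?_⟩; rw [e, lrStep, if_pos h0, if_pos h1]
    · right; left; refine ⟨h0, not_le.1 h1, ?_⟩; rw [e, lrStep, if_pos h0, if_neg h1]
  · by_cases h1 : B ≤ |y (s + 1) - (lrev lam B y s).2|
    · right; right; left
      exact ⟨Nat.one_le_iff_ne_zero.2 h0, h1, by rw [e, lrStep, if_neg h0, if_pos h1]⟩
    · right; right; right
      exact ⟨Nat.one_le_iff_ne_zero.2 h0, not_le.1 h1, by rw [e, lrStep, if_neg h0, if_neg h1]⟩

/-- a row of level `≥ 1` is close to its reference value -/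
theorem lrev_ref (lam : ℝ) (hB : 0 < B) (y : ℕ → ℝ) (s : ℕ) (h : 1 ≤ (lrev lam B y s).1) :
    |y s - (lrev lam B y s).2| < B := by
  cases s with
  | zero => simp [lrev] at h
  | succ s =>
    rcases lrev_cases lam B y s with ⟨_, _, h3⟩ | ⟨_, _, h3⟩ | ⟨_, _, h3⟩ | ⟨_, h2, h3⟩
    · rw [h3]; simpa using hB
    · rw [h3] at h; simp at h
    · rw [h3]; simpa using hB
    · rw [h3]; exact h2

/-- a row of level `0` is small -/
theorem lrev_zero (hl : 0 < lam) (B : ℝ) (h0 : y 0 = 0) (s : ℕ) (h : (lrev lam B y s).1 = 0) :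
    |y s| < lam := by
  cases s with
  | zero => rw [h0]; simpa using hl
  | succ s =>
    rcases lrev_cases lam B y s with ⟨_, _, h3⟩ | ⟨_, h2, _⟩ | ⟨_, _, h3⟩ | ⟨h1, _, h3⟩
    · rw [h3] at h; simp at h
    · exact h2
    · rw [h3] at h; simp at h
    · rw [h3] at h; omega

/-- the reference value is an old value, of the same level -/
private theorem lrev_ref_eq (lam B : ℝ) (y : ℕ → ℝ) (s : ℕ) (h : 1 ≤ (lrev lam B y s).1) :
    ∃ a ≤ s, (lrev lam B y s).2 = y a ∧ (lrev lam B y a).1 = (lrev lam B y s).1 := by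
  induction s with
  | zero => simp [lrev] at h
  | succ s ih =>
    rcases lrev_cases lam B y s with ⟨_, _, h3⟩ | ⟨_, _, h3⟩ | ⟨_, _, h3⟩ | ⟨h1, _, h3⟩
    · exact ⟨s + 1, le_rfl, by rw [h3], rfl⟩
    · rw [h3] at h; simp at h
    · exact ⟨s + 1, le_rfl, by rw [h3], rfl⟩
    · obtain ⟨a, ha, h4, h5⟩ := ih h1
      exact ⟨a, by omega, by rw [h3]; exact h4, by rw [h3]; exact h5⟩

/-- history: a row of level `≥ u + 2` has moved by `B` while its level was `u + 1` -/
theorem lrev_hist (lam B : ℝ) (y : ℕ → ℝ) (s u : ℕ) (h : u + 2 ≤ (lrev lam B y s).1) :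
    ∃ a b, a < b ∧ b ≤ s ∧ u + 1 ≤ (lrev lam B y a).1 ∧ B ≤ |y b - y a| := by
  induction s with
  | zero => simp [lrev] at h
  | succ s ih =>
    rcases lrev_cases lam B y s with ⟨_, _, h3⟩ | ⟨_, _, h3⟩ | ⟨h1, h2, h3⟩ | ⟨_, _, h3⟩
    · rw [h3] at h; simp at h
    · rw [h3] at h; simp at h
    · obtain ⟨a, ha, h4, h5⟩ := lrev_ref_eq lam B y s h1
      rw [h3] at h
      refine ⟨a, s + 1, by omega, le_rfl, ?_, ?_⟩
      · rw [h5]; simp only at h; omega
      · rw [← h4]; exact h2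
    · rw [h3] at h
      obtain ⟨a, b, hab, hb, h4, h5⟩ := ih h
      exact ⟨a, b, hab, by omega, h4, h5⟩

private theorem lrev_low_ref {J : ℝ} (hB : 0 < B) (lam : ℝ) (s : ℕ)
    (hj : ∀ t < s, |y (t + 1) - y t| ≤ J) (h : 1 ≤ (lrev lam B y s).1) :
    lam - ((lrev lam B y s).1 - 1 : ℝ) * (B + J) ≤ |(lrev lam B y s).2| := by
  induction s with
  | zero => simp [lrev] at h
  | succ s ih =>
    have hj' : ∀ t < s, |y (t + 1) - y t| ≤ J := fun t ht => hj t (by omega)
    rcases lrev_cases lam B y s with ⟨_, h2, h3⟩ | ⟨_, _, h3⟩ | ⟨h1, h2, h3⟩ | ⟨h1, _, h3⟩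
    · rw [h3]; simpa using h2
    · rw [h3] at h; simp at h
    · have e1 := ih hj' h1
      have e2 := lrev_ref lam hB y s h1
      have e3 := hj s (by omega)
      rw [h3]
      push_cast
      have e4 : |(lrev lam B y s).2| ≤ |y (s + 1)| + |y (s + 1) - y s|
          + |y s - (lrev lam B y s).2| := by
        have : (lrev lam B y s).2 = y (s + 1) - (y (s + 1) - y s) - (y s - (lrev lam B y s).2) := by
          ring
        calc |(lrev lam B y s).2|
            = |y (s + 1) - (y (s + 1) - y s) - (y s - (lrev lam B y s).2)| := by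
              rw [← this]
          _ ≤ |y (s + 1) - (y (s + 1) - y s)| + |y s - (lrev lam B y s).2| := abs_sub _ _
          _ ≤ |y (s + 1)| + |y (s + 1) - y s| + |y s - (lrev lam B y s).2| := by
              gcongr; exact abs_sub _ _
      nlinarith
    · rw [h3]; exact ih hj' h1

/-- a failed row stays away from `0`: it moves by at most `B + J` per level -/
theorem lrev_low {J : ℝ} (hJ : 0 ≤ J) (hB : 0 < B) (lam : ℝ) (s : ℕ)
    (hj : ∀ t < s, |y (t + 1) - y t| ≤ J) (h : 1 ≤ (lrev lam B y s).1) :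
    lam - (lrev lam B y s).1 * (B + J) ≤ |y s| := by
  have e1 := lrev_low_ref hB lam s hj h
  have e2 := lrev_ref lam hB y s h
  have e3 : |(lrev lam B y s).2| ≤ |y s| + |y s - (lrev lam B y s).2| := by
    have : (lrev lam B y s).2 = y s - (y s - (lrev lam B y s).2) := by ring
    calc |(lrev lam B y s).2| = |y s - (y s - (lrev lam B y s).2)| := by rw [← this]
      _ ≤ _ := abs_sub _ _
  nlinarith

private theorem lrev_up_ref {J : ℝ} (hB : 0 < B) (hl : 0 < lam) (h0 : y 0 = 0) (s : ℕ)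
    (hj : ∀ t < s, |y (t + 1) - y t| ≤ J) (h : 1 ≤ (lrev lam B y s).1) :
    |(lrev lam B y s).2| ≤ lam + J + ((lrev lam B y s).1 - 1 : ℝ) * (B + J) := by
  induction s with
  | zero => simp [lrev] at h
  | succ s ih =>
    have hj' : ∀ t < s, |y (t + 1) - y t| ≤ J := fun t ht => hj t (by omega)
    have e3 := hj s (by omega)
    have e5 : |y (s + 1)| ≤ |y (s + 1) - y s| + |y s| := by
      calc |y (s + 1)| = |(y (s + 1) - y s) + y s| := by ring_nf
        _ ≤ _ := abs_add_le _ _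
    rcases lrev_cases lam B y s with ⟨h1, h2, h3⟩ | ⟨_, _, h3⟩ | ⟨h1, h2, h3⟩ | ⟨h1, _, h3⟩
    · rw [h3]
      have := lrev_zero hl B h0 s h1
      simp only [Nat.cast_one, sub_self, zero_mul, add_zero]
      linarith
    · rw [h3] at h; simp at h
    · have e1 := ih hj' h1
      have e2 := lrev_ref lam hB y s h1
      rw [h3]
      push_cast
      have e4 : |y s| ≤ |y s - (lrev lam B y s).2| + |(lrev lam B y s).2| := by
        calc |y s| = |(y s - (lrev lam B y s).2) + (lrev lam B y s).2| := by ring_nf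
          _ ≤ _ := abs_add_le _ _
      nlinarith
    · rw [h3]; exact ih hj' h1

theorem lrev_up {J : ℝ} (hJ : 0 ≤ J) (hB : 0 < B) (hl : 0 < lam) (h0 : y 0 = 0) (s : ℕ)
    (hj : ∀ t < s, |y (t + 1) - y t| ≤ J) :
    |y s| ≤ lam + J + (lrev lam B y s).1 * (B + J) := by
  by_cases h : (lrev lam B y s).1 = 0
  · have := lrev_zero hl B h0 s h
    rw [h]; simp only [Nat.cast_zero, zero_mul, add_zero]; linarith
  · have h1 : 1 ≤ (lrev lam B y s).1 := Nat.one_le_iff_ne_zero.2 h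
    have e1 := lrev_up_ref hB hl h0 s hj h1
    have e2 := lrev_ref lam hB y s h1
    have e4 : |y s| ≤ |y s - (lrev lam B y s).2| + |(lrev lam B y s).2| := by
      calc |y s| = |(y s - (lrev lam B y s).2) + (lrev lam B y s).2| := by ring_nf
        _ ≤ _ := abs_add_le _ _
    nlinarith

end Pool.Agent.LibKG64
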