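import Pool.Agent.LibKG64.P1
import Pool.Agent.LibKG64.O1

set_option autoImplicit false
set_option linter.unusedSectionVars false

/-!
Module O, file M2: the run depends only on the past, the potentials and one step of them.
(helper80)
-/

open Finset Matrix

namespace Pool.Agent.LibKG64

variable {ι κ : Type} [Fintype ι] [DecidableEq ι] [Fintype κ] [DecidableEq κ]

/-- the state at the beginning of batch `s` depends only on the signs of the batches before `s` -/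
theorem run_congr (S : Sys ι κ) {x x' : ℕ → ι → ℝ} {s : ℕ} (h : ∀ r < s, x r = x' r) :
    S.run x s = S.run x' s := by
  induction s with
  | zero => rfl
  | succ s ih =>
    have h1 := ih (fun r hr => h r (Nat.lt_succ_of_lt hr))
    simp only [Sys.run, h1, h s (Nat.lt_succ_self s)]

theorem run_update (S : Sys ι κ) (x : ℕ → ι → ℝ) (xs : ι → ℝ) {r s : ℕ} (h : r ≤ s) :
    S.run (Function.update x s xs) r = S.run x r :=
  run_congr S (fun i hi => by
    rw [Function.update_of_ne]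
    omega)

theorem run_succ (S : Sys ι κ) (x : ℕ → ι → ℝ) (s : ℕ) :
    S.run x (s + 1) = S.step s (S.run x s) (x s) := rfl

/-- levels are functions of the trajectory of the row -/
theorem run_lr (S : Sys ι κ) (x : ℕ → ι → ℝ) (s : ℕ) (j : κ) :
    (S.run x s).lr j = lrev S.lam S.B (fun t => (S.run x t).Y j) s := by
  induction s with
  | zero => rfl
  | succ s ih =>
    rw [lrev, ← ih]
    rfl

theorem run_Y_zero (S : Sys ι κ) (x : ℕ → ι → ℝ) : (S.run x 0).Y = 0 := rfl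

theorem run_Y_succ (S : Sys ι κ) (x : ℕ → ι → ℝ) (s : ℕ) :
    (S.run x (s + 1)).Y = (S.run x s).Y + S.dY s (S.run x s).F (S.Dr x s) := rfl

theorem run_Y (S : Sys ι κ) (x : ℕ → ι → ℝ) (s : ℕ) :
    (S.run x s).Y = ∑ r ∈ range s, S.dY r (S.run x r).F (S.Dr x r) := by
  induction s with
  | zero => rfl
  | succ s ih => rw [run_Y_succ, Finset.sum_range_succ, ih]

theorem run_g_succ (S : Sys ι κ) (x : ℕ → ι → ℝ) (s : ℕ) :
    (S.run x (s + 1)).g = (S.run x s).g + S.h s (S.run x s).F (S.Dr x s) := rfl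

theorem mem_F (st : St κ) (v : ℕ) (j : κ) : j ∈ st.F v ↔ v < (st.lr j).1 := by
  simp [St.F]

/-- the level sets decrease with the level -/
theorem F_anti (st : St κ) (v : ℕ) : st.F (v + 1) ⊆ st.F v := by
  intro j hj
  rw [mem_F] at hj ⊢
  omega

/-- the level sets increase in time -/
theorem runF_mono (S : Sys ι κ) (x : ℕ → ι → ℝ) (s v : ℕ) :
    (S.run x s).F v ⊆ (S.run x (s + 1)).F v := by
  intro j hj
  rw [mem_F] at hj ⊢
  rw [run_lr] at hj ⊢
  exact lt_of_lt_of_le hj (lrev_mono S.lam S.B _ (Nat.le_succ s))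

/-- the exponent of the pair `(J, J')` at the beginning of batch `s` -/
noncomputable def Ex (S : Sys ι κ) (a c M0 : ℝ) (x : ℕ → ι → ℝ) (s : ℕ) (J J' : Finset κ) : ℝ :=
  a * (sgnv J J' ⬝ᵥ (S.run x s).Y)
    - c * a ^ 2 * (∑ r ∈ range s, sq (psi S.Q S.k S.τ (S.run x r).F S.L r (sgnv J J'))) - M0

/-- value of the side functional `i` in batch `s` -/
noncomputable def sv {α : Type} (S : Sys ι κ) (χ : α → ι → ℝ) (x : ℕ → ι → ℝ) (s : ℕ) (i : α) :
    ℝ := ∑ p ∈ S.V s, χ i p * (x s p - S.y (S.run x s) p)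

/-- squared norm of the side functional `i` in batch `s` -/
noncomputable def sn {α : Type} (S : Sys ι κ) (χ : α → ι → ℝ) (s : ℕ) (i : α) : ℝ :=
  ∑ p ∈ S.V s, χ i p ^ 2

/-- side potential -/
noncomputable def Side {α : Type} [Fintype α] (S : Sys ι κ) (χ : α → ι → ℝ) (Λ c u0 : ℝ)
    (x : ℕ → ι → ℝ) (s : ℕ) : ℝ :=
  ∑ i, u0 * Real.exp (Λ * (∑ r ∈ range s, sv S χ x r i) - c * Λ ^ 2 * ∑ r ∈ range s, sn S χ r i)

/-- total potential -/
noncomputable def Tot {α : Type} [Fintype α] (S : Sys ι κ) (β : Finset κ → ℝ) (l : ℕ)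
    (a c M0 : ℝ) (χ : α → ι → ℝ) (Λ u0 : ℝ) (x : ℕ → ι → ℝ) (s : ℕ) : ℝ :=
  Psi β l (Ex S a c M0 x s) + Side S χ Λ c u0 x s

/-- the inequality delivered by the batch theorem in batch `s`, for the weights `w`, `u` -/
def BatchIneq {α : Type} [Fintype α] (S : Sys ι κ) (l : ℕ) (a c e : ℝ) (χ : α → ι → ℝ) (Λ : ℝ)
    (s : ℕ) (st : St κ) (xs : ι → ℝ) (w : Finset κ → Finset κ → ℝ) (u : α → ℝ) : Prop :=
  (∑ J ∈ powersetCard (l + 1) univ, ∑ J' ∈ J.powerset,
      w J J' * Real.exp (a * (sgnv J J' ⬝ᵥ S.dY s st.F (S.D s st xs))))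
    + ∑ i, u i * Real.exp (Λ * ∑ p ∈ S.V s, χ i p * (xs p - S.y st p)) ≤
  (1 + e) * ((∑ J ∈ powersetCard (l + 1) univ, ∑ J' ∈ J.powerset,
      w J J' * Real.exp (c * a ^ 2 * sq (psi S.Q S.k S.τ st.F S.L s (sgnv J J'))))
    + ∑ i, u i * Real.exp (c * Λ ^ 2 * sn S χ s i))

/-- `sgnv J J' ⬝ dY = psi ⬝ D` -/
theorem sgnv_dY (S : Sys ι κ) (s : ℕ) (F : ℕ → Finset κ) (θ D : κ → ℝ) :
    θ ⬝ᵥ S.dY s F D = psi S.Q S.k S.τ F S.L s θ ⬝ᵥ D := by
  simp only [Sys.dY, psi, Matrix.mulVec_transpose, ← Matrix.dotProduct_mulVec, Matrix.sub_mulVec]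

theorem Ex_succ (S : Sys ι κ) (a c M0 : ℝ) (x : ℕ → ι → ℝ) (s : ℕ) (xs : ι → ℝ)
    (J J' : Finset κ) :
    Ex S a c M0 (Function.update x s xs) (s + 1) J J' = Ex S a c M0 x s J J'
      - c * a ^ 2 * sq (psi S.Q S.k S.τ (S.run x s).F S.L s (sgnv J J'))
      + a * (sgnv J J' ⬝ᵥ S.dY s (S.run x s).F (S.D s (S.run x s) xs)) := by
  have h1 : (S.run (Function.update x s xs) (s + 1)).Y
      = (S.run x s).Y + S.dY s (S.run x s).F (S.D s (S.run x s) xs) := by
    rw [run_Y_succ, Sys.Dr, run_update S x xs le_rfl, Function.update_self]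
  have h2 : ∑ r ∈ range (s + 1), sq (psi S.Q S.k S.τ (S.run (Function.update x s xs) r).F S.L r
      (sgnv J J')) = ∑ r ∈ range (s + 1), sq (psi S.Q S.k S.τ (S.run x r).F S.L r (sgnv J J')) := by
    refine Finset.sum_congr rfl (fun r hr => ?_)
    rw [run_update S x xs (Nat.lt_succ_iff.mp (Finset.mem_range.mp hr))]
  unfold Ex
  rw [h1, h2, dotProduct_add, Finset.sum_range_succ]
  ring

/-- one step of the total potential -/
theorem Tot_step {α : Type} [Fintype α] (S : Sys ι κ) (β : Finset κ → ℝ) (l : ℕ)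
    (a c e M0 : ℝ) (χ : α → ι → ℝ) (Λ u0 : ℝ) (x : ℕ → ι → ℝ) (s : ℕ) (xs : ι → ℝ)
    (h : BatchIneq S l a c e χ Λ s (S.run x s) xs
      (fun J J' => β J * Real.exp (Ex S a c M0 x s J J'
        - c * a ^ 2 * sq (psi S.Q S.k S.τ (S.run x s).F S.L s (sgnv J J'))))
      (fun i => u0 * Real.exp (Λ * (∑ r ∈ range s, sv S χ x r i)
        - c * Λ ^ 2 * ∑ r ∈ range (s + 1), sn S χ r i))) :
    Tot S β l a c M0 χ Λ u0 (Function.update x s xs) (s + 1) ≤
      (1 + e) * Tot S β l a c M0 χ Λ u0 x s := by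
  unfold BatchIneq at h
  have hL : Tot S β l a c M0 χ Λ u0 (Function.update x s xs) (s + 1) =
      (∑ J ∈ powersetCard (l + 1) univ, ∑ J' ∈ J.powerset,
        (β J * Real.exp (Ex S a c M0 x s J J'
          - c * a ^ 2 * sq (psi S.Q S.k S.τ (S.run x s).F S.L s (sgnv J J'))))
          * Real.exp (a * (sgnv J J' ⬝ᵥ S.dY s (S.run x s).F (S.D s (S.run x s) xs))))
      + ∑ i, (u0 * Real.exp (Λ * (∑ r ∈ range s, sv S χ x r i)
          - c * Λ ^ 2 * ∑ r ∈ range (s + 1), sn S χ r i))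
          * Real.exp (Λ * ∑ p ∈ S.V s, χ i p * (xs p - S.y (S.run x s) p)) := by
    unfold Tot Psi Side
    congr 1
    · refine Finset.sum_congr rfl (fun J _ => ?_)
      rw [Finset.mul_sum]
      refine Finset.sum_congr rfl (fun J' _ => ?_)
      rw [Ex_succ, mul_assoc (β J), ← Real.exp_add]
    · refine Finset.sum_congr rfl (fun i _ => ?_)
      have h3 : ∑ r ∈ range (s + 1), sv S χ (Function.update x s xs) r i
          = (∑ r ∈ range s, sv S χ x r i) + ∑ p ∈ S.V s, χ i p * (xs p - S.y (S.run x s) p) := by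
        rw [Finset.sum_range_succ]
        congr 1
        · refine Finset.sum_congr rfl (fun r hr => ?_)
          have hr' : r < s := Finset.mem_range.mp hr
          unfold sv
          rw [run_update S x xs hr'.le, Function.update_of_ne (by omega)]
        · unfold sv
          rw [run_update S x xs le_rfl, Function.update_self]
      rw [h3, mul_assoc u0, ← Real.exp_add]
      congr 2
      ring
  have hR : Tot S β l a c M0 χ Λ u0 x s =
      (∑ J ∈ powersetCard (l + 1) univ, ∑ J' ∈ J.powerset,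
        (β J * Real.exp (Ex S a c M0 x s J J'
          - c * a ^ 2 * sq (psi S.Q S.k S.τ (S.run x s).F S.L s (sgnv J J'))))
          * Real.exp (c * a ^ 2 * sq (psi S.Q S.k S.τ (S.run x s).F S.L s (sgnv J J'))))
      + ∑ i, (u0 * Real.exp (Λ * (∑ r ∈ range s, sv S χ x r i)
          - c * Λ ^ 2 * ∑ r ∈ range (s + 1), sn S χ r i))
          * Real.exp (c * Λ ^ 2 * sn S χ s i) := by
    unfold Tot Psi Side
    congr 1
    · refine Finset.sum_congr rfl (fun J _ => ?_)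
      rw [Finset.mul_sum]
      refine Finset.sum_congr rfl (fun J' _ => ?_)
      rw [mul_assoc (β J), ← Real.exp_add]
      congr 2
      ring
    · refine Finset.sum_congr rfl (fun i _ => ?_)
      rw [mul_assoc u0, ← Real.exp_add, Finset.sum_range_succ]
      congr 2
      ring
  rw [hL, hR]
  exact h

/-- the start value -/
theorem Tot_zero {α : Type} [Fintype α] (S : Sys ι κ) (β : Finset κ → ℝ) (l : ℕ)
    (a c M0 : ℝ) (χ : α → ι → ℝ) (Λ u0 : ℝ) (x : ℕ → ι → ℝ) :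
    Tot S β l a c M0 χ Λ u0 x 0 = Psi β l (fun _ _ => -M0) + u0 * Fintype.card α := by
  unfold Tot
  congr 1
  · unfold Psi Ex
    simp [run_Y_zero]
  · unfold Side
    simp
    ring

theorem Psi_nonneg (β : Finset κ → ℝ) (hβ : ∀ J, 0 ≤ β J) (l : ℕ) (E : Finset κ → Finset κ → ℝ) :
    0 ≤ Psi β l E :=
  Finset.sum_nonneg (fun J _ => mul_nonneg (hβ J) (Finset.sum_nonneg (fun _ _ =>
    (Real.exp_pos _).le)))

theorem Side_nonneg {α : Type} [Fintype α] (S : Sys ι κ) (χ : α → ι → ℝ) (Λ c u0 : ℝ)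
    (hu : 0 ≤ u0) (x : ℕ → ι → ℝ) (s : ℕ) : 0 ≤ Side S χ Λ c u0 x s :=
  Finset.sum_nonneg (fun _ _ => mul_nonneg hu (Real.exp_pos _).le)

/-- bound for the side sums -/
theorem side_le {α : Type} [Fintype α] (S : Sys ι κ) (χ : α → ι → ℝ) {Λ u0 : ℝ} (c : ℝ)
    (hΛ : 0 < Λ) (hu : 0 < u0) (x : ℕ → ι → ℝ) (s : ℕ) (h : Side S χ Λ c u0 x s ≤ 1) (i : α) :
    ∑ r ∈ range s, sv S χ x r i ≤
      c * Λ * (∑ r ∈ range s, sn S χ r i) + Real.log (1 / u0) / Λ := by
  have h1 : u0 * Real.exp (Λ * (∑ r ∈ range s, sv S χ x r i)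
      - c * Λ ^ 2 * ∑ r ∈ range s, sn S χ r i) ≤ 1 := by
    refine le_trans ?_ h
    unfold Side
    exact Finset.single_le_sum (f := fun i => u0 * Real.exp (Λ * (∑ r ∈ range s, sv S χ x r i)
      - c * Λ ^ 2 * ∑ r ∈ range s, sn S χ r i))
      (fun i _ => mul_nonneg hu.le (Real.exp_pos _).le) (Finset.mem_univ i)
  have h2 : Λ * (∑ r ∈ range s, sv S χ x r i) - c * Λ ^ 2 * ∑ r ∈ range s, sn S χ r i
      ≤ Real.log (1 / u0) := by
    rw [Real.le_log_iff_exp_le (by positivity), le_div_iff₀ hu]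
    linarith [mul_comm u0 (Real.exp (Λ * (∑ r ∈ range s, sv S χ x r i)
      - c * Λ ^ 2 * ∑ r ∈ range s, sn S χ r i))]
  have h3 : ∑ r ∈ range s, sv S χ x r i = (Λ * (∑ r ∈ range s, sv S χ x r i)) / Λ := by
    field_simp
  rw [h3]
  have h4 : c * Λ * (∑ r ∈ range s, sn S χ r i) + Real.log (1 / u0) / Λ
      = (c * Λ ^ 2 * (∑ r ∈ range s, sn S χ r i) + Real.log (1 / u0)) / Λ := by
    field_simp
  rw [h4]
  exact div_le_div_of_nonneg_right (by linarith) hΛ.le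

/-- GOOD: components of size at most `l`, small weights -/
structure GoodF {α : Type} (A : κ → κ → Prop) (wt : α → κ → ℝ) (l : ℕ) (t γ2 : ℝ)
    (F : Finset κ) : Prop where
  comp : ∀ R ∈ comps A F, R.card ≤ l
  wts : ∀ i, ∑ j ∈ F, min (wt i j) γ2 < t

/-- potential `< 1` and all failed rows big imply GOOD -/
theorem goodF_of_Psi {α : Type} [Fintype α] (A : κ → κ → Prop) (wt : α → κ → ℝ) (l : ℕ)
    (t γ2 : ℝ) (ht : 0 < t) (hγ : 0 ≤ γ2) (hγt : 2 * (l + 1) * γ2 ≤ t)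
    (hw : ∀ i j, 0 ≤ wt i j) (S : Sys ι κ) (a c M0 V : ℝ) (ha : 0 ≤ a) (hc : 0 ≤ c)
    (x : ℕ → ι → ℝ) (s : ℕ)
    (hV : ∀ θ : κ → ℝ, ∑ r ∈ range s, sq (psi S.Q S.k S.τ (S.run x r).F S.L r θ) ≤ V * sq θ)
    (hM : c * a ^ 2 * (V * (l + 1)) + M0 ≤ a * (l + 1) * (S.lam / 2))
    (hY : ∀ j ∈ (S.run x s).F 0, S.lam / 2 ≤ |(S.run x s).Y j|)
    (h : Psi (betaJ A wt l t γ2) l (Ex S a c M0 x s) < 1) :
    GoodF A wt l t γ2 ((S.run x s).F 0) := by
  have hE : ∀ J : Finset κ, J.card = l + 1 → ∀ J' ⊆ J,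
      a * (sgnv J J' ⬝ᵥ (S.run x s).Y) - (c * a ^ 2 * (V * (l + 1)) + M0)
        ≤ Ex S a c M0 x s J J' := by
    intro J hJ J' hJ'
    have h1 := hV (sgnv J J')
    rw [sq_sgnv J J' hJ', hJ] at h1
    push_cast at h1
    have h2 : c * a ^ 2 * (∑ r ∈ range s, sq (psi S.Q S.k S.τ (S.run x r).F S.L r (sgnv J J')))
        ≤ c * a ^ 2 * (V * (l + 1)) := mul_le_mul_of_nonneg_left h1 (by positivity)
    unfold Ex
    linarith
  constructor
  · intro R hR
    by_contra hcon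
    push Not at hcon
    exact absurd h (not_lt.mpr (Psi_viol1 A wt l t γ2 ht hγ hw (S.run x s).Y a (S.lam / 2)
      (c * a ^ 2 * (V * (l + 1)) + M0) ha (Ex S a c M0 x s) hE hM _ hY R hR hcon))
  · intro i
    by_contra hcon
    push Not at hcon
    exact absurd h (not_lt.mpr (Psi_viol2 A wt l t γ2 ht hγ hγt hw (S.run x s).Y a (S.lam / 2)
      (c * a ^ 2 * (V * (l + 1)) + M0) ha (Ex S a c M0 x s) hE hM _ hY i hcon))

end Pool.Agent.LibKG64
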