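import Pool.Agent.LibKG64.M2

set_option autoImplicit false
set_option linter.unusedSectionVars false

/-!
Module O, file M3: the main induction. (helper80)
-/

open Finset Matrix

namespace Pool.Agent.LibKG64

variable {ι κ : Type} [Fintype ι] [DecidableEq ι] [Fintype κ] [DecidableEq κ]

/-- all levels are at most `L` -/
def LevOK (S : Sys ι κ) (st : St κ) : Prop := ∀ j, (st.lr j).1 ≤ S.L

/-- the past of batch `s` in the run `x` -/
structure Past {α : Type} (S : Sys ι κ) (A : κ → κ → Prop) (wt : α → κ → ℝ) (l : ℕ) (t γ2 : ℝ)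
    (BOK : ℕ → St κ → (ι → ℝ) → Prop) (x : ℕ → ι → ℝ) (s : ℕ) : Prop where
  bok : ∀ r < s, BOK r (S.run x r) (x r)
  good : ∀ r ≤ s, GoodF A wt l t γ2 ((S.run x r).F 0)
  lev : ∀ r ≤ s, LevOK S (S.run x r)

/-- levels from the counting inequality: components of the failed set have at most `l < 4^L` rows and every
level has at most a quarter of the rows of the previous one -/
theorem lev_of_count (S : Sys ι κ) (A : κ → κ → Prop) (x : ℕ → ι → ℝ)
    (n l : ℕ) (hl : l < 4 ^ S.L)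
    (hc : ∀ R ∈ comps A ((S.run x n).F 0), R.card ≤ l)
    (hq : ∀ R ∈ comps A ((S.run x n).F 0), ∀ u < S.L,
      4 * ((S.run x n).F (u + 1) ∩ R).card ≤ ((S.run x n).F u ∩ R).card) :
    LevOK S (S.run x n) := by
  intro j
  by_contra hcon
  push Not at hcon
  have hj : j ∈ (S.run x n).F 0 := by
    rw [mem_F]
    omega
  obtain ⟨R, hR, hjR⟩ := exists_comp (A := A) hj
  have h1 : ∀ u ≤ S.L, 4 ^ u * ((S.run x n).F u ∩ R).card ≤ l := by
    intro u
    induction u with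
    | zero =>
      intro _
      rw [pow_zero, one_mul]
      exact le_trans (Finset.card_le_card Finset.inter_subset_right) (hc R hR)
    | succ u ih =>
      intro hu
      have h2 := ih (by omega)
      have h3 := hq R hR u (by omega)
      calc 4 ^ (u + 1) * ((S.run x n).F (u + 1) ∩ R).card
          = 4 ^ u * (4 * ((S.run x n).F (u + 1) ∩ R).card) := by ring
        _ ≤ 4 ^ u * ((S.run x n).F u ∩ R).card := Nat.mul_le_mul_left _ h3
        _ ≤ l := h2
  have h4 := h1 S.L le_rfl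
  have h5 : 1 ≤ ((S.run x n).F S.L ∩ R).card :=
    Finset.card_pos.mpr ⟨j, Finset.mem_inter.mpr ⟨(mem_F _ _ _).mpr hcon, hjR⟩⟩
  have h6 : 4 ^ S.L * 1 ≤ 4 ^ S.L * ((S.run x n).F S.L ∩ R).card :=
    Nat.mul_le_mul_left _ h5
  omega

theorem F0_zero_empty (S : Sys ι κ) (x : ℕ → ι → ℝ) : (S.run x 0).F 0 = ∅ := by
  ext j
  simp [mem_F, Sys.run]

/-- trajectories move by at most `Jm` per batch -/
theorem traj_jump (S : Sys ι κ) (BOK : ℕ → St κ → (ι → ℝ) → Prop) (Jm : ℝ)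
    (hj : ∀ s st xs, BOK s st xs → ∀ j, |S.dY s st.F (S.D s st xs) j| ≤ Jm)
    (x : ℕ → ι → ℝ) (s : ℕ) (hb : ∀ r < s, BOK r (S.run x r) (x r)) (j : κ) :
    ∀ t < s, |(S.run x (t + 1)).Y j - (S.run x t).Y j| ≤ Jm := by
  intro t ht
  rw [run_Y_succ, Pi.add_apply, add_sub_cancel_left]
  exact hj t _ _ (hb t ht) j

/-- rows of level at least one are big, if levels are at most `L + 1` -/
theorem rows_big (S : Sys ι κ) (BOK : ℕ → St κ → (ι → ℝ) → Prop) (Jm : ℝ) (hJ : 0 ≤ Jm)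
    (hB : 0 < S.B) (hlam : (S.L + 1) * (S.B + Jm) ≤ S.lam / 2)
    (hj : ∀ s st xs, BOK s st xs → ∀ j, |S.dY s st.F (S.D s st xs) j| ≤ Jm)
    (x : ℕ → ι → ℝ) (s : ℕ) (hb : ∀ r < s, BOK r (S.run x r) (x r))
    (hlev : ∀ j, ((S.run x s).lr j).1 ≤ S.L + 1) (j : κ) (hjF : j ∈ (S.run x s).F 0) :
    S.lam / 2 ≤ |(S.run x s).Y j| := by
  have h1 : 1 ≤ (lrev S.lam S.B (fun t => (S.run x t).Y j) s).1 := by
    rw [← run_lr]
    exact (mem_F _ _ _).mp hjF
  have h2 := lrev_low hJ hB S.lam (y := fun t => (S.run x t).Y j) s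
    (traj_jump S BOK Jm hj x s hb j) h1
  have h3 : ((lrev S.lam S.B (fun t => (S.run x t).Y j) s).1 : ℝ) ≤ S.L + 1 := by
    rw [← run_lr]
    exact_mod_cast hlev j
  have h4 : ((lrev S.lam S.B (fun t => (S.run x t).Y j) s).1 : ℝ) * (S.B + Jm)
      ≤ (S.L + 1) * (S.B + Jm) := mul_le_mul_of_nonneg_right h3 (by linarith)
  linarith

/-- **Main induction** of module O. -/
theorem main_ind {α α' : Type} [Fintype α] [Fintype α'] (S : Sys ι κ) (A : κ → κ → Prop)
    (wt : α → κ → ℝ) (l d : ℕ) (t γ2 : ℝ) (T : ℕ) (BOK : ℕ → St κ → (ι → ℝ) → Prop)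
    (χ : α' → ι → ℝ) (a c e M0 V Λ u0 Jm : ℝ)
    -- families
    (ht : 0 < t) (hγ : 0 ≤ γ2) (hγt : 2 * (l + 1) * γ2 ≤ t)
    (hw : ∀ i j, 0 ≤ wt i j) (hws : ∀ i, ∑ j, wt i j ≤ 1) (hd : ∀ j, (nbs A j).card ≤ d)
    -- numbers
    (ha : 0 ≤ a) (hc : 0 ≤ c) (he : 0 ≤ e) (hu0 : 0 < u0) (hΛ : 0 < Λ)
    (hB : 0 < S.B) (hJ : 0 ≤ Jm) (hlam0 : 0 < S.lam)
    (hlam : (S.L + 1) * (S.B + Jm) ≤ S.lam / 2)
    (hM : c * a ^ 2 * (V * (l + 1)) + M0 ≤ a * (l + 1) * (S.lam / 2))
    (hstart : (Fintype.card κ * (((l + 1) * d : ℕ) : ℝ) ^ l + Fintype.card α * (2 / t) ^ (l + 1))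
        * 2 ^ (l + 1) * Real.exp (-M0) + u0 * Fintype.card α' ≤ 1 / 2)
    (hgrow : (1 + e) ^ (T + 1) < 2)
    -- linear algebra (LA4)
    (hV : ∀ x : ℕ → ι → ℝ, ∀ s ≤ T + 1, ∀ θ : κ → ℝ,
      ∑ r ∈ range s, sq (psi S.Q S.k S.τ (S.run x r).F S.L r θ) ≤ V * sq θ)
    -- one batch
    (hj : ∀ s st xs, BOK s st xs → ∀ j, |S.dY s st.F (S.D s st xs) j| ≤ Jm)
    (hbatch : ∀ s ≤ T, ∀ x : ℕ → ι → ℝ, Past S A wt l t γ2 BOK x s →
      ∀ (w : Finset κ → Finset κ → ℝ) (u : α' → ℝ), (∀ J J', 0 ≤ w J J') → (∀ i, 0 ≤ u i) →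
        ∃ xs : ι → ℝ, BOK s (S.run x s) xs ∧ BatchIneq S l a c e χ Λ s (S.run x s) xs w u)
    -- counting
    (hcount : ∀ s ≤ T, ∀ x : ℕ → ι → ℝ, Past S A wt l t γ2 BOK x s →
      BOK s (S.run x s) (x s) → GoodF A wt l t γ2 ((S.run x (s + 1)).F 0) →
      LevOK S (S.run x (s + 1))) :
    ∃ x : ℕ → ι → ℝ, Past S A wt l t γ2 BOK x (T + 1) ∧
      (∀ j, |(S.run x (T + 1)).Y j| ≤ S.lam + Jm + S.L * (S.B + Jm)) ∧
      (∀ i, ∑ r ∈ range (T + 1), sv S χ x r i ≤
        c * Λ * (∑ r ∈ range (T + 1), sn S χ r i) + Real.log (1 / u0) / Λ) := by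
  classical
  set β := betaJ A wt l t γ2 with hβdef
  have hβ : ∀ J, 0 ≤ β J := betaJ_nonneg A wt l t γ2 ht hγ hw
  have h1e : (1 : ℝ) ≤ 1 + e := by linarith
  -- the start value
  have hst : ∀ x : ℕ → ι → ℝ, Tot S β l a c M0 χ Λ u0 x 0 ≤ 1 / 2 := by
    intro x
    rw [Tot_zero]
    exact le_trans (add_le_add (Psi_start A wt l d t γ2 ht hγ hw hws hd M0) le_rfl) hstart
  -- small potential at all times
  have hsmall : ∀ (x : ℕ → ι → ℝ) (n : ℕ), n ≤ T + 1 →
      Tot S β l a c M0 χ Λ u0 x n ≤ (1 + e) ^ n * (1 / 2) →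
      Tot S β l a c M0 χ Λ u0 x n < 1 := by
    intro x n hn h
    have h2 : (1 + e) ^ n ≤ (1 + e) ^ (T + 1) := pow_le_pow_right₀ h1e hn
    linarith
  have hpsi : ∀ (x : ℕ → ι → ℝ) (n : ℕ), Tot S β l a c M0 χ Λ u0 x n < 1 →
      Psi β l (Ex S a c M0 x n) < 1 := by
    intro x n h
    have h2 := Side_nonneg S χ Λ c u0 hu0.le x n
    unfold Tot at h
    linarith
  -- induction
  have key : ∀ n ≤ T + 1, ∃ x : ℕ → ι → ℝ, Past S A wt l t γ2 BOK x n ∧
      Tot S β l a c M0 χ Λ u0 x n ≤ (1 + e) ^ n * (1 / 2) := by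
    intro n
    induction n with
    | zero =>
      intro _
      refine ⟨fun _ _ => 0, ⟨fun r hr => absurd hr (Nat.not_lt_zero r), ?_, ?_⟩, ?_⟩
      · intro r hr
        obtain rfl := Nat.le_zero.mp hr
        refine goodF_of_Psi A wt l t γ2 ht hγ hγt hw S a c M0 V ha hc _ 0
          (hV _ 0 (Nat.zero_le _)) hM ?_ (hpsi _ 0 (hsmall _ 0 (Nat.zero_le _) ?_))
        · intro j hjF
          rw [F0_zero_empty] at hjF
          exact absurd hjF (Finset.notMem_empty j)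
        · rw [pow_zero, one_mul]
          exact hst _
      · intro r hr j
        obtain rfl := Nat.le_zero.mp hr
        simp [Sys.run]
      · rw [pow_zero, one_mul]
        exact hst _
    | succ n ih =>
      intro hn
      obtain ⟨x, hP, hT⟩ := ih (by omega)
      have hnT : n ≤ T := by omega
      obtain ⟨xs, hxs, hineq⟩ := hbatch n hnT x hP
        (fun J J' => β J * Real.exp (Ex S a c M0 x n J J'
          - c * a ^ 2 * sq (psi S.Q S.k S.τ (S.run x n).F S.L n (sgnv J J'))))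
        (fun i => u0 * Real.exp (Λ * (∑ r ∈ range n, sv S χ x r i)
          - c * Λ ^ 2 * ∑ r ∈ range (n + 1), sn S χ r i))
        (fun J J' => mul_nonneg (hβ J) (Real.exp_pos _).le)
        (fun i => mul_nonneg hu0.le (Real.exp_pos _).le)
      have hstep := Tot_step S β l a c e M0 χ Λ u0 x n xs hineq
      set x' := Function.update x n xs with hx'
      have hrun : ∀ r ≤ n, S.run x' r = S.run x r := fun r hr => run_update S x xs hr
      have hxr : ∀ r < n, x' r = x r := fun r hr => Function.update_of_ne (by omega) _ _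
      have hxn : x' n = xs := Function.update_self n xs x
      have hP' : Past S A wt l t γ2 BOK x' n := by
        refine ⟨fun r hr => ?_, fun r hr => ?_, fun r hr => ?_⟩
        · rw [hrun r hr.le, hxr r hr]
          exact hP.bok r hr
        · rw [hrun r hr]
          exact hP.good r hr
        · rw [hrun r hr]
          exact hP.lev r hr
      have hbn : BOK n (S.run x' n) (x' n) := by
        rw [hrun n le_rfl, hxn]
        exact hxs
      have hbok : ∀ r < n + 1, BOK r (S.run x' r) (x' r) := by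
        intro r hr
        rcases Nat.lt_succ_iff_lt_or_eq.mp hr with h | h
        · exact hP'.bok r h
        · rw [h]
          exact hbn
      have hlev1 : ∀ j, ((S.run x' (n + 1)).lr j).1 ≤ S.L + 1 := by
        intro j
        have h1 : ((S.run x' (n + 1)).lr j).1 ≤ ((S.run x' n).lr j).1 + 1 := by
          rw [run_lr, run_lr]
          exact lrev_succ_le _ _ _ _
        have h2 := hP'.lev n le_rfl j
        omega
      have hT' : Tot S β l a c M0 χ Λ u0 x' (n + 1) ≤ (1 + e) ^ (n + 1) * (1 / 2) := by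
        refine le_trans hstep ?_
        calc (1 + e) * Tot S β l a c M0 χ Λ u0 x n
            ≤ (1 + e) * ((1 + e) ^ n * (1 / 2)) := mul_le_mul_of_nonneg_left hT (by linarith)
          _ = (1 + e) ^ (n + 1) * (1 / 2) := by ring
      have hgoodn : GoodF A wt l t γ2 ((S.run x' (n + 1)).F 0) :=
        goodF_of_Psi A wt l t γ2 ht hγ hγt hw S a c M0 V ha hc x' (n + 1)
          (hV x' (n + 1) hn) hM
          (fun j hjF => rows_big S BOK Jm hJ hB hlam hj x' (n + 1) hbok hlev1 j hjF)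
          (hpsi x' (n + 1) (hsmall x' (n + 1) hn hT'))
      have hlevn : LevOK S (S.run x' (n + 1)) := hcount n hnT x' hP' hbn hgoodn
      refine ⟨x', ⟨hbok, fun r hr => ?_, fun r hr => ?_⟩, hT'⟩
      · rcases Nat.le_succ_iff.mp hr with h | h
        · exact hP'.good r h
        · rw [h]
          exact hgoodn
      · rcases Nat.le_succ_iff.mp hr with h | h
        · exact hP'.lev r h
        · rw [h]
          exact hlevn
  obtain ⟨x, hP, hT⟩ := key (T + 1) le_rfl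
  have hlt := hsmall x (T + 1) le_rfl hT
  refine ⟨x, hP, ?_, ?_⟩
  · intro j
    have h2 := lrev_up hJ hB hlam0 (y := fun r => (S.run x r).Y j)
      (by simp [run_Y_zero]) (T + 1) (traj_jump S BOK Jm hj x (T + 1) hP.bok j)
    have h3 : ((lrev S.lam S.B (fun r => (S.run x r).Y j) (T + 1)).1 : ℝ) ≤ S.L := by
      rw [← run_lr]
      exact_mod_cast hP.lev (T + 1) le_rfl j
    have h4 : ((lrev S.lam S.B (fun r => (S.run x r).Y j) (T + 1)).1 : ℝ) * (S.B + Jm)
        ≤ S.L * (S.B + Jm) := mul_le_mul_of_nonneg_right h3 (by linarith)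
    linarith
  · intro i
    refine side_le S χ c hΛ hu0 x (T + 1) ?_ i
    have h2 := Psi_nonneg β hβ l (Ex S a c M0 x (T + 1))
    unfold Tot at hlt
    linarith

/-- Absorbing the (P3) terms: `W xs` = left-hand side of the weights, `Wr` = right-hand side (`W = 0` if `Wr = 0`),
`P xs` = sum of the (P3) exponentials, `P0` = its bound. -/
theorem absorb {X : Type} (W P : X → ℝ) (OK : X → Prop) (Wr P0 e1 e2 : ℝ) (he1 : 0 ≤ e1)
    (he2 : 0 < e2) (hWr : 0 ≤ Wr) (hP0 : 0 < P0) (hW0 : ∀ x, 0 ≤ W x) (hPn : ∀ x, 0 ≤ P x)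
    (hz : Wr = 0 → ∀ x, W x = 0)
    (h : ∀ δ : ℝ, 0 < δ → ∃ x, OK x ∧ W x + δ * P x ≤ (1 + e1) * (Wr + δ * P0)) :
    ∃ x, OK x ∧ W x ≤ (1 + e1) * (1 + e2) * Wr ∧ P x ≤ (1 + e1) * (1 + 1 / e2) * P0 := by
  rcases hWr.eq_or_lt with h0 | h0
  · obtain ⟨x, hx, hx2⟩ := h 1 one_pos
    refine ⟨x, hx, ?_, ?_⟩
    · rw [hz h0.symm x, ← h0, mul_zero]
    · rw [hz h0.symm x, ← h0] at hx2
      have h3 : (1 + e1) * P0 ≤ (1 + e1) * (1 + 1 / e2) * P0 := by
        have : (1 + e1) * (1 + 1 / e2) * P0 = (1 + e1) * P0 + (1 + e1) * (1 / e2) * P0 := by ring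
        rw [this]
        have : 0 ≤ (1 + e1) * (1 / e2) * P0 := by positivity
        linarith
      linarith
  · have hδ : 0 < e2 * Wr / P0 := by positivity
    obtain ⟨x, hx, hx2⟩ := h _ hδ
    have h4 : e2 * Wr / P0 * P0 = e2 * Wr := by field_simp
    rw [h4] at hx2
    have h5 : (1 + e1) * (Wr + e2 * Wr) = (1 + e1) * (1 + e2) * Wr := by ring
    rw [h5] at hx2
    refine ⟨x, hx, ?_, ?_⟩
    · have := mul_nonneg hδ.le (hPn x)
      linarith
    · have h6 : e2 * Wr / P0 * P x ≤ (1 + e1) * (1 + e2) * Wr := by linarith [hW0 x]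
      have h7 : P x ≤ (1 + e1) * (1 + e2) * Wr / (e2 * Wr / P0) := by
        rw [le_div_iff₀ hδ]
        linarith [mul_comm (P x) (e2 * Wr / P0)]
      refine le_trans h7 (le_of_eq ?_)
      field_simp
      ring

end Pool.Agent.LibKG64
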