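import Pool.Agent.LibKG64.M1

set_option autoImplicit false
set_option linter.unusedSectionVars false

/-! Task M4: the identity for the final vector, and its bound. -/

open Finset Matrix

namespace Pool.Agent.LibKG64

variable {ι κ : Type} [Fintype ι] [DecidableEq ι] [Fintype κ] [DecidableEq κ]

theorem m4_Q_Km (Q : ℕ → Matrix κ κ ℝ) (hQ : Flag Q) (k : ℕ) (τ : ℕ → ℝ) (F : ℕ → Finset κ)
    (L s : ℕ) : Q (s + k) * Km Q k τ F L s = Km Q k τ F L s := by
  unfold Km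
  rw [← Matrix.mul_assoc, hQ.mul, max_self]

/-- one batch: `D - G_U h = dY + old D - Sd (Q' D + Km D)` with `h = Bi (Q' D + Km D)` -/
theorem batch_identity (S : Sys ι κ) {W η : ℝ} {T : ℕ} (hS : S.OK W η T) {s : ℕ} (hs : s ≤ T)
    (F : ℕ → Finset κ) (D : κ → ℝ) :
    D - gram S.a (S.U s) *ᵥ S.h s F D
      = S.dY s F D + S.old s D - S.Sd s *ᵥ (S.Q (s + S.k) *ᵥ D + Km S.Q S.k S.τ F S.L s *ᵥ D) := by
  set u := S.Q (s + S.k) *ᵥ D + Km S.Q S.k S.τ F S.L s *ᵥ D with hu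
  have hQu : S.Q (s + S.k) *ᵥ u = u := by
    rw [hu, Matrix.mulVec_add, Matrix.mulVec_mulVec, Matrix.mulVec_mulVec, hS.flag.mul, max_self,
      m4_Q_Km S.Q hS.flag]
  have hGB : gram S.a (S.U s) * S.Bi s = S.Q (s + S.k) + S.Sd s := by
    unfold Sys.Sd
    rw [Matrix.sub_mul, Matrix.sub_mul, Matrix.one_mul, hS.BiI s hs]
    abel
  have h1 : gram S.a (S.U s) *ᵥ S.h s F D = u + S.Sd s *ᵥ u := by
    unfold Sys.h
    rw [← hu, Matrix.mulVec_mulVec, hGB, Matrix.add_mulVec, hQu]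
  rw [h1]
  unfold Sys.dY Sys.old crit
  rw [Matrix.sub_mulVec, hu]
  abel

theorem m4_run_Y (S : Sys ι κ) (x : ℕ → ι → ℝ) (n : ℕ) :
    (S.run x n).Y = ∑ s ∈ range n, S.dY s (S.run x s).F (S.Dr x s) := by
  induction n with
  | zero => simp [Sys.run]
  | succ n ih => rw [Finset.sum_range_succ, ← ih]; rfl

theorem m4_run_g (S : Sys ι κ) (x : ℕ → ι → ℝ) (n : ℕ) :
    (S.run x n).g = ∑ s ∈ range n, S.h s (S.run x s).F (S.Dr x s) := by
  induction n with
  | zero => simp [Sys.run]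
  | succ n ih => rw [Finset.sum_range_succ, ← ih]; rfl

theorem m4_gram_mulVec (a : ι → κ → ℝ) (V : Finset ι) (u : κ → ℝ) :
    gram a V *ᵥ u = ∑ p ∈ V, (a p ⬝ᵥ u) • a p := by
  unfold gram
  rw [Matrix.sum_mulVec]
  refine Finset.sum_congr rfl fun p _ => ?_
  rw [Matrix.vecMulVec_mulVec]
  funext j
  simp [mul_comm]

theorem m4_Dr (S : Sys ι κ) (x : ℕ → ι → ℝ) (s : ℕ) :
    S.Dr x s = ∑ p ∈ S.V s, x s p • S.a p + gram S.a (S.V s) *ᵥ (S.run x s).g := by
  unfold Sys.Dr Sys.D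
  rw [m4_gram_mulVec, ← Finset.sum_add_distrib]
  refine Finset.sum_congr rfl fun p _ => ?_
  unfold Sys.y
  rw [sub_neg_eq_add, add_smul]

/-- sum over the batches -/
theorem m4_sum_batches {M : Type*} [AddCommMonoid M] (S : Sys ι κ) {T : ℕ}
    (hT : ∀ p, S.bt p ≤ T) (f : ι → M) :
    ∑ p, f p = ∑ s ∈ range (T + 1), ∑ p ∈ S.V s, f p := by
  have h := Finset.sum_fiberwise_of_maps_to (s := (univ : Finset ι)) (t := range (T + 1))
    (g := S.bt) (fun p _ => Finset.mem_range.2 (Nat.lt_succ_of_le (hT p))) f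
  rw [← h]
  rfl

theorem m4_gram_U (S : Sys ι κ) {T : ℕ} (hT : ∀ p, S.bt p ≤ T) (r : ℕ) (u : κ → ℝ) :
    gram S.a (S.U r) *ᵥ u
      = ∑ s ∈ range (T + 1), if r < s then gram S.a (S.V s) *ᵥ u else 0 := by
  rw [m4_gram_mulVec, Sys.U, Finset.sum_filter, m4_sum_batches S hT]
  refine Finset.sum_congr rfl fun s _ => ?_
  by_cases h : r < s
  · rw [if_pos h, m4_gram_mulVec]
    refine Finset.sum_congr rfl fun p hp => ?_
    have hp' : S.bt p = s := (Finset.mem_filter.1 hp).2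
    rw [hp', if_pos h]
  · rw [if_neg h]
    refine Finset.sum_eq_zero fun p hp => ?_
    have hp' : S.bt p = s := (Finset.mem_filter.1 hp).2
    rw [hp', if_neg h]

/-- `D_s = ∑_{V_s} x_p a_p + G_{V_s} g_s`; summation by parts: `∑_s (∑_{V_s} x_p a_p) = ∑_s (D_s - G_{U_s} h_s)` -/
theorem sum_identity (S : Sys ι κ) {W η : ℝ} {T : ℕ} (hS : S.OK W η T) (x : ℕ → ι → ℝ) :
    ∑ p, x (S.bt p) p • S.a p = (S.run x (T + 1)).Y
      + ∑ s ∈ range (T + 1), S.old s (S.Dr x s)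
      - ∑ s ∈ range (T + 1), S.Sd s *ᵥ (S.Q (s + S.k) *ᵥ S.Dr x s
          + Km S.Q S.k S.τ (S.run x s).F S.L s *ᵥ S.Dr x s) := by
  -- left side
  have hL : ∑ p, x (S.bt p) p • S.a p
      = ∑ s ∈ range (T + 1), ∑ p ∈ S.V s, x s p • S.a p := by
    rw [m4_sum_batches S hS.btT]
    refine Finset.sum_congr rfl fun s _ => Finset.sum_congr rfl fun p hp => ?_
    have hp' : S.bt p = s := (Finset.mem_filter.1 hp).2
    rw [hp']
  -- reaction
  have hG : ∑ s ∈ range (T + 1), gram S.a (S.V s) *ᵥ (S.run x s).g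
      = ∑ r ∈ range (T + 1), gram S.a (S.U r) *ᵥ S.h r (S.run x r).F (S.Dr x r) := by
    have e1 : ∀ s ∈ range (T + 1), gram S.a (S.V s) *ᵥ (S.run x s).g
        = ∑ r ∈ range (T + 1), if r < s then
            gram S.a (S.V s) *ᵥ S.h r (S.run x r).F (S.Dr x r) else 0 := by
      intro s hs
      rw [m4_run_g, Matrix.mulVec_sum, ← Finset.sum_filter]
      refine Finset.sum_congr ?_ fun _ _ => rfl
      ext r
      simp only [Finset.mem_range, Finset.mem_filter] at hs ⊢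
      omega
    rw [Finset.sum_congr rfl e1, Finset.sum_comm]
    refine Finset.sum_congr rfl fun r _ => ?_
    rw [m4_gram_U S hS.btT]
  have hD : ∀ s ∈ range (T + 1), ∑ p ∈ S.V s, x s p • S.a p
      = S.Dr x s - gram S.a (S.V s) *ᵥ (S.run x s).g := by
    intro s _
    rw [m4_Dr, add_sub_cancel_right]
  rw [hL, Finset.sum_congr rfl hD, Finset.sum_sub_distrib, hG, ← Finset.sum_sub_distrib]
  have hB : ∀ s ∈ range (T + 1),
      S.Dr x s - gram S.a (S.U s) *ᵥ S.h s (S.run x s).F (S.Dr x s)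
      = S.dY s (S.run x s).F (S.Dr x s) + S.old s (S.Dr x s)
        - S.Sd s *ᵥ (S.Q (s + S.k) *ᵥ S.Dr x s
          + Km S.Q S.k S.τ (S.run x s).F S.L s *ᵥ S.Dr x s) := by
    intro s hs
    exact batch_identity S hS (Nat.le_of_lt_succ (Finset.mem_range.1 hs)) _ _
  rw [Finset.sum_congr rfl hB, Finset.sum_sub_distrib, Finset.sum_add_distrib, ← m4_run_Y]

/-- positions: `y_p = -∑_{r < s} a_p·h_r` -/
theorem y_le (S : Sys ι κ) {N : ℕ} {γ eF Λ M3 e3 W η : ℝ} {T : ℕ} (x : ℕ → ι → ℝ) {s : ℕ}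
    (hs : s ≤ T) (hΛ : 0 ≤ Λ) (hM3 : 0 ≤ M3)
    (hok : ∀ r < s, S.BatchOK N γ eF Λ M3 e3 W η r (S.run x r) (x r))
    (hn : T * (2 * (Λ + S.L * M3) / √W) ≤ 1) : ∀ p ∈ S.V s, |S.y (S.run x s) p| ≤ 1 := by
  intro p hp
  have hp' : S.bt p = s := (Finset.mem_filter.1 hp).2
  unfold Sys.y
  rw [abs_neg, m4_run_g, dotProduct_sum]
  have h0 : 0 ≤ 2 * (Λ + S.L * M3) / √W := by positivity
  calc |∑ r ∈ range s, S.a p ⬝ᵥ S.h r (S.run x r).F (S.Dr x r)|
      ≤ ∑ r ∈ range s, |S.a p ⬝ᵥ S.h r (S.run x r).F (S.Dr x r)| :=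
        Finset.abs_sum_le_sum_abs _ _
    _ ≤ ∑ r ∈ range s, 2 * (Λ + S.L * M3) / √W := by
        refine Finset.sum_le_sum fun r hr => ?_
        have hr' := Finset.mem_range.1 hr
        refine (hok r hr').drift p ?_
        unfold Sys.U
        rw [Finset.mem_filter]
        exact ⟨Finset.mem_univ _, by omega⟩
    _ = s * (2 * (Λ + S.L * M3) / √W) := by
        rw [Finset.sum_const, Finset.card_range, nsmul_eq_mul]
    _ ≤ T * (2 * (Λ + S.L * M3) / √W) :=
        mul_le_mul_of_nonneg_right (by exact_mod_cast hs) h0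
    _ ≤ 1 := hn

open Classical in
/-- coefficient of the variable `p` in the fine old part of row `j` -/
noncomputable def Sys.chi (S : Sys ι κ) (g : ℝ) (j : κ) (p : ι) : ℝ :=
  if p ∈ S.fine g j then S.old (S.bt p) (S.a p) j else 0

theorem m4_old_entry (S : Sys ι κ) (hQ : Flag S.Q) (s : ℕ) (u : κ → ℝ) (hu : sq u ≤ 1) (j : κ) :
    |S.old s u j| ≤ 1 := by
  have h1 : sq (S.old s u) ≤ 1 := by
    have e : sq (S.old s u) = sq u - u ⬝ᵥ S.Q s *ᵥ u := by
      have e2 := flag_dot hQ s u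
      unfold Sys.old sq at *
      rw [sub_dotProduct, dotProduct_sub, dotProduct_sub]
      have e3 : S.Q s *ᵥ u ⬝ᵥ u = u ⬝ᵥ S.Q s *ᵥ u := dotProduct_comm _ _
      rw [e3]
      linarith
    have := flag_nonneg hQ s u
    linarith
  have h2 : (S.old s u j) ^ 2 ≤ 1 := by
    rw [sq_eq] at h1
    exact (Finset.single_le_sum (f := fun j => (S.old s u j) ^ 2) (fun _ _ => by positivity)
      (Finset.mem_univ j)).trans h1
  exact abs_le_one_iff_mul_self_le_one.2 (by nlinarith)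

theorem m4_old_Dr (S : Sys ι κ) (x : ℕ → ι → ℝ) (s : ℕ) (j : κ) :
    S.old s (S.Dr x s) j
      = ∑ p ∈ S.V s, (x s p - S.y (S.run x s) p) * S.old (S.bt p) (S.a p) j := by
  unfold Sys.Dr Sys.D Sys.old
  rw [Matrix.mulVec_sum, Pi.sub_apply, Finset.sum_apply, Finset.sum_apply,
    ← Finset.sum_sub_distrib]
  refine Finset.sum_congr rfl fun p hp => ?_
  have hp' : S.bt p = s := (Finset.mem_filter.1 hp).2
  rw [Matrix.mulVec_smul, hp']
  simp only [Pi.smul_apply, Pi.sub_apply, smul_eq_mul]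
  ring

theorem final_bound (S : Sys ι κ) {N : ℕ} {γ eF Λ M3 e3 W η g e MY : ℝ} {T : ℕ}
    (hS : S.OK W η T) (hO : S.OldOK g e) (x : ℕ → ι → ℝ) (hΛ : 0 ≤ Λ) (hM3 : 0 ≤ M3)
    (hok : ∀ s ≤ T, S.BatchOK N γ eF Λ M3 e3 W η s (S.run x s) (x s))
    (hn : T * (2 * (Λ + S.L * M3) / √W) ≤ 1) (hn2 : (T + 1) * (4 * η * (Λ + S.L * M3)) ≤ 1)
    (hY : ∀ j, |(S.run x (T + 1)).Y j| ≤ MY)
    (hside : ∀ j, |∑ s ∈ range (T + 1), ∑ p ∈ S.V s,
      S.chi g j p * (x s p - S.y (S.run x s) p)| ≤ 1) (j : κ) :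
    |∑ p, x (S.bt p) p * S.a p j| ≤ MY + 4 := by
  classical
  have hid := congrFun (sum_identity S hS x) j
  rw [Finset.sum_apply, Pi.sub_apply, Pi.add_apply, Finset.sum_apply, Finset.sum_apply] at hid
  simp only [Pi.smul_apply, smul_eq_mul] at hid
  rw [hid]
  -- the side part
  have h3 : |∑ s ∈ range (T + 1), (S.Sd s *ᵥ (S.Q (s + S.k) *ᵥ S.Dr x s
          + Km S.Q S.k S.τ (S.run x s).F S.L s *ᵥ S.Dr x s)) j| ≤ 1 := by
    refine (Finset.abs_sum_le_sum_abs _ _).trans ?_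
    refine (Finset.sum_le_sum (g := fun _ => 4 * η * (Λ + S.L * M3)) fun s hs => ?_).trans ?_
    · exact (hok s (Nat.le_of_lt_succ (Finset.mem_range.1 hs))).side j
    · rw [Finset.sum_const, Finset.card_range, nsmul_eq_mul]
      push_cast
      exact hn2
  -- the old part
  have hz : ∀ p, |x (S.bt p) p - S.y (S.run x (S.bt p)) p| ≤ 2 := by
    intro p
    have hy := y_le S x (hS.btT p) hΛ hM3 (fun r hr => hok r (hr.le.trans (hS.btT p))) hn p
      (by unfold Sys.V; simp)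
    have hx := (hok _ (hS.btT p)).sgn p
    rw [abs_le] at hy ⊢
    rcases hx with hx | hx <;> rw [hx] <;> constructor <;> linarith [hy.1, hy.2]
  have h2 : |∑ s ∈ range (T + 1), S.old s (S.Dr x s) j| ≤ 3 := by
    have e1 : ∑ s ∈ range (T + 1), S.old s (S.Dr x s) j
        = ∑ s ∈ range (T + 1), ∑ p ∈ S.V s, S.chi g j p * (x s p - S.y (S.run x s) p)
          + ∑ p ∈ (S.fine g j)ᶜ,
            (x (S.bt p) p - S.y (S.run x (S.bt p)) p) * S.old (S.bt p) (S.a p) j := by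
      have e2 : ∑ p ∈ (S.fine g j)ᶜ,
            (x (S.bt p) p - S.y (S.run x (S.bt p)) p) * S.old (S.bt p) (S.a p) j
          = ∑ s ∈ range (T + 1), ∑ p ∈ S.V s, if p ∈ S.fine g j then 0 else
            (x s p - S.y (S.run x s) p) * S.old (S.bt p) (S.a p) j := by
        have e3 : ∑ p ∈ (S.fine g j)ᶜ,
            (x (S.bt p) p - S.y (S.run x (S.bt p)) p) * S.old (S.bt p) (S.a p) j
            = ∑ p, if p ∈ S.fine g j then 0 else
            (x (S.bt p) p - S.y (S.run x (S.bt p)) p) * S.old (S.bt p) (S.a p) j := by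
          rw [← Finset.sum_filter_add_sum_filter_not univ (fun p => p ∈ S.fine g j)
            (fun p => if p ∈ S.fine g j then 0 else
            (x (S.bt p) p - S.y (S.run x (S.bt p)) p) * S.old (S.bt p) (S.a p) j)]
          rw [Finset.sum_eq_zero (s := univ.filter fun p => p ∈ S.fine g j)
            (fun p hp => if_pos (Finset.mem_filter.1 hp).2), zero_add]
          refine Finset.sum_congr ?_ fun p hp => ?_
          · ext p; simp
          · rw [if_neg (Finset.mem_filter.1 hp).2]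
        rw [e3, m4_sum_batches S hS.btT]
        refine Finset.sum_congr rfl fun s _ => Finset.sum_congr rfl fun p hp => ?_
        have hp' : S.bt p = s := (Finset.mem_filter.1 hp).2
        rw [hp']
      rw [e2, ← Finset.sum_add_distrib]
      refine Finset.sum_congr rfl fun s _ => ?_
      rw [m4_old_Dr, ← Finset.sum_add_distrib]
      refine Finset.sum_congr rfl fun p _ => ?_
      unfold Sys.chi
      by_cases h : p ∈ S.fine g j
      · rw [if_pos h, if_pos h, add_zero, mul_comm]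
      · rw [if_neg h, if_neg h, zero_mul, zero_add]
    have e4 : |∑ p ∈ (S.fine g j)ᶜ,
            (x (S.bt p) p - S.y (S.run x (S.bt p)) p) * S.old (S.bt p) (S.a p) j| ≤ 2 := by
      refine (Finset.abs_sum_le_sum_abs _ _).trans ?_
      refine (Finset.sum_le_sum (g := fun _ => (2 : ℝ)) fun p _ => ?_).trans ?_
      · rw [abs_mul]
        have := mul_le_mul (hz p) (m4_old_entry S hS.flag (S.bt p) (S.a p) (hS.col p) j)
          (abs_nonneg _) (by norm_num : (0 : ℝ) ≤ 2)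
        linarith
      · rw [Finset.sum_const, nsmul_eq_mul]
        have : (((S.fine g j)ᶜ).card : ℝ) ≤ 1 := by exact_mod_cast hO.s3 j
        linarith
    rw [e1]
    exact (abs_add_le _ _).trans (by linarith [hside j])
  have h1 := hY j
  calc |(S.run x (T + 1)).Y j + ∑ s ∈ range (T + 1), S.old s (S.Dr x s) j
        - ∑ s ∈ range (T + 1), (S.Sd s *ᵥ (S.Q (s + S.k) *ᵥ S.Dr x s
          + Km S.Q S.k S.τ (S.run x s).F S.L s *ᵥ S.Dr x s)) j|
      ≤ |(S.run x (T + 1)).Y j| + |∑ s ∈ range (T + 1), S.old s (S.Dr x s) j|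
        + |∑ s ∈ range (T + 1), (S.Sd s *ᵥ (S.Q (s + S.k) *ᵥ S.Dr x s
          + Km S.Q S.k S.τ (S.run x s).F S.L s *ᵥ S.Dr x s)) j| := by
        refine (abs_sub _ _).trans ?_
        gcongr
        exact abs_add_le _ _
    _ ≤ MY + 4 := by linarith

end Pool.Agent.LibKG64
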