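import Mathlib

set_option autoImplicit false

/-!
Task MIN: from `log log n` to `log log (min n d)`. Vectors are functions `Fin n → Fin d → ℝ`.
(1) basic solution: `n` vectors in `R^d` have coefficients in `[-1,1]` with sum `0`, at most `d` of them not `±1`;
(2) rounding bit by bit (Lovász, Spencer, Vesztergombi): a bound `K` for all the subfamilies gives the bound `2 K` for arbitrary
starting points; approximate the starting point by dyadic numbers (error `1`).
-/

open Finset

namespace Pool.Agent.LibKG64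

/-- (1) Among the `x ∈ [-1,1]^n` with `∑ x i • v i = 0` take one with the smallest number of coordinates in `(-1,1)`: if there
are more than `d` of them, there is a linear relation between the corresponding vectors; move along it until one more coordinate
becomes `±1`. -/
theorem basic_solution {ι : Type} [Fintype ι] [DecidableEq ι] (d : ℕ) (v : ι → Fin d → ℝ) :
    ∃ x : ι → ℝ, (∀ i, |x i| ≤ 1) ∧ (∀ j, ∑ i, x i * v i j = 0) ∧
      (univ.filter (fun i => |x i| ≠ 1)).card ≤ d := by
  classical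
  set P : Set (ι → ℝ) := {x | (∀ i, |x i| ≤ 1) ∧ ∀ j, ∑ i, x i * v i j = 0} with hP
  have hclosed : IsClosed P := by
    have h1 : P = (⋂ i, {x : ι → ℝ | |x i| ≤ 1}) ∩ ⋂ j, {x : ι → ℝ | ∑ i, x i * v i j = 0} := by
      ext x
      simp [hP]
    rw [h1]
    refine IsClosed.inter (isClosed_iInter fun i => ?_) (isClosed_iInter fun j => ?_)
    · exact isClosed_le (by fun_prop) continuous_const
    · exact isClosed_eq (by fun_prop) continuous_const
  have hcomp : IsCompact P := by
    have h2 : IsCompact (Set.pi Set.univ (fun _ : ι => Set.Icc (-1 : ℝ) 1)) :=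
      isCompact_univ_pi fun _ => isCompact_Icc
    refine h2.of_isClosed_subset hclosed ?_
    intro x hx i _
    exact abs_le.1 (hx.1 i)
  have hne : P.Nonempty := ⟨0, fun i => by simp, fun j => by simp⟩
  obtain ⟨x, hx⟩ := hcomp.extremePoints_nonempty hne
  have hxP : x ∈ P := hx.1
  refine ⟨x, hxP.1, hxP.2, ?_⟩
  by_contra hcard
  push Not at hcard
  set S := univ.filter (fun i => |x i| ≠ 1) with hS
  -- a linear relation supported in `S`
  have hdep : ∃ c : ι → ℝ, (∀ i, i ∉ S → c i = 0) ∧ (∀ j, ∑ i, c i * v i j = 0) ∧ ∃ i, c i ≠ 0 := by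
    have h3 : ¬ LinearIndependent ℝ (fun i : S => v i.1) := by
      intro hli
      have h4 := hli.fintype_card_le_finrank
      rw [Module.finrank_fin_fun, Fintype.card_coe] at h4
      omega
    rw [Fintype.linearIndependent_iff] at h3
    push Not at h3
    obtain ⟨g, hg, i₀, hi₀⟩ := h3
    refine ⟨fun i => if h : i ∈ S then g ⟨i, h⟩ else 0, fun i hi => by simp [hi], ?_, i₀.1, ?_⟩
    · intro j
      have h5 := congrFun hg j
      rw [Finset.sum_apply] at h5
      have h6 : ∑ i, (if h : i ∈ S then g ⟨i, h⟩ else 0) * v i j =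
          ∑ i ∈ S, (if h : i ∈ S then g ⟨i, h⟩ else 0) * v i j := by
        symm
        refine Finset.sum_subset (Finset.subset_univ _) ?_
        intro i _ hi
        simp [hi]
      rw [h6, ← Finset.sum_coe_sort]
      have h7 : ∀ i : S, (if h : i.1 ∈ S then g ⟨i.1, h⟩ else 0) * v i.1 j = (g i • v i.1) j := by
        intro i
        simp [i.2]
      rw [Finset.sum_congr rfl fun i _ => h7 i]
      simpa using h5
    · simp [i₀.2, hi₀]
  obtain ⟨c, hcS, hcv, i₁, hi₁⟩ := hdep
  -- a small step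
  have hlt : ∀ i ∈ S, |x i| < 1 := fun i hi =>
    lt_of_le_of_ne (hxP.1 i) (Finset.mem_filter.1 hi).2
  obtain ⟨ε, hε, hεS⟩ : ∃ ε : ℝ, 0 < ε ∧ ∀ i ∈ S, |x i| + ε * |c i| ≤ 1 := by
    have h8 : ∀ i ∈ S, ∃ ε : ℝ, 0 < ε ∧ |x i| + ε * |c i| ≤ 1 := by
      intro i hi
      refine ⟨(1 - |x i|) / (1 + |c i|), div_pos (by linarith [hlt i hi]) (by positivity), ?_⟩
      have h9 : (1 - |x i|) / (1 + |c i|) * |c i| ≤ 1 - |x i| := by
        rw [div_mul_eq_mul_div, div_le_iff₀ (by positivity)]
        have h10 : 0 ≤ 1 - |x i| := by linarith [hlt i hi]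
        nlinarith [abs_nonneg (c i)]
      linarith
    choose! e he1 he2 using h8
    have hSne : S.Nonempty := Finset.card_pos.1 (by omega)
    refine ⟨S.inf' hSne e, ?_, ?_⟩
    · rw [Finset.lt_inf'_iff]
      exact he1
    · intro i hi
      have h11 : S.inf' hSne e ≤ e i := Finset.inf'_le _ hi
      have h12 := mul_le_mul_of_nonneg_right h11 (abs_nonneg (c i))
      linarith [he2 i hi]
  have hmem : ∀ s : ℝ, |s| ≤ ε → x + s • c ∈ P := by
    intro s hs
    refine ⟨fun i => ?_, fun j => ?_⟩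
    · by_cases hi : i ∈ S
      · have h13 : |x i + s * c i| ≤ |x i| + |s| * |c i| := by
          rw [← abs_mul]; exact abs_add_le _ _
        have h14 := mul_le_mul_of_nonneg_right hs (abs_nonneg (c i))
        have h15 := hεS i hi
        change |x i + s * c i| ≤ 1
        linarith
      · change |x i + s * c i| ≤ 1
        rw [hcS i hi, mul_zero, add_zero]
        exact hxP.1 i
    · have h16 : ∑ i, (x + s • c) i * v i j = ∑ i, x i * v i j + s * ∑ i, c i * v i j := by
        rw [Finset.mul_sum, ← Finset.sum_add_distrib]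
        refine Finset.sum_congr rfl fun i _ => ?_
        change (x i + s * c i) * v i j = _
        ring
      rw [h16, hxP.2 j, hcv j, mul_zero, add_zero]
  have hp := hmem ε (by rw [abs_of_pos hε])
  have hm := hmem (-ε) (by rw [abs_neg, abs_of_pos hε])
  have hseg : x ∈ openSegment ℝ (x + ε • c) (x + (-ε) • c) := by
    refine ⟨1 / 2, 1 / 2, by norm_num, by norm_num, by norm_num, ?_⟩
    funext i
    change 1 / 2 * (x i + ε * c i) + 1 / 2 * (x i + -ε * c i) = x i
    ring
  have h17 := (mem_extremePoints.1 hx).2 _ hp _ hm hseg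
  have h18 : x i₁ + ε * c i₁ = x i₁ := congrFun h17.1 i₁
  have h19 : ε * c i₁ = 0 := by linarith
  rcases mul_eq_zero.1 h19 with h | h
  · exact hε.ne' h
  · exact hi₁ h

/-- (2) dyadic starting points: `x i = m i / 2^k` with `|m i| ≤ 2^k`. Induction on `k`: round the odd numerators `m i` up or
down by `1` with signs given by `h` for the subfamily of the odd ones; error `K / 2^k`. -/
theorem dyadic_rounding {ι : Type} [Fintype ι] [DecidableEq ι] {d : ℕ} (v : ι → Fin d → ℝ)
    {K : ℝ} (hK : 0 ≤ K)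
    (h : ∀ S : Finset ι, ∃ e : ι → ℝ, (∀ i, e i = 1 ∨ e i = -1) ∧
      ∀ j, |∑ i ∈ S, e i * v i j| ≤ K)
    (k : ℕ) (m : ι → ℤ) (hm : ∀ i, |m i| ≤ 2 ^ k) :
    ∃ e : ι → ℝ, (∀ i, e i = 1 ∨ e i = -1) ∧
      ∀ j, |∑ i, (e i - m i / 2 ^ k) * v i j| ≤ 2 * K := by
  have key : ∀ (k : ℕ) (m : ι → ℤ), (∀ i, |m i| ≤ 2 ^ k) →
      ∃ e : ι → ℝ, (∀ i, e i = 1 ∨ e i = -1) ∧
        ∀ j, |∑ i, (e i - m i / 2 ^ k) * v i j| ≤ K * (2 - 1 / 2 ^ k) := by
    intro k
    induction k with
    | zero =>
      intro m hm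
      obtain ⟨e, he, hej⟩ := h (univ.filter (fun i => m i = 0))
      refine ⟨fun i => if m i = 0 then e i else m i, ?_, ?_⟩
      · intro i
        by_cases h0 : m i = 0
        · simp only [h0, if_true]; exact he i
        · simp only [h0, if_false]
          have h1 := hm i
          rw [pow_zero] at h1
          have h2 := abs_le.1 h1
          have h3 : m i = 1 ∨ m i = -1 := by omega
          rcases h3 with h3 | h3
          · left; rw [h3]; norm_num
          · right; rw [h3]; norm_num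
      · intro j
        have h1 : ∑ i, ((if m i = 0 then e i else (m i : ℝ)) - m i / 2 ^ 0) * v i j =
            ∑ i ∈ univ.filter (fun i => m i = 0), e i * v i j := by
          rw [Finset.sum_filter]
          refine Finset.sum_congr rfl fun i _ => ?_
          by_cases h0 : m i = 0
          · simp [h0]
          · simp [h0]
        rw [h1]
        refine (hej j).trans (le_of_eq ?_)
        norm_num
    | succ k ih =>
      intro m hm
      obtain ⟨e, he, hej⟩ := h (univ.filter (fun i => m i % 2 ≠ 0))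
      -- the signs as integers
      have hz : ∀ i, ∃ z : ℤ, (z = 1 ∨ z = -1) ∧ (z : ℝ) = e i := by
        intro i
        rcases he i with h1 | h1
        · exact ⟨1, Or.inl rfl, by rw [h1]; norm_num⟩
        · exact ⟨-1, Or.inr rfl, by rw [h1]; norm_num⟩
      choose z hz1 hz2 using hz
      have hn : ∀ i, ∃ n : ℤ, |n| ≤ 2 ^ k ∧ 2 * n = m i + (if m i % 2 ≠ 0 then z i else 0) := by
        intro i
        have h1 := abs_le.1 (hm i)
        rw [pow_succ] at h1
        by_cases h0 : m i % 2 ≠ 0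
        · rw [if_pos h0]
          rcases hz1 i with h2 | h2
          · refine ⟨(m i + 1) / 2, ?_, ?_⟩
            · rw [abs_le]; omega
            · rw [h2]; omega
          · refine ⟨(m i - 1) / 2, ?_, ?_⟩
            · rw [abs_le]; omega
            · rw [h2]; omega
        · rw [if_neg h0]
          refine ⟨m i / 2, ?_, ?_⟩
          · rw [abs_le]; omega
          · omega
      choose n hn1 hn2 using hn
      obtain ⟨e', he', hej'⟩ := ih n hn1
      refine ⟨e', he', fun j => ?_⟩
      have h3 : ∑ i, (e' i - m i / 2 ^ (k + 1)) * v i j =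
          ∑ i, (e' i - n i / 2 ^ k) * v i j +
            1 / 2 ^ (k + 1) * ∑ i ∈ univ.filter (fun i => m i % 2 ≠ 0), e i * v i j := by
        rw [Finset.sum_filter, Finset.mul_sum, ← Finset.sum_add_distrib]
        refine Finset.sum_congr rfl fun i _ => ?_
        have h4 : (m i : ℝ) = 2 * n i - (if m i % 2 ≠ 0 then e i else 0) := by
          have h5 : (2 : ℝ) * n i = m i + (if m i % 2 ≠ 0 then (z i : ℝ) else 0) := by
            have h6 := hn2 i
            have h7 : ((2 * n i : ℤ) : ℝ) = ((m i + (if m i % 2 ≠ 0 then z i else 0) : ℤ) : ℝ) := by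
              rw [h6]
            push_cast at h7
            exact h7
          rw [h5, hz2]
          ring
        have h8 : (if m i % 2 ≠ 0 then e i * v i j else 0) =
            (if m i % 2 ≠ 0 then e i else 0) * v i j := by
          split_ifs <;> simp
        rw [h8, h4]
        have h9 : (2 : ℝ) ^ (k + 1) = 2 * 2 ^ k := by ring
        have h10 : (2 : ℝ) ^ k ≠ 0 := by positivity
        rw [h9]
        field_simp
        ring
      rw [h3]
      refine (abs_add_le _ _).trans ?_
      have h11 := hej' j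
      have h12 : |1 / 2 ^ (k + 1) * ∑ i ∈ univ.filter (fun i => m i % 2 ≠ 0), e i * v i j| ≤
          1 / 2 ^ (k + 1) * K := by
        rw [abs_mul, abs_of_pos (by positivity : (0 : ℝ) < 1 / 2 ^ (k + 1))]
        exact mul_le_mul_of_nonneg_left (hej j) (by positivity)
      have h13 : K * (2 - 1 / 2 ^ k) + 1 / 2 ^ (k + 1) * K = K * (2 - 1 / 2 ^ (k + 1)) := by
        have h9 : (2 : ℝ) ^ (k + 1) = 2 * 2 ^ k := by ring
        have h10 : (2 : ℝ) ^ k ≠ 0 := by positivity
        rw [h9]
        field_simp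
        ring
      linarith
  obtain ⟨e, he, hej⟩ := key k m hm
  refine ⟨e, he, fun j => (hej j).trans ?_⟩
  have h1 : (0 : ℝ) < 1 / 2 ^ k := by positivity
  nlinarith

/-- arbitrary starting points, entries at most `1` in absolute value -/
theorem rounding {ι : Type} [Fintype ι] [DecidableEq ι] {d : ℕ} (v : ι → Fin d → ℝ)
    (hv : ∀ i j, |v i j| ≤ 1) {K : ℝ} (hK : 0 ≤ K)
    (h : ∀ S : Finset ι, ∃ e : ι → ℝ, (∀ i, e i = 1 ∨ e i = -1) ∧
      ∀ j, |∑ i ∈ S, e i * v i j| ≤ K)
    (x : ι → ℝ) (hx : ∀ i, |x i| ≤ 1) :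
    ∃ e : ι → ℝ, (∀ i, e i = 1 ∨ e i = -1) ∧
      ∀ j, |∑ i, (e i - x i) * v i j| ≤ 2 * K + 1 := by
  classical
  set k := Fintype.card ι with hk
  have hm : ∀ i, |⌊x i * 2 ^ k⌋| ≤ (2 : ℤ) ^ k := by
    intro i
    have h1 := abs_le.1 (hx i)
    have h2 : (0 : ℝ) < 2 ^ k := by positivity
    rw [abs_le]
    constructor
    · rw [Int.le_floor]
      push_cast
      nlinarith
    · have h3 : (⌊x i * 2 ^ k⌋ : ℝ) ≤ x i * 2 ^ k := Int.floor_le _
      have h4 : (⌊x i * 2 ^ k⌋ : ℝ) ≤ 2 ^ k := by nlinarith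
      exact_mod_cast h4
  obtain ⟨e, he, hej⟩ := dyadic_rounding v hK h k (fun i => ⌊x i * 2 ^ k⌋) hm
  refine ⟨e, he, fun j => ?_⟩
  have h5 : ∑ i, (e i - x i) * v i j = ∑ i, (e i - (⌊x i * 2 ^ k⌋ : ℤ) / 2 ^ k) * v i j +
      ∑ i, ((⌊x i * 2 ^ k⌋ : ℤ) / 2 ^ k - x i) * v i j := by
    rw [← Finset.sum_add_distrib]
    exact Finset.sum_congr rfl fun i _ => by ring
  rw [h5]
  refine (abs_add_le _ _).trans (add_le_add (hej j) ?_)
  refine (Finset.abs_sum_le_sum_abs _ _).trans ?_
  have h6 : ∀ i ∈ (univ : Finset ι), |((⌊x i * 2 ^ k⌋ : ℤ) / 2 ^ k - x i) * v i j| ≤ 1 / 2 ^ k := by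
    intro i _
    have h2 : (0 : ℝ) < 2 ^ k := by positivity
    have h7 : |((⌊x i * 2 ^ k⌋ : ℤ) : ℝ) / 2 ^ k - x i| ≤ 1 / 2 ^ k := by
      have h8 : (⌊x i * 2 ^ k⌋ : ℝ) ≤ x i * 2 ^ k := Int.floor_le _
      have h9 : x i * 2 ^ k < (⌊x i * 2 ^ k⌋ : ℝ) + 1 := Int.lt_floor_add_one _
      have h10 : ((⌊x i * 2 ^ k⌋ : ℤ) : ℝ) / 2 ^ k - x i = ((⌊x i * 2 ^ k⌋ : ℝ) - x i * 2 ^ k) / 2 ^ k := by
        field_simp
      rw [h10, abs_div, abs_of_pos h2]
      refine div_le_div_of_nonneg_right ?_ h2.le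
      rw [abs_le]
      constructor <;> linarith
    rw [abs_mul]
    calc |((⌊x i * 2 ^ k⌋ : ℤ) : ℝ) / 2 ^ k - x i| * |v i j| ≤ 1 / 2 ^ k * 1 :=
          mul_le_mul h7 (hv i j) (abs_nonneg _) (by positivity)
      _ = 1 / 2 ^ k := mul_one _
  refine (Finset.sum_le_card_nsmul _ _ _ h6).trans ?_
  rw [Finset.card_univ, nsmul_eq_mul, ← hk, mul_one_div, div_le_one (by positivity)]
  have h11 : k < 2 ^ k := Nat.lt_two_pow_self
  exact_mod_cast h11.le

/-- conclusion -/
theorem min_form (h : ∃ C : ℝ, 0 < C ∧ ∀ (n d : ℕ) (v : Fin n → Fin d → ℝ),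
      (∀ i, ∑ j, v i j ^ 2 ≤ 1) →
      ∃ e : Fin n → ℝ, (∀ i, e i = 1 ∨ e i = -1) ∧
        ∀ j, |∑ i, e i * v i j| ≤ C * Real.log (Real.log (n + 16)) ^ 6) :
    ∃ C : ℝ, 0 < C ∧ ∀ (n d : ℕ) (v : Fin n → Fin d → ℝ),
      (∀ i, ∑ j, v i j ^ 2 ≤ 1) →
      ∃ e : Fin n → ℝ, (∀ i, e i = 1 ∨ e i = -1) ∧
        ∀ j, |∑ i, e i * v i j| ≤ C * Real.log (Real.log ((min n d : ℕ) + 16)) ^ 6 := by
  classical
  obtain ⟨C, hC, H⟩ := h
  -- the function `log log (x + 16)`
  have hlog16 : (1 : ℝ) ≤ Real.log (Real.log 16) := by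
    have h1 : Real.log 16 = 4 * Real.log 2 := by
      rw [show (16 : ℝ) = 2 ^ 4 by norm_num, Real.log_pow]
      norm_num
    have h2 := Real.log_two_gt_d9
    have h3 := Real.exp_one_lt_d9
    have h4 : Real.exp 1 ≤ Real.log 16 := by
      rw [h1]; norm_num at h2 h3 ⊢; linarith
    rw [← Real.log_exp 1]
    exact Real.log_le_log (Real.exp_pos 1) h4
  have hl16 : (0 : ℝ) < Real.log 16 := Real.log_pos (by norm_num)
  have hmono : ∀ a b : ℕ, a ≤ b →
      Real.log (Real.log ((a : ℝ) + 16)) ≤ Real.log (Real.log ((b : ℝ) + 16)) := by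
    intro a b hab
    have h1 : (a : ℝ) ≤ b := by exact_mod_cast hab
    have h2 : (0 : ℝ) ≤ a := Nat.cast_nonneg a
    have h3 : Real.log 16 ≤ Real.log ((a : ℝ) + 16) := Real.log_le_log (by norm_num) (by linarith)
    exact Real.log_le_log (by linarith) (Real.log_le_log (by linarith) (by linarith))
  have hge : ∀ a : ℕ, 1 ≤ Real.log (Real.log ((a : ℝ) + 16)) := by
    intro a
    have h1 := hmono 0 a (Nat.zero_le a)
    rw [Nat.cast_zero, zero_add] at h1
    linarith
  refine ⟨2 * C + 1, by linarith, fun n d v hv => ?_⟩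
  rcases le_or_gt n d with hnd | hnd
  · obtain ⟨e, he, hej⟩ := H n d v hv
    refine ⟨e, he, fun j => (hej j).trans ?_⟩
    rw [min_eq_left hnd]
    have h1 : 0 ≤ Real.log (Real.log ((n : ℝ) + 16)) ^ 6 := by positivity
    nlinarith
  · rw [min_eq_right hnd.le]
    obtain ⟨x, hx1, hx2, hx3⟩ := basic_solution d v
    set F := univ.filter (fun i => |x i| ≠ 1) with hF
    set L := Real.log (Real.log ((d : ℝ) + 16)) ^ 6 with hL
    have hL1 : 1 ≤ L := one_le_pow₀ (hge d)
    have hent : ∀ i j, |v i j| ≤ 1 := by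
      intro i j
      have h1 : v i j ^ 2 ≤ 1 :=
        (Finset.single_le_sum (f := fun j => v i j ^ 2) (fun j _ => sq_nonneg _)
          (Finset.mem_univ j)).trans (hv i)
      exact abs_le_one_iff_mul_self_le_one.2 (by rw [← pow_two]; exact h1)
    have hsub : ∀ S : Finset F, ∃ e : F → ℝ, (∀ i, e i = 1 ∨ e i = -1) ∧
        ∀ j, |∑ i ∈ S, e i * v i.1 j| ≤ C * L := by
      intro S
      obtain ⟨e, he, hej⟩ := H S.card d (fun a => v (S.equivFin.symm a).1.1) (fun a => hv _)
      refine ⟨fun i => if h : i ∈ S then e (S.equivFin ⟨i, h⟩) else 1, ?_, ?_⟩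
      · intro i
        by_cases h : i ∈ S
        · simp only [h, dif_pos]; exact he _
        · simp [h]
      · intro j
        have h1 : ∑ i ∈ S, (if h : i ∈ S then e (S.equivFin ⟨i, h⟩) else 1) * v i.1 j =
            ∑ a, e a * v (S.equivFin.symm a).1.1 j := by
          rw [← Finset.sum_coe_sort, ← Equiv.sum_comp S.equivFin]
          refine Finset.sum_congr rfl fun i _ => ?_
          rw [dif_pos i.2, Equiv.symm_apply_apply]
        rw [h1]
        refine (hej j).trans ?_
        refine mul_le_mul_of_nonneg_left ?_ hC.le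
        refine pow_le_pow_left₀ (by linarith [hge S.card]) ?_ 6
        refine hmono _ _ ?_
        calc S.card ≤ Fintype.card F := Finset.card_le_univ S
          _ = F.card := Fintype.card_coe F
          _ ≤ d := hx3
    obtain ⟨e, he, hej⟩ := rounding (fun i : F => v i.1) (fun i j => hent i.1 j)
      (by positivity : 0 ≤ C * L) hsub (fun i => x i.1) (fun i => hx1 i.1)
    refine ⟨fun i => if h : i ∈ F then e ⟨i, h⟩ else x i, ?_, ?_⟩
    · intro i
      by_cases h : i ∈ F
      · simp only [h, dif_pos]; exact he _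
      · simp only [h, dif_neg, not_false_eq_true]
        have h1 : |x i| = 1 := by
          by_contra h2
          exact h (Finset.mem_filter.2 ⟨Finset.mem_univ i, h2⟩)
        exact eq_or_eq_neg_of_abs_eq h1
    · intro j
      have h1 : ∑ i, (if h : i ∈ F then e ⟨i, h⟩ else x i) * v i j =
          ∑ i : F, (e i - x i.1) * v i.1 j := by
        have h2 : ∑ i, (if h : i ∈ F then e ⟨i, h⟩ else x i) * v i j =
            ∑ i, ((if h : i ∈ F then e ⟨i, h⟩ else x i) - x i) * v i j := by
          have h3 : ∑ i, ((if h : i ∈ F then e ⟨i, h⟩ else x i) - x i) * v i j =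
              ∑ i, (if h : i ∈ F then e ⟨i, h⟩ else x i) * v i j - ∑ i, x i * v i j := by
            rw [← Finset.sum_sub_distrib]
            exact Finset.sum_congr rfl fun i _ => by ring
          rw [h3, hx2 j, sub_zero]
        rw [h2]
        have h4 : ∑ i, ((if h : i ∈ F then e ⟨i, h⟩ else x i) - x i) * v i j =
            ∑ i ∈ F, ((if h : i ∈ F then e ⟨i, h⟩ else x i) - x i) * v i j := by
          symm
          refine Finset.sum_subset (Finset.subset_univ _) ?_
          intro i _ hi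
          simp [hi]
        rw [h4, ← Finset.sum_coe_sort]
        refine Finset.sum_congr rfl fun i _ => ?_
        rw [dif_pos i.2]
      rw [h1]
      refine (hej j).trans ?_
      nlinarith

end Pool.Agent.LibKG64
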