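import Pool.Agent.LibKh98.ModS
import Pool.Agent.LibKG64.CoreZ

set_option autoImplicit false

/-!
General Komlós bound: the static data (flag of projections, batches, pseudo-inverses) exist.
-/

open Finset Matrix

namespace Pool.Agent.LibKG64

theorem existsSys : ExistsSys := by
  intro ι κ _ _ _ _ a ha l w hl hwl hw hn hm
  have hl' : (1000 : ℝ) ≤ l := by exact_mod_cast hl
  have hl0 : (0 : ℝ) < l := by linarith
  have hl1 : (1 : ℝ) ≤ l := by linarith
  have hW1 : (1 : ℝ) ≤ 2 ^ w := one_le_pow₀ (by norm_num)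
  have hW0 : (0 : ℝ) < 2 ^ w := by positivity
  obtain ⟨Q, hQ⟩ := KH98.exists_sflag a hW1
  have ha' : ∀ p, a p ⬝ᵥ a p ≤ 1 := ha
  obtain ⟨bt, hbt⟩ := KH98.moduleS a ha' hl hwl hw hn hm hQ
  have hη0 : (0 : ℝ) < 1 / (l : ℝ) ^ 5 := by positivity
  have hη : 1 / (l : ℝ) ^ 5 ≤ 1 / 4 := by
    apply one_div_le_one_div_of_le (by norm_num)
    calc (4 : ℝ) ≤ l := by linarith
      _ = (l : ℝ) ^ 1 := (pow_one _).symm
      _ ≤ (l : ℝ) ^ 5 := pow_le_pow_right₀ hl1 (by norm_num)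
  have hcut : ∀ s ≤ l, KH98.Cut a (univ.filter (fun p => s < bt p))
      (univ.filter (fun p => bt p = s)) (Q (s + 12)) ((1 / (2 : ℝ) ^ w) ^ s) ((2 : ℝ) ^ w)
      ((2 : ℝ) ^ w) (1 / (l : ℝ) ^ 5) := fun s hs => hQ.cut hW1 hη0.le hη bt l (by
    intro s hs v
    rw [KH98.qf_Gr, KH98.qf_Gr]
    exact hbt.S1 s hs v) s hs
  have hold : ∀ s (x : κ → ℝ) j, (x - Q s *ᵥ x) j = ((1 - Q s) *ᵥ x) j := by
    intro s x j
    rw [Matrix.sub_mulVec, Matrix.one_mulVec]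
  refine ⟨bt, Q, fun s => KH98.Bi a (univ.filter (fun p => s < bt p)) (Q (s + 12)),
    fun L τ lam B => ⟨?_, ?_⟩⟩
  · refine ⟨hQ.flag, ha, hbt.le, hW1, hη0, ?_, ?_, ?_, ?_, ?_, ?_, ?_, ?_⟩
    · intro s hs
      exact (hcut s hs).Bi_symm
    · intro s hs
      exact (hcut s hs).Q_Bi
    · intro s hs
      exact (hcut s hs).G_Bi
    · intro s hs x
      exact (hcut s hs).dot_Bi_le x
    · intro s hs u hu
      have h1 := (hcut s hs).sparse_V u
      have h2 : (1 - Q (s + 12)) *ᵥ u = u := by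
        rw [Matrix.sub_mulVec, Matrix.one_mulVec]
        have hu' : Q (s + 12) *ᵥ u = 0 := hu
        rw [hu', sub_zero]
      rw [h2] at h1
      calc ∑ p ∈ univ.filter (fun p => bt p = s), (u ⬝ᵥ a p) ^ 2
          = ∑ p ∈ univ.filter (fun p => bt p = s), (a p ⬝ᵥ u) ^ 2 := by
            simp only [dotProduct_comm u]
        _ ≤ 2 * (2 : ℝ) ^ w * (2 : ℝ) ^ w * (u ⬝ᵥ u) := h1
        _ = 2 * ((2 : ℝ) ^ w) ^ 2 * sq u := by unfold sq; ring
    · intro s hs u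
      have h1 := (hcut s hs).dense_V (KH98.Bi a (univ.filter (fun p => s < bt p)) (Q (s + 12)) *ᵥ u)
      rw [(hcut s hs).Q_mulVec_Bi, (hcut s hs).qf_G_Bi, KH98.qf_Gr] at h1
      calc ∑ p ∈ univ.filter (fun p => bt p = s),
            ((KH98.Bi a (univ.filter (fun p => s < bt p)) (Q (s + 12)) *ᵥ u) ⬝ᵥ a p) ^ 2
          = ∑ p ∈ univ.filter (fun p => bt p = s),
            (a p ⬝ᵥ (KH98.Bi a (univ.filter (fun p => s < bt p)) (Q (s + 12)) *ᵥ u)) ^ 2 := by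
            simp only [dotProduct_comm (KH98.Bi a _ _ *ᵥ u)]
        _ ≤ _ := h1
    · intro s hs x
      refine ((hcut s hs).SS_norm x).trans (le_of_eq ?_)
      unfold sq
      ring
    · intro s hs u
      refine ((hcut s hs).SS_V u).trans (le_of_eq ?_)
      unfold sq
      ring
  · have hold' : ∀ p j, (Sys.mk a bt Q (fun s => KH98.Bi a (univ.filter (fun p => s < bt p))
        (Q (s + 12))) 12 L τ lam B).old (bt p) (a p) j = ((1 - Q (bt p)) *ᵥ a p) j :=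
      fun p j => hold (bt p) (a p) j
    constructor
    · intro j
      set A0 : Finset ι := univ.filter (fun p => bt p = 0) with hA0
      set A1 : Finset ι := univ.filter
        (fun p => 1 ≤ bt p ∧ |((1 - Q (bt p)) *ᵥ a p) j| < 1 / (l : ℝ) ^ 4) with hA1
      have hsub : (Sys.mk a bt Q (fun s => KH98.Bi a (univ.filter (fun p => s < bt p))
          (Q (s + 12))) 12 L τ lam B).fine (1 / (l : ℝ) ^ 4) j ⊆ A0 ∪ A1 := by
        intro p hp
        simp only [Sys.fine, Finset.mem_filter, Finset.mem_univ, true_and, hold'] at hp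
        simp only [hA0, hA1, Finset.mem_union, Finset.mem_filter, Finset.mem_univ, true_and]
        rcases Nat.eq_zero_or_pos (bt p) with h | h
        · exact Or.inl h
        · rcases hp with hp | hp
          · exact Or.inl hp
          · exact Or.inr ⟨h, hp⟩
      have h0 : ∑ p ∈ A0, (((1 - Q (bt p)) *ᵥ a p) j) ^ 2 ≤ 1 / (l : ℝ) ^ 2 := by
        have h1 : ∑ p ∈ A0, (((1 - Q (bt p)) *ᵥ a p) j) ^ 2
            = ∑ p ∈ A0, (((1 - Q 0) *ᵥ a p) j) ^ 2 := by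
          apply Finset.sum_congr rfl
          intro p hp
          have : bt p = 0 := by simpa [hA0] using hp
          rw [this]
        rw [h1]
        have h2 : ∑ p ∈ A0, (((1 - Q 0) *ᵥ a p) j) ^ 2 ≤ ∑ p, (((1 - Q 0) *ᵥ a p) j) ^ 2 :=
          Finset.sum_le_sum_of_subset_of_nonneg (Finset.subset_univ _) fun _ _ _ => sq_nonneg _
        refine h2.trans ((hQ.old_row hW1 0 j).trans ?_)
        have hWL : (l : ℝ) ^ 20 ≤ (2 : ℝ) ^ w := by exact_mod_cast hw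
        have h3 : ((2 : ℝ) ^ w) ^ (0 + 1) / ((2 : ℝ) ^ w) ^ 12 = 1 / ((2 : ℝ) ^ w) ^ 11 := by
          rw [zero_add, pow_one]
          field_simp
        rw [h3]
        apply one_div_le_one_div_of_le (by positivity)
        calc (l : ℝ) ^ 2 ≤ (l : ℝ) ^ 20 := pow_le_pow_right₀ hl1 (by norm_num)
          _ ≤ (2 : ℝ) ^ w := hWL
          _ = ((2 : ℝ) ^ w) ^ 1 := (pow_one _).symm
          _ ≤ ((2 : ℝ) ^ w) ^ 11 := pow_le_pow_right₀ hW1 (by norm_num)
      have h1 : ∑ p ∈ A1, (((1 - Q (bt p)) *ᵥ a p) j) ^ 2 ≤ 1 / (l : ℝ) ^ 2 := hbt.S2 j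
      have h2 : ∑ p ∈ (Sys.mk a bt Q (fun s => KH98.Bi a (univ.filter (fun p => s < bt p))
          (Q (s + 12))) 12 L τ lam B).fine (1 / (l : ℝ) ^ 4) j, (((1 - Q (bt p)) *ᵥ a p) j) ^ 2
          ≤ ∑ p ∈ A0 ∪ A1, (((1 - Q (bt p)) *ᵥ a p) j) ^ 2 :=
        Finset.sum_le_sum_of_subset_of_nonneg hsub fun _ _ _ => sq_nonneg _
      have h3 : ∑ p ∈ A0 ∪ A1, (((1 - Q (bt p)) *ᵥ a p) j) ^ 2
          ≤ ∑ p ∈ A0, (((1 - Q (bt p)) *ᵥ a p) j) ^ 2
            + ∑ p ∈ A1, (((1 - Q (bt p)) *ᵥ a p) j) ^ 2 := by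
        rw [← Finset.sum_union_inter]
        have : 0 ≤ ∑ p ∈ A0 ∩ A1, (((1 - Q (bt p)) *ᵥ a p) j) ^ 2 :=
          Finset.sum_nonneg fun _ _ => sq_nonneg _
        linarith
      have h4 : (2 / (l : ℝ)) ^ 2 = 4 * (1 / (l : ℝ) ^ 2) := by ring
      have h5 : 0 ≤ 1 / (l : ℝ) ^ 2 := by positivity
      simp only [hold']
      rw [h4]
      linarith
    · intro j
      rw [Finset.card_le_one]
      intro p hp p' hp'
      simp only [Finset.mem_compl, Sys.fine, Finset.mem_filter, Finset.mem_univ, true_and, hold',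
        not_or, not_lt] at hp hp'
      exact hbt.S3 j p p' (Nat.one_le_iff_ne_zero.mpr hp.1) (Nat.one_le_iff_ne_zero.mpr hp'.1)
        hp.2 hp'.2

end Pool.Agent.LibKG64
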