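import Pool.Agent.LibKG64.TL

set_option autoImplicit false

/-! From the batch theorem for natural `b` to the interface `T2L C 1 b0` (real `b`). -/

open Finset

namespace Pool.Agent.LibKG64

/-- the batch theorem for natural `b` (statement of `LibT85.batch`) -/
def BatchNat (C : ℝ) (b0 : ℕ) : Prop := ∀ b : ℕ, b0 ≤ b →
    ∀ (ι κ K : Type) [Fintype ι] [Fintype κ] [Fintype K] [DecidableEq ι],
      (Fintype.card ι : ℝ) ≤ Real.exp b → (Fintype.card κ : ℝ) ≤ Real.exp b →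
      (Fintype.card K : ℝ) ≤ Real.exp b →
    ∀ a : ι → κ → ℝ, (∀ i, ∑ j, (a i j) ^ 2 ≤ 1) →
      (∀ v : κ → ℝ, ∑ i, (∑ j, v j * a i j) ^ 2 ≤ b * ∑ j, v j ^ 2) →
    ∀ x0 : ι → ℝ, (∀ i, |x0 i| ≤ 1) →
    ∀ ψ : K → κ → ℝ, (∀ k, ∑ j, (ψ k j) ^ 2 ≤ b) →
    ∀ w : K → ℝ, (∀ k, 0 ≤ w k) →
    ∃ x : ι → ℝ, (∀ i, x i = 1 ∨ x i = -1) ∧
      (∀ j, |∑ i, (x i - x0 i) * a i j| ≤ C * √(Real.log b)) ∧
      ∑ k, w k * Real.exp (∑ i, (x i - x0 i) * ∑ j, ψ k j * a i j)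
        ≤ Real.exp (1 / b) * ∑ k, w k * Real.exp (C * ∑ j, (ψ k j) ^ 2)

theorem T2L_of_nat {C : ℝ} (hC : 0 < C) {b0 : ℕ} (h : BatchNat C b0) :
    T2L (2 * C) 1 (max 2 b0) := by
  intro b hb ι ρ K _ _ _ _ _ h1 h2 h3 v x0 ψ w hv hop hx0 hψ hw
  have hb2 : (2 : ℝ) ≤ b := le_trans (le_max_left _ _) hb
  have hbb0 : (b0 : ℝ) ≤ b := le_trans (le_max_right _ _) hb
  have hb0 : (0 : ℝ) < b := by linarith
  set B : ℕ := ⌈b⌉₊ with hB
  have hBb : b ≤ (B : ℝ) := Nat.le_ceil b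
  have hBlt : (B : ℝ) < b + 1 := Nat.ceil_lt_add_one hb0.le
  have hBb0 : b0 ≤ B := by
    have : (b0 : ℝ) ≤ (B : ℝ) := le_trans hbb0 hBb
    exact_mod_cast this
  rw [Real.rpow_one] at h1 h2 h3
  have hexp : Real.exp b ≤ Real.exp B := Real.exp_le_exp.2 hBb
  obtain ⟨x, hx1, hx2, hx3⟩ := h B hBb0 ι ρ K (h1.trans hexp) (h2.trans hexp) (h3.trans hexp)
    v hv (fun u => by
      have := hop u
      rw [Real.rpow_one] at this
      have h4 : 0 ≤ ∑ j, u j ^ 2 := Finset.sum_nonneg fun j _ => sq_nonneg _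
      nlinarith) x0 hx0 ψ (fun k => by
      have := hψ k
      rw [Real.rpow_one] at this
      linarith) w hw
  refine ⟨x, hx1, fun j => (hx2 j).trans ?_, ?_⟩
  · have hlog1 : 0 ≤ Real.log b := Real.log_nonneg (by linarith)
    have hB0 : (0 : ℝ) < B := by linarith
    have h5 : Real.log B ≤ 4 * Real.log b := by
      have h6 : (B : ℝ) ≤ b ^ 4 := by nlinarith [sq_nonneg (b - 1), sq_nonneg b, pow_pos hb0 3, mul_pos hb0 hb0]
      calc Real.log B ≤ Real.log (b ^ 4) := Real.log_le_log hB0 h6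
        _ = 4 * Real.log b := by rw [Real.log_pow]; norm_num
    have h7 : √(Real.log B) ≤ 2 * √(Real.log b) := by
      calc √(Real.log B) ≤ √(4 * Real.log b) := Real.sqrt_le_sqrt h5
        _ = √4 * √(Real.log b) := Real.sqrt_mul (by norm_num) _
        _ = 2 * √(Real.log b) := by
          rw [show (4 : ℝ) = 2 ^ 2 by norm_num, Real.sqrt_sq (by norm_num : (0:ℝ) ≤ 2)]
    calc C * √(Real.log B) ≤ C * (2 * √(Real.log b)) := by gcongr
      _ = 2 * C * √(Real.log b) := by ring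
  · refine hx3.trans ?_
    have h8 : (1 : ℝ) / B ≤ b ^ (-(1 : ℝ)) := by
      rw [Real.rpow_neg_one, ← one_div]
      exact one_div_le_one_div_of_le hb0 hBb
    refine mul_le_mul (Real.exp_le_exp.2 h8) ?_ ?_ (Real.exp_pos _).le
    · refine Finset.sum_le_sum fun k _ => mul_le_mul_of_nonneg_left (Real.exp_le_exp.2 ?_) (hw k)
      have h9 : 0 ≤ ∑ j, ψ k j ^ 2 := Finset.sum_nonneg fun j _ => sq_nonneg _
      nlinarith
    · exact Finset.sum_nonneg fun k _ => mul_nonneg (hw k) (Real.exp_pos _).le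

end Pool.Agent.LibKG64
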