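import Pool.Agent.LibKG64.MS
import Pool.Agent.LibKG64.TW
import Pool.Agent.LibKG64.MIN
import Pool.Agent.LibT85.F3

set_option autoImplicit false

/-!
# The Komlós problem: the bound `C (log log min(n,d)) ^ 6` for all vectors
-/

open Finset

namespace Pool.Agent.LibKG64

theorem main : ∃ C : ℝ, 0 < C ∧ ∀ (n d : ℕ) (v : Fin n → Fin d → ℝ),
      (∀ i, ∑ j, (v i j) ^ 2 ≤ 1) →
      ∃ e : Fin n → ℝ, (∀ i, e i = 1 ∨ e i = -1) ∧
        ∀ j, |∑ i, e i * v i j| ≤ C * Real.log (Real.log ((min n d : ℕ) + 16)) ^ 6 := by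
  obtain ⟨C, hC, b0, _, h⟩ := Pool.Agent.LibT85.batch
  have hT : T2L (2 * C) 1 (max 2 b0) := T2L_of_nat hC (b0 := b0) h
  exact min_form (komlos_of hT (by linarith) one_pos existsSys)

end Pool.Agent.LibKG64
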