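import Pool.Agent.LibKG64.Num5

set_option autoImplicit false

/-!
Numbers, final part: the structure `ZNum` holds for all large `q`.
-/

open Finset Matrix Filter

namespace Pool.Agent.LibKG64

/-- **all numerical conditions hold for large `q`** -/
theorem ZNum_all {C c b0 : ℝ} (hC : 0 < C) {c2 : ℕ} (hc2 : 200 ≤ c * c2) (hc21 : 1 ≤ c2) :
    ∀ᶠ q : ℕ in atTop, ∀ n m : ℕ, (n : ℝ) ≤ Real.exp (2 ^ q) → (m : ℝ) ≤ Real.exp (2 * 2 ^ q) →
      ZNum C c b0 n m q 12 (2 ^ q) (2 ^ q + 13) (2 ^ q) (pd q) (q + 1) (pτ q)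
        ((2 : ℝ) ^ (20 * q)) (1 / ((2 ^ q : ℕ) : ℝ) ^ 5) (2 / ((2 ^ q : ℕ) : ℝ)) (pε q) (pγ q) (peF q)
        (pν q) (pBE q) (pc1 q) (pb c2 q) (pe q) 1 (pΛ C c2 q) (pM3 q) (1 / (q : ℝ) ^ 3)
        (Real.exp (-(4 * 2 ^ q))) (8 * 2 ^ q) (pM0 q) (plam C c2 q) (pB C c2 q) := by
  obtain ⟨q3, hM3⟩ := num_M3 C hC
  filter_upwards [eventually_ge_atTop 4, eventually_ge_atTop q3, num_b0 b0 c2 hc21,
    num_BB hC c2, num_side hC, ev_poly (4 * C * c2) 2] with q hq4 hq3 hb0 hBB hside hΛ n m hn hm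
  have hq : 1 ≤ q := by omega
  have hq1 : (1 : ℝ) ≤ q := by exact_mod_cast hq
  have hX : (1 : ℝ) ≤ 2 ^ q := one_le_pow₀ (by norm_num)
  have hVn := VLA_nonneg (q := q)
  constructor
  · exact pε_nonneg q
  · exact pτ_RPar q
  · exact fun v hv => pτ_le_pε hv
  · exact hq
  · exact pγ_pos q
  · exact peF_pos q
  · exact peF_sq q
  · exact pν_pos q
  · exact fun v hv => num_BE hq v hv
  · exact num_sm hq
  · exact Nat.one_le_two_pow
  · calc 2 ^ q < 2 ^ q * 2 ^ q := by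
          have : 2 ≤ 2 ^ q := by
            calc 2 = 2 ^ 1 := by norm_num
              _ ≤ 2 ^ q := Nat.pow_le_pow_right (by norm_num) hq
          nlinarith
      _ = 4 ^ q := by rw [← mul_pow]; norm_num
  · omega
  · rw [pow_succ]
    have : 1 ≤ 2 ^ q := Nat.one_le_two_pow
    omega
  · exact pc1_pos q
  · exact num_c1 q
  · exact hb0
  · exact pb_one_le c2 q
  · exact num_V hq hc2
  · unfold pe; positivity
  · have := one_div_pow_le (Nat.zero_le (q + 2))
    simpa [pe] using this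
  · exact one_pos
  · exact num_t2 hq hc2
  · exact num_be hq hc2
  · exact num_Λ hC hq hc21
  · exact hM3 q hq3 n m hn hm
  · exact pM3_nonneg q
  · exact num_card1 hq hc2 hn
  · exact num_card2 hq hc2 hn hm
  · have h := num_card3 hq hc2 hn hm
    unfold nP3n
    refine le_trans (le_of_eq ?_) h
    push_cast
    ring
  · exact num_dr hq hΛ
  · exact num_sd hC hq4 hΛ
  · exact num_e2 hq
  · exact hBB
  · exact num_deg q
  · positivity
  · exact Real.exp_pos _
  · positivity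
  · unfold plam pA; positivity
  · unfold pB; positivity
  · exact num_lam hC hq
  · exact num_M hC hq
  · have h := num_start hq hn hm
    exact h
  · exact num_grow q
  · refine le_trans ?_ (num_n1 hq hc2)
    have h1 := pc1_pos q
    have h2 := num_VLA hq
    gcongr
  · exact num_sn hq hc2
  · exact hside

/-- the bound of `Z` with these numbers -/
theorem bound_all {C : ℝ} (hC : 0 < C) (c2 q : ℕ) (hq : 1 ≤ q) :
    plam C c2 q + ((q : ℝ) + 1) * pΛ C c2 q + q * (pB C c2 q + ((q : ℝ) + 1) * pΛ C c2 q) + 4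
      ≤ (2 * pA C c2 + 4) * (q : ℝ) ^ 6 := by
  have hq1 : (1 : ℝ) ≤ q := by exact_mod_cast hq
  have h := num_lam (c2 := c2) hC hq
  have hB0 : 0 ≤ pB C c2 q := by unfold pB; positivity
  have hΛ0 := pΛ_nonneg hC c2 q
  have h6 : (1 : ℝ) ≤ (q : ℝ) ^ 6 := one_le_pow₀ hq1
  have e1 : ((q : ℝ) + 1) * pΛ C c2 q + q * (pB C c2 q + ((q : ℝ) + 1) * pΛ C c2 q)
      ≤ ((q : ℝ) + 1) * (pB C c2 q + ((q : ℝ) + 1) * pΛ C c2 q) := by nlinarith
  have e2 : 0 ≤ plam C c2 q := by unfold plam pA; positivity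
  have e3 : plam C c2 q = pA C c2 * (q : ℝ) ^ 6 := rfl
  nlinarith

end Pool.Agent.LibKG64
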