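import Pool.Agent.LibKG64.L3

set_option autoImplicit false

/-!
Numbers, part 1: the ridge parameters and the error terms of the localisation, of the energies and
of the counting lemma. Everything is a function of one natural number `K` (number of levels `K`,
clusters of size at most `2 ^ K`, at most `2 ^ (K + 1)` batches).
-/

open Finset Matrix

namespace Pool.Agent.LibKG64

/-- ridge parameters -/
noncomputable def pτ (K v : ℕ) : ℝ := 1 / 2 ^ (10 * K * (K - v))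

/-- ratio of the ridge parameters -/
noncomputable def pε (K : ℕ) : ℝ := 1 / 2 ^ (10 * K)

theorem one_div_pow_le {a b : ℕ} (h : a ≤ b) : (1 : ℝ) / 2 ^ b ≤ 1 / 2 ^ a :=
  one_div_le_one_div_of_le (by positivity) (pow_le_pow_right₀ (by norm_num) h)

theorem pτ_pos (K v : ℕ) : 0 < pτ K v := by unfold pτ; positivity

theorem pτ_le_one (K v : ℕ) : pτ K v ≤ 1 := by
  have := one_div_pow_le (Nat.zero_le (10 * K * (K - v)))
  simpa [pτ] using this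

theorem pτ_mono (K v : ℕ) : pτ K v ≤ pτ K (v + 1) := by
  apply one_div_pow_le
  apply Nat.mul_le_mul_left
  omega

theorem pτ_RPar (K : ℕ) : RPar (pτ K) K (pε K) where
  pos := pτ_pos K
  le1 := pτ_le_one K
  mono := pτ_mono K
  ratio := by
    intro v hv
    unfold pτ pε
    have h : 10 * K * (K - v) = 10 * K + 10 * K * (K - (v + 1)) := by
      obtain ⟨c, hc⟩ : ∃ c, K - v = c + 1 := ⟨K - v - 1, by omega⟩
      have hc' : K - (v + 1) = c := by omega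
      rw [hc, hc']; ring
    rw [h, pow_add, one_div_mul_one_div]

theorem pε_nonneg (K : ℕ) : 0 ≤ pε K := by unfold pε; positivity

theorem pτ_le_pε {K v : ℕ} (hv : v < K) : pτ K v ≤ pε K := by
  apply one_div_pow_le
  calc 10 * K = 10 * K * 1 := by ring
    _ ≤ 10 * K * (K - v) := Nat.mul_le_mul_left _ (by omega)

theorem log_pτ (K : ℕ) : Real.log (1 + 1 / pτ K 0) ≤ 10 * (K : ℝ) ^ 2 + 1 := by
  have h1 : 1 / pτ K 0 = 2 ^ (10 * K * K) := by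
    unfold pτ; simp
  have h2 : (1 : ℝ) + 2 ^ (10 * K * K) ≤ 2 ^ (10 * K * K + 1) := by
    rw [pow_succ]
    have : (1 : ℝ) ≤ 2 ^ (10 * K * K) := one_le_pow₀ (by norm_num)
    linarith
  rw [h1]
  refine (Real.log_le_log (by positivity) h2).trans ?_
  rw [Real.log_pow]
  have h3 := Real.log_two_lt_d9
  have h4 : (0 : ℝ) ≤ ((10 * K * K + 1 : ℕ) : ℝ) := Nat.cast_nonneg _
  calc ((10 * K * K + 1 : ℕ) : ℝ) * Real.log 2 ≤ ((10 * K * K + 1 : ℕ) : ℝ) * 1 :=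
        mul_le_mul_of_nonneg_left (by linarith) h4
    _ = 10 * (K : ℝ) ^ 2 + 1 := by push_cast; ring

/-- `√` of a power of two -/
theorem sqrt_two_pow_le (K : ℕ) : √((2 ^ K : ℕ) : ℝ) ≤ 2 ^ K := by
  have h1 : ((2 ^ K : ℕ) : ℝ) = 2 ^ K := by push_cast; ring
  rw [h1]
  have h2 : (1 : ℝ) ≤ 2 ^ K := one_le_pow₀ (by norm_num)
  apply Real.sqrt_le_iff.mpr
  constructor
  · positivity
  · nlinarith

theorem sqrt_pτ_ge (K v : ℕ) : pτ K v ≤ √(pτ K v) := by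
  apply Real.le_sqrt_of_sq_le
  have := pτ_le_one K v
  have := pτ_pos K v
  nlinarith

/-- error of the localisation -/
theorem e1c_le {K a : ℕ} {M3 eF γ : ℝ} (hM : 0 ≤ M3) (hM1 : M3 ≤ 2 ^ (2 * K)) (heF : 0 ≤ eF)
    (heF1 : eF ≤ 1 / 2 ^ a) (hγ : 0 ≤ γ) (hγ1 : γ ≤ eF) :
    e1c (2 ^ K) M3 eF γ (pτ K 0) ≤ 2 ^ (10 * K ^ 2 + 4 * K + 1) / 2 ^ a := by
  unfold e1c
  have hp := pτ_pos K 0
  have hs : 0 < √(pτ K 0) := Real.sqrt_pos.2 hp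
  have h0 : ((2 ^ K : ℕ) : ℝ) = 2 ^ K := by push_cast; ring
  have hl1 : (1 : ℝ) ≤ 2 ^ K := one_le_pow₀ (by norm_num)
  have h1 : M3 * eF + ((2 ^ K : ℕ) : ℝ) * γ * M3 ≤ 2 ^ (3 * K + 1) * (1 / 2 ^ a) := by
    rw [h0]
    have e1 : M3 * eF ≤ 2 ^ (2 * K) * (1 / 2 ^ a) := mul_le_mul hM1 heF1 heF (by positivity)
    have e2 : (2 : ℝ) ^ K * γ * M3 ≤ 2 ^ K * (1 / 2 ^ a) * 2 ^ (2 * K) := by
      apply mul_le_mul _ hM1 hM (by positivity)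
      exact mul_le_mul_of_nonneg_left (hγ1.trans heF1) (by positivity)
    have e3 : (2 : ℝ) ^ (2 * K) * (1 / 2 ^ a) ≤ 2 ^ K * (1 / 2 ^ a) * 2 ^ (2 * K) := by
      have : 0 ≤ (2 : ℝ) ^ (2 * K) * (1 / 2 ^ a) := by positivity
      nlinarith
    have e4 : (2 : ℝ) ^ (3 * K + 1) * (1 / 2 ^ a) = 2 * (2 ^ K * (1 / 2 ^ a) * 2 ^ (2 * K)) := by
      rw [show 3 * K + 1 = K + 2 * K + 1 by ring, pow_add, pow_add]; ring
    rw [e4]; linarith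
  have h2 : √((2 ^ K : ℕ) : ℝ) * (M3 * eF + ((2 ^ K : ℕ) : ℝ) * γ * M3)
      ≤ 2 ^ K * (2 ^ (3 * K + 1) * (1 / 2 ^ a)) := by
    apply mul_le_mul (sqrt_two_pow_le K) h1 (by positivity) (by positivity)
  have h3 : 1 / √(pτ K 0) ≤ 2 ^ (10 * K ^ 2) := by
    have : 1 / √(pτ K 0) ≤ 1 / pτ K 0 := one_div_le_one_div_of_le hp (sqrt_pτ_ge K 0)
    refine this.trans (le_of_eq ?_)
    unfold pτ
    simp only [Nat.sub_zero, one_div_one_div]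
    congr 1; ring
  calc √((2 ^ K : ℕ) : ℝ) * (M3 * eF + ((2 ^ K : ℕ) : ℝ) * γ * M3) / √(pτ K 0)
      = √((2 ^ K : ℕ) : ℝ) * (M3 * eF + ((2 ^ K : ℕ) : ℝ) * γ * M3) * (1 / √(pτ K 0)) := by
        ring
    _ ≤ 2 ^ K * (2 ^ (3 * K + 1) * (1 / 2 ^ a)) * 2 ^ (10 * K ^ 2) :=
        mul_le_mul h2 h3 (by positivity) (by positivity)
    _ = 2 ^ (10 * K ^ 2 + 4 * K + 1) / 2 ^ a := by
        rw [show 10 * K ^ 2 + 4 * K + 1 = K + (3 * K + 1) + 10 * K ^ 2 by ring, pow_add, pow_add]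
        ring

theorem num_e1c_nonneg {K : ℕ} {M3 eF γ : ℝ} (hM : 0 ≤ M3) (heF : 0 ≤ eF) (hγ : 0 ≤ γ) (l : ℕ) :
    0 ≤ e1c l M3 eF γ (pτ K 0) := by
  unfold e1c; positivity

theorem num_e2c_nonneg {K : ℕ} {M3 eF γ : ℝ} (hM : 0 ≤ M3) (heF : 0 ≤ eF) (hγ : 0 ≤ γ) (l L : ℕ) :
    0 ≤ e2c l L M3 eF γ (pτ K 0) := by
  have := pτ_pos K 0
  have := num_e1c_nonneg (K := K) hM heF hγ l
  unfold e2c; positivity

/-- error of the localisation of `ζ` -/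
theorem e2c_le {K a : ℕ} (hK : 1 ≤ K) {M3 eF γ : ℝ} (hM : 0 ≤ M3) (hM1 : M3 ≤ 2 ^ (2 * K))
    (heF : 0 ≤ eF) (heF1 : eF ≤ 1 / 2 ^ a) (hγ : 0 ≤ γ) (hγ1 : γ ≤ eF) :
    e2c (2 ^ K) K M3 eF γ (pτ K 0) ≤ 2 ^ (27 * K ^ 3) / 2 ^ a := by
  unfold e2c
  have h1 : (4 / pτ K 0) ^ K = (2 : ℝ) ^ ((2 + 10 * K ^ 2) * K) := by
    have : 4 / pτ K 0 = (2 : ℝ) ^ (2 + 10 * K ^ 2) := by
      unfold pτ
      rw [pow_add, Nat.sub_zero, show 10 * K * K = 10 * K ^ 2 by ring]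
      field_simp
      norm_num
    rw [this, ← pow_mul]
  rw [h1]
  calc (2 : ℝ) ^ ((2 + 10 * K ^ 2) * K) * e1c (2 ^ K) M3 eF γ (pτ K 0)
      ≤ 2 ^ ((2 + 10 * K ^ 2) * K) * (2 ^ (10 * K ^ 2 + 4 * K + 1) / 2 ^ a) :=
        mul_le_mul_of_nonneg_left (e1c_le hM hM1 heF heF1 hγ hγ1) (by positivity)
    _ = 2 ^ ((2 + 10 * K ^ 2) * K + (10 * K ^ 2 + 4 * K + 1)) / 2 ^ a := by
        rw [pow_add 2 ((2 + 10 * K ^ 2) * K)]; ring
    _ ≤ 2 ^ (27 * K ^ 3) / 2 ^ a := by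
        apply div_le_div_of_nonneg_right _ (by positivity)
        apply pow_le_pow_right₀ (by norm_num)
        nlinarith [Nat.pow_le_pow_left hK 2, Nat.mul_le_mul hK hK,
          Nat.mul_le_mul (Nat.mul_le_mul hK hK) hK, mul_pos (Nat.pos_of_ne_zero (by omega : K ≠ 0))
            (Nat.pos_of_ne_zero (by omega : K ≠ 0)), sq_nonneg (K - 1)]

end Pool.Agent.LibKG64
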