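import Pool.Agent.LibKG64.Num1

set_option autoImplicit false

/-!
Numbers, part 2: the parameters and their first properties. `q` is the scale (`log n ≤ 2 ^ q`), `c2`
is a natural number with `200 ≤ c * c2`.
-/

open Finset Matrix Filter

namespace Pool.Agent.LibKG64

theorem ev_poly (A : ℝ) (d : ℕ) : ∀ᶠ q : ℕ in atTop, A * (q : ℝ) ^ d ≤ 2 ^ q := by
  have h := tendsto_pow_const_div_const_pow_of_one_lt d (r := (2 : ℝ)) (by norm_num)
  have h2 : Tendsto (fun n : ℕ => A * ((n : ℝ) ^ d / 2 ^ n)) atTop (nhds 0) := by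
    simpa using h.const_mul A
  filter_upwards [h2.eventually_lt_const (show (0 : ℝ) < 1 by norm_num)] with n hn
  have h3 : (0 : ℝ) < 2 ^ n := by positivity
  have h4 : A * (n : ℝ) ^ d = A * ((n : ℝ) ^ d / 2 ^ n) * 2 ^ n := by field_simp
  rw [h4]
  nlinarith

/-- size of the small entries -/
noncomputable def pγ (q : ℕ) : ℝ := 1 / 2 ^ (200 * q ^ 3)

/-- `eF` -/
noncomputable def peF (q : ℕ) : ℝ := √(2 * (((2 ^ q : ℕ) : ℝ) + 1)) * pγ q

/-- `BE` -/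
noncomputable def pBE (q : ℕ) : ℝ := 2 ^ (92 * q ^ 3)

/-- eigenvalue threshold -/
noncomputable def pν (q : ℕ) : ℝ := 1 / 2 ^ (20 * q)

/-- normalisation of the columns -/
noncomputable def pc1 (q : ℕ) : ℝ := 1 / √(4 * (q : ℝ) + 8)

/-- parameter of the batch theorem -/
noncomputable def pb (c2 q : ℕ) : ℝ := 2 ^ (c2 * q ^ 3)

/-- growth per batch -/
noncomputable def pe (q : ℕ) : ℝ := 1 / 2 ^ (q + 2)

/-- row bound -/
noncomputable def pΛ (C : ℝ) (c2 q : ℕ) : ℝ := 4 * C * c2 * (q : ℝ) ^ 2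

/-- bound of the unit functionals -/
noncomputable def pM3 (q : ℕ) : ℝ := 2 ^ (2 * q)

theorem pγ_pos (q : ℕ) : 0 < pγ q := by unfold pγ; positivity

theorem pγ_le_one (q : ℕ) : pγ q ≤ 1 := by
  have := one_div_pow_le (Nat.zero_le (200 * q ^ 3))
  simpa [pγ] using this

theorem cast_two_pow (q : ℕ) : ((2 ^ q : ℕ) : ℝ) = 2 ^ q := by push_cast; ring

theorem peF_pos (q : ℕ) : 0 < peF q := by
  unfold peF
  have := pγ_pos q
  positivity

theorem peF_sq (q : ℕ) : peF q ^ 2 = 2 * (((2 ^ q : ℕ) : ℝ) + 1) * pγ q ^ 2 := by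
  unfold peF
  rw [mul_pow, Real.sq_sqrt (by positivity)]

theorem pγ_le_peF (q : ℕ) : pγ q ≤ peF q := by
  unfold peF
  have h1 : 1 ≤ √(2 * (((2 ^ q : ℕ) : ℝ) + 1)) := by
    rw [Real.one_le_sqrt]
    have : (0 : ℝ) ≤ ((2 ^ q : ℕ) : ℝ) := Nat.cast_nonneg _
    linarith
  exact le_mul_of_one_le_left (pγ_pos q).le h1

theorem peF_le {q : ℕ} (hq : 1 ≤ q) : peF q ≤ 1 / 2 ^ (198 * q ^ 3) := by
  unfold peF pγ
  rw [cast_two_pow]
  have h1 : √(2 * ((2 : ℝ) ^ q + 1)) ≤ 2 ^ (q + 1) := by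
    apply Real.sqrt_le_iff.mpr
    constructor
    · positivity
    · have : (1 : ℝ) ≤ 2 ^ q := one_le_pow₀ (by norm_num)
      have e : (2 : ℝ) ^ (q + 1) = 2 * 2 ^ q := by rw [pow_succ]; ring
      rw [e]
      nlinarith
  have h2 : (2 : ℝ) ^ (q + 1) ≤ 2 ^ (2 * q ^ 3) := by
    apply pow_le_pow_right₀ (by norm_num)
    have : q ≤ q ^ 3 := Nat.le_self_pow (by norm_num) q
    have : 1 ≤ q ^ 3 := Nat.one_le_pow _ _ hq
    omega
  calc √(2 * ((2 : ℝ) ^ q + 1)) * (1 / 2 ^ (200 * q ^ 3))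
      ≤ 2 ^ (2 * q ^ 3) * (1 / 2 ^ (200 * q ^ 3)) :=
        mul_le_mul_of_nonneg_right (h1.trans h2) (by positivity)
    _ = 1 / 2 ^ (198 * q ^ 3) := by
        rw [show 200 * q ^ 3 = 2 * q ^ 3 + 198 * q ^ 3 by ring, pow_add]
        field_simp

theorem pν_pos (q : ℕ) : 0 < pν q := by unfold pν; positivity

theorem num_BE {q : ℕ} (hq : 1 ≤ q) (v : ℕ) (hv : v < q) :
    (∏ v' ∈ range v, (4 / pτ q v' ^ 2)) * (1 / (pν q ^ 2 * pτ q v ^ 3)) ≤ pBE q := by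
  have hτ : ∀ u, 1 / pτ q u ≤ 2 ^ (10 * q * q) := by
    intro u
    unfold pτ
    rw [one_div_one_div]
    apply pow_le_pow_right₀ (by norm_num)
    exact Nat.mul_le_mul_left _ (Nat.sub_le _ _)
  have h1 : ∀ u, 4 / pτ q u ^ 2 ≤ (2 : ℝ) ^ (2 + 20 * q * q) := by
    intro u
    have h2 : (1 / pτ q u) ^ 2 ≤ ((2 : ℝ) ^ (10 * q * q)) ^ 2 :=
      pow_le_pow_left₀ (by have := pτ_pos q u; positivity) (hτ u) 2
    calc 4 / pτ q u ^ 2 = 4 * (1 / pτ q u) ^ 2 := by ring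
      _ ≤ 4 * ((2 : ℝ) ^ (10 * q * q)) ^ 2 := by linarith
      _ = (2 : ℝ) ^ (2 + 20 * q * q) := by
          rw [pow_add, ← pow_mul, show 10 * q * q * 2 = 20 * q * q by ring]; norm_num
  have h3 : ∏ v' ∈ range v, (4 / pτ q v' ^ 2) ≤ ((2 : ℝ) ^ (2 + 20 * q * q)) ^ v := by
    calc ∏ v' ∈ range v, (4 / pτ q v' ^ 2) ≤ ∏ _v' ∈ range v, (2 : ℝ) ^ (2 + 20 * q * q) :=
          Finset.prod_le_prod (fun u _ => by have := pτ_pos q u; positivity) (fun u _ => h1 u)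
      _ = _ := by simp
  have h4 : 1 / (pν q ^ 2 * pτ q v ^ 3) ≤ (2 : ℝ) ^ (40 * q + 30 * q * q) := by
    have h5 : (1 / pτ q v) ^ 3 ≤ ((2 : ℝ) ^ (10 * q * q)) ^ 3 :=
      pow_le_pow_left₀ (by have := pτ_pos q v; positivity) (hτ v) 3
    have h6 : 1 / (pν q ^ 2 * pτ q v ^ 3) = (1 / pν q) ^ 2 * (1 / pτ q v) ^ 3 := by
      have := pτ_pos q v
      have := pν_pos q
      field_simp
    rw [h6]
    have h7 : (1 / pν q) ^ 2 = (2 : ℝ) ^ (40 * q) := by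
      unfold pν
      rw [one_div_one_div, ← pow_mul]; congr 1; ring
    rw [h7, pow_add]
    apply mul_le_mul_of_nonneg_left _ (by positivity)
    refine h5.trans (le_of_eq ?_)
    rw [← pow_mul]; congr 1; ring
  calc (∏ v' ∈ range v, (4 / pτ q v' ^ 2)) * (1 / (pν q ^ 2 * pτ q v ^ 3))
      ≤ ((2 : ℝ) ^ (2 + 20 * q * q)) ^ v * (2 : ℝ) ^ (40 * q + 30 * q * q) :=
        mul_le_mul h3 h4 (by have := pτ_pos q v; have := pν_pos q; positivity) (by positivity)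
    _ = (2 : ℝ) ^ ((2 + 20 * q * q) * v + (40 * q + 30 * q * q)) := by
        rw [pow_add 2 ((2 + 20 * q * q) * v), pow_mul 2 (2 + 20 * q * q) v]
    _ ≤ pBE q := by
        unfold pBE
        apply pow_le_pow_right₀ (by norm_num)
        have e1 : (2 + 20 * q * q) * v ≤ (2 + 20 * q * q) * q := Nat.mul_le_mul_left _ hv.le
        have e2 : q ≤ q ^ 3 := Nat.le_self_pow (by norm_num) q
        have e3 : q * q ≤ q ^ 3 := by
          calc q * q = q ^ 2 := by ring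
            _ ≤ q ^ 3 := Nat.pow_le_pow_right hq (by norm_num)
        have e4 : (2 + 20 * q * q) * q = 2 * q + 20 * q ^ 3 := by ring
        have e5 : 30 * q * q = 30 * (q * q) := by ring
        omega

/-- bookkeeping of exponents: `q + 1 ≤ 2 q ^ 3` and so on -/
theorem cube_ge {q : ℕ} (hq : 1 ≤ q) : q ≤ q ^ 3 ∧ 1 ≤ q ^ 3 ∧ q * q ≤ q ^ 3 :=
  ⟨Nat.le_self_pow (by norm_num) q, Nat.one_le_pow _ _ hq, by
    calc q * q = q ^ 2 := by ring
      _ ≤ q ^ 3 := Nat.pow_le_pow_right hq (by norm_num)⟩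

theorem num_sm {q : ℕ} (hq : 1 ≤ q) :
    pBE q * (2 * pγ q * ((2 ^ q : ℕ) : ℝ) ^ 2 * ((2 * 2 ^ q + 2 : ℕ) : ℝ)
      + ((2 ^ q : ℕ) : ℝ) * peF q ^ 2) ≤ 1 := by
  rw [peF_sq]
  push_cast
  have hX : (1 : ℝ) ≤ 2 ^ q := one_le_pow₀ (by norm_num)
  have hg := pγ_pos q
  have hg1 := pγ_le_one q
  set X : ℝ := 2 ^ q with hXdef
  have h1 : 2 * pγ q * X ^ 2 * (2 * X + 2) ≤ 8 * X ^ 3 * pγ q := by
    have : 2 * X + 2 ≤ 4 * X := by linarith
    calc 2 * pγ q * X ^ 2 * (2 * X + 2) ≤ 2 * pγ q * X ^ 2 * (4 * X) :=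
          mul_le_mul_of_nonneg_left this (by positivity)
      _ = 8 * X ^ 3 * pγ q := by ring
  have h2 : X * (2 * (X + 1) * pγ q ^ 2) ≤ 4 * X ^ 3 * pγ q := by
    have e1 : pγ q ^ 2 ≤ pγ q := by nlinarith
    have e2 : 2 * (X + 1) ≤ 4 * X := by linarith
    have e3 : X ^ 2 ≤ X ^ 3 := pow_le_pow_right₀ hX (by norm_num)
    calc X * (2 * (X + 1) * pγ q ^ 2) ≤ X * (4 * X * pγ q) := by
          apply mul_le_mul_of_nonneg_left _ (by positivity)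
          exact mul_le_mul e2 e1 (by positivity) (by positivity)
      _ = 4 * X ^ 2 * pγ q := by ring
      _ ≤ 4 * X ^ 3 * pγ q := by
          apply mul_le_mul_of_nonneg_right _ hg.le
          linarith
  have h3 : 2 * pγ q * X ^ 2 * (2 * X + 2) + X * (2 * (X + 1) * pγ q ^ 2)
      ≤ 16 * X ^ 3 * pγ q := by
    have : 0 ≤ X ^ 3 * pγ q := by positivity
    linarith
  calc pBE q * (2 * pγ q * X ^ 2 * (2 * X + 2) + X * (2 * (X + 1) * pγ q ^ 2))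
      ≤ pBE q * (16 * X ^ 3 * pγ q) := mul_le_mul_of_nonneg_left h3 (by unfold pBE; positivity)
    _ = 2 ^ (92 * q ^ 3 + (4 + 3 * q)) * (1 / 2 ^ (200 * q ^ 3)) := by
        unfold pBE pγ
        rw [hXdef, ← pow_mul, pow_add, pow_add, show q * 3 = 3 * q by ring]
        ring
    _ ≤ 2 ^ (200 * q ^ 3) * (1 / 2 ^ (200 * q ^ 3)) := by
        apply mul_le_mul_of_nonneg_right _ (by positivity)
        apply pow_le_pow_right₀ (by norm_num)
        obtain ⟨e1, e2, e3⟩ := cube_ge hq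
        omega
    _ = 1 := by field_simp

theorem pc1_pos (q : ℕ) : 0 < pc1 q := by unfold pc1; positivity

theorem pc1_sq (q : ℕ) : pc1 q ^ 2 = 1 / (4 * (q : ℝ) + 8) := by
  unfold pc1
  rw [div_pow, one_pow, Real.sq_sqrt (by positivity)]

theorem num_c1 (q : ℕ) : pc1 q ^ 2 * (4 * (q : ℝ) + 8) ≤ 1 := by
  rw [pc1_sq]
  have : (0 : ℝ) < 4 * (q : ℝ) + 8 := by positivity
  rw [one_div, inv_mul_cancel₀ this.ne']

theorem div_c1 (q : ℕ) (C : ℝ) : C / pc1 q ^ 2 = C * (4 * (q : ℝ) + 8) := by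
  rw [pc1_sq, div_div_eq_mul_div, div_one]

theorem four_q_le {q : ℕ} (hq : 1 ≤ q) : 4 * (q : ℝ) + 8 ≤ 12 * q := by
  have : (1 : ℝ) ≤ q := by exact_mod_cast hq
  linarith

theorem pb_one_le (c2 q : ℕ) : 1 ≤ pb c2 q := one_le_pow₀ (by norm_num)

theorem bc_ge {c : ℝ} (c2 q : ℕ) (hc2 : 200 ≤ c * c2) :
    (2 : ℝ) ^ (200 * q ^ 3) ≤ pb c2 q ^ c := by
  unfold pb
  rw [← Real.rpow_natCast 2 (200 * q ^ 3), ← Real.rpow_natCast 2 (c2 * q ^ 3),
    ← Real.rpow_mul (by norm_num)]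
  apply Real.rpow_le_rpow_of_exponent_le (by norm_num)
  push_cast
  have h : (0 : ℝ) ≤ (q : ℝ) ^ 3 := by positivity
  calc (200 : ℝ) * (q : ℝ) ^ 3 ≤ c * c2 * (q : ℝ) ^ 3 := mul_le_mul_of_nonneg_right hc2 h
    _ = c2 * (q : ℝ) ^ 3 * c := by ring

/-- everything of the form `2 ^ (92 q^3 + 100 q + 8)` is at most `b ^ c` -/
theorem le_bc {c : ℝ} {c2 q : ℕ} (hq : 1 ≤ q) (hc2 : 200 ≤ c * c2) {y : ℝ}
    (h : y ≤ 2 ^ (92 * q ^ 3 + 100 * q + 8)) : y ≤ pb c2 q ^ c := by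
  refine h.trans (le_trans ?_ (bc_ge c2 q hc2))
  apply pow_le_pow_right₀ (by norm_num)
  obtain ⟨e1, e2, e3⟩ := cube_ge hq
  omega

theorem q_le_two_pow (q : ℕ) : (q : ℝ) ≤ 2 ^ q := by
  have : q < 2 ^ q := Nat.lt_two_pow_self
  exact_mod_cast this.le

theorem num_V {c : ℝ} {c2 q : ℕ} (hq : 1 ≤ q) (hc2 : 200 ≤ c * c2) :
    12 * ((2 : ℝ) ^ (20 * q)) ^ 2 * (q + q * (((2 ^ q : ℕ) : ℝ) * pBE q) + 4)
      ≤ pb c2 q ^ c := by
  apply le_bc hq hc2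
  rw [cast_two_pow]
  have hX : (1 : ℝ) ≤ 2 ^ q := one_le_pow₀ (by norm_num)
  have hqX := q_le_two_pow q
  have hBE : (1 : ℝ) ≤ pBE q := one_le_pow₀ (by norm_num)
  have hq0 : (0 : ℝ) ≤ q := Nat.cast_nonneg q
  have h1 : (q : ℝ) + q * (2 ^ q * pBE q) + 4 ≤ 8 * ((2 : ℝ) ^ q) ^ 2 * pBE q := by
    set X : ℝ := 2 ^ q
    have e1 : 1 ≤ X ^ 2 * pBE q := by
      have : 1 ≤ X ^ 2 := one_le_pow₀ hX
      nlinarith
    have e2 : (q : ℝ) ≤ X ^ 2 * pBE q := by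
      have : X ≤ X ^ 2 := by nlinarith
      nlinarith
    have e3 : (q : ℝ) * (X * pBE q) ≤ X * (X * pBE q) :=
      mul_le_mul_of_nonneg_right hqX (by positivity)
    have e4 : X * (X * pBE q) = X ^ 2 * pBE q := by ring
    nlinarith
  calc 12 * ((2 : ℝ) ^ (20 * q)) ^ 2 * (q + q * (2 ^ q * pBE q) + 4)
      ≤ 16 * ((2 : ℝ) ^ (20 * q)) ^ 2 * (8 * ((2 : ℝ) ^ q) ^ 2 * pBE q) := by
        apply mul_le_mul _ h1 (by positivity) (by positivity)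
        have : (0 : ℝ) ≤ ((2 : ℝ) ^ (20 * q)) ^ 2 := by positivity
        linarith
    _ = 2 ^ (92 * q ^ 3 + 42 * q + 7) := by
        unfold pBE
        rw [← pow_mul, ← pow_mul, show 92 * q ^ 3 + 42 * q + 7 = 7 + 20 * q * 2 + q * 2 + 92 * q ^ 3
          by ring, pow_add, pow_add, pow_add]
        norm_num
        ring
    _ ≤ 2 ^ (92 * q ^ 3 + 100 * q + 8) := pow_le_pow_right₀ (by norm_num) (by omega)

theorem num_be {c : ℝ} {c2 q : ℕ} (hq : 1 ≤ q) (hc2 : 200 ≤ c * c2) :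
    Real.exp (pb c2 q ^ (-c)) * (1 + pe q / 2) ≤ 1 + pe q := by
  have hb0 : 0 < pb c2 q := lt_of_lt_of_le one_pos (pb_one_le c2 q)
  have h1 : (2 : ℝ) ^ (q + 5) ≤ pb c2 q ^ c := by
    apply le_bc hq hc2
    apply pow_le_pow_right₀ (by norm_num)
    omega
  have h2 : pb c2 q ^ (-c) ≤ pe q / 8 := by
    rw [Real.rpow_neg hb0.le]
    calc (pb c2 q ^ c)⁻¹ ≤ ((2 : ℝ) ^ (q + 5))⁻¹ := inv_anti₀ (by positivity) h1
      _ = pe q / 8 := by
          unfold pe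
          rw [pow_add, pow_add]
          norm_num
          ring
  have h3 : 0 ≤ pb c2 q ^ (-c) := by positivity
  have he0 : 0 < pe q := by unfold pe; positivity
  have he1 : pe q ≤ 1 := by
    have := one_div_pow_le (Nat.zero_le (q + 2))
    simpa [pe] using this
  set x := pb c2 q ^ (-c)
  have h4 : Real.exp x ≤ 1 + 2 * x := by
    have h5 : |Real.exp x - 1 - x| ≤ x ^ 2 := Real.abs_exp_sub_one_sub_id_le (by
      rw [abs_of_nonneg h3]; linarith)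
    have h6 := (abs_le.mp h5).2
    nlinarith
  calc Real.exp x * (1 + pe q / 2) ≤ (1 + 2 * x) * (1 + pe q / 2) :=
        mul_le_mul_of_nonneg_right h4 (by positivity)
    _ ≤ (1 + pe q / 4) * (1 + pe q / 2) :=
        mul_le_mul_of_nonneg_right (by linarith) (by positivity)
    _ ≤ 1 + pe q := by nlinarith

theorem num_Λ {C : ℝ} (hC : 0 < C) {c2 q : ℕ} (hq : 1 ≤ q) (hc2 : 1 ≤ c2) :
    C * √(Real.log (pb c2 q)) / pc1 q ≤ pΛ C c2 q := by
  have hq1 : (1 : ℝ) ≤ q := by exact_mod_cast hq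
  have hc1 : (1 : ℝ) ≤ c2 := by exact_mod_cast hc2
  have h1 : Real.log (pb c2 q) ≤ c2 * (q : ℝ) ^ 3 := by
    unfold pb
    rw [Real.log_pow]
    push_cast
    have := Real.log_two_lt_d9
    have h0 : (0 : ℝ) ≤ c2 * (q : ℝ) ^ 3 := by positivity
    nlinarith
  have h2 : C * √(Real.log (pb c2 q)) / pc1 q
      = C * (√(Real.log (pb c2 q)) * √(4 * (q : ℝ) + 8)) := by
    unfold pc1
    rw [div_div_eq_mul_div, div_one]; ring
  rw [h2]
  have h3 : √(Real.log (pb c2 q)) * √(4 * (q : ℝ) + 8) ≤ 4 * c2 * (q : ℝ) ^ 2 := by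
    rw [← Real.sqrt_mul' _ (by positivity)]
    apply Real.sqrt_le_iff.mpr
    refine ⟨by positivity, ?_⟩
    calc Real.log (pb c2 q) * (4 * (q : ℝ) + 8) ≤ (c2 * (q : ℝ) ^ 3) * (12 * q) :=
          mul_le_mul h1 (four_q_le hq) (by positivity) (by positivity)
      _ = 12 * c2 * (q : ℝ) ^ 4 := by ring
      _ ≤ 16 * (c2 * c2) * (q : ℝ) ^ 4 := by
          apply mul_le_mul_of_nonneg_right _ (by positivity)
          nlinarith
      _ = (4 * c2 * (q : ℝ) ^ 2) ^ 2 := by ring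
  unfold pΛ
  calc C * (√(Real.log (pb c2 q)) * √(4 * (q : ℝ) + 8)) ≤ C * (4 * c2 * (q : ℝ) ^ 2) :=
        mul_le_mul_of_nonneg_left h3 hC.le
    _ = 4 * C * c2 * (q : ℝ) ^ 2 := by ring

end Pool.Agent.LibKG64
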