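import Pool.Agent.LibKG64.Num2

set_option autoImplicit false

/-!
Numbers, part 3: cardinalities, potentials, growth.
-/

open Finset Matrix Filter

namespace Pool.Agent.LibKG64

theorem two_pow_le_exp (a : ℕ) : (2 : ℝ) ^ a ≤ Real.exp a := by
  have h : (2 : ℝ) ≤ Real.exp 1 := by
    have := Real.add_one_le_exp (1 : ℝ)
    linarith
  calc (2 : ℝ) ^ a ≤ Real.exp 1 ^ a := pow_le_pow_left₀ (by norm_num) h a
    _ = Real.exp a := by rw [← Real.exp_nat_mul]; simp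

/-- the list of unit functionals is short -/
theorem nP3_bd {q n m : ℕ} (hq : 1 ≤ q) (hn : (n : ℝ) ≤ Real.exp (2 ^ q))
    (hm : (m : ℝ) ≤ Real.exp (2 * 2 ^ q)) :
    ((3 * (m * q) + m * (q * m) + m + n : ℕ) : ℝ) + 1 ≤ 2 ^ (q + 3) * Real.exp (4 * 2 ^ q) := by
  have hX : (1 : ℝ) ≤ 2 ^ q := one_le_pow₀ (by norm_num)
  have hqX := q_le_two_pow q
  have hq1 : (1 : ℝ) ≤ q := by exact_mod_cast hq
  set E : ℝ := Real.exp (2 ^ q) with hE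
  have hE1 : 1 ≤ E := Real.one_le_exp (by positivity)
  have e2 : Real.exp (2 * 2 ^ q) = E ^ 2 := by rw [hE, ← Real.exp_nat_mul]; norm_num
  have e4 : Real.exp (4 * 2 ^ q) = E ^ 4 := by rw [hE, ← Real.exp_nat_mul]; norm_num
  rw [e2] at hm
  rw [e4]
  push_cast
  have hE2 : 1 ≤ E ^ 2 := one_le_pow₀ hE1
  have hE24 : E ^ 2 ≤ E ^ 4 := pow_le_pow_right₀ hE1 (by norm_num)
  have hE14 : E ≤ E ^ 4 := by simpa using pow_le_pow_right₀ hE1 (show 1 ≤ 4 by norm_num)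
  have hE4 : 1 ≤ E ^ 4 := one_le_pow₀ hE1
  have hm0 : (0 : ℝ) ≤ m := Nat.cast_nonneg m
  have t1 : 3 * ((m : ℝ) * q) ≤ 3 * (E ^ 4 * q) := by
    have : (m : ℝ) ≤ E ^ 4 := hm.trans hE24
    nlinarith
  have t2 : (m : ℝ) * (q * m) ≤ q * E ^ 4 := by
    have : (m : ℝ) * m ≤ E ^ 2 * E ^ 2 := mul_le_mul hm hm hm0 (by positivity)
    have e : E ^ 2 * E ^ 2 = E ^ 4 := by ring
    rw [e] at this
    nlinarith
  have e : (2 : ℝ) ^ (q + 3) = 8 * 2 ^ q := by rw [pow_add]; ring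
  rw [e]
  have t3 : (q : ℝ) * E ^ 4 ≤ 2 ^ q * E ^ 4 := mul_le_mul_of_nonneg_right hqX (by positivity)
  have t4 : E ^ 4 ≤ 2 ^ q * E ^ 4 := le_mul_of_one_le_left (by positivity) hX
  have t5 : (m : ℝ) ≤ E ^ 4 := hm.trans hE24
  have t6 : (n : ℝ) ≤ E ^ 4 := hn.trans hE14
  nlinarith

theorem nP3_bd' {q n m : ℕ} (hq : 1 ≤ q) (hn : (n : ℝ) ≤ Real.exp (2 ^ q))
    (hm : (m : ℝ) ≤ Real.exp (2 * 2 ^ q)) :
    ((3 * (m * q) + m * (q * m) + m + n : ℕ) : ℝ) + 1 ≤ Real.exp (8 * 2 ^ q) := by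
  refine (nP3_bd hq hn hm).trans ?_
  calc (2 : ℝ) ^ (q + 3) * Real.exp (4 * 2 ^ q) ≤ Real.exp ((q + 3 : ℕ) : ℝ) * Real.exp (4 * 2 ^ q) :=
        mul_le_mul_of_nonneg_right (two_pow_le_exp _) (Real.exp_nonneg _)
    _ = Real.exp (((q + 3 : ℕ) : ℝ) + 4 * 2 ^ q) := (Real.exp_add _ _).symm
    _ ≤ Real.exp (8 * 2 ^ q) := by
        apply Real.exp_le_exp.mpr
        have hX : (1 : ℝ) ≤ 2 ^ q := one_le_pow₀ (by norm_num)
        have hqX := q_le_two_pow q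
        push_cast
        linarith

/-- the bound of the unit functionals (`t = 1`) -/
theorem num_M3 (C : ℝ) (hC : 0 < C) : ∃ q0 : ℕ, ∀ q ≥ q0, ∀ n m : ℕ,
    (n : ℝ) ≤ Real.exp (2 ^ q) → (m : ℝ) ≤ Real.exp (2 * 2 ^ q) →
    (Real.log (8 * (((3 * (m * q) + m * (q * m) + m + n : ℕ) : ℝ) + 1) / pe q)
      + C / pc1 q ^ 2 * 1 ^ 2) / 1 ≤ pM3 q := by
  have h1 := ev_poly (17 + 12 * C) 1
  obtain ⟨q0, hq0⟩ := Filter.eventually_atTop.mp h1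
  refine ⟨max q0 4, fun q hq n m hn hm => ?_⟩
  have hq4 : 4 ≤ q := le_trans (le_max_right _ _) hq
  have h2 := hq0 q (le_trans (le_max_left _ _) hq)
  rw [pow_one] at h2
  have hq1 : (1 : ℝ) ≤ q := by exact_mod_cast (by omega : 1 ≤ q)
  have hX16 : (16 : ℝ) ≤ 2 ^ q := by
    calc (16 : ℝ) = 2 ^ 4 := by norm_num
      _ ≤ 2 ^ q := pow_le_pow_right₀ (by norm_num) hq4
  rw [div_c1, one_pow, mul_one, div_one]
  have hb := nP3_bd' (by omega : 1 ≤ q) hn hm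
  set Z : ℝ := ((3 * (m * q) + m * (q * m) + m + n : ℕ) : ℝ) + 1 with hZ
  have hZ1 : 1 ≤ Z := by
    rw [hZ]
    have : (0 : ℝ) ≤ ((3 * (m * q) + m * (q * m) + m + n : ℕ) : ℝ) := Nat.cast_nonneg _
    linarith
  have h3 : 8 * Z / pe q ≤ Real.exp ((q + 5 : ℕ) : ℝ) * Real.exp (8 * 2 ^ q) := by
    have e1 : 8 * Z / pe q = 2 ^ (q + 5) * Z := by
      unfold pe
      rw [pow_add, pow_add]
      field_simp
      norm_num
    rw [e1]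
    exact mul_le_mul (two_pow_le_exp _) hb (by linarith) (Real.exp_nonneg _)
  rw [← Real.exp_add] at h3
  have h4 : Real.log (8 * Z / pe q) ≤ ((q + 5 : ℕ) : ℝ) + 8 * 2 ^ q := by
    have hpos : 0 < 8 * Z / pe q := by
      have : 0 < pe q := by unfold pe; positivity
      positivity
    calc Real.log (8 * Z / pe q) ≤ Real.log (Real.exp (((q + 5 : ℕ) : ℝ) + 8 * 2 ^ q)) :=
          Real.log_le_log hpos h3
      _ = _ := Real.log_exp _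
  have h5 := four_q_le (by omega : 1 ≤ q)
  have h6 : C * (4 * (q : ℝ) + 8) ≤ C * (12 * q) := mul_le_mul_of_nonneg_left h5 hC.le
  have h7 : pM3 q = 2 ^ q * 2 ^ q := by unfold pM3; rw [← pow_add]; congr 1; ring
  rw [h7]
  push_cast at h4
  nlinarith

/-- `exp (11 · 4 ^ q) ≤ exp (b ^ c)` -/
theorem exp_le_bc {c : ℝ} {c2 q : ℕ} (hq : 1 ≤ q) (hc2 : 200 ≤ c * c2) {y : ℝ}
    (h : y ≤ Real.exp (11 * (2 ^ q * 2 ^ q))) : y ≤ Real.exp (pb c2 q ^ c) := by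
  refine h.trans (Real.exp_le_exp.mpr ?_)
  apply le_bc hq hc2
  calc 11 * ((2 : ℝ) ^ q * 2 ^ q) ≤ 2 ^ 4 * (2 ^ q * 2 ^ q) := by
        apply mul_le_mul_of_nonneg_right (by norm_num) (by positivity)
    _ = 2 ^ (4 + (q + q)) := by rw [pow_add, pow_add]
    _ ≤ 2 ^ (92 * q ^ 3 + 100 * q + 8) := pow_le_pow_right₀ (by norm_num) (by omega)

theorem X_le_XX (q : ℕ) : (2 : ℝ) ^ q ≤ 2 ^ q * 2 ^ q := by
  have hX : (1 : ℝ) ≤ 2 ^ q := one_le_pow₀ (by norm_num)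
  nlinarith

theorem num_card1 {c : ℝ} {c2 q : ℕ} (hq : 1 ≤ q) (hc2 : 200 ≤ c * c2) {n : ℕ}
    (hn : (n : ℝ) ≤ Real.exp (2 ^ q)) : (n : ℝ) ≤ Real.exp (pb c2 q ^ c) := by
  apply exp_le_bc hq hc2
  refine hn.trans (Real.exp_le_exp.mpr ?_)
  have := X_le_XX q
  have hX : (1 : ℝ) ≤ 2 ^ q := one_le_pow₀ (by norm_num)
  nlinarith

theorem num_card2 {c : ℝ} {c2 q : ℕ} (hq : 1 ≤ q) (hc2 : 200 ≤ c * c2) {n m : ℕ}
    (hn : (n : ℝ) ≤ Real.exp (2 ^ q)) (hm : (m : ℝ) ≤ Real.exp (2 * 2 ^ q)) :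
    ((m + (m * q + (m * (q * m) + (m + (n + n)))) : ℕ) : ℝ) ≤ Real.exp (pb c2 q ^ c) := by
  apply exp_le_bc hq hc2
  have h1 := nP3_bd' hq hn hm
  have h2 : ((m + (m * q + (m * (q * m) + (m + (n + n)))) : ℕ) : ℝ)
      ≤ 2 * (((3 * (m * q) + m * (q * m) + m + n : ℕ) : ℝ) + 1) := by
    have : m + (m * q + (m * (q * m) + (m + (n + n))))
        ≤ 2 * ((3 * (m * q) + m * (q * m) + m + n) + 1) := by
      have e1 : 0 ≤ m * q := Nat.zero_le _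
      have e2 : 0 ≤ m * (q * m) := Nat.zero_le _
      omega
    exact_mod_cast this
  have h3 : (2 : ℝ) ≤ Real.exp 1 := by
    have := Real.add_one_le_exp (1 : ℝ)
    linarith
  calc ((m + (m * q + (m * (q * m) + (m + (n + n)))) : ℕ) : ℝ)
      ≤ 2 * (((3 * (m * q) + m * (q * m) + m + n : ℕ) : ℝ) + 1) := h2
    _ ≤ Real.exp 1 * Real.exp (8 * 2 ^ q) := mul_le_mul h3 h1 (by positivity) (by positivity)
    _ = Real.exp (1 + 8 * 2 ^ q) := (Real.exp_add _ _).symm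
    _ ≤ Real.exp (11 * (2 ^ q * 2 ^ q)) := by
        apply Real.exp_le_exp.mpr
        have := X_le_XX q
        have hX : (1 : ℝ) ≤ 2 ^ q := one_le_pow₀ (by norm_num)
        nlinarith

theorem num_card3 {c : ℝ} {c2 q : ℕ} (hq : 1 ≤ q) (hc2 : 200 ≤ c * c2) {n m : ℕ}
    (hn : (n : ℝ) ≤ Real.exp (2 ^ q)) (hm : (m : ℝ) ≤ Real.exp (2 * 2 ^ q)) :
    (2 * (m : ℝ)) ^ (2 ^ q + 1) + 2 * (m : ℝ)
      + 2 * ((3 * (m * q) + m * (q * m) + m + n : ℕ) : ℝ) ≤ Real.exp (pb c2 q ^ c) := by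
  apply exp_le_bc hq hc2
  have h1 := nP3_bd' hq hn hm
  have hX : (1 : ℝ) ≤ 2 ^ q := one_le_pow₀ (by norm_num)
  have hXX := X_le_XX q
  have h3 : (2 : ℝ) ≤ Real.exp 1 := by
    have := Real.add_one_le_exp (1 : ℝ)
    linarith
  have hm0 : (0 : ℝ) ≤ m := Nat.cast_nonneg m
  have h2 : 2 * (m : ℝ) ≤ 2 * (((3 * (m * q) + m * (q * m) + m + n : ℕ) : ℝ) + 1)
      - 2 * ((3 * (m * q) + m * (q * m) + m + n : ℕ) : ℝ) +
        2 * ((3 * (m * q) + m * (q * m) + m + n : ℕ) : ℝ) := by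
    have : m ≤ 3 * (m * q) + m * (q * m) + m + n := by
      have e1 : 0 ≤ m * q := Nat.zero_le _
      have e2 : 0 ≤ m * (q * m) := Nat.zero_le _
      omega
    have h : (m : ℝ) ≤ ((3 * (m * q) + m * (q * m) + m + n : ℕ) : ℝ) := by exact_mod_cast this
    linarith
  have h4 : 2 * (m : ℝ) ≤ Real.exp (1 + 2 * 2 ^ q) := by
    rw [Real.exp_add]
    exact mul_le_mul h3 hm hm0 (by positivity)
  have h5 : (2 * (m : ℝ)) ^ (2 ^ q + 1) ≤ Real.exp (6 * (2 ^ q * 2 ^ q)) := by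
    calc (2 * (m : ℝ)) ^ (2 ^ q + 1) ≤ Real.exp (1 + 2 * 2 ^ q) ^ (2 ^ q + 1) :=
          pow_le_pow_left₀ (by positivity) h4 _
      _ = Real.exp (((2 ^ q + 1 : ℕ) : ℝ) * (1 + 2 * 2 ^ q)) := (Real.exp_nat_mul _ _).symm
      _ ≤ Real.exp (6 * (2 ^ q * 2 ^ q)) := by
          apply Real.exp_le_exp.mpr
          push_cast
          nlinarith
  have h6 : 2 * (m : ℝ) + 2 * ((3 * (m * q) + m * (q * m) + m + n : ℕ) : ℝ)
      ≤ Real.exp 1 ^ 2 * Real.exp (8 * 2 ^ q) := by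
    have h7 : 4 ≤ Real.exp 1 ^ 2 := by nlinarith
    have h8 : 2 * (m : ℝ) + 2 * ((3 * (m * q) + m * (q * m) + m + n : ℕ) : ℝ)
        ≤ 4 * (((3 * (m * q) + m * (q * m) + m + n : ℕ) : ℝ) + 1) := by linarith
    exact h8.trans (mul_le_mul h7 h1 (by positivity) (by positivity))
  have h9 : Real.exp 1 ^ 2 * Real.exp (8 * 2 ^ q) ≤ Real.exp (10 * (2 ^ q * 2 ^ q)) := by
    rw [← Real.exp_nat_mul, ← Real.exp_add]
    apply Real.exp_le_exp.mpr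
    push_cast
    nlinarith
  have h10 : Real.exp (6 * ((2 : ℝ) ^ q * 2 ^ q)) ≤ Real.exp (10 * (2 ^ q * 2 ^ q)) := by
    apply Real.exp_le_exp.mpr
    nlinarith
  calc (2 * (m : ℝ)) ^ (2 ^ q + 1) + 2 * (m : ℝ)
      + 2 * ((3 * (m * q) + m * (q * m) + m + n : ℕ) : ℝ)
      ≤ 2 * Real.exp (10 * (2 ^ q * 2 ^ q)) := by linarith
    _ ≤ Real.exp 1 * Real.exp (10 * (2 ^ q * 2 ^ q)) :=
        mul_le_mul_of_nonneg_right h3 (Real.exp_nonneg _)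
    _ = Real.exp (1 + 10 * (2 ^ q * 2 ^ q)) := (Real.exp_add _ _).symm
    _ ≤ Real.exp (11 * (2 ^ q * 2 ^ q)) := by
        apply Real.exp_le_exp.mpr
        nlinarith

/-- `t = 1` -/
theorem num_t2 {c : ℝ} {c2 q : ℕ} (hq : 1 ≤ q) (hc2 : 200 ≤ c * c2) :
    (1 : ℝ) ^ 2 / pc1 q ^ 2 ≤ pb c2 q ^ c := by
  rw [one_pow, div_c1, one_mul]
  apply le_bc hq hc2
  have h := four_q_le hq
  have hqX := q_le_two_pow q
  calc 4 * (q : ℝ) + 8 ≤ 12 * q := h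
    _ ≤ 2 ^ 4 * 2 ^ q := by
        have : (0 : ℝ) ≤ q := Nat.cast_nonneg q
        nlinarith
    _ = 2 ^ (4 + q) := by rw [pow_add]
    _ ≤ 2 ^ (92 * q ^ 3 + 100 * q + 8) := pow_le_pow_right₀ (by norm_num) (by omega)

/-- `a = 1 / q ^ 3`, `V = 300 q ^ 2` -/
theorem num_n1 {c : ℝ} {c2 q : ℕ} (hq : 1 ≤ q) (hc2 : 200 ≤ c * c2) :
    (1 / (q : ℝ) ^ 3) ^ 2 * (300 * (q : ℝ) ^ 2 * (((2 ^ q : ℕ) : ℝ) + 1)) / pc1 q ^ 2
      ≤ pb c2 q ^ c := by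
  rw [div_c1]
  apply le_bc hq hc2
  rw [cast_two_pow]
  have h := four_q_le hq
  have hq1 : (1 : ℝ) ≤ q := by exact_mod_cast hq
  have hX : (1 : ℝ) ≤ 2 ^ q := one_le_pow₀ (by norm_num)
  have h1 : (1 / (q : ℝ) ^ 3) ^ 2 * (300 * (q : ℝ) ^ 2) ≤ 300 / q := by
    have e : (1 / (q : ℝ) ^ 3) ^ 2 * (300 * (q : ℝ) ^ 2) = 300 / (q : ℝ) ^ 4 := by
      field_simp
    rw [e]
    apply div_le_div_of_nonneg_left (by norm_num) (by positivity)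
    simpa using pow_le_pow_right₀ hq1 (show 1 ≤ 4 by norm_num)
  calc ((1 / (q : ℝ) ^ 3) ^ 2 * (300 * (q : ℝ) ^ 2 * ((2 : ℝ) ^ q + 1)) * (4 * (q : ℝ) + 8) : ℝ)
      = ((1 / (q : ℝ) ^ 3) ^ 2 * (300 * (q : ℝ) ^ 2)) * (((2 : ℝ) ^ q + 1) * (4 * (q : ℝ) + 8)) := by
        ring
    _ ≤ (300 / (q : ℝ)) * ((2 * (2 : ℝ) ^ q) * (12 * (q : ℝ))) := by
        apply mul_le_mul h1 _ (by positivity) (by positivity)
        apply mul_le_mul _ h (by positivity) (by positivity)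
        linarith
    _ = 7200 * 2 ^ q := by field_simp; ring
    _ ≤ 2 ^ 13 * 2 ^ q := mul_le_mul_of_nonneg_right (by norm_num) (by positivity)
    _ = 2 ^ (13 + q) := by rw [pow_add]
    _ ≤ 2 ^ (92 * q ^ 3 + 100 * q + 8) := pow_le_pow_right₀ (by norm_num) (by omega)

/-- `Λs = 2 ^ q`, `X = 4 / 4 ^ q` -/
theorem num_n2 {c : ℝ} {c2 q : ℕ} (hq : 1 ≤ q) (hc2 : 200 ≤ c * c2) {X : ℝ} (hX : X ≤ 4) :
    ((2 : ℝ) ^ q) ^ 2 * X / pc1 q ^ 2 ≤ pb c2 q ^ c := by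
  rw [div_c1]
  apply le_bc hq hc2
  have h := four_q_le hq
  have hqX := q_le_two_pow q
  have h0 : (0 : ℝ) ≤ ((2 : ℝ) ^ q) ^ 2 := by positivity
  calc ((2 : ℝ) ^ q) ^ 2 * X * (4 * (q : ℝ) + 8) ≤ ((2 : ℝ) ^ q) ^ 2 * 4 * (12 * 2 ^ q) := by
        apply mul_le_mul _ _ (by positivity) (by positivity)
        · exact mul_le_mul_of_nonneg_left hX h0
        · linarith
    _ = 48 * (((2 : ℝ) ^ q) ^ 2 * 2 ^ q) := by ring
    _ ≤ 2 ^ 6 * (((2 : ℝ) ^ q) ^ 2 * 2 ^ q) :=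
        mul_le_mul_of_nonneg_right (by norm_num) (by positivity)
    _ = 2 ^ (6 + (q * 2 + q)) := by rw [pow_add, pow_add, pow_mul]
    _ ≤ 2 ^ (92 * q ^ 3 + 100 * q + 8) := pow_le_pow_right₀ (by norm_num) (by omega)

/-- `b0 ≤ b` eventually -/
theorem num_b0 (b0 : ℝ) (c2 : ℕ) (hc2 : 1 ≤ c2) : ∀ᶠ q : ℕ in atTop, b0 ≤ pb c2 q := by
  have h1 := ev_poly b0 0
  filter_upwards [h1, eventually_ge_atTop 1] with q h2 hq
  rw [pow_zero, mul_one] at h2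
  refine h2.trans ?_
  unfold pb
  apply pow_le_pow_right₀ (by norm_num)
  obtain ⟨e1, _, _⟩ := cube_ge hq
  calc q ≤ q ^ 3 := e1
    _ ≤ c2 * q ^ 3 := Nat.le_mul_of_pos_left _ hc2

/-- growth: `e = 1 / 2 ^ (q + 2)`, `T = 2 ^ q` -/
theorem num_grow (q : ℕ) : (1 + pe q) ^ (2 ^ q + 1) < 2 := by
  have h0 : 0 < pe q := by unfold pe; positivity
  have h1 : 1 + pe q ≤ Real.exp (pe q) := by
    have := Real.add_one_le_exp (pe q)
    linarith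
  have h2 : ((2 ^ q + 1 : ℕ) : ℝ) * pe q ≤ 1 / 2 := by
    have hX : (1 : ℝ) ≤ 2 ^ q := one_le_pow₀ (by norm_num)
    unfold pe
    push_cast
    rw [pow_add, mul_one_div, div_le_iff₀ (by positivity)]
    linarith
  have h3 : Real.exp (1 / 2) < 2 := by
    have h4 : Real.exp (1 / 2) * Real.exp (1 / 2) = Real.exp 1 := by
      rw [← Real.exp_add]; norm_num
    have h5 := Real.exp_one_lt_d9
    have h6 := Real.exp_pos (1 / 2 : ℝ)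
    by_contra hcon
    push Not at hcon
    nlinarith
  calc (1 + pe q) ^ (2 ^ q + 1) ≤ Real.exp (pe q) ^ (2 ^ q + 1) :=
        pow_le_pow_left₀ (by linarith) h1 _
    _ = Real.exp (((2 ^ q + 1 : ℕ) : ℝ) * pe q) := (Real.exp_nat_mul _ _).symm
    _ ≤ Real.exp (1 / 2) := Real.exp_le_exp.mpr h2
    _ < 2 := h3

end Pool.Agent.LibKG64
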