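import Pool.Agent.LibKG64.Num3
import Pool.Agent.LibKG64.L2

set_option autoImplicit false

/-!
Numbers, part 4: the counting inequality, the trajectories, the start value, side conditions.
-/

open Finset Matrix Filter

namespace Pool.Agent.LibKG64

theorem pM3_nonneg (q : ℕ) : 0 ≤ pM3 q := by unfold pM3; positivity

theorem pM3_le (q : ℕ) : pM3 q ≤ 2 ^ (2 * q) := le_rfl

theorem pΛ_nonneg {C : ℝ} (hC : 0 < C) (c2 q : ℕ) : 0 ≤ pΛ C c2 q := by unfold pΛ; positivity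

/-- localisation error -/
theorem p_e2c {q : ℕ} (hq : 1 ≤ q) :
    e2c (2 ^ q) q (pM3 q) (peF q) (pγ q) (pτ q 0) ≤ 1 / 2 ^ (171 * q ^ 3) := by
  refine (e2c_le hq (pM3_nonneg q) (pM3_le q) (peF_pos q).le (peF_le hq) (pγ_pos q).le
    (pγ_le_peF q)).trans (le_of_eq ?_)
  rw [show 198 * q ^ 3 = 27 * q ^ 3 + 171 * q ^ 3 by ring, pow_add]
  field_simp

theorem p_e2c_nonneg (q : ℕ) : 0 ≤ e2c (2 ^ q) q (pM3 q) (peF q) (pγ q) (pτ q 0) :=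
  num_e2c_nonneg (pM3_nonneg q) (peF_pos q).le (pγ_pos q).le _ _

theorem num_e2 {q : ℕ} (hq : 1 ≤ q) :
    e2c (2 ^ q) q (pM3 q) (peF q) (pγ q) (pτ q 0) ≤ pM3 q := by
  refine (p_e2c hq).trans ?_
  have h1 : (1 : ℝ) / 2 ^ (171 * q ^ 3) ≤ 1 := by
    have := one_div_pow_le (Nat.zero_le (171 * q ^ 3))
    simpa using this
  have h2 : 1 ≤ pM3 q := one_le_pow₀ (by norm_num)
  linarith

/-- error of the energies -/
noncomputable def pe3 (q : ℕ) : ℝ := ((2 ^ q : ℕ) : ℝ) * pν q * pM3 q ^ 2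

theorem pe3_eq (q : ℕ) : pe3 q = 1 / 2 ^ (15 * q) := by
  unfold pe3 pν pM3
  rw [cast_two_pow, ← pow_mul, show 20 * q = q + 2 * q * 2 + 15 * q by ring, pow_add, pow_add]
  field_simp

/-- one over a power of two, product rule -/
theorem two_pow_mul_one_div {a b c : ℕ} (h : a + c ≤ b) :
    (2 : ℝ) ^ a * (1 / 2 ^ b) ≤ 1 / 2 ^ c := by
  have h1 : (2 : ℝ) ^ (a + c) ≤ 2 ^ b := pow_le_pow_right₀ (by norm_num) h
  rw [mul_one_div, div_le_div_iff₀ (by positivity) (by positivity), one_mul, ← pow_add]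
  exact h1

theorem one_div_pτ (q : ℕ) : 1 / pτ q 0 = 2 ^ (10 * q * q) := by
  unfold pτ; simp

/-- the error term of the counting lemma -/
theorem num_eEc {C : ℝ} (hC : 0 < C) (c2 : ℕ) : ∀ᶠ q : ℕ in atTop,
    eEc (2 ^ q) q (pM3 q) (peF q) (pγ q) (pτ q 0) (pΛ C c2 q) (pe3 q) ≤ 1 / 2 ^ (12 * q) := by
  filter_upwards [ev_poly (4 * C * c2) 2, eventually_ge_atTop 4] with q h1 hq
  have hΛ : pΛ C c2 q ≤ 2 ^ q := h1
  have hΛ0 := pΛ_nonneg hC c2 q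
  have hX : (1 : ℝ) ≤ 2 ^ q := one_le_pow₀ (by norm_num)
  obtain ⟨c1, c3, c4⟩ := cube_ge (by omega : 1 ≤ q)
  have hqq : 4 * q ≤ q * q := Nat.mul_le_mul_right q hq
  -- the four terms
  have t1 : 4 * pΛ C c2 q ^ 2 * pγ q * ((2 ^ q : ℕ) : ℝ) ^ 2 / pτ q 0 ≤ 1 / 2 ^ (12 * q + 2) := by
    have e : 4 * pΛ C c2 q ^ 2 * pγ q * ((2 ^ q : ℕ) : ℝ) ^ 2 / pτ q 0
        = 4 * pΛ C c2 q ^ 2 * ((2 : ℝ) ^ q) ^ 2 * (1 / pτ q 0) * pγ q := by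
      rw [cast_two_pow]; ring
    rw [e, one_div_pτ]
    have h2 : pΛ C c2 q ^ 2 ≤ (2 ^ q) ^ 2 := pow_le_pow_left₀ hΛ0 hΛ 2
    calc 4 * pΛ C c2 q ^ 2 * ((2 : ℝ) ^ q) ^ 2 * 2 ^ (10 * q * q) * pγ q
        ≤ 4 * ((2 : ℝ) ^ q) ^ 2 * ((2 : ℝ) ^ q) ^ 2 * 2 ^ (10 * q * q) * pγ q := by
          have := pγ_pos q
          gcongr
      _ = 2 ^ (2 + q * 2 + q * 2 + 10 * q * q) * (1 / 2 ^ (200 * q ^ 3)) := by
          unfold pγ
          rw [pow_add, pow_add, pow_add, pow_mul 2 q 2]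
          norm_num
      _ ≤ 1 / 2 ^ (12 * q + 2) := by
          apply two_pow_mul_one_div
          have : 10 * q * q = 10 * (q * q) := by ring
          omega
  have t2 : 2 * ((2 ^ q : ℕ) : ℝ) * pe3 q ≤ 1 / 2 ^ (12 * q + 2) := by
    rw [pe3_eq, cast_two_pow]
    calc 2 * (2 : ℝ) ^ q * (1 / 2 ^ (15 * q)) = 2 ^ (1 + q) * (1 / 2 ^ (15 * q)) := by
          rw [pow_add, pow_one]
      _ ≤ 1 / 2 ^ (12 * q + 2) := two_pow_mul_one_div (by omega)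
  have t3 : 4 * pγ q * ((2 ^ q : ℕ) : ℝ) ^ 2 * (2 * pM3 q / √(pτ q 0)) ^ 2
      ≤ 1 / 2 ^ (12 * q + 2) := by
    have hp := pτ_pos q 0
    have e : 4 * pγ q * ((2 ^ q : ℕ) : ℝ) ^ 2 * (2 * pM3 q / √(pτ q 0)) ^ 2
        = 2 ^ (4 + q * 2 + 2 * q * 2 + 10 * q * q) * (1 / 2 ^ (200 * q ^ 3)) := by
      rw [div_pow, Real.sq_sqrt hp.le, cast_two_pow, pow_add, pow_add, pow_add, ← one_div_pτ,
        pow_mul 2 q 2, pow_mul 2 (2 * q) 2]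
      unfold pM3 pγ
      ring
    rw [e]
    apply two_pow_mul_one_div
    have : 10 * q * q = 10 * (q * q) := by ring
    omega
  have t4 : 2 * ((((2 ^ q : ℕ) : ℝ) + 1) * e2c (2 ^ q) q (pM3 q) (peF q) (pγ q) (pτ q 0)) ^ 2
      ≤ 1 / 2 ^ (12 * q + 2) := by
    have h0 := p_e2c_nonneg q
    have h2 : (((2 ^ q : ℕ) : ℝ) + 1) * e2c (2 ^ q) q (pM3 q) (peF q) (pγ q) (pτ q 0)
        ≤ 2 ^ (q + 1) * (1 / 2 ^ (171 * q ^ 3)) := by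
      apply mul_le_mul _ (p_e2c (by omega)) h0 (by positivity)
      rw [cast_two_pow, pow_succ]; linarith
    have h3 : (2 : ℝ) ^ (q + 1) * (1 / 2 ^ (171 * q ^ 3)) ≤ 1 / 2 ^ (12 * q + 3) :=
      two_pow_mul_one_div (by omega)
    have h4 : 0 ≤ (((2 ^ q : ℕ) : ℝ) + 1) * e2c (2 ^ q) q (pM3 q) (peF q) (pγ q) (pτ q 0) := by
      positivity
    have h5 : (1 : ℝ) / 2 ^ (12 * q + 3) ≤ 1 := by
      have := one_div_pow_le (Nat.zero_le (12 * q + 3))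
      simpa using this
    have h6 : 2 * (1 / (2 : ℝ) ^ (12 * q + 3)) = 1 / 2 ^ (12 * q + 2) := by
      rw [pow_succ 2 (12 * q + 2)]; field_simp
    have h7 := h2.trans h3
    have h8 : (0 : ℝ) ≤ 1 / 2 ^ (12 * q + 3) := by positivity
    nlinarith
  have h9 : 1 / (2 : ℝ) ^ (12 * q) = 4 * (1 / 2 ^ (12 * q + 2)) := by
    rw [pow_add]; field_simp; norm_num
  unfold eEc
  rw [h9]
  linarith

/-- bound of the trajectories of failed rows per level -/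
noncomputable def pB (C : ℝ) (c2 q : ℕ) : ℝ := (12700 * C * c2 + 200) * (q : ℝ) ^ 5

/-- **counting inequality** -/
theorem num_BB {C : ℝ} (hC : 0 < C) (c2 : ℕ) : ∀ᶠ q : ℕ in atTop,
    4 * (((q : ℝ) + 1) * (44 * (((q + 1 : ℕ) : ℝ) + 1) ^ 2 * ((12 : ℕ) : ℝ) *
          (q * (2 * pΛ C c2 q ^ 2 * (((12 : ℕ) : ℝ) * Real.log (1 + 1 / pτ q 0))
            + (((2 ^ q : ℕ) : ℝ) + 1)
              * eEc (2 ^ q) q (pM3 q) (peF q) (pγ q) (pτ q 0) (pΛ C c2 q) (pe3 q)))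
        + 8 * (((q + 1 : ℕ) : ℝ) + 1) * 4 ^ (q + 1) * q * pε q * (4 * ((2 ^ q : ℕ) : ℝ) * pM3 q ^ 2)
        + 4 ^ (q + 1) * (2 * q * e2c (2 ^ q) q (pM3 q) (peF q) (pγ q) (pτ q 0)) ^ 2
          * ((2 ^ q : ℕ) : ℝ))) ≤ pB C c2 q ^ 2 := by
  filter_upwards [num_eEc hC c2, eventually_ge_atTop 4] with q h1 hq
  have hq1 : (1 : ℝ) ≤ q := by exact_mod_cast (by omega : 1 ≤ q)
  have hX : (1 : ℝ) ≤ 2 ^ q := one_le_pow₀ (by norm_num)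
  have hqX := q_le_two_pow q
  have hq0 : (0 : ℝ) ≤ q := by linarith
  have hlog := log_pτ q
  have hlog0 : 0 ≤ Real.log (1 + 1 / pτ q 0) := by
    apply Real.log_nonneg
    have := pτ_pos q 0
    have : 0 < 1 / pτ q 0 := by positivity
    linarith
  have hE0 : 0 ≤ eEc (2 ^ q) q (pM3 q) (peF q) (pγ q) (pτ q 0) (pΛ C c2 q) (pe3 q) := by
    have h0 := p_e2c_nonneg q
    have := pγ_pos q
    have := pτ_pos q 0
    have : 0 ≤ pe3 q := by rw [pe3_eq]; positivity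
    have := pM3_nonneg q
    unfold eEc
    positivity
  set eE := eEc (2 ^ q) q (pM3 q) (peF q) (pγ q) (pτ q 0) (pΛ C c2 q) (pe3 q) with heE
  set e2 := e2c (2 ^ q) q (pM3 q) (peF q) (pγ q) (pτ q 0) with he2
  have he20 : 0 ≤ e2 := p_e2c_nonneg q
  have he21 : e2 ≤ 1 / 2 ^ (171 * q ^ 3) := p_e2c (by omega)
  obtain ⟨c1, c3, c4⟩ := cube_ge (by omega : 1 ≤ q)
  have hqq : 4 * q ≤ q * q := Nat.mul_le_mul_right q hq
  -- the main term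
  have m1 : 44 * (((q + 1 : ℕ) : ℝ) + 1) ^ 2 * ((12 : ℕ) : ℝ) ≤ 4752 * (q : ℝ) ^ 2 := by
    push_cast
    nlinarith
  have m2 : 2 * pΛ C c2 q ^ 2 * (((12 : ℕ) : ℝ) * Real.log (1 + 1 / pτ q 0))
      ≤ 4224 * (C * c2) ^ 2 * (q : ℝ) ^ 6 := by
    have e1 : Real.log (1 + 1 / pτ q 0) ≤ 11 * (q : ℝ) ^ 2 := by nlinarith
    calc 2 * pΛ C c2 q ^ 2 * (((12 : ℕ) : ℝ) * Real.log (1 + 1 / pτ q 0))
        ≤ 2 * pΛ C c2 q ^ 2 * (((12 : ℕ) : ℝ) * (11 * (q : ℝ) ^ 2)) := by gcongr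
      _ = 4224 * (C * c2) ^ 2 * (q : ℝ) ^ 6 := by unfold pΛ; push_cast; ring
  have m3 : (((2 ^ q : ℕ) : ℝ) + 1) * eE ≤ 2 * (1 / 2 ^ (11 * q)) := by
    rw [cast_two_pow]
    calc ((2 : ℝ) ^ q + 1) * eE ≤ (2 * 2 ^ q) * (1 / 2 ^ (12 * q)) :=
          mul_le_mul (by linarith) h1 hE0 (by positivity)
      _ = 2 * (2 ^ q * (1 / 2 ^ (12 * q))) := by ring
      _ ≤ 2 * (1 / 2 ^ (11 * q)) :=
          mul_le_mul_of_nonneg_left (two_pow_mul_one_div (by omega)) (by norm_num)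
  have q4 : (q : ℝ) ^ 4 * (1 / 2 ^ (11 * q)) ≤ 1 := by
    have e1 : (q : ℝ) ^ 4 ≤ (2 ^ q) ^ 4 := pow_le_pow_left₀ hq0 hqX 4
    calc (q : ℝ) ^ 4 * (1 / 2 ^ (11 * q)) ≤ (2 ^ q) ^ 4 * (1 / 2 ^ (11 * q)) :=
          mul_le_mul_of_nonneg_right e1 (by positivity)
      _ = 2 ^ (q * 4) * (1 / 2 ^ (11 * q)) := by rw [pow_mul 2 q 4]
      _ ≤ 1 / 2 ^ 0 := two_pow_mul_one_div (by omega)
      _ = 1 := by norm_num
  have T1 : 4 * (((q : ℝ) + 1) * (44 * (((q + 1 : ℕ) : ℝ) + 1) ^ 2 * ((12 : ℕ) : ℝ) *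
          (q * (2 * pΛ C c2 q ^ 2 * (((12 : ℕ) : ℝ) * Real.log (1 + 1 / pτ q 0))
            + (((2 ^ q : ℕ) : ℝ) + 1) * eE))))
      ≤ 160579584 * (C * c2) ^ 2 * (q : ℝ) ^ 10 + 76032 := by
    calc 4 * (((q : ℝ) + 1) * (44 * (((q + 1 : ℕ) : ℝ) + 1) ^ 2 * ((12 : ℕ) : ℝ) *
          (q * (2 * pΛ C c2 q ^ 2 * (((12 : ℕ) : ℝ) * Real.log (1 + 1 / pτ q 0))
            + (((2 ^ q : ℕ) : ℝ) + 1) * eE))))
        ≤ 4 * ((2 * q) * ((4752 * (q : ℝ) ^ 2) *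
          (q * (4224 * (C * c2) ^ 2 * (q : ℝ) ^ 6 + 2 * (1 / 2 ^ (11 * q)))))) := by
          have e1 : (q : ℝ) + 1 ≤ 2 * q := by linarith
          gcongr
      _ = 160579584 * (C * c2) ^ 2 * (q : ℝ) ^ 10
          + 76032 * ((q : ℝ) ^ 4 * (1 / 2 ^ (11 * q))) := by ring
      _ ≤ 160579584 * (C * c2) ^ 2 * (q : ℝ) ^ 10 + 76032 := by linarith
  -- the ratio term
  have T2 : 4 * (((q : ℝ) + 1) * (8 * (((q + 1 : ℕ) : ℝ) + 1) * 4 ^ (q + 1) * q * pε q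
      * (4 * ((2 ^ q : ℕ) : ℝ) * pM3 q ^ 2))) ≤ 3072 := by
    have e4 : (4 : ℝ) ^ (q + 1) = 4 * 2 ^ (2 * q) := by
      rw [pow_succ, show (4 : ℝ) = 2 ^ 2 by norm_num, ← pow_mul]; ring
    rw [e4, cast_two_pow]
    calc 4 * (((q : ℝ) + 1) * (8 * (((q + 1 : ℕ) : ℝ) + 1) * (4 * 2 ^ (2 * q)) * q * pε q
      * (4 * 2 ^ q * pM3 q ^ 2)))
        ≤ 4 * ((2 * q) * (8 * (3 * q) * (4 * 2 ^ (2 * q)) * q * pε q
      * (4 * 2 ^ q * pM3 q ^ 2))) := by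
          have e1 : (q : ℝ) + 1 ≤ 2 * q := by linarith
          have e2 : ((q + 1 : ℕ) : ℝ) + 1 ≤ 3 * q := by push_cast; linarith
          have := pε_nonneg q
          gcongr
      _ = 3072 * ((q : ℝ) ^ 3 * (2 ^ (2 * q) * (2 ^ q * ((2 ^ (2 * q)) ^ 2 * pε q)))) := by
          unfold pM3; ring
      _ ≤ 3072 * ((2 ^ q) ^ 3 * (2 ^ (2 * q) * (2 ^ q * ((2 ^ (2 * q)) ^ 2 * pε q)))) := by
          have e1 : (q : ℝ) ^ 3 ≤ (2 ^ q) ^ 3 := pow_le_pow_left₀ hq0 hqX 3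
          have := pε_nonneg q
          gcongr
      _ = 3072 * (2 ^ (q * 3 + (2 * q + (q + 2 * q * 2))) * (1 / 2 ^ (10 * q))) := by
          unfold pε
          rw [pow_add, pow_add, pow_add, pow_mul 2 q 3, pow_mul 2 (2 * q) 2]
          ring
      _ ≤ 3072 * (1 / 2 ^ 0) :=
          mul_le_mul_of_nonneg_left (two_pow_mul_one_div (by omega)) (by norm_num)
      _ = 3072 := by norm_num
  -- the localisation term
  have T3 : 4 * (((q : ℝ) + 1) * (4 ^ (q + 1) * (2 * q * e2) ^ 2 * ((2 ^ q : ℕ) : ℝ))) ≤ 128 := by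
    have e4 : (4 : ℝ) ^ (q + 1) = 4 * 2 ^ (2 * q) := by
      rw [pow_succ, show (4 : ℝ) = 2 ^ 2 by norm_num, ← pow_mul]; ring
    rw [e4, cast_two_pow]
    calc 4 * (((q : ℝ) + 1) * ((4 * 2 ^ (2 * q)) * (2 * q * e2) ^ 2 * 2 ^ q))
        ≤ 4 * ((2 * q) * ((4 * 2 ^ (2 * q)) * (2 * q * (1 / 2 ^ (171 * q ^ 3))) ^ 2 * 2 ^ q)) := by
          have e1 : (q : ℝ) + 1 ≤ 2 * q := by linarith
          gcongr
      _ = 128 * ((q : ℝ) ^ 3 * (2 ^ (2 * q) * 2 ^ q) * (1 / 2 ^ (171 * q ^ 3)) ^ 2) := by ring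
      _ ≤ 128 * ((2 ^ q) ^ 3 * (2 ^ (2 * q) * 2 ^ q) * (1 / 2 ^ (171 * q ^ 3)) ^ 2) := by
          have e1 : (q : ℝ) ^ 3 ≤ (2 ^ q) ^ 3 := pow_le_pow_left₀ hq0 hqX 3
          gcongr
      _ = 128 * (2 ^ (q * 3 + (2 * q + q)) * (1 / 2 ^ (171 * q ^ 3 * 2))) := by
          rw [pow_add, pow_add, pow_mul 2 q 3, div_pow, one_pow, ← pow_mul 2 (171 * q ^ 3) 2]
      _ ≤ 128 * (1 / 2 ^ 0) :=
          mul_le_mul_of_nonneg_left (two_pow_mul_one_div (by omega)) (by norm_num)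
      _ = 128 := by norm_num
  have hq10 : (1 : ℝ) ≤ (q : ℝ) ^ 10 := one_le_pow₀ hq1
  have hfin : 160579584 * (C * c2) ^ 2 * (q : ℝ) ^ 10 + 76032 + 3072 + 128 ≤ pB C c2 q ^ 2 := by
    have e1 : pB C c2 q ^ 2 = (161290000 * (C * c2) ^ 2 + 5080000 * (C * c2) + 40000)
        * (q : ℝ) ^ 10 := by unfold pB; ring
    have e2 : 4 ^ 10 ≤ (q : ℝ) ^ 10 := by
      have : (4 : ℝ) ≤ q := by exact_mod_cast hq
      exact pow_le_pow_left₀ (by norm_num) this 10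
    rw [e1]
    have e3 : 0 ≤ (C * c2) ^ 2 * (q : ℝ) ^ 10 := by positivity
    have e4 : 0 ≤ (C * c2) * (q : ℝ) ^ 10 := by positivity
    norm_num at e2
    nlinarith
  linarith [T1, T2, T3, hfin]

end Pool.Agent.LibKG64
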