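import Pool.Agent.LibKG64.L3
import Pool.Agent.LibKG64.M0
import Pool.Agent.LibKG64.M3

set_option autoImplicit false
set_option linter.unusedSectionVars false

/-! Task Z, the counting side of the main induction (helper58). -/

open Finset Matrix

namespace Pool.Agent.LibKG64

variable {ι κ : Type} [Fintype ι] [DecidableEq ι] [Fintype κ] [DecidableEq κ]

theorem ZC_F_mono (S : Sys ι κ) (x : ℕ → ι → ℝ) (s v : ℕ) :
    (S.run x s).F v ⊆ (S.run x (s + 1)).F v := by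
  intro j hj
  rw [mem_F] at hj ⊢
  rw [run_lr] at hj ⊢
  exact lt_of_lt_of_le hj (lrev_mono S.lam S.B _ (Nat.le_succ s))

theorem ZC_F_anti (st : St κ) (v : ℕ) : st.F (v + 1) ⊆ st.F v := by
  intro j hj
  rw [mem_F] at hj ⊢
  omega

/-- the hypothesis `hcount` of `main_ind` -/
theorem hcount_side (S : Sys ι κ) (hQ : Flag S.Q) {N l Kd T : ℕ} {ε : ℝ} (hε : 0 ≤ ε)
    (hτ : RPar S.τ S.L ε) (hτL : ∀ v < S.L, S.τ v ≤ ε) {γ eF Λ M3 e3 W η : ℝ}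
    (hγ : 0 ≤ γ) (heF : 0 ≤ eF) (hM3 : 0 ≤ M3) (he3 : 0 ≤ e3) (hB : 0 < S.B) (hl : 1 ≤ l)
    (hl4 : l < 4 ^ S.L) (hN : T + 1 + S.k ≤ N) (hTK : T + 1 ≤ 2 ^ Kd)
    (he2 : e2c l S.L M3 eF γ (S.τ 0) ≤ M3)
    (hBB : 4 * ((S.L + 1) * (44 * (Kd + 1) ^ 2 * S.k *
          (S.L * (2 * Λ ^ 2 * (S.k * Real.log (1 + 1 / S.τ 0))
            + (T + 1) * eEc l S.L M3 eF γ (S.τ 0) Λ e3))
        + 8 * (Kd + 1) * 4 ^ Kd * S.L * ε * (4 * l * M3 ^ 2)
        + 4 ^ Kd * (2 * S.L * e2c l S.L M3 eF γ (S.τ 0)) ^ 2 * l)) ≤ S.B ^ 2) :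
    ∀ s ≤ T, ∀ x : ℕ → ι → ℝ,
      Past S (adj S.Q N γ) (S.wt N T) l (eF ^ 2) (γ ^ 2) (S.BatchOK N γ eF Λ M3 e3 W η) x s →
      S.BatchOK N γ eF Λ M3 e3 W η s (S.run x s) (x s) →
      GoodF (adj S.Q N γ) (S.wt N T) l (eF ^ 2) (γ ^ 2) ((S.run x (s + 1)).F 0) →
      LevOK S (S.run x (s + 1)) := by
  intro s hs x hP hbs hgood
  have hbok : ∀ r < s + 1, S.BatchOK N γ eF Λ M3 e3 W η r (S.run x r) (x r) := by
    intro r hr
    rcases Nat.lt_succ_iff_lt_or_eq.mp hr with h | h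
    · exact hP.bok r h
    · rw [h]
      exact hbs
  have hτ0pos := hτ.pos 0
  have heE0 : 0 ≤ eEc l S.L M3 eF γ (S.τ 0) Λ e3 := by
    unfold eEc e2c e1c
    positivity
  have hBB' : 4 * ((S.L + 1) * (44 * (Kd + 1) ^ 2 * S.k *
          (S.L * (2 * Λ ^ 2 * (S.k * Real.log (1 + 1 / S.τ 0))
            + ((s + 1 : ℕ) : ℝ) * eEc l S.L M3 eF γ (S.τ 0) Λ e3))
        + 8 * (Kd + 1) * 4 ^ Kd * S.L * ε * (4 * l * M3 ^ 2)
        + 4 ^ Kd * (2 * S.L * e2c l S.L M3 eF γ (S.τ 0)) ^ 2 * l)) ≤ S.B ^ 2 := by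
    refine le_trans ?_ hBB
    have h1 : ((s + 1 : ℕ) : ℝ) ≤ (T : ℝ) + 1 := by
      have : s + 1 ≤ T + 1 := by omega
      exact_mod_cast this
    gcongr
  refine lev_of_count S (adj S.Q N γ) x (s + 1) l hl4 hgood.comp ?_
  intro R hR u hu
  refine counting hQ S.k N S.L l Kd (s + 1) S.τ hε hτ hτL hγ heF hM3 he3 hB hl (by omega)
    (by omega) (fun r v => (S.run x r).F v) (fun r v => ZC_F_mono S x r v)
    (fun r v => ZC_F_anti (S.run x r) v) (fun r => S.Dr x r) (fun r => (S.run x r).Y)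
    (fun r _ => run_Y_succ S x r) (fun r hr v hv j => (hbok r hr).zc v hv j)
    (fun r hr v hv j i hi => (hbok r hr).xc v hv j i hi) ?_
    (fun r hr P hPc v hv => (hbok r hr).en P hPc v hv) he2 R hR (hgood.comp R hR) u hu ?_ hBB'
  · intro r hr P hPc
    rcases Nat.lt_succ_iff_lt_or_eq.mp hr with h | h
    · exact (hP.good r h.le).comp P hPc
    · exact (hP.good r h.le).comp P hPc
  · intro j hj
    rw [Finset.mem_inter, mem_F, run_lr] at hj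
    obtain ⟨a, b, h1, h2, h3, h4⟩ := lrev_hist S.lam S.B (fun t => (S.run x t).Y j) (s + 1) u hj.1
    refine ⟨a, b, h1, h2, ?_, h4⟩
    rw [mem_F, run_lr]
    exact h3

end Pool.Agent.LibKG64
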