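import Pool.Agent.LibKG64.Zb
import Pool.Agent.LibKG64.ZC
import Pool.Agent.LibKG64.D2

set_option autoImplicit false
set_option linter.unusedSectionVars false

/-!
Module O, file Z: the assembly. All numerical conditions are collected in the structure `ZNum`
(plain numbers); `Z` is the bound for a system satisfying `Sys.OK` and `Sys.OldOK`. (helper80)
-/

open Finset Matrix

namespace Pool.Agent.LibKG64

/-- number of (P3) functionals as a plain number -/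
def nP3n (nι nκ L : ℕ) : ℕ := 3 * (nκ * L) + nκ * (L * nκ) + nκ + nι

/-- the constant of (LA4) -/
noncomputable def VLA (L k T : ℕ) (ε : ℝ) : ℝ := (L + 1) * (k + 10 * k * L + (T + 1) * L * ε)

/-- All numerical conditions. `nι`, `nκ`: numbers of columns and rows; `k` lag, `T` last batch, `N` number
of projections, `l` cluster size, `d` degree, `2^Kd ≥ T+1`; `W`, `η` sampling; `eo` old part;
`a`, `M0` row potential (`V = VLA L k T ε`), `u0`, `Λs` side potential. -/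
structure ZNum (C c b0 : ℝ) (nι nκ L k T N l d Kd : ℕ) (τ : ℕ → ℝ)
    (W η eo ε γ eF ν BE c1 b e t Λ M3 a u0 Λs M0 lam B : ℝ) : Prop where
  ε0 : 0 ≤ ε
  rpar : RPar τ L ε
  τL : ∀ v < L, τ v ≤ ε
  L0 : 0 < L
  γ0 : 0 < γ
  eF0 : 0 < eF
  γe : eF ^ 2 = 2 * (l + 1) * γ ^ 2
  ν0 : 0 < ν
  BEh : ∀ v < L, (∏ v' ∈ range v, (4 / τ v' ^ 2)) * (1 / (ν ^ 2 * τ v ^ 3)) ≤ BE
  sm : BE * (2 * γ * l ^ 2 * (2 * l + 2 : ℕ) + l * eF ^ 2) ≤ 1
  l1 : 1 ≤ l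
  l4 : l < 4 ^ L
  NT : T + 1 + k ≤ N
  TK : T + 1 ≤ 2 ^ Kd
  c10 : 0 < c1
  c1L : c1 ^ 2 * (4 * L + 8) ≤ 1
  bb : b0 ≤ b
  b1 : 1 ≤ b
  opb : 12 * W ^ 2 * (L + L * (l * BE) + 4) ≤ b ^ c
  e0 : 0 < e
  e1 : e ≤ 1
  t0 : 0 < t
  t2 : t ^ 2 / c1 ^ 2 ≤ b ^ c
  be : Real.exp (b ^ (-c)) * (1 + e / 2) ≤ 1 + e
  Λh : C * √(Real.log b) / c1 ≤ Λ
  M3h : (Real.log (8 * (nP3n nι nκ L + 1) / e) + C / c1 ^ 2 * t ^ 2) / t ≤ M3
  M30 : 0 ≤ M3
  card1 : (nι : ℝ) ≤ Real.exp (b ^ c)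
  card2 : ((nκ + (nκ * L + (nκ * (L * nκ) + (nκ + (nι + nι)))) : ℕ) : ℝ) ≤ Real.exp (b ^ c)
  card3 : (2 * nκ : ℝ) ^ (l + 1) + (nκ * 2 : ℕ) + 2 * nP3n nι nκ L ≤ Real.exp (b ^ c)
  dr : T * (2 * (Λ + L * M3) / √W) ≤ 1
  sd : (T + 1) * (4 * η * (Λ + L * M3)) ≤ 1
  e2h : e2c l L M3 eF γ (τ 0) ≤ M3
  BB : 4 * ((L + 1) * (44 * (Kd + 1) ^ 2 * k *
          (L * (2 * Λ ^ 2 * (k * Real.log (1 + 1 / τ 0))
            + (T + 1) * eEc l L M3 eF γ (τ 0) Λ (l * ν * M3 ^ 2)))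
        + 8 * (Kd + 1) * 4 ^ Kd * L * ε * (4 * l * M3 ^ 2)
        + 4 ^ Kd * (2 * L * e2c l L M3 eF γ (τ 0)) ^ 2 * l)) ≤ B ^ 2
  deg : N / γ ^ 2 ≤ (d : ℝ)
  a0 : 0 ≤ a
  u00 : 0 < u0
  Λs0 : 0 < Λs
  lam0 : 0 < lam
  B0 : 0 < B
  lamh : (L + 1) * (B + (L + 1) * Λ) ≤ lam / 2
  Mh : C / c1 ^ 2 * a ^ 2 * (VLA L k T ε * (l + 1)) + M0 ≤ a * (l + 1) * (lam / 2)
  start : (nκ * (((l + 1) * d : ℕ) : ℝ) ^ l
      + ((nκ * N + nι * (T + 1) : ℕ) : ℝ) * (2 / eF ^ 2) ^ (l + 1)) * 2 ^ (l + 1) * Real.exp (-M0)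
      + u0 * (nκ * 2 : ℕ) ≤ 1 / 2
  grow : (1 + e) ^ (T + 1) < 2
  an : a ^ 2 * (VLA L k T ε * (l + 1)) / c1 ^ 2 ≤ b ^ c
  sn : Λs ^ 2 * eo ^ 2 / c1 ^ 2 ≤ b ^ c
  side1 : C / c1 ^ 2 * Λs * eo ^ 2 + Real.log (1 / u0) / Λs ≤ 1

variable {ι κ : Type} [Fintype ι] [DecidableEq ι] [Fintype κ] [DecidableEq κ]

/-- every weight function has total mass at most one -/
theorem wt_sum_le (S : Sys ι κ) {W η : ℝ} {T : ℕ} (hS : S.OK W η T) (N : ℕ)
    (i : (κ × Fin N) ⊕ (ι × Fin (T + 1))) : ∑ j, S.wt N T i j ≤ 1 := by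
  rcases i with ⟨j, i⟩ | ⟨p, r⟩
  · exact flag_row hS.flag i j
  · have h1 : ∑ j, S.wt N T (Sum.inr (p, r)) j = sq (crit S.Q S.k r *ᵥ S.a p) := by
      rw [sq_eq]
      rfl
    rw [h1]
    have h2 : sq (crit S.Q S.k r *ᵥ S.a p) ≤ sq (S.a p) := by
      have hs : (crit S.Q S.k r)ᵀ = crit S.Q S.k r := by
        unfold crit
        rw [Matrix.transpose_sub, hS.flag.symm, hS.flag.symm]
      have hm : crit S.Q S.k r * crit S.Q S.k r = crit S.Q S.k r := by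
        unfold crit
        rw [Matrix.sub_mul, Matrix.mul_sub, Matrix.mul_sub, hS.flag.mul, hS.flag.mul,
          hS.flag.mul, hS.flag.mul, max_self, max_self,
          max_eq_right (Nat.le_add_right (r : ℕ) S.k), max_eq_left (Nat.le_add_right (r : ℕ) S.k)]
        abel
      have h3 : sq (crit S.Q S.k r *ᵥ S.a p) = S.a p ⬝ᵥ crit S.Q S.k r *ᵥ S.a p := by
        unfold sq
        rw [← sym_dot (crit S.Q S.k r) hs, Matrix.mulVec_mulVec, hm]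
      have h4 : S.a p ⬝ᵥ crit S.Q S.k r *ᵥ S.a p
          = S.a p ⬝ᵥ S.Q r *ᵥ S.a p - S.a p ⬝ᵥ S.Q (r + S.k) *ᵥ S.a p := by
        unfold crit
        rw [Matrix.sub_mulVec, dotProduct_sub]
      have h5 := flag_le hS.flag r (S.a p)
      have h6 := flag_nonneg hS.flag (r + S.k) (S.a p)
      rw [h3, h4]
      linarith
    exact le_trans h2 (hS.col p)

theorem wt_nonneg (S : Sys ι κ) (N T : ℕ) (i : (κ × Fin N) ⊕ (ι × Fin (T + 1))) (j : κ) :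
    0 ≤ S.wt N T i j := by
  rcases i with ⟨j', i⟩ | ⟨p, r⟩
  · exact sq_nonneg _
  · exact sq_nonneg _

/-- (LA4) along the run -/
theorem LA4_run (S : Sys ι κ) (hQ : Flag S.Q) {ε : ℝ} (hε : 0 ≤ ε) (hτ : RPar S.τ S.L ε) (T : ℕ)
    (x : ℕ → ι → ℝ) (s : ℕ) (hs : s ≤ T + 1) (θ : κ → ℝ) :
    ∑ r ∈ range s, sq (psi S.Q S.k S.τ (S.run x r).F S.L r θ) ≤ VLA S.L S.k T ε * sq θ := by
  have h1 := LA4 hQ S.k S.τ S.L ε hε hτ (fun r v => (S.run x r).F v)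
    (fun r v => runF_mono S x r v) (fun r v => F_anti (S.run x r) v) θ s
  refine le_trans h1 (mul_le_mul_of_nonneg_right ?_ (sq_nonneg' θ))
  unfold VLA
  have h2 : (s : ℝ) ≤ (T : ℝ) + 1 := by exact_mod_cast hs
  gcongr

/-- **Assembly.** -/
theorem Z {C c b0 : ℝ} (hT : T2L C c b0) (hC : 0 < C) (hc : 0 < c) (S : Sys ι κ)
    {T N l d Kd : ℕ} {W η g eo ε γ eF ν BE c1 b e t Λ M3 a u0 Λs M0 : ℝ}
    (hS : S.OK W η T) (hO : S.OldOK g eo)
    (h : ZNum C c b0 (Fintype.card ι) (Fintype.card κ) S.L S.k T N l d Kd S.τ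
      W η eo ε γ eF ν BE c1 b e t Λ M3 a u0 Λs M0 S.lam S.B) :
    ∃ x : ι → ℝ, (∀ p, x p = 1 ∨ x p = -1) ∧
      ∀ j, |∑ p, x p * S.a p j| ≤
        S.lam + (S.L + 1) * Λ + S.L * (S.B + (S.L + 1) * Λ) + 4 := by
  classical
  have hΛ0 : 0 ≤ Λ := le_trans (div_nonneg (mul_nonneg hC.le (Real.sqrt_nonneg _)) h.c10.le) h.Λh
  have hJ : 0 ≤ ((S.L : ℝ) + 1) * Λ := by positivity
  set χ : κ × Bool → ι → ℝ := fun i p => (if i.2 then 1 else -1) * S.chi g i.1 p with hχdef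
  have hχsq : ∀ i p, χ i p ^ 2 = if p ∈ S.fine g i.1 then S.old (S.bt p) (S.a p) i.1 ^ 2 else 0 := by
    rintro ⟨j, q⟩ p
    simp only [hχdef, Sys.chi]
    cases q <;> by_cases hp : p ∈ S.fine g j <;> simp [hp]
  have hχX : ∀ i, ∑ p, χ i p ^ 2 ≤ eo ^ 2 := by
    intro i
    simp only [hχsq]
    rw [← Finset.sum_filter]
    simpa using hO.s2 i.1
  have hVp := LA4_run S hS.flag h.ε0 h.rpar T
  have hNT : T + S.k < N := by have := h.NT; omega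
  have hbatch := hbatch_main (α' := κ × Bool) hT hC hc S hS h.rpar.pos h.rpar.le1 h.rpar.mono h.L0
    h.γ0 h.eF0 h.γe h.ν0 h.BEh h.sm hNT h.c10 h.c1L h.bb h.b1 h.opb h.e0 h.e1
    h.t0 h.t2 h.be h.Λh h.M3h h.M30 h.card1
    (by
      refine le_trans (le_of_eq ?_) h.card2
      congr 1
      simp [Fintype.card_sum, Fintype.card_prod])
    (by
      refine le_trans (le_of_eq ?_) h.card3
      rw [Fintype.card_prod, Fintype.card_bool]
      rfl)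
    h.dr χ a Λs (VLA S.L S.k T ε) (eo ^ 2) hχX hVp h.an h.sn
  have hcount := hcount_side S hS.flag (N := N) (l := l) (Kd := Kd) (T := T) (W := W) (η := η)
    (Λ := Λ) h.ε0 h.rpar h.τL h.γ0.le h.eF0.le h.M30
    (by have := h.ν0; positivity : (0 : ℝ) ≤ l * ν * M3 ^ 2) h.B0 h.l1 h.l4 h.NT h.TK h.e2h h.BB
  have hgt : 2 * ((l : ℝ) + 1) * γ ^ 2 ≤ eF ^ 2 := le_of_eq h.γe.symm
  obtain ⟨x, hP, hY, hside⟩ := main_ind S (adj S.Q N γ) (S.wt N T) l d (eF ^ 2) (γ ^ 2) T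
    (fun s st x => S.BatchOK N γ eF Λ M3 (l * ν * M3 ^ 2) W η s st x) χ a (C / c1 ^ 2) e M0
    (VLA S.L S.k T ε) Λs u0 ((S.L + 1) * Λ) (pow_pos h.eF0 2) (sq_nonneg γ) hgt
    (wt_nonneg S N T) (wt_sum_le S hS N)
    (fun j => by
      have h1 := adj_degree hS.flag N h.γ0 j
      exact_mod_cast le_trans h1 h.deg)
    h.a0 (by positivity) h.e0.le h.u00 h.Λs0 h.B0 hJ h.lam0 h.lamh h.Mh
    (by
      refine le_trans (le_of_eq ?_) h.start
      simp [Fintype.card_sum, Fintype.card_prod])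
    h.grow hVp (fun s st xs hb j => hjump_main S s st xs hb j) hbatch hcount
  refine ⟨fun p => x (S.bt p) p, fun p => ?_, fun j => ?_⟩
  · exact (hP.bok (S.bt p) (Nat.lt_succ_of_le (hS.btT p))).sgn p
  · refine final_bound S (T := T) hS hO x hΛ0 h.M30
      (fun s hs => hP.bok s (Nat.lt_succ_of_le hs)) h.dr h.sd hY ?_ j
    intro j
    have hsum : ∀ q : Bool, ∑ r ∈ range (T + 1), sv S χ x r (j, q)
        = (if q then 1 else -1) * ∑ s ∈ range (T + 1), ∑ p ∈ S.V s,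
            S.chi g j p * (x s p - S.y (S.run x s) p) := by
      intro q
      rw [Finset.mul_sum]
      refine Finset.sum_congr rfl (fun r _ => ?_)
      unfold sv
      rw [Finset.mul_sum]
      refine Finset.sum_congr rfl (fun p _ => ?_)
      simp only [hχdef]
      ring
    have hsn : ∀ i, ∑ r ∈ range (T + 1), sn S χ r i ≤ eo ^ 2 := by
      intro i
      unfold sn
      rw [← m4_sum_batches S hS.btT (fun p => χ i p ^ 2)]
      exact hχX i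
    have hle : ∀ i, ∑ r ∈ range (T + 1), sv S χ x r i ≤ 1 := by
      intro i
      refine le_trans (hside i) (le_trans ?_ h.side1)
      have h1 : 0 ≤ C / c1 ^ 2 * Λs := by
        have := h.Λs0
        positivity
      have h2 := mul_le_mul_of_nonneg_left (hsn i) h1
      linarith
    have ht := hle (j, true)
    have hf := hle (j, false)
    rw [hsum] at ht hf
    simp only [if_true, one_mul, Bool.false_eq_true, if_false] at ht hf
    rw [abs_le]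
    constructor
    · linarith
    · exact ht

end Pool.Agent.LibKG64
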