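import Pool.Agent.LibKG64.Num4
import Pool.Agent.LibKG64.Z

set_option autoImplicit false

/-!
Numbers, part 5: all conditions together.
-/

open Finset Matrix Filter

namespace Pool.Agent.LibKG64

theorem num_VLA {q : ℕ} (hq : 1 ≤ q) : VLA q 12 (2 ^ q) (pε q) ≤ 300 * (q : ℝ) ^ 2 := by
  have hq1 : (1 : ℝ) ≤ q := by exact_mod_cast hq
  have hX : (1 : ℝ) ≤ 2 ^ q := one_le_pow₀ (by norm_num)
  have hqX := q_le_two_pow q
  have h1 : (((2 ^ q : ℕ) : ℝ) + 1) * q * pε q ≤ 2 := by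
    rw [cast_two_pow]
    unfold pε
    calc ((2 : ℝ) ^ q + 1) * q * (1 / 2 ^ (10 * q)) ≤ (2 * 2 ^ q) * 2 ^ q * (1 / 2 ^ (10 * q)) := by
          gcongr
          linarith
      _ = 2 * (2 ^ (q + q) * (1 / 2 ^ (10 * q))) := by rw [pow_add]; ring
      _ ≤ 2 * (1 / 2 ^ 0) :=
          mul_le_mul_of_nonneg_left (two_pow_mul_one_div (by omega)) (by norm_num)
      _ = 2 := by norm_num
  unfold VLA
  push_cast at h1 ⊢
  nlinarith

theorem VLA_nonneg {q : ℕ} : 0 ≤ VLA q 12 (2 ^ q) (pε q) := by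
  have := pε_nonneg q
  unfold VLA
  positivity

theorem ΛM_le {C : ℝ} {c2 q : ℕ} (h : pΛ C c2 q ≤ 2 ^ q) :
    pΛ C c2 q + q * pM3 q ≤ 2 * 2 ^ (3 * q) := by
  have hqX := q_le_two_pow q
  have hX : (1 : ℝ) ≤ 2 ^ q := one_le_pow₀ (by norm_num)
  have e1 : (q : ℝ) * pM3 q ≤ 2 ^ (3 * q) := by
    unfold pM3
    calc (q : ℝ) * 2 ^ (2 * q) ≤ 2 ^ q * 2 ^ (2 * q) := by gcongr
      _ = 2 ^ (3 * q) := by rw [← pow_add]; congr 1; ring
  have e2 : (2 : ℝ) ^ q ≤ 2 ^ (3 * q) := pow_le_pow_right₀ (by norm_num) (by omega)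
  linarith

theorem sqrt_W (q : ℕ) : √((2 : ℝ) ^ (20 * q)) = 2 ^ (10 * q) := by
  rw [show 20 * q = 10 * q * 2 by ring, pow_mul, Real.sqrt_sq (by positivity)]

theorem num_dr {C : ℝ} {c2 q : ℕ} (hq : 1 ≤ q) (h : pΛ C c2 q ≤ 2 ^ q) :
    ((2 ^ q : ℕ) : ℝ) * (2 * (pΛ C c2 q + q * pM3 q) / √((2 : ℝ) ^ (20 * q))) ≤ 1 := by
  rw [sqrt_W, cast_two_pow]
  have h1 := ΛM_le h
  calc (2 : ℝ) ^ q * (2 * (pΛ C c2 q + q * pM3 q) / 2 ^ (10 * q))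
      ≤ 2 ^ q * (2 * (2 * 2 ^ (3 * q)) / 2 ^ (10 * q)) := by gcongr
    _ = 2 ^ (2 + q + 3 * q) * (1 / 2 ^ (10 * q)) := by
        rw [pow_add, pow_add]
        ring
    _ ≤ 1 / 2 ^ 0 := two_pow_mul_one_div (by omega)
    _ = 1 := by norm_num

theorem num_sd {C : ℝ} {c2 q : ℕ} (hC : 0 < C) (hq : 4 ≤ q) (h : pΛ C c2 q ≤ 2 ^ q) :
    (((2 ^ q : ℕ) : ℝ) + 1) * (4 * (1 / ((2 ^ q : ℕ) : ℝ) ^ 5) * (pΛ C c2 q + q * pM3 q)) ≤ 1 := by
  rw [cast_two_pow]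
  have h1 := ΛM_le h
  have hX : (1 : ℝ) ≤ 2 ^ q := one_le_pow₀ (by norm_num)
  have hΛ0 := pΛ_nonneg hC c2 q
  have hM0 := pM3_nonneg q
  calc ((2 : ℝ) ^ q + 1) * (4 * (1 / ((2 : ℝ) ^ q) ^ 5) * (pΛ C c2 q + q * pM3 q))
      ≤ (2 * 2 ^ q) * (4 * (1 / ((2 : ℝ) ^ q) ^ 5) * (2 * 2 ^ (3 * q))) := by
        gcongr
        linarith
    _ = 2 ^ (4 + q + 3 * q) * (1 / 2 ^ (q * 5)) := by
        rw [pow_add, pow_add, pow_mul 2 q 5]
        ring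
    _ ≤ 1 / 2 ^ 0 := two_pow_mul_one_div (by omega)
    _ = 1 := by norm_num

/-- the trajectory bound -/
noncomputable def pA (C : ℝ) (c2 : ℕ) : ℝ := 4 * (12700 * C * c2 + 200) + 32 * C * c2 + 7200 * C + 1000

noncomputable def plam (C : ℝ) (c2 q : ℕ) : ℝ := pA C c2 * (q : ℝ) ^ 6

theorem num_lam {C : ℝ} {c2 q : ℕ} (hC : 0 < C) (hq : 1 ≤ q) :
    ((q : ℝ) + 1) * (pB C c2 q + ((q : ℝ) + 1) * pΛ C c2 q) ≤ plam C c2 q / 2 := by
  have hq1 : (1 : ℝ) ≤ q := by exact_mod_cast hq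
  have e1 : (q : ℝ) + 1 ≤ 2 * q := by linarith
  have hB0 : 0 ≤ pB C c2 q := by unfold pB; positivity
  have hΛ0 := pΛ_nonneg hC c2 q
  have e2 : (q : ℝ) ^ 4 ≤ (q : ℝ) ^ 6 := pow_le_pow_right₀ hq1 (by norm_num)
  have e3 : 0 ≤ C * c2 := by positivity
  have e4 : 0 ≤ (q : ℝ) ^ 6 := by positivity
  calc ((q : ℝ) + 1) * (pB C c2 q + ((q : ℝ) + 1) * pΛ C c2 q)
      ≤ (2 * q) * (pB C c2 q + (2 * q) * pΛ C c2 q) := by gcongr
    _ = 2 * (12700 * C * c2 + 200) * (q : ℝ) ^ 6 + 16 * (C * c2) * (q : ℝ) ^ 4 := by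
        unfold pB pΛ; ring
    _ ≤ 2 * (12700 * C * c2 + 200) * (q : ℝ) ^ 6 + 16 * (C * c2) * (q : ℝ) ^ 6 := by gcongr
    _ ≤ plam C c2 q / 2 := by
        unfold plam pA
        have : 0 ≤ C * (q : ℝ) ^ 6 := by positivity
        nlinarith

noncomputable def pM0 (q : ℕ) : ℝ := 500 * (q : ℝ) ^ 3 * (((2 ^ q : ℕ) : ℝ) + 1)

theorem num_M {C : ℝ} {c2 q : ℕ} (hC : 0 < C) (hq : 1 ≤ q) :
    C / pc1 q ^ 2 * (1 / (q : ℝ) ^ 3) ^ 2 * (VLA q 12 (2 ^ q) (pε q) * (((2 ^ q : ℕ) : ℝ) + 1))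
      + pM0 q ≤ 1 / (q : ℝ) ^ 3 * (((2 ^ q : ℕ) : ℝ) + 1) * (plam C c2 q / 2) := by
  have hq1 : (1 : ℝ) ≤ q := by exact_mod_cast hq
  have hV := num_VLA hq
  have h4 := four_q_le hq
  rw [div_c1]
  set Y : ℝ := ((2 ^ q : ℕ) : ℝ) + 1 with hY
  have hY0 : 0 < Y := by positivity
  have hV0 := VLA_nonneg (q := q)
  have e1 : C * (4 * (q : ℝ) + 8) * (1 / (q : ℝ) ^ 3) ^ 2 * (VLA q 12 (2 ^ q) (pε q) * Y)
      ≤ 3600 * C * Y := by
    calc C * (4 * (q : ℝ) + 8) * (1 / (q : ℝ) ^ 3) ^ 2 * (VLA q 12 (2 ^ q) (pε q) * Y)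
        ≤ C * (12 * q) * (1 / (q : ℝ) ^ 3) ^ 2 * (300 * (q : ℝ) ^ 2 * Y) := by gcongr
      _ = 3600 * C * Y * (1 / (q : ℝ) ^ 3) := by field_simp; ring
      _ ≤ 3600 * C * Y * 1 := by
          gcongr
          rw [div_le_one (by positivity)]
          exact one_le_pow₀ hq1
      _ = 3600 * C * Y := by ring
  have e2 : 1 / (q : ℝ) ^ 3 * Y * (plam C c2 q / 2) = pA C c2 / 2 * (q : ℝ) ^ 3 * Y := by
    unfold plam; field_simp
  rw [e2]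
  unfold pM0
  have e3 : (1 : ℝ) ≤ (q : ℝ) ^ 3 := one_le_pow₀ hq1
  have e4 : 3600 * C * Y ≤ 3600 * C * (q : ℝ) ^ 3 * Y := by
    have : 0 ≤ 3600 * C * Y := by positivity
    nlinarith
  have e5 : pA C c2 / 2 = 2 * (12700 * C * c2 + 200) + 16 * C * c2 + 3600 * C + 500 := by
    unfold pA; ring
  rw [e5]
  have e6 : 0 ≤ C * c2 * ((q : ℝ) ^ 3 * Y) := by positivity
  have e7 : 0 ≤ (q : ℝ) ^ 3 * Y := by positivity
  nlinarith

/-- degree bound -/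
def pd (q : ℕ) : ℕ := (2 ^ q + 13) * 2 ^ (400 * q ^ 3)

theorem num_deg (q : ℕ) : ((2 ^ q + 13 : ℕ) : ℝ) / pγ q ^ 2 ≤ (pd q : ℝ) := by
  unfold pd pγ
  rw [div_pow, one_pow, ← pow_mul, show 200 * q ^ 3 * 2 = 400 * q ^ 3 by ring]
  push_cast
  rw [div_div_eq_mul_div, div_one]

theorem num_u0 (q : ℕ) (hq : 1 ≤ q) {m : ℕ} (hm : (m : ℝ) ≤ Real.exp (2 * 2 ^ q)) :
    Real.exp (-(4 * 2 ^ q)) * ((m * 2 : ℕ) : ℝ) ≤ 1 / 4 := by
  have hX : (2 : ℝ) ≤ 2 ^ q := by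
    calc (2 : ℝ) = 2 ^ 1 := by norm_num
      _ ≤ 2 ^ q := pow_le_pow_right₀ (by norm_num) hq
  have h1 : Real.exp (-(4 * (2 : ℝ) ^ q)) * ((m * 2 : ℕ) : ℝ) ≤ 2 * Real.exp (-(2 * 2 ^ q)) := by
    push_cast
    calc Real.exp (-(4 * (2 : ℝ) ^ q)) * ((m : ℝ) * 2)
        ≤ Real.exp (-(4 * 2 ^ q)) * (Real.exp (2 * 2 ^ q) * 2) := by gcongr
      _ = 2 * (Real.exp (-(4 * 2 ^ q)) * Real.exp (2 * 2 ^ q)) := by ring
      _ = 2 * Real.exp (-(2 * 2 ^ q)) := by rw [← Real.exp_add]; congr 2; ring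
  have h2 : Real.exp (-(2 * (2 : ℝ) ^ q)) ≤ 1 / 8 := by
    have h3 : Real.exp (-(2 * (2 : ℝ) ^ q)) ≤ Real.exp (-4) := Real.exp_le_exp.mpr (by linarith)
    have h4 : Real.exp (-4) ≤ 1 / 8 := by
      rw [Real.exp_neg, inv_eq_one_div]
      apply one_div_le_one_div_of_le (by norm_num)
      have h5 : (2 : ℝ) ≤ Real.exp 1 := by
        have := Real.add_one_le_exp (1 : ℝ)
        linarith
      calc (8 : ℝ) ≤ 2 ^ 4 := by norm_num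
        _ ≤ Real.exp 1 ^ 4 := pow_le_pow_left₀ (by norm_num) h5 4
        _ = Real.exp 4 := by rw [← Real.exp_nat_mul]; norm_num
    linarith
  linarith

theorem num_start {q n m : ℕ} (hq : 1 ≤ q) (hn : (n : ℝ) ≤ Real.exp (2 ^ q))
    (hm : (m : ℝ) ≤ Real.exp (2 * 2 ^ q)) :
    ((m : ℝ) * (((2 ^ q + 1) * pd q : ℕ) : ℝ) ^ (2 ^ q)
      + ((m * (2 ^ q + 13) + n * (2 ^ q + 1) : ℕ) : ℝ) * (2 / peF q ^ 2) ^ (2 ^ q + 1))
        * 2 ^ (2 ^ q + 1) * Real.exp (-pM0 q)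
      + Real.exp (-(4 * 2 ^ q)) * ((m * 2 : ℕ) : ℝ) ≤ 1 / 2 := by
  have hu := num_u0 q hq hm
  have hq1 : (1 : ℝ) ≤ q := by exact_mod_cast hq
  have hX : (1 : ℝ) ≤ 2 ^ q := one_le_pow₀ (by norm_num)
  have hqX := q_le_two_pow q
  obtain ⟨c1, c3, c4⟩ := cube_ge hq
  have c3' : (1 : ℝ) ≤ (q : ℝ) ^ 3 := one_le_pow₀ hq1
  have c1' : (q : ℝ) ≤ (q : ℝ) ^ 3 := by exact_mod_cast c1
  -- the factor `(l + 1) d`
  have hd : (((2 ^ q + 1) * pd q : ℕ) : ℝ) ≤ Real.exp (407 * (q : ℝ) ^ 3) := by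
    have e1 : (2 ^ q + 1) * pd q ≤ 2 ^ (407 * q ^ 3) := by
      unfold pd
      have f1 : 2 ^ q + 1 ≤ 2 ^ (q + 1) := by
        have : 1 ≤ 2 ^ q := Nat.one_le_two_pow
        rw [pow_succ]; omega
      have f2 : 2 ^ q + 13 ≤ 2 ^ (q + 3) := by
        have : 2 ≤ 2 ^ q := by
          calc 2 = 2 ^ 1 := by norm_num
            _ ≤ 2 ^ q := Nat.pow_le_pow_right (by norm_num) hq
        rw [pow_add]; omega
      calc (2 ^ q + 1) * ((2 ^ q + 13) * 2 ^ (400 * q ^ 3))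
          ≤ 2 ^ (q + 1) * (2 ^ (q + 3) * 2 ^ (400 * q ^ 3)) := by gcongr
        _ = 2 ^ (q + 1 + (q + 3 + 400 * q ^ 3)) := by rw [pow_add 2 (q + 1), pow_add 2 (q + 3)]
        _ ≤ 2 ^ (407 * q ^ 3) := Nat.pow_le_pow_right (by norm_num) (by omega)
    calc (((2 ^ q + 1) * pd q : ℕ) : ℝ) ≤ ((2 ^ (407 * q ^ 3) : ℕ) : ℝ) := by exact_mod_cast e1
      _ = 2 ^ (407 * q ^ 3) := by push_cast; ring
      _ ≤ Real.exp ((407 * q ^ 3 : ℕ) : ℝ) := two_pow_le_exp _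
      _ = Real.exp (407 * (q : ℝ) ^ 3) := by push_cast; ring_nf
  set X : ℝ := 2 ^ q with hXdef
  have cX : ((2 ^ q : ℕ) : ℝ) = X := cast_two_pow q
  set Q3 : ℝ := (q : ℝ) ^ 3 with hQ3
  have g1 : (m : ℝ) * (((2 ^ q + 1) * pd q : ℕ) : ℝ) ^ (2 ^ q) ≤ Real.exp (410 * Q3 * (X + 1)) := by
    calc (m : ℝ) * (((2 ^ q + 1) * pd q : ℕ) : ℝ) ^ (2 ^ q)
        ≤ Real.exp (2 * X) * Real.exp (407 * Q3) ^ (2 ^ q) := by gcongr
      _ = Real.exp (2 * X + X * (407 * Q3)) := by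
          rw [← Real.exp_nat_mul, ← Real.exp_add, cX]
      _ ≤ Real.exp (410 * Q3 * (X + 1)) := by
          apply Real.exp_le_exp.mpr
          nlinarith
  have g2 : ((m * (2 ^ q + 13) + n * (2 ^ q + 1) : ℕ) : ℝ) ≤ Real.exp (2 * X + 6 * Q3) := by
    have f1 : ((m * (2 ^ q + 13) + n * (2 ^ q + 1) : ℕ) : ℝ)
        = (m : ℝ) * (X + 13) + n * (X + 1) := by push_cast; rw [hXdef]
    have f2 : (n : ℝ) ≤ Real.exp (2 * X) := hn.trans (Real.exp_le_exp.mpr (by linarith))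
    rw [f1]
    calc (m : ℝ) * (X + 13) + n * (X + 1)
        ≤ Real.exp (2 * X) * (X + 13) + Real.exp (2 * X) * (X + 1) := by gcongr
      _ = Real.exp (2 * X) * (2 * X + 14) := by ring
      _ ≤ Real.exp (2 * X) * 2 ^ (q + 4) := by
          gcongr
          rw [pow_add, ← hXdef]; linarith
      _ ≤ Real.exp (2 * X) * Real.exp ((q + 4 : ℕ) : ℝ) := by
          gcongr
          exact two_pow_le_exp _
      _ = Real.exp (2 * X + ((q + 4 : ℕ) : ℝ)) := (Real.exp_add _ _).symm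
      _ ≤ Real.exp (2 * X + 6 * Q3) := by
          apply Real.exp_le_exp.mpr
          push_cast
          linarith
  have g3 : 2 / peF q ^ 2 ≤ Real.exp (400 * Q3) := by
    rw [peF_sq, cX]
    have hg := pγ_pos q
    calc 2 / (2 * (X + 1) * pγ q ^ 2) ≤ 2 / (2 * 1 * pγ q ^ 2) := by
          apply div_le_div_of_nonneg_left (by norm_num) (by positivity)
          gcongr
          linarith
      _ = 2 ^ (400 * q ^ 3) := by
          unfold pγ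
          rw [div_pow, one_pow, ← pow_mul, show 200 * q ^ 3 * 2 = 400 * q ^ 3 by ring]
          field_simp
      _ ≤ Real.exp ((400 * q ^ 3 : ℕ) : ℝ) := two_pow_le_exp _
      _ = Real.exp (400 * Q3) := by rw [hQ3]; push_cast; ring_nf
  have g4 : ((m * (2 ^ q + 13) + n * (2 ^ q + 1) : ℕ) : ℝ) * (2 / peF q ^ 2) ^ (2 ^ q + 1)
      ≤ Real.exp (410 * Q3 * (X + 1)) := by
    have hp := peF_pos q
    calc ((m * (2 ^ q + 13) + n * (2 ^ q + 1) : ℕ) : ℝ) * (2 / peF q ^ 2) ^ (2 ^ q + 1)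
        ≤ Real.exp (2 * X + 6 * Q3) * Real.exp (400 * Q3) ^ (2 ^ q + 1) := by gcongr
      _ = Real.exp (2 * X + 6 * Q3 + (X + 1) * (400 * Q3)) := by
          rw [← Real.exp_nat_mul, ← Real.exp_add]
          push_cast
          rw [← hXdef]
      _ ≤ Real.exp (410 * Q3 * (X + 1)) := by
          apply Real.exp_le_exp.mpr
          nlinarith
  have g5 : (2 : ℝ) ^ (2 ^ q + 1) ≤ Real.exp (X + 1) := by
    refine (two_pow_le_exp _).trans (le_of_eq ?_)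
    push_cast
    rw [← hXdef]
  have g6 : ((m : ℝ) * (((2 ^ q + 1) * pd q : ℕ) : ℝ) ^ (2 ^ q)
      + ((m * (2 ^ q + 13) + n * (2 ^ q + 1) : ℕ) : ℝ) * (2 / peF q ^ 2) ^ (2 ^ q + 1))
        * 2 ^ (2 ^ q + 1) * Real.exp (-pM0 q)
      ≤ 1 / 4 := by
    calc ((m : ℝ) * (((2 ^ q + 1) * pd q : ℕ) : ℝ) ^ (2 ^ q)
      + ((m * (2 ^ q + 13) + n * (2 ^ q + 1) : ℕ) : ℝ) * (2 / peF q ^ 2) ^ (2 ^ q + 1))
        * 2 ^ (2 ^ q + 1) * Real.exp (-pM0 q)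
        ≤ (Real.exp (410 * Q3 * (X + 1)) + Real.exp (410 * Q3 * (X + 1))) * Real.exp (X + 1)
          * Real.exp (-pM0 q) := by
          have := peF_pos q
          gcongr
      _ = 2 * (Real.exp (410 * Q3 * (X + 1)) * Real.exp (X + 1) * Real.exp (-pM0 q)) := by ring
      _ = 2 * Real.exp (410 * Q3 * (X + 1) + (X + 1) + -pM0 q) := by
          rw [← Real.exp_add, ← Real.exp_add]
      _ ≤ 2 * Real.exp (-4) := by
          gcongr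
          unfold pM0
          rw [cX, ← hQ3]
          nlinarith
      _ ≤ 2 * (1 / 8) := by
          gcongr
          rw [Real.exp_neg, inv_eq_one_div]
          apply one_div_le_one_div_of_le (by norm_num)
          have h5 : (2 : ℝ) ≤ Real.exp 1 := by
            have := Real.add_one_le_exp (1 : ℝ)
            linarith
          calc (8 : ℝ) ≤ 2 ^ 4 := by norm_num
            _ ≤ Real.exp 1 ^ 4 := pow_le_pow_left₀ (by norm_num) h5 4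
            _ = Real.exp 4 := by rw [← Real.exp_nat_mul]; norm_num
      _ = 1 / 4 := by norm_num
  linarith

/-- the side functionals -/
theorem num_side {C : ℝ} (hC : 0 < C) : ∀ᶠ q : ℕ in atTop,
    C / pc1 q ^ 2 * (8 * 2 ^ q) * (2 / ((2 ^ q : ℕ) : ℝ)) ^ 2
      + Real.log (1 / Real.exp (-(4 * 2 ^ q))) / (8 * 2 ^ q) ≤ 1 := by
  filter_upwards [ev_poly (768 * C) 1, eventually_ge_atTop 1] with q h1 hq
  rw [pow_one] at h1
  rw [div_c1, cast_two_pow]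
  have hX : (0 : ℝ) < 2 ^ q := by positivity
  have h4 := four_q_le hq
  have e1 : C * (4 * (q : ℝ) + 8) * (8 * 2 ^ q) * (2 / 2 ^ q) ^ 2 ≤ 1 / 2 := by
    calc C * (4 * (q : ℝ) + 8) * (8 * 2 ^ q) * (2 / 2 ^ q) ^ 2
        ≤ C * (12 * q) * (8 * 2 ^ q) * (2 / 2 ^ q) ^ 2 := by gcongr
      _ = 768 * C * q / (2 ^ q) / 2 := by field_simp; ring
      _ ≤ 1 / 2 := by
          gcongr
          rw [div_le_one hX]
          exact h1
  have e2 : Real.log (1 / Real.exp (-(4 * 2 ^ q))) / (8 * 2 ^ q) = 1 / 2 := by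
    rw [Real.exp_neg, one_div, inv_inv, Real.log_exp]
    field_simp
    ring
  rw [e2]
  linarith

theorem num_sn {c : ℝ} {c2 q : ℕ} (hq : 1 ≤ q) (hc2 : 200 ≤ c * c2) :
    (8 * (2 : ℝ) ^ q) ^ 2 * (2 / ((2 ^ q : ℕ) : ℝ)) ^ 2 / pc1 q ^ 2 ≤ pb c2 q ^ c := by
  rw [div_c1, cast_two_pow]
  apply le_bc hq hc2
  have h := four_q_le hq
  have hqX := q_le_two_pow q
  have hX : (0 : ℝ) < 2 ^ q := by positivity
  calc (8 * (2 : ℝ) ^ q) ^ 2 * (2 / 2 ^ q) ^ 2 * (4 * (q : ℝ) + 8)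
      = 256 * (4 * (q : ℝ) + 8) := by field_simp; ring
    _ ≤ 256 * (12 * 2 ^ q) := by
        gcongr
        linarith
    _ = 3072 * 2 ^ q := by ring
    _ ≤ 2 ^ 12 * 2 ^ q := by
        gcongr
        norm_num
    _ = 2 ^ (12 + q) := by rw [pow_add]
    _ ≤ 2 ^ (92 * q ^ 3 + 100 * q + 8) := pow_le_pow_right₀ (by norm_num) (by omega)

end Pool.Agent.LibKG64
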