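import Pool.Agent.LibKG64.Defs

set_option autoImplicit false

/-!
General Komlós bound, module O (outer induction): definitions.
Notes: team-store notes_MP_c81d26_helper64_general.md, sections 2 and 5.
-/

open Finset Matrix

namespace Pool.Agent.LibKG64

/-! ## Graphs on the rows -/

section Graph

variable {κ : Type} [Fintype κ] [DecidableEq κ]

/-- adjacency of rows: some projection of the list has a big entry -/
def adj (Q : ℕ → Matrix κ κ ℝ) (N : ℕ) (γ : ℝ) (j j' : κ) : Prop := ∃ i < N, γ ≤ |Q i j j'|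

/-- connected inside `F` -/
def conF (A : κ → κ → Prop) (F : Finset κ) : κ → κ → Prop :=
  Relation.ReflTransGen (fun x y => x ∈ F ∧ y ∈ F ∧ A x y)

open Classical in
/-- the cluster of `j` in `F` -/
noncomputable def cl (A : κ → κ → Prop) (F : Finset κ) (j : κ) : Finset κ :=
  F.filter (fun j' => conF A F j j')

/-- the clusters (connected components) of `F` -/
noncomputable def comps (A : κ → κ → Prop) (F : Finset κ) : Finset (Finset κ) := F.image (cl A F)

/-- no edge from `R` to `F \ R` -/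
def Closed (A : κ → κ → Prop) (F R : Finset κ) : Prop := ∀ j ∈ R, ∀ j' ∈ F, j' ∉ R → ¬ A j j'

open Classical in
/-- neighbours of a row -/
noncomputable def nbs (A : κ → κ → Prop) (j : κ) : Finset κ := univ.filter (fun j' => A j j')

/-- connected sets of rows with `m + 1` elements (grown one row at a time) -/
noncomputable def conn (A : κ → κ → Prop) : ℕ → Finset (Finset κ)
  | 0 => univ.image (fun j => {j})
  | m + 1 => (conn A m).biUnion fun J => J.biUnion fun j =>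
      (nbs A j \ J).image (fun j' => insert j' J)

/-- the functional `±1` on the rows of `J`, negative on `J'` -/
def sgnv (J J' : Finset κ) : κ → ℝ := fun j => if j ∈ J' then -1 else if j ∈ J then 1 else 0

end Graph

/-! ## Levels: they are functions of the trajectory of one row -/

/-- one step of `(level, reference value)` -/
noncomputable def lrStep (lam B : ℝ) (r : ℕ × ℝ) (y : ℝ) : ℕ × ℝ :=
  if r.1 = 0 then (if lam ≤ |y| then (1, y) else (0, 0))
  else if B ≤ |y - r.2| then (r.1 + 1, y) else r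

/-- `(level, reference value)` along the trajectory `y` -/
noncomputable def lrev (lam B : ℝ) (y : ℕ → ℝ) : ℕ → ℕ × ℝ
  | 0 => (0, 0)
  | s + 1 => lrStep lam B (lrev lam B y s) (y (s + 1))

/-! ## The process -/

section Process

variable {ι κ : Type} [Fintype ι] [DecidableEq ι] [Fintype κ] [DecidableEq κ]

/-- static data: columns `a p`, batch index `bt p`, projections `Q`, pseudo-inverses `Bi s` of
`Q (s+k) * G_{bt > s} * Q (s+k)`, lag `k`, number of stages `L`, ridge parameters `τ`, thresholds `lam`, `B` -/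
structure Sys (ι κ : Type) where
  a : ι → κ → ℝ
  bt : ι → ℕ
  Q : ℕ → Matrix κ κ ℝ
  Bi : ℕ → Matrix κ κ ℝ
  k : ℕ
  L : ℕ
  τ : ℕ → ℝ
  lam : ℝ
  B : ℝ

/-- state at the beginning of a batch: critical displacement `Y`, levels and reference values, drift vector `g` -/
structure St (κ : Type) where
  Y : κ → ℝ
  lr : κ → ℕ × ℝ
  g : κ → ℝ

/-- rows of level `> v` -/
def St.F (st : St κ) (v : ℕ) : Finset κ := univ.filter (fun j => v < (st.lr j).1)

/-- Gram matrix of the columns in a set `V` -/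
def gram (a : ι → κ → ℝ) (V : Finset ι) : Matrix κ κ ℝ := ∑ p ∈ V, Matrix.vecMulVec (a p) (a p)

/-- columns of the batches after `s` -/
def Sys.U (S : Sys ι κ) (s : ℕ) : Finset ι := univ.filter (fun p => s < S.bt p)

/-- columns of batch `s` -/
def Sys.V (S : Sys ι κ) (s : ℕ) : Finset ι := univ.filter (fun p => S.bt p = s)

/-- position of the variable `p` -/
def Sys.y (S : Sys ι κ) (st : St κ) (p : ι) : ℝ := -(S.a p ⬝ᵥ st.g)

/-- displacement of batch `s` when its variables get the signs `x` -/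
def Sys.D (S : Sys ι κ) (s : ℕ) (st : St κ) (x : ι → ℝ) : κ → ℝ :=
  ∑ p ∈ S.V s, (x p - S.y st p) • S.a p

/-- critical part of the displacement minus the control -/
noncomputable def Sys.dY (S : Sys ι κ) (s : ℕ) (F : ℕ → Finset κ) (D : κ → ℝ) : κ → ℝ :=
  crit S.Q S.k s *ᵥ D - Km S.Q S.k S.τ F S.L s *ᵥ D

/-- the reaction of the later variables -/
noncomputable def Sys.h (S : Sys ι κ) (s : ℕ) (F : ℕ → Finset κ) (D : κ → ℝ) : κ → ℝ :=
  S.Bi s *ᵥ (S.Q (s + S.k) *ᵥ D + Km S.Q S.k S.τ F S.L s *ᵥ D)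

/-- one batch -/
noncomputable def Sys.step (S : Sys ι κ) (s : ℕ) (st : St κ) (x : ι → ℝ) : St κ where
  Y := st.Y + S.dY s st.F (S.D s st x)
  lr := fun j => lrStep S.lam S.B (st.lr j) ((st.Y + S.dY s st.F (S.D s st x)) j)
  g := st.g + S.h s st.F (S.D s st x)

/-- the state after the batches `0, ..., s-1` with the signs `x 0, ..., x (s-1)` -/
noncomputable def Sys.run (S : Sys ι κ) (x : ℕ → ι → ℝ) : ℕ → St κ
  | 0 => ⟨0, fun _ => (0, 0), 0⟩
  | s + 1 => S.step s (S.run x s) (x s)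

/-- displacement of batch `s` in the run `x` -/
noncomputable def Sys.Dr (S : Sys ι κ) (x : ℕ → ι → ℝ) (s : ℕ) : κ → ℝ := S.D s (S.run x s) (x s)

/-- side matrix `(1 - Q') G_U Bi` -/
noncomputable def Sys.Sd (S : Sys ι κ) (s : ℕ) : Matrix κ κ ℝ :=
  (1 - S.Q (s + S.k)) * gram S.a (S.U s) * S.Bi s

/-- old part of a column: `a - Q s a` -/
def Sys.old (S : Sys ι κ) (s : ℕ) (x : κ → ℝ) : κ → ℝ := x - S.Q s *ᵥ x

/-- static hypotheses: module S and its consequences. `V1` = critical operator norm, `W` = threshold, `η`. -/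
structure Sys.OK (S : Sys ι κ) (W η : ℝ) (T : ℕ) : Prop where
  flag : Flag S.Q
  col : ∀ p, sq (S.a p) ≤ 1
  btT : ∀ p, S.bt p ≤ T
  Wpos : 1 ≤ W
  ηpos : 0 < η
  /-- pseudo-inverse: symmetric, lives on the range of `Q'`, inverse of `Q' G_U Q'` there -/
  BiS : ∀ s ≤ T, (S.Bi s)ᵀ = S.Bi s
  BiQ : ∀ s ≤ T, S.Q (s + S.k) * S.Bi s = S.Bi s
  BiI : ∀ s ≤ T, S.Q (s + S.k) * gram S.a (S.U s) * S.Bi s = S.Q (s + S.k)
  /-- (drift) `x·Bi x ≤ (2/W) |x|²` -/
  Bi2 : ∀ s ≤ T, ∀ x, x ⬝ᵥ S.Bi s *ᵥ x ≤ 2 / W * sq x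
  /-- columns of the batch, orthogonally to the range of `Q'` -/
  op1 : ∀ s ≤ T, ∀ u, S.Q (s + S.k) *ᵥ u = 0 → ∑ p ∈ S.V s, (u ⬝ᵥ S.a p) ^ 2 ≤ 2 * W ^ 2 * sq u
  /-- the batch against the later columns, in the range of `Q'` -/
  op2 : ∀ s ≤ T, ∀ u, ∑ p ∈ S.V s, ((S.Bi s *ᵥ u) ⬝ᵥ S.a p) ^ 2 ≤ 4 * W * (u ⬝ᵥ S.Bi s *ᵥ u)
  /-- side rows -/
  sd1 : ∀ s ≤ T, ∀ x, sq (S.Sd s *ᵥ x) ≤ 16 * η ^ 2 * sq x
  sd2 : ∀ s ≤ T, ∀ u, ∑ p ∈ S.V s, (u ⬝ᵥ S.Sd s *ᵥ S.a p) ^ 2 ≤ 32 * W ^ 2 * η ^ 2 * sq u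

open Classical in
/-- `p` is fine for the row `j` (old part) -/
noncomputable def Sys.fine (S : Sys ι κ) (g : ℝ) (j : κ) : Finset ι :=
  univ.filter (fun p => S.bt p = 0 ∨ |S.old (S.bt p) (S.a p) j| < g)

/-- hypotheses on the old parts: (S2), (S3) -/
structure Sys.OldOK (S : Sys ι κ) (g e : ℝ) : Prop where
  s2 : ∀ j, ∑ p ∈ S.fine g j, S.old (S.bt p) (S.a p) j ^ 2 ≤ e ^ 2
  s3 : ∀ j, ((S.fine g j)ᶜ).card ≤ 1

end Process

end Pool.Agent.LibKG64
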