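import Pool.Agent.LibKG64.G2
import Pool.Agent.LibKG64.AO

set_option autoImplicit false

/-! Task P1: the families of sets of rows used in the potential. `Y` is the position, `E J J'` the exponent. -/

open Finset Matrix

namespace Pool.Agent.LibKG64

variable {κ : Type} [Fintype κ] [DecidableEq κ]

open Classical in
/-- weight of a set `J` with `l + 1` rows: `1` if it is connected, plus, for every weight function `wt α`,
`(l+1)! (2/t)^(l+1) ∏ min(wt, γ2)` -/
noncomputable def betaJ {α : Type} [Fintype α] (A : κ → κ → Prop) (wt : α → κ → ℝ) (l : ℕ)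
    (t γ2 : ℝ) (J : Finset κ) : ℝ :=
  (if J ∈ conn A l then 1 else 0)
    + ∑ i, ((l + 1).factorial : ℝ) * (2 / t) ^ (l + 1) * ∏ j ∈ J, min (wt i j) γ2

/-- the potential -/
noncomputable def Psi (β : Finset κ → ℝ) (l : ℕ) (E : Finset κ → Finset κ → ℝ) : ℝ :=
  ∑ J ∈ powersetCard (l + 1) univ, β J * ∑ J' ∈ J.powerset, Real.exp (E J J')

omit [Fintype κ] [DecidableEq κ] in
/-- the second summand of `betaJ` is nonnegative -/
theorem P1_second_nonneg {α : Type} (wt : α → κ → ℝ) (l : ℕ)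
    (t γ2 : ℝ) (ht : 0 < t) (hγ : 0 ≤ γ2) (hw : ∀ i j, 0 ≤ wt i j) (J : Finset κ) (i : α) :
    0 ≤ ((l + 1).factorial : ℝ) * (2 / t) ^ (l + 1) * ∏ j ∈ J, min (wt i j) γ2 :=
  mul_nonneg (mul_nonneg (Nat.cast_nonneg _) (pow_nonneg (div_nonneg zero_le_two ht.le) _))
    (prod_nonneg fun j _ => le_min (hw i j) hγ)

theorem betaJ_nonneg {α : Type} [Fintype α] (A : κ → κ → Prop) (wt : α → κ → ℝ) (l : ℕ)
    (t γ2 : ℝ) (ht : 0 < t) (hγ : 0 ≤ γ2) (hw : ∀ i j, 0 ≤ wt i j) (J : Finset κ) :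
    0 ≤ betaJ A wt l t γ2 J := by
  classical
  unfold betaJ
  refine add_nonneg ?_ (sum_nonneg fun i _ => P1_second_nonneg wt l t γ2 ht hγ hw J i)
  split_ifs <;> norm_num

/-- value at the start (`esymm_le`, `card_conn`) -/
theorem sum_betaJ {α : Type} [Fintype α] (A : κ → κ → Prop) (wt : α → κ → ℝ) (l d : ℕ)
    (t γ2 : ℝ) (ht : 0 < t) (hγ : 0 ≤ γ2) (hw : ∀ i j, 0 ≤ wt i j) (hs : ∀ i, ∑ j, wt i j ≤ 1)
    (hd : ∀ j, (nbs A j).card ≤ d) :
    ∑ J ∈ powersetCard (l + 1) univ, betaJ A wt l t γ2 J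
      ≤ Fintype.card κ * (((l + 1) * d : ℕ) : ℝ) ^ l + Fintype.card α * (2 / t) ^ (l + 1) := by
  classical
  have hf : (0 : ℝ) < ((l + 1).factorial : ℝ) := by exact_mod_cast Nat.factorial_pos _
  have h2t : (0 : ℝ) ≤ (2 / t) ^ (l + 1) := pow_nonneg (div_nonneg zero_le_two ht.le) _
  unfold betaJ
  rw [sum_add_distrib]
  refine add_le_add ?_ ?_
  · rw [← sum_filter, sum_const, nsmul_eq_mul, mul_one]
    have h1 : (filter (fun J => J ∈ conn A l) (powersetCard (l + 1) (univ : Finset κ))).card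
        ≤ (conn A l).card := card_le_card fun J hJ => (mem_filter.1 hJ).2
    have h2 := h1.trans (card_conn A d hd l)
    exact_mod_cast h2
  · rw [sum_comm]
    have h3 : ∀ i ∈ (univ : Finset α), ∑ J ∈ powersetCard (l + 1) (univ : Finset κ),
        ((l + 1).factorial : ℝ) * (2 / t) ^ (l + 1) * ∏ j ∈ J, min (wt i j) γ2
        ≤ (2 / t) ^ (l + 1) := by
      intro i _
      rw [← mul_sum]
      have h4 := esymm_le (univ : Finset κ) (fun j => min (wt i j) γ2)
        (fun j _ => le_min (hw i j) hγ) (l + 1)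
      have h5 : ∑ j, min (wt i j) γ2 ≤ 1 :=
        (sum_le_sum fun j _ => min_le_left _ _).trans (hs i)
      have h6 : 0 ≤ ∑ j, min (wt i j) γ2 := sum_nonneg fun j _ => le_min (hw i j) hγ
      have h7 : (∑ j, min (wt i j) γ2) ^ (l + 1) ≤ 1 := pow_le_one₀ h6 h5
      have h8 : (∑ j, min (wt i j) γ2) ^ (l + 1) / ((l + 1).factorial : ℝ)
          ≤ 1 / ((l + 1).factorial : ℝ) := div_le_div_of_nonneg_right h7 hf.le
      calc ((l + 1).factorial : ℝ) * (2 / t) ^ (l + 1)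
            * ∑ J ∈ powersetCard (l + 1) (univ : Finset κ), ∏ j ∈ J, min (wt i j) γ2
          ≤ ((l + 1).factorial : ℝ) * (2 / t) ^ (l + 1) * (1 / ((l + 1).factorial : ℝ)) :=
            mul_le_mul_of_nonneg_left (h4.trans h8) (mul_nonneg hf.le h2t)
        _ = (2 / t) ^ (l + 1) := by field_simp
    refine (sum_le_sum h3).trans ?_
    rw [sum_const, nsmul_eq_mul, card_univ]

theorem Psi_start {α : Type} [Fintype α] (A : κ → κ → Prop) (wt : α → κ → ℝ) (l d : ℕ)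
    (t γ2 : ℝ) (ht : 0 < t) (hγ : 0 ≤ γ2) (hw : ∀ i j, 0 ≤ wt i j) (hs : ∀ i, ∑ j, wt i j ≤ 1)
    (hd : ∀ j, (nbs A j).card ≤ d) (M : ℝ) :
    Psi (betaJ A wt l t γ2) l (fun _ _ => -M)
      ≤ (Fintype.card κ * (((l + 1) * d : ℕ) : ℝ) ^ l + Fintype.card α * (2 / t) ^ (l + 1))
        * 2 ^ (l + 1) * Real.exp (-M) := by
  have h1 : Psi (betaJ A wt l t γ2) l (fun _ _ => -M)
      = (∑ J ∈ powersetCard (l + 1) univ, betaJ A wt l t γ2 J)
        * (2 ^ (l + 1) * Real.exp (-M)) := by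
    unfold Psi
    rw [sum_mul]
    refine sum_congr rfl fun J hJ => ?_
    rw [sum_const, card_powerset, (mem_powersetCard.1 hJ).2, nsmul_eq_mul]
    push_cast
    rfl
  rw [h1, mul_assoc]
  exact mul_le_mul_of_nonneg_right (sum_betaJ A wt l d t γ2 ht hγ hw hs hd)
    (mul_nonneg (by positivity) (Real.exp_pos _).le)

/-- the inner sum is at least `1`: `J' = {j ∈ J : Y j < 0}` -/
theorem inner_ge (l : ℕ) (J : Finset κ) (hJ : J.card = l + 1) (Y : κ → ℝ) (a X M : ℝ)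
    (ha : 0 ≤ a) (hY : ∀ j ∈ J, X ≤ |Y j|) (E : Finset κ → Finset κ → ℝ)
    (hE : ∀ J' ⊆ J, a * (sgnv J J' ⬝ᵥ Y) - M ≤ E J J') (hM : M ≤ a * (l + 1) * X) :
    1 ≤ ∑ J' ∈ J.powerset, Real.exp (E J J') := by
  classical
  set J' := J.filter (fun j => Y j < 0) with hJ'
  have hsub : J' ⊆ J := filter_subset _ _
  have h1 : sgnv J J' ⬝ᵥ Y = ∑ j ∈ J, |Y j| := by
    have h2 : ∀ j, sgnv J J' j * Y j = if j ∈ J then |Y j| else 0 := by
      intro j
      unfold sgnv
      by_cases hj : j ∈ J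
      · by_cases hn : Y j < 0
        · rw [if_pos (mem_filter.2 ⟨hj, hn⟩), if_pos hj, abs_of_neg hn]
          ring
        · have hn' : j ∉ J' := fun h => hn (mem_filter.1 h).2
          rw [if_neg hn', if_pos hj, if_pos hj, abs_of_nonneg (not_lt.1 hn)]
          ring
      · have hn' : j ∉ J' := fun h => hj (hsub h)
        rw [if_neg hn', if_neg hj, if_neg hj]
        ring
    unfold dotProduct
    rw [sum_congr rfl fun j _ => h2 j, sum_ite_mem, univ_inter]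
  have h3 : ((l : ℝ) + 1) * X ≤ ∑ j ∈ J, |Y j| := by
    have h4 := sum_le_sum hY
    rw [sum_const, hJ, nsmul_eq_mul] at h4
    push_cast at h4
    exact h4
  have h5 : 0 ≤ E J J' := by
    have h6 := hE J' hsub
    rw [h1] at h6
    have h7 := mul_le_mul_of_nonneg_left h3 ha
    rw [← mul_assoc] at h7
    linarith
  calc (1 : ℝ) ≤ Real.exp (E J J') := Real.one_le_exp h5
    _ ≤ ∑ J' ∈ J.powerset, Real.exp (E J J') :=
      single_le_sum (f := fun J' => Real.exp (E J J')) (fun i _ => (Real.exp_pos _).le)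
        (mem_powerset.2 hsub)

/-- violation of the first kind: a big component -/
theorem Psi_viol1 {α : Type} [Fintype α] (A : κ → κ → Prop) (wt : α → κ → ℝ) (l : ℕ)
    (t γ2 : ℝ) (ht : 0 < t) (hγ : 0 ≤ γ2) (hw : ∀ i j, 0 ≤ wt i j) (Y : κ → ℝ) (a X M : ℝ)
    (ha : 0 ≤ a) (E : Finset κ → Finset κ → ℝ)
    (hE : ∀ J, J.card = l + 1 → ∀ J' ⊆ J, a * (sgnv J J' ⬝ᵥ Y) - M ≤ E J J')
    (hM : M ≤ a * (l + 1) * X) (F : Finset κ) (hY : ∀ j ∈ F, X ≤ |Y j|)
    (R : Finset κ) (hR : R ∈ comps A F) (hc : l < R.card) :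
    1 ≤ Psi (betaJ A wt l t γ2) l E := by
  classical
  obtain ⟨J, hJ, hJR⟩ := exists_conn hR l hc
  have hcard := conn_card l hJ
  have hJF : J ⊆ F := hJR.trans (comps_subset hR)
  have h1 : 1 ≤ betaJ A wt l t γ2 J := by
    unfold betaJ
    rw [if_pos hJ]
    have := sum_nonneg (s := (univ : Finset α))
      (fun i _ => P1_second_nonneg wt l t γ2 ht hγ hw J i)
    linarith
  have h2 := inner_ge l J hcard Y a X M ha (fun j hj => hY j (hJF hj)) E
    (hE J hcard) hM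
  have h3 : 1 ≤ betaJ A wt l t γ2 J * ∑ J' ∈ J.powerset, Real.exp (E J J') := by
    nlinarith
  refine h3.trans ?_
  unfold Psi
  exact single_le_sum
    (f := fun J => betaJ A wt l t γ2 J * ∑ J' ∈ J.powerset, Real.exp (E J J'))
    (fun J _ => mul_nonneg (betaJ_nonneg A wt l t γ2 ht hγ hw J)
      (sum_nonneg fun _ _ => (Real.exp_pos _).le))
    (mem_powersetCard.2 ⟨subset_univ _, hcard⟩)

/-- violation of the second kind: a big weight (`esymm_ge`; `2 (l+1) γ2 ≤ t`) -/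
theorem Psi_viol2 {α : Type} [Fintype α] (A : κ → κ → Prop) (wt : α → κ → ℝ) (l : ℕ)
    (t γ2 : ℝ) (ht : 0 < t) (hγ : 0 ≤ γ2) (hγt : 2 * (l + 1) * γ2 ≤ t)
    (hw : ∀ i j, 0 ≤ wt i j) (Y : κ → ℝ) (a X M : ℝ)
    (ha : 0 ≤ a) (E : Finset κ → Finset κ → ℝ)
    (hE : ∀ J, J.card = l + 1 → ∀ J' ⊆ J, a * (sgnv J J' ⬝ᵥ Y) - M ≤ E J J')
    (hM : M ≤ a * (l + 1) * X) (F : Finset κ) (hY : ∀ j ∈ F, X ≤ |Y j|)
    (i : α) (hc : t ≤ ∑ j ∈ F, min (wt i j) γ2) :
    1 ≤ Psi (betaJ A wt l t γ2) l E := by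
  classical
  have hf : (0 : ℝ) < ((l + 1).factorial : ℝ) := by exact_mod_cast Nat.factorial_pos _
  have h2t : (0 : ℝ) < (2 / t) ^ (l + 1) := pow_pos (div_pos two_pos ht) _
  have h1 := esymm_ge F (fun j => min (wt i j) γ2) (fun j _ => le_min (hw i j) hγ) t ht.le
    (l + 1) (fun j _ => by
      have h0 : min (wt i j) γ2 ≤ γ2 := min_le_right _ _
      push_cast
      have h00 : (0 : ℝ) ≤ 2 * (l + 1) := by positivity
      exact (mul_le_mul_of_nonneg_left h0 h00).trans hγt) hc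
  have h2 : (1 : ℝ) ≤ ∑ J ∈ powersetCard (l + 1) F,
      ((l + 1).factorial : ℝ) * (2 / t) ^ (l + 1) * ∏ j ∈ J, min (wt i j) γ2 := by
    rw [← mul_sum]
    have h3 := mul_le_mul_of_nonneg_left h1 (mul_pos hf h2t).le
    refine le_trans (le_of_eq ?_) h3
    have h4 : (2 / t) ^ (l + 1) * (t / 2) ^ (l + 1) = 1 := by
      rw [← mul_pow]
      have : 2 / t * (t / 2) = 1 := by field_simp
      rw [this, one_pow]
    field_simp
    field_simp at h4
    linarith [h4]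
  refine h2.trans ?_
  unfold Psi
  refine le_trans ?_ (sum_le_sum_of_subset_of_nonneg
    (powersetCard_mono (subset_univ F)) fun J _ _ =>
      mul_nonneg (betaJ_nonneg A wt l t γ2 ht hγ hw J)
        (sum_nonneg fun _ _ => (Real.exp_pos _).le))
  refine sum_le_sum fun J hJ => ?_
  obtain ⟨hJF, hcard⟩ := mem_powersetCard.1 hJ
  have h5 := inner_ge l J hcard Y a X M ha (fun j hj => hY j (hJF hj)) E (hE J hcard) hM
  have h6 : ((l + 1).factorial : ℝ) * (2 / t) ^ (l + 1) * ∏ j ∈ J, min (wt i j) γ2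
      ≤ betaJ A wt l t γ2 J := by
    unfold betaJ
    have h7 := single_le_sum
      (f := fun i => ((l + 1).factorial : ℝ) * (2 / t) ^ (l + 1) * ∏ j ∈ J, min (wt i j) γ2)
      (fun i _ => P1_second_nonneg wt l t γ2 ht hγ hw J i) (mem_univ i)
    have h8 : (0 : ℝ) ≤ (if J ∈ conn A l then 1 else 0) := by split_ifs <;> norm_num
    have h7' : ((l + 1).factorial : ℝ) * (2 / t) ^ (l + 1) * ∏ j ∈ J, min (wt i j) γ2
        ≤ ∑ i, ((l + 1).factorial : ℝ) * (2 / t) ^ (l + 1) * ∏ j ∈ J, min (wt i j) γ2 := h7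
    linarith
  have h9 := betaJ_nonneg A wt l t γ2 ht hγ hw J
  nlinarith

theorem sq_sgnv (J J' : Finset κ) (h : J' ⊆ J) : sq (sgnv J J') = J.card := by
  classical
  unfold sq dotProduct
  have h2 : ∀ j, sgnv J J' j * sgnv J J' j = if j ∈ J then (1 : ℝ) else 0 := by
    intro j
    unfold sgnv
    by_cases hj : j ∈ J
    · by_cases hn : j ∈ J'
      · rw [if_pos hn, if_pos hj]
        ring
      · rw [if_neg hn, if_pos hj]
        simp
    · rw [if_neg (fun h' => hj (h h')), if_neg hj]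
      simp
  rw [sum_congr rfl fun j _ => h2 j, sum_ite_mem, univ_inter, sum_const, nsmul_eq_mul, mul_one]

end Pool.Agent.LibKG64
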