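import Pool.Agent.LibKG64.C3

set_option autoImplicit false

/-! Task S1: spectral decomposition of a symmetric positive semidefinite matrix (functions `κ → ℝ`). Use
`Matrix.IsHermitian.eigenvectorBasis`, `Matrix.IsHermitian.eigenvalues`, `Matrix.IsHermitian.trace_eq_sum_eigenvalues`. -/

open Finset Matrix

namespace Pool.Agent.LibKG64

variable {κ : Type*} [Fintype κ] [DecidableEq κ]

theorem exists_spectral (N : Matrix κ κ ℝ) (hs : Nᵀ = N) (h0 : ∀ x, 0 ≤ x ⬝ᵥ N *ᵥ x) :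
    ∃ (w : κ → κ → ℝ) (n : κ → ℝ), (∀ i, 0 ≤ n i) ∧ (∀ i, sq (w i) = 1) ∧
      (∀ i j, i ≠ j → w i ⬝ᵥ w j = 0) ∧ (∀ x, sq x = ∑ i, (w i ⬝ᵥ x) ^ 2) ∧
      (∀ i, N *ᵥ w i = n i • w i) ∧ (∀ x, x ⬝ᵥ N *ᵥ x = ∑ i, n i * (w i ⬝ᵥ x) ^ 2) ∧
      N.trace = ∑ i, n i := by
  classical
  have hN : N.IsHermitian := by
    rw [Matrix.IsHermitian, Matrix.conjTranspose_eq_transpose_of_trivial]
    exact hs
  set B := hN.eigenvectorBasis with hB
  set w : κ → κ → ℝ := fun i => (B i).ofLp with hw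
  set n : κ → ℝ := hN.eigenvalues with hn
  have hin : ∀ x y : EuclideanSpace ℝ κ, inner ℝ x y = x.ofLp ⬝ᵥ y.ofLp := by
    intro x y
    rw [EuclideanSpace.inner_eq_star_dotProduct]
    simp [dotProduct_comm]
  have hdot : ∀ i j, w i ⬝ᵥ w j = if i = j then 1 else 0 := by
    intro i j
    rw [hw]
    show (B i).ofLp ⬝ᵥ (B j).ofLp = _
    rw [← hin]
    exact (orthonormal_iff_ite.mp B.orthonormal) i j
  have h1 : ∀ i, sq (w i) = 1 := by
    intro i
    show w i ⬝ᵥ w i = 1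
    rw [hdot, if_pos rfl]
  have heig : ∀ i, N *ᵥ w i = n i • w i := by
    intro i
    exact hN.mulVec_eigenvectorBasis i
  have hexp : ∀ x : κ → ℝ, x = ∑ i, (w i ⬝ᵥ x) • w i := by
    intro x
    have := B.sum_repr' (WithLp.toLp 2 x)
    have h2 := congrArg (fun y : EuclideanSpace ℝ κ => y.ofLp) this
    simp only [WithLp.ofLp_sum, WithLp.ofLp_smul] at h2
    rw [← h2]
    refine sum_congr rfl (fun i _ => ?_)
    rw [hin, h2]
  have hpars : ∀ x y : κ → ℝ, x ⬝ᵥ y = ∑ i, (w i ⬝ᵥ x) * (w i ⬝ᵥ y) := by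
    intro x y
    conv_lhs => rw [hexp x]
    rw [sum_dotProduct]
    refine sum_congr rfl (fun i _ => ?_)
    rw [smul_dotProduct, smul_eq_mul]
  have hquad : ∀ x, x ⬝ᵥ N *ᵥ x = ∑ i, n i * (w i ⬝ᵥ x) ^ 2 := by
    intro x
    rw [hpars x (N *ᵥ x)]
    refine sum_congr rfl (fun i _ => ?_)
    have : w i ⬝ᵥ N *ᵥ x = n i * (w i ⬝ᵥ x) := by
      rw [sym_dot N hs, heig i, smul_dotProduct, smul_eq_mul]
    rw [this]
    ring
  refine ⟨w, n, ?_, h1, ?_, ?_, heig, hquad, ?_⟩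
  · intro i
    have := h0 (w i)
    rw [heig i, dotProduct_smul, smul_eq_mul] at this
    have h2 : w i ⬝ᵥ w i = 1 := h1 i
    rw [h2, mul_one] at this
    exact this
  · intro i j hij
    rw [hdot, if_neg hij]
  · intro x
    show x ⬝ᵥ x = _
    rw [hpars x x]
    refine sum_congr rfl (fun i _ => ?_)
    ring
  · have := hN.trace_eq_sum_eigenvalues
    simpa using this

end Pool.Agent.LibKG64
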