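import Pool.Agent.LibKG64.M1b
import Pool.Agent.LibKG64.M3
import Pool.Agent.LibKG64.M4

set_option autoImplicit false

/-! Zb: the hypothesis `hbatch` of the main induction from `hbatch` of M1b. -/

open Finset Matrix

namespace Pool.Agent.LibKG64

variable {ι κ : Type} [Fintype ι] [DecidableEq ι] [Fintype κ] [DecidableEq κ]

/-- pairs `(J, J')` with `|J| = l + 1`, `J' ⊆ J` -/
def pairsJ (κ : Type) [Fintype κ] [DecidableEq κ] (l : ℕ) : Finset (Σ _ : Finset κ, Finset κ) :=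
  (powersetCard (l + 1) univ).sigma (fun J => J.powerset)

theorem card_pairsJ (l : ℕ) : ((pairsJ κ l).card : ℝ) ≤ (2 * Fintype.card κ : ℝ) ^ (l + 1) := by
  have h1 : (pairsJ κ l).card = ∑ J ∈ powersetCard (l + 1) (univ : Finset κ), 2 ^ (l + 1) := by
    unfold pairsJ
    rw [Finset.card_sigma]
    apply Finset.sum_congr rfl
    intro J hJ
    rw [Finset.card_powerset, (Finset.mem_powersetCard.mp hJ).2]
  rw [h1, Finset.sum_const, Finset.card_powersetCard, Finset.card_univ, smul_eq_mul]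
  have h2 : (Fintype.card κ).choose (l + 1) ≤ Fintype.card κ ^ (l + 1) := Nat.choose_le_pow _ _
  push_cast
  rw [mul_pow, mul_comm]
  apply mul_le_mul_of_nonneg_left _ (by positivity)
  exact_mod_cast h2

theorem sum_pairsJ (l : ℕ) (f : Finset κ → Finset κ → ℝ) :
    ∑ q : {q // q ∈ pairsJ κ l}, f q.1.1 q.1.2
      = ∑ J ∈ powersetCard (l + 1) univ, ∑ J' ∈ J.powerset, f J J' := by
  rw [Finset.sum_coe_sort (pairsJ κ l) (fun q => f q.1 q.2)]
  unfold pairsJ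
  rw [Finset.sum_sigma]

/-- **hypothesis `hbatch` of the main induction** -/
theorem hbatch_main {C c b0 : ℝ} (hT : T2L C c b0) (hC : 0 < C) (hc : 0 < c)
    (S : Sys ι κ) {W η : ℝ} {T : ℕ} (hS : S.OK W η T) (hτ : ∀ v, 0 < S.τ v)
    (hτ1 : ∀ v, S.τ v ≤ 1) (hm : ∀ v, S.τ v ≤ S.τ (v + 1)) (hL : 0 < S.L)
    {N l : ℕ} {γ eF ν BE : ℝ} (hγ : 0 < γ) (heF : 0 < eF) (hγe : eF ^ 2 = 2 * (l + 1) * γ ^ 2)
    (hν : 0 < ν)
    (hBE : ∀ v < S.L, (∏ v' ∈ range v, (4 / S.τ v' ^ 2)) * (1 / (ν ^ 2 * S.τ v ^ 3)) ≤ BE)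
    (hsm : BE * (2 * γ * l ^ 2 * (2 * l + 2 : ℕ) + l * eF ^ 2) ≤ 1)
    (hN : T + S.k < N)
    {c1 : ℝ} (hc0 : 0 < c1) (hc1 : c1 ^ 2 * (4 * S.L + 8) ≤ 1)
    {b : ℝ} (hb : b0 ≤ b) (hb1 : 1 ≤ b)
    (hV : 12 * W ^ 2 * (S.L + S.L * (l * BE) + 4) ≤ b ^ c)
    {e t Λ M3 : ℝ} (he : 0 < e) (he1 : e ≤ 1) (ht : 0 < t) (ht2 : t ^ 2 / c1 ^ 2 ≤ b ^ c)
    (hbe : Real.exp (b ^ (-c)) * (1 + e / 2) ≤ 1 + e)
    (hΛ : C * √(Real.log b) / c1 ≤ Λ)
    (hM3 : (Real.log (8 * (nP3 ι κ S.L + 1) / e) + C / c1 ^ 2 * t ^ 2) / t ≤ M3)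
    (hM30 : 0 ≤ M3)
    (hcard1 : (Fintype.card ι : ℝ) ≤ Real.exp (b ^ c))
    (hcard2 : (Fintype.card (Row ι κ (κ × Fin S.L × κ) S.L) : ℝ) ≤ Real.exp (b ^ c))
    {α' : Type} [Fintype α']
    (hcard3 : ((2 * Fintype.card κ : ℝ) ^ (l + 1) + Fintype.card α' + 2 * nP3 ι κ S.L : ℝ)
      ≤ Real.exp (b ^ c))
    (hdr : T * (2 * (Λ + S.L * M3) / √W) ≤ 1)
    (χ : α' → ι → ℝ) (a Λs V X : ℝ) (hχ : ∀ i, ∑ p, χ i p ^ 2 ≤ X)
    (hVpsi : ∀ x : ℕ → ι → ℝ, ∀ s ≤ T + 1, ∀ θ : κ → ℝ,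
      ∑ r ∈ range s, sq (psi S.Q S.k S.τ (S.run x r).F S.L r θ) ≤ V * sq θ)
    (hn1 : a ^ 2 * (V * (l + 1)) / c1 ^ 2 ≤ b ^ c) (hn2 : Λs ^ 2 * X / c1 ^ 2 ≤ b ^ c) :
    ∀ s ≤ T, ∀ x : ℕ → ι → ℝ,
      Past S (adj S.Q N γ) (S.wt N T) l (eF ^ 2) (γ ^ 2)
        (fun s st x => S.BatchOK N γ eF Λ M3 (l * ν * M3 ^ 2) W η s st x) x s →
      ∀ (w : Finset κ → Finset κ → ℝ) (u : α' → ℝ), (∀ J J', 0 ≤ w J J') → (∀ i, 0 ≤ u i) →
        ∃ xs : ι → ℝ, S.BatchOK N γ eF Λ M3 (l * ν * M3 ^ 2) W η s (S.run x s) xs ∧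
          BatchIneq S l a (C / c1 ^ 2) e χ Λs s (S.run x s) xs w u := by
  intro s hs x hP w u hw hu
  have hΛ0 : 0 ≤ Λ := le_trans (by positivity) hΛ
  have hy := y_le S x hs hΛ0 hM30 hP.bok hdr
  have hgood : S.Good N T l γ (eF ^ 2) ((S.run x s).F 0) :=
    ⟨(hP.good s le_rfl).comp, (hP.good s le_rfl).wts⟩
  set F := (S.run x s).F with hF
  have hFa : ∀ v, F (v + 1) ⊆ F v := F_anti (S.run x s)
  obtain ⟨xs, h1, h2⟩ := hbatch (Ω := {q // q ∈ pairsJ κ l} ⊕ α') hT hC hc S hS hτ hτ1 hm hL hγ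
    heF hγe hν hBE hsm hs (by omega : s + S.k < N) (S.run x s) hgood hy hc0 hc1 hb hb1 hV he he1
    ht ht2 hbe hΛ hM3 hcard1 hcard2 (by
      refine le_trans ?_ hcard3
      rw [Fintype.card_sum, Fintype.card_coe]
      push_cast
      have := card_pairsJ (κ := κ) l
      linarith)
    (Sum.elim (fun q => a • psi S.Q S.k S.τ F S.L s (sgnv q.1.1 q.1.2)) (fun _ => 0))
    (by
      rintro (q | i)
      · simp only [Sum.elim_inl]
        rw [Matrix.mulVec_smul, crit_psi hS.flag S.k S.τ hτ F hFa S.L s]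
      · simp)
    (Sum.elim (fun _ => 0) (fun i => Λs • χ i))
    (Sum.elim (fun q => w q.1.1 q.1.2) u)
    (by
      rintro (q | i)
      · exact hw _ _
      · exact hu _)
    (by
      rintro (q | i)
      · simp only [Sum.elim_inl, Pi.zero_apply]
        have hq := q.2
        unfold pairsJ at hq
        rw [Finset.mem_sigma, Finset.mem_powersetCard, Finset.mem_powerset] at hq
        have h3 := hVpsi x (s + 1) (by omega) (sgnv q.1.1 q.1.2)
        rw [Finset.sum_range_succ] at h3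
        have h4 : 0 ≤ ∑ r ∈ range s,
            sq (psi S.Q S.k S.τ (S.run x r).F S.L r (sgnv q.1.1 q.1.2)) :=
          Finset.sum_nonneg fun r _ => sq_nonneg' _
        rw [sq_sgnv q.1.1 q.1.2 hq.2, hq.1.2] at h3
        push_cast at h3
        have h5 : sq (a • psi S.Q S.k S.τ F S.L s (sgnv q.1.1 q.1.2))
            = a ^ 2 * sq (psi S.Q S.k S.τ F S.L s (sgnv q.1.1 q.1.2)) := by
          unfold sq
          rw [smul_dotProduct, dotProduct_smul]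
          simp only [smul_eq_mul]
          ring
        rw [h5]
        refine le_trans ?_ hn1
        apply div_le_div_of_nonneg_right _ (by positivity)
        have h6 : sq (psi S.Q S.k S.τ F S.L s (sgnv q.1.1 q.1.2)) ≤ V * (l + 1) := by linarith
        have h7 := mul_le_mul_of_nonneg_left h6 (sq_nonneg a)
        simpa using h7
      · simp only [Sum.elim_inr]
        refine le_trans ?_ hn2
        apply div_le_div_of_nonneg_right _ (by positivity)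
        have h3 : ∑ p, (Λs • χ i) p ^ 2 = Λs ^ 2 * ∑ p, χ i p ^ 2 := by
          rw [Finset.mul_sum]
          apply Finset.sum_congr rfl
          intro p _
          rw [Pi.smul_apply, smul_eq_mul, mul_pow]
        rw [h3]
        have h4 := mul_le_mul_of_nonneg_left (hχ i) (sq_nonneg Λs)
        simpa [sq] using h4)
  refine ⟨xs, h1, ?_⟩
  unfold BatchIneq
  rw [Fintype.sum_sum_type, Fintype.sum_sum_type] at h2
  simp only [Sum.elim_inl, Sum.elim_inr] at h2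
  have e1 : ∑ q : {q // q ∈ pairsJ κ l}, w q.1.1 q.1.2
        * Real.exp ((a • psi S.Q S.k S.τ F S.L s (sgnv q.1.1 q.1.2)) ⬝ᵥ S.D s (S.run x s) xs
          + ∑ p ∈ S.V s, (0 : ι → ℝ) p * (xs p - S.y (S.run x s) p))
      = ∑ J ∈ powersetCard (l + 1) univ, ∑ J' ∈ J.powerset,
        w J J' * Real.exp (a * (sgnv J J' ⬝ᵥ S.dY s F (S.D s (S.run x s) xs))) := by
    rw [← sum_pairsJ l (fun J J' =>
      w J J' * Real.exp (a * (sgnv J J' ⬝ᵥ S.dY s F (S.D s (S.run x s) xs))))]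
    apply Finset.sum_congr rfl
    intro q _
    congr 2
    rw [smul_dotProduct, smul_eq_mul, ← sgnv_dY]
    simp
  have e2 : ∑ i, u i * Real.exp ((0 : κ → ℝ) ⬝ᵥ S.D s (S.run x s) xs
          + ∑ p ∈ S.V s, (Λs • χ i) p * (xs p - S.y (S.run x s) p))
      = ∑ i, u i * Real.exp (Λs * ∑ p ∈ S.V s, χ i p * (xs p - S.y (S.run x s) p)) := by
    apply Finset.sum_congr rfl
    intro i _
    congr 2
    rw [zero_dotProduct, zero_add, Finset.mul_sum]
    apply Finset.sum_congr rfl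
    intro p _
    rw [Pi.smul_apply, smul_eq_mul, mul_assoc]
  have e3 : ∑ q : {q // q ∈ pairsJ κ l}, w q.1.1 q.1.2
        * Real.exp (C / c1 ^ 2 * (sq (a • psi S.Q S.k S.τ F S.L s (sgnv q.1.1 q.1.2))
          + ∑ p ∈ S.V s, (0 : ι → ℝ) p ^ 2))
      = ∑ J ∈ powersetCard (l + 1) univ, ∑ J' ∈ J.powerset,
        w J J' * Real.exp (C / c1 ^ 2 * a ^ 2 * sq (psi S.Q S.k S.τ F S.L s (sgnv J J'))) := by
    rw [← sum_pairsJ l (fun J J' =>
      w J J' * Real.exp (C / c1 ^ 2 * a ^ 2 * sq (psi S.Q S.k S.τ F S.L s (sgnv J J'))))]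
    apply Finset.sum_congr rfl
    intro q _
    congr 2
    have h5 : sq (a • psi S.Q S.k S.τ F S.L s (sgnv q.1.1 q.1.2))
        = a ^ 2 * sq (psi S.Q S.k S.τ F S.L s (sgnv q.1.1 q.1.2)) := by
      unfold sq
      rw [smul_dotProduct, dotProduct_smul]
      simp only [smul_eq_mul]
      ring
    rw [h5]
    simp
    ring
  have e4 : ∑ i, u i * Real.exp (C / c1 ^ 2 * (sq (0 : κ → ℝ)
          + ∑ p ∈ S.V s, (Λs • χ i) p ^ 2))
      = ∑ i, u i * Real.exp (C / c1 ^ 2 * Λs ^ 2 * sn S χ s i) := by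
    apply Finset.sum_congr rfl
    intro i _
    congr 2
    have h5 : sq (0 : κ → ℝ) = 0 := by simp [sq]
    have h6 : ∑ p ∈ S.V s, (Λs • χ i) p ^ 2 = Λs ^ 2 * sn S χ s i := by
      unfold sn
      rw [Finset.mul_sum]
      apply Finset.sum_congr rfl
      intro p _
      rw [Pi.smul_apply, smul_eq_mul, mul_pow]
    rw [h5, h6]
    ring
  rw [e1, e2, e3, e4] at h2
  exact h2

/-- one batch moves every row by at most `(L + 1) Λ` -/
theorem hjump_main (S : Sys ι κ) {N : ℕ} {γ eF Λ M3 e3 W η : ℝ} :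
    ∀ s st xs, S.BatchOK N γ eF Λ M3 e3 W η s st xs → ∀ j,
      |S.dY s st.F (S.D s st xs) j| ≤ (S.L + 1) * Λ := by
  intro s st xs h j
  unfold Sys.dY Km
  rw [Pi.sub_apply, ← Matrix.mulVec_mulVec, Matrix.sum_mulVec, Matrix.mulVec_sum,
    Finset.sum_apply]
  refine (abs_sub _ _).trans ?_
  have h1 := h.rC j
  have h2 : |∑ v ∈ range S.L, (S.Q (s + S.k) *ᵥ (Ze S.Q S.k S.τ st.F s v *ᵥ S.D s st xs)) j|
      ≤ S.L * Λ := by
    refine (Finset.abs_sum_le_sum_abs _ _).trans ?_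
    refine (Finset.sum_le_sum fun v hv => h.rZ v (Finset.mem_range.mp hv) j).trans ?_
    rw [Finset.sum_const, Finset.card_range, nsmul_eq_mul]
  linarith

end Pool.Agent.LibKG64
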